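import Pool.Agent.Lib.UI.SpecS

/-!
# MP_00e23e_nt, directory Lib/UI: zeta sums with a saving of powers of the logarithm (statement `ZStmt`)

Every statement is a proposition `SZx`; the module `UI/Zx.lean` proves `tZx : SZx`, or, if the docstring names other
statements, `tZx` takes these as hypotheses (in the order in which they are named). Everything is discrete: `Sx x a b` is the
sum of `ee (x n)`, `a ≤ n < b`, `dif x r` the `r`-th difference with step 1, `Qr r` the `r`-th difference test with a power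
saving.
-/

set_option autoImplicit false

namespace Pool.Agent.Lib.UI

open Finset Pool.Agent.Lib.EH3

/-- The exponential sum of the phases `x n`, `a ≤ n < b`. -/
noncomputable def Sx (x : ℕ → ℝ) (a b : ℕ) : ℂ := ∑ n ∈ Ico a b, ee (x n)

/-- The `r`-th difference with step 1. -/
def dif (x : ℕ → ℝ) : ℕ → ℕ → ℝ
  | 0, n => x n
  | r + 1, n => dif x r (n + 1) - dif x r n

/-- The phases `t log (n + c)`. -/
noncomputable def lg (t c : ℝ) (n : ℕ) : ℝ := t * Real.log ((n : ℝ) + c)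

/-- The `r`-th difference test with a power saving: if the `r`-th differences are in `[lam, α lam]` and
`M ^ (-3/2) ≤ lam ≤ M ^ (-β)`, then the sum over at most `M` numbers is `O(M ^ (1 - δ))`. -/
def Qr (r : ℕ) : Prop :=
  ∀ α β : ℝ, 1 ≤ α → 0 < β → β ≤ 1 → ∃ C δ : ℝ, 0 < C ∧ 0 < δ ∧
    ∀ (x : ℕ → ℝ) (a b : ℕ) (M lam : ℝ), 1 ≤ M → a ≤ b → (b : ℝ) - a ≤ M →
      M ^ (-(3 / 2) : ℝ) ≤ lam → lam ≤ M ^ (-β) →
      (∀ n, a ≤ n → n + r < b → lam ≤ dif x r n ∧ dif x r n ≤ α * lam) →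
      ‖Sx x a b‖ ≤ C * M ^ (1 - δ)

/-- **The inequality of van der Corput** (100 lines).
Proof. For `i < H` and `m` let `z m i = ee (x (m - i))` if `a + i ≤ m` and `m < b + i`, else `0`. For every `i < H`: `∑ m ∈ Ico a (b + H), z m i = Sx x a b` (put `m = n + i`). So `H * Sx = ∑ m ∈ Ico a (b + H), ∑ i ∈ range H, z m i`, and by Cauchy (the number of `m` is `b - a + H`)
`H ^ 2 * ‖Sx‖ ^ 2 ≤ (b - a + H) * ∑ m, ‖∑ i, z m i‖ ^ 2`. Here `‖∑ i, z m i‖ ^ 2 = ∑ i, ∑ j, z m i * conj (z m j)` (take the real part or work in `ℂ`), and for `i = j + h`, `0 ≤ h < H`: `∑ m ∈ Ico a (b + H), z m i * conj (z m j) = ∑ n ∈ Ico a (b - h), ee (x n) * conj (ee (x (n + h)))` (put `m = n + i`; both factors are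
not `0` exactly if `a ≤ n` and `n + h < b`), which is the conjugate of `Sx (fun n => x (n + h) - x n) a (b - h)` (`conj_ee`, `ee_add`). The same for `j = i + h`, with the conjugate. So `∑ m, ‖∑ i, z m i‖ ^ 2 ≤ ∑ i, ∑ j, N (|i - j|) ≤ 2 * H * ∑ h ∈ range H, N h` with `N h = ‖Sx (fun n => x (n + h) - x n) a (b - h)‖`. Divide by `H ^ 2`. -/
def SZv : Prop :=
  ∀ (x : ℕ → ℝ) (a b H : ℕ), 1 ≤ H → a ≤ b →
    ‖Sx x a b‖ ^ 2 ≤ 2 * (((b : ℝ) - a) + H) / H *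
      ∑ h ∈ range H, ‖Sx (fun n => x (n + h) - x n) a (b - h)‖

/-- **The second difference test** (120 lines; use `vdc_general` of `Lib/MP_aa9ae4_nt/Vdc.lean`).
Proof. `Complex.exp (2 * Real.pi * x * I) = ee x`. If `1 / 4 < lam`: the sum is at most `b - a ≤ M ≤ 2 α M √lam`. If `b ≤ a + 2`: the sum is at most `2 ≤ 11 / √lam`. Otherwise let `d n = x (n + 1) - x n` (so `dif x 2 n = d (n + 1) - d n`), `K = ⌈d (b - 2)⌉` (an integer), and `y n = K n - x n` for `n ≤ b - 1`, `y n = y (b - 1) + (n - (b - 1)) (K - d (b - 2))`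
for `n ≥ b - 1`. The differences `D n = y (n + 1) - y n` are `K - d n` for `n ≤ b - 2` and `K - d (b - 2) ∈ [0, 1)` for `n ≥ b - 2`; they are decreasing, `≥ 0`, `D n - D (n + 1) = dif x 2 n ≥ lam` for `n + 1 < b - 1`, and `D a ≤ D (b - 2) + α lam M < α lam M + 1 < k` for `k = ⌊α lam M + 1⌋ + 1 ≤ α lam M + 2`.
`vdc_general` for `y`, `θ = √lam`, the interval `Ico a (b - 1)`: `k * (2 (θ / lam + 1) + 2 / θ) ≤ k * 5 / √lam` (`√lam ≤ 1 / 2`). `ee (y n) = conj (ee (x n))` for `n < b` (`ee_int`, `conj_ee`), and the last term `n = b - 1` is at most `1 ≤ 1 / √lam`. -/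
def SZb : Prop :=
  ∀ (x : ℕ → ℝ) (a b : ℕ) (lam α M : ℝ), 0 < lam → 1 ≤ α → 1 ≤ M → a ≤ b → (b : ℝ) - a ≤ M →
    (∀ n, a ≤ n → n + 2 < b → lam ≤ dif x 2 n ∧ dif x 2 n ≤ α * lam) →
    ‖Sx x a b‖ ≤ 5 * α * M * √lam + 11 / √lam

/-- **The test for `r = 2`** (from `SZb`, 40 lines).
Proof. `√lam ≤ M ^ (-β / 2)`, `1 / √lam ≤ M ^ (3 / 4)`; `δ = min (β / 2) (1 / 4)`, `C = 5 α + 11`. -/
def SZa : Prop := Qr 2

/-- **Induction step** (from `SZv`, 120 lines).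
Proof. Let `C0, δ0` be the constants of `Qr r` for `α`, `β / 2`; `σ = β / 2`, `H = ⌈M ^ σ⌉₊`, so `1 ≤ H`, `M ^ σ ≤ H ≤ 2 M ^ σ ≤ 2 M` and `h < M ^ σ` for all `h < H`. For `1 ≤ h < H` let `x' n = x (n + h) - x n`: `dif x' r n = dif x r (n + h) - dif x r n = ∑ i ∈ range h, dif x (r + 1) (n + i)` (induction on `r`, telescoping),
so for `n + r < b - h` it is in `[h lam, α h lam]` (all `n + i + (r + 1) < b`), and `M ^ (-3/2) ≤ lam ≤ h lam ≤ M ^ (σ - β) = M ^ (-β / 2)`. If `a ≤ b - h`: `‖Sx x' a (b - h)‖ ≤ C0 M ^ (1 - δ0)`; otherwise the sum is empty. For `h = 0` the sum is `b - a ≤ M` (or less). `SZv`: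
`‖Sx‖ ^ 2 ≤ 2 (M + H) / H * (M + H C0 M ^ (1 - δ0)) ≤ 6 M * M ^ (1 - σ) + 6 M * C0 M ^ (1 - δ0) ≤ (6 + 6 C0) M ^ (2 - 2 δ)` with `δ = min σ δ0 / 2`; take the square root. -/
def SZi : Prop := ∀ r, 2 ≤ r → Qr r → Qr (r + 1)

/-- **The differences of the logarithm** (100 lines).
Proof. For a function `g` on the reals let `Δ g y = g (y + 1) - g y`, and let `φ k y = 1 / y ^ k`. (1) For all `j`, all `k ≥ 1` and `y > 0`: `(-1) ^ j Δ^j φ_k (y)` is between `P / (y + j) ^ (k + j)` and `P / y ^ (k + j)`, `P = k (k + 1) .. (k + j - 1)`: induction on `j` (for all `k`): `Δ^j φ_k` has the derivative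
`-k Δ^j φ_(k+1)` (sums of shifts), so by the mean value theorem `Δ^(j+1) φ_k (y) = -k Δ^j φ_(k+1) (ξ)` with `y < ξ < y + 1`. (2) In the same way `Δ^r log (y) = Δ^(r-1) φ_1 (ξ)`. (3) `dif (lg t c) r n = t * Δ^r log (n + c)`. -/
def SZl : Prop :=
  ∀ (t c : ℝ) (r n : ℕ), 0 < t → 0 ≤ c → 0 < (n : ℝ) + c → 1 ≤ r →
    t * (r - 1).factorial / ((n : ℝ) + c + r) ^ r ≤ (-1) ^ (r - 1) * dif (lg t c) r n ∧
      (-1) ^ (r - 1) * dif (lg t c) r n ≤ t * (r - 1).factorial / ((n : ℝ) + c) ^ r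

/-- **Small `t`** (60 lines; use `kuzmin_landau` of `Lib/MP_aa9ae4_nt/Kuzmin.lean`).
Proof. The differences `lg t c (n + 1) - lg t c n = t log (1 + 1 / (n + c))`, `a ≤ n < b`, are decreasing, at least `t / (n + c + 1) ≥ t / (3 M) = θ` and at most `t / (n + c) ≤ t / M ≤ 1 / 2 ≤ 1 - θ`. -/
def SZk : Prop :=
  ∀ (t c M : ℝ) (a b : ℕ), 1 ≤ M → 0 < t → t ≤ M / 2 → 0 ≤ c → a ≤ b →
    (∀ n, a ≤ n → n < b → M < (n : ℝ) + c ∧ (n : ℝ) + c ≤ 2 * M) →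
    ‖Sx (lg t c) a b‖ ≤ 6 * M / t

/-- **Large `t`** (from `SZa`, `SZi`, `SZl`, 150 lines).
Proof. `Qr r` for `2 ≤ r ≤ R + 2` (induction). Let `r ≥ 2` be minimal with `t ≤ M ^ (r - 1/4)`: `r ≤ R + 2` and `M ^ (r - 5/4) ≤ t`. `b - a ≤ M + 1 ≤ 2 M`. Apply `Qr r` (`α = 2 ^ r`, `β = 1/8`) to `x = (-1) ^ (r - 1) * lg t c` (for even `r` the conjugate sum, `conj_ee`), with `2 M` instead of `M` and
`lam = t (r - 1)! / (2 M) ^ r`: for `n + r < b` the numbers `n + c` and `n + c + r` are in `(M, 2 M]`, so by `SZl` the differences are in `[lam, 2 ^ r lam]`. `lam ≤ (r - 1)! / 2 ^ r * M ^ (-1/4) ≤ (2 M) ^ (-1/8)` and `lam ≥ (r - 1)! / 2 ^ r * M ^ (-5/4) ≥ (2 M) ^ (-3/2)` for `M ≥ M0 (R)`.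
`C`, `δ`: the largest and the smallest of the finitely many constants (`δ ≤ 1`); for `M < M0` the sum is at most `2 M ≤ 2 M0 * M ^ (1 - δ)`. -/
def SZp : Prop :=
  ∀ R : ℕ, ∃ C δ : ℝ, 0 < C ∧ 0 < δ ∧ δ ≤ 1 ∧ ∀ (t c M : ℝ) (a b : ℕ), 1 ≤ M →
    M ^ (3 / 4 : ℝ) ≤ t → t ≤ M ^ (R : ℝ) → 0 ≤ c → a ≤ b →
    (∀ n, a ≤ n → n < b → M < (n : ℝ) + c ∧ (n : ℝ) + c ≤ 2 * M) →
    ‖Sx (lg t c) a b‖ ≤ C * M ^ (1 - δ)

/-- **Residue classes** (70 lines).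
Proof. `r = b % q`. The numbers `k` of the sum are `k = q m + r`, `m ∈ Ico a' b'` where `a'`, `b'` are the least `m` with `K < q m + r`, `K2 < q m + r` (or `a' = b' = 0` if the sum is empty). `log k = log q + log (m + r / q)`, so the sum is `ee (t log q)` times `Sx (lg t (r / q)) a' b'`. -/
def SZq : Prop :=
  ∀ (t : ℝ) (K K2 q b : ℕ), 1 ≤ q → 1 ≤ K → K ≤ K2 → K2 ≤ 2 * K →
    ∃ (c : ℝ) (a' b' : ℕ), 0 ≤ c ∧ a' ≤ b' ∧
      (∀ n, a' ≤ n → n < b' → (K : ℝ) / q < (n : ℝ) + c ∧ (n : ℝ) + c ≤ 2 * ((K : ℝ) / q)) ∧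
      ‖∑ k ∈ (Ioc K K2).filter fun k => k ≡ b [MOD q], ee (t * Real.log k)‖ = ‖Sx (lg t c) a' b'‖

/-- **Assembly: the bound `ZStmt` of `SpecS`** (from `SZk`, `SZp`, `SZq`, 150 lines).
Proof. `t < 0`: the conjugate sum (`conj_ee`). Let `t > 0`, `A2 = A`, `L = log N ≥ 1`, `M = K / q` (real), `R = ⌈4 / ε⌉₊`, `C1, δ` the constants of `SZp` for `R`. There is `N0` such that for `N ≥ N0`: `L ^ B ≤ N ^ (ε / 2)` and `16 ≤ N ^ (ε / 2)` (`isLittleO_log_rpow_atTop` or `Real.log_le_rpow_div`); then `M ≥ N ^ (ε / 2) ≥ 16` and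
`t ≤ N ^ 2 ≤ M ^ R`. Take `c, a', b'` from `SZq`. If `t ≤ M ^ (3/4)` then `t ≤ M / 2` (`M ^ (1/4) ≥ 2`) and `SZk`: the sum is at most `6 M / t ≤ 6 K L ^ (-A)`. If `t > M ^ (3/4)`: `SZp`: at most `C1 M ^ (1 - δ) ≤ C1 K N ^ (-ε δ / 2) ≤ C2 K L ^ (-A)`. For `N < N0` the sum is at most `K ≤ (log N0) ^ A * K L ^ (-A)`. -/
def SZf : Prop := ZStmt

end Pool.Agent.Lib.UI
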