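import Pool.Agent.Lib.UI.SpecC

/-!
MP_00e23e_nt, UI, module Cct: the number of good pairs of cells.
-/

namespace Pool.Agent.Lib.UI

open Finset Pool.Agent.Lib.EH3

private lemma Cct_d (lam : ℕ) (c a k : ℤ) (hk : k ≠ 0) (D : Finset ℤ) :
    ((D.filter (fun d : ℤ => c ≤ a + d * k ∧ a + d * k < c + lam)).card : ℝ) ≤
      (lam : ℝ) / |(k : ℝ)| + 1 := by
  classical
  generalize hT : D.filter (fun d : ℤ => c ≤ a + d * k ∧ a + d * k < c + lam) = T
  have hmem : ∀ d ∈ T, c ≤ a + d * k ∧ a + d * k < c + lam := by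
    intro d hd
    rw [← hT, mem_filter] at hd
    exact hd.2
  rcases T.eq_empty_or_nonempty with h0 | hne
  · rw [h0, card_empty, Nat.cast_zero]
    positivity
  · have hk' : 0 < |k| := abs_pos.2 hk
    have hsub : T ⊆ Icc (T.min' hne) (T.min' hne + (lam : ℤ) / |k|) := by
      intro d hd
      rw [mem_Icc]
      have hm := T.min'_le d hd
      refine ⟨hm, ?_⟩
      have h1 := hmem d hd
      have h2 := hmem _ (T.min'_mem hne)
      have h3 : (d - T.min' hne) * |k| ≤ lam := by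
        have h4 : |(d - T.min' hne) * k| ≤ lam := by
          rw [abs_le]
          constructor
          · nlinarith [h1.1, h1.2, h2.1, h2.2]
          · nlinarith [h1.1, h1.2, h2.1, h2.2]
        rw [abs_mul, abs_of_nonneg (by linarith)] at h4
        exact h4
      have h5 := (Int.le_ediv_iff_mul_le hk').2 h3
      linarith
    have h6 := card_le_card hsub
    rw [Int.card_Icc] at h6
    have h7 : (0 : ℤ) ≤ (lam : ℤ) / |k| := Int.ediv_nonneg (by positivity) hk'.le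
    have h8 : ((T.card : ℤ)) ≤ (lam : ℤ) / |k| + 1 := by
      have : (T.min' hne + (lam : ℤ) / |k| + 1 - T.min' hne) = (lam : ℤ) / |k| + 1 := by ring
      rw [this] at h6
      omega
    have h9 : ((T.card : ℤ) : ℝ) ≤ (((lam : ℤ) / |k| + 1 : ℤ) : ℝ) := by exact_mod_cast h8
    rw [Int.cast_natCast] at h9
    refine h9.trans ?_
    push_cast
    have h10 : (((lam : ℤ) / |k| : ℤ) : ℝ) ≤ (lam : ℝ) / |(k : ℝ)| := by
      rw [le_div_iff₀ (by positivity)]
      have h11 := Int.ediv_mul_le (lam : ℤ) hk'.ne'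
      have h12 : ((((lam : ℤ) / |k| * |k| : ℤ)) : ℝ) ≤ ((lam : ℤ) : ℝ) := by exact_mod_cast h11
      push_cast at h12
      exact h12
    linarith

private lemma Cct_E (H lam : ℕ) (A c k : ℤ) (hk : k ≠ 0) (D : Finset ℤ) :
    (((D ×ˢ Ico A (A + H)).filter
      (fun da : ℤ × ℤ => c ≤ da.2 + da.1 * k ∧ da.2 + da.1 * k < c + lam)).card : ℝ) ≤
      (H : ℝ) * ((lam : ℝ) / |(k : ℝ)| + 1) := by
  classical
  rw [card_filter]
  push_cast
  rw [sum_product_right]
  have h : ∀ a ∈ Ico A (A + H), (∑ d ∈ D, if (c ≤ a + d * k ∧ a + d * k < c + (lam : ℤ)) then (1 : ℝ) else 0) ≤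
      (lam : ℝ) / |(k : ℝ)| + 1 := by
    intro a _
    have := Cct_d lam c a k hk D
    rw [card_filter] at this
    push_cast at this
    exact this
  refine (sum_le_sum h).trans ?_
  rw [sum_const, Int.card_Ico, nsmul_eq_mul]
  have : (A + (H : ℤ) - A).toNat = H := by omega
  rw [this]

private lemma Cct_cell (lam : ℕ) (hl : 1 ≤ lam) (i n : ℤ) (h : n ∈ cell lam i) : i = n / (lam : ℤ) := by
  unfold cell at h
  rw [mem_Ico] at h
  have hl' : (0 : ℤ) < lam := by exact_mod_cast hl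
  symm
  rw [Int.ediv_eq_iff_of_pos hl']
  constructor
  · linarith [h.1]
  · linarith [h.2]

private lemma Cct_m (h1 : CpcStmt) (lam g : ℕ) (k1 : ℤ) (hg : 1 ≤ g) (hl : 2 * g ≤ lam)
    (T : Finset (ℤ × ℤ)) (E : Finset (ℤ × ℤ))
    (hE : ∀ ij ∈ T, ∀ p ∈ cong lam g ij.1 ij.2,
      ((p.2 - p.1) / (g : ℤ), p.1 - k1 * ((p.2 - p.1) / (g : ℤ))) ∈ E) :
    (T.card : ℝ) * (lam : ℝ) ^ 2 ≤ 2 * g * E.card := by
  classical
  have hlam : 1 ≤ lam := by omega
  have hg' : (0 : ℝ) < g := by exact_mod_cast hg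
  have hgz : (g : ℤ) ≠ 0 := by exact_mod_cast (by omega : g ≠ 0)
  have hl' : 2 * (g : ℝ) ≤ lam := by exact_mod_cast hl
  have hcong : ∀ ij : ℤ × ℤ, (lam : ℝ) ^ 2 / (2 * g) ≤ ((cong lam g ij.1 ij.2).card : ℝ) := by
    intro ij
    have h2 := (abs_le.1 (h1.1 lam g ij.1 ij.2 hlam hg)).1
    have h3 : (lam : ℝ) ≤ (lam : ℝ) ^ 2 / (2 * g) := by
      rw [le_div_iff₀ (by positivity)]
      nlinarith [hl', (by positivity : (0 : ℝ) ≤ lam)]
    have h4 : (lam : ℝ) ^ 2 / g = 2 * ((lam : ℝ) ^ 2 / (2 * g)) := by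
      field_simp
    linarith
  have hdisj : (T : Set (ℤ × ℤ)).PairwiseDisjoint (fun ij => cong lam g ij.1 ij.2) := by
    intro ij _ ij' _ hne
    rw [Function.onFun, disjoint_left]
    intro p hp hp'
    apply hne
    unfold cong at hp hp'
    rw [mem_filter, mem_product] at hp hp'
    apply Prod.ext
    · rw [Cct_cell lam hlam _ _ hp.1.1, Cct_cell lam hlam _ _ hp'.1.1]
    · rw [Cct_cell lam hlam _ _ hp.1.2, Cct_cell lam hlam _ _ hp'.1.2]
  have hcard : (T.biUnion (fun ij => cong lam g ij.1 ij.2)).card ≤ E.card := by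
    apply card_le_card_of_injOn
      (fun p : ℤ × ℤ => ((p.2 - p.1) / (g : ℤ), p.1 - k1 * ((p.2 - p.1) / (g : ℤ))))
    · intro p hp
      rw [mem_coe, mem_biUnion] at hp
      obtain ⟨ij, hij, hp⟩ := hp
      exact hE ij hij p hp
    · intro p hp p' hp' heq
      rw [mem_coe, mem_biUnion] at hp hp'
      obtain ⟨ij, _, hp⟩ := hp
      obtain ⟨ij', _, hp'⟩ := hp'
      unfold cong at hp hp'
      rw [mem_filter] at hp hp'
      obtain ⟨u, hu⟩ := hp.2
      obtain ⟨v, hv⟩ := hp'.2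
      simp only [Prod.mk.injEq] at heq
      rw [hu, hv, Int.mul_ediv_cancel_left _ hgz, Int.mul_ediv_cancel_left _ hgz] at heq
      obtain ⟨e1, e2⟩ := heq
      subst e1
      have e3 : p.1 = p'.1 := by linarith
      apply Prod.ext e3
      linarith
  rw [card_biUnion hdisj] at hcard
  have h5 : (T.card : ℝ) * ((lam : ℝ) ^ 2 / (2 * g)) ≤ E.card := by
    calc (T.card : ℝ) * ((lam : ℝ) ^ 2 / (2 * g)) = ∑ ij ∈ T, (lam : ℝ) ^ 2 / (2 * g) := by
          rw [sum_const, nsmul_eq_mul]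
      _ ≤ ∑ ij ∈ T, ((cong lam g ij.1 ij.2).card : ℝ) := sum_le_sum (fun ij _ => hcong ij)
      _ = ((∑ ij ∈ T, (cong lam g ij.1 ij.2).card : ℕ) : ℝ) := by push_cast; rfl
      _ ≤ E.card := by exact_mod_cast hcard
  have h6 : (T.card : ℝ) * (lam : ℝ) ^ 2 = (2 * g) * ((T.card : ℝ) * ((lam : ℝ) ^ 2 / (2 * g))) := by
    field_simp
  rw [h6]
  exact mul_le_mul_of_nonneg_left h5 (by positivity)

/-- the number of good pairs of cells -/
theorem tCct (h1 : CpcStmt) : CctStmt := by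
  classical
  intro Q H lam g A k1 hg hl
  have hgz : (g : ℤ) ≠ 0 := by exact_mod_cast (by omega : g ≠ 0)
  have hGood : ∀ ij ∈ good Q H lam g A k1, Good Q H lam g A k1 ij := by
    intro ij hij
    unfold good at hij
    rw [mem_filter] at hij
    exact hij.2
  have hbox : ∀ ij ∈ good Q H lam g A k1, ∀ p ∈ cong lam g ij.1 ij.2,
      ((p.2 - p.1) / (g : ℤ), p.1 - k1 * ((p.2 - p.1) / (g : ℤ))) ∈
        Ioc (Q : ℤ) (2 * (Q : ℤ)) ×ˢ Ico A (A + H) := by
    intro ij hij p hp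
    have h := hGood ij hij p hp
    rw [mem_product, mem_Ioc, mem_Ico]
    exact ⟨⟨h.1, h.2.1⟩, ⟨h.2.2.1, h.2.2.2⟩⟩
  refine ⟨?_, ?_, ?_⟩
  · have h := Cct_m h1 lam g k1 hg hl (good Q H lam g A k1) _ hbox
    rw [card_product, Int.card_Ioc, Int.card_Ico] at h
    have e1 : (2 * (Q : ℤ) - Q).toNat = Q := by omega
    have e2 : (A + (H : ℤ) - A).toNat = H := by omega
    rw [e1, e2] at h
    push_cast at h
    linarith
  · intro i hk
    have h := Cct_m h1 lam g k1 hg hl ((good Q H lam g A k1).filter (fun ij => ij.1 = i))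
      ((Ioc (Q : ℤ) (2 * (Q : ℤ)) ×ˢ Ico A (A + H)).filter
        (fun da : ℤ × ℤ => i * lam ≤ da.2 + da.1 * k1 ∧ da.2 + da.1 * k1 < i * lam + lam)) (by
        intro ij hij p hp
        rw [mem_filter] at hij
        rw [mem_filter]
        refine ⟨hbox ij hij.1 p hp, ?_⟩
        unfold cong at hp
        rw [mem_filter, mem_product] at hp
        have hc := hp.1.1
        unfold cell at hc
        rw [hij.2, mem_Ico] at hc
        have e : p.1 - k1 * ((p.2 - p.1) / (g : ℤ)) + (p.2 - p.1) / (g : ℤ) * k1 = p.1 := by ring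
        show i * lam ≤ p.1 - k1 * ((p.2 - p.1) / (g : ℤ)) + (p.2 - p.1) / (g : ℤ) * k1 ∧
          p.1 - k1 * ((p.2 - p.1) / (g : ℤ)) + (p.2 - p.1) / (g : ℤ) * k1 < i * lam + lam
        rw [e]
        exact ⟨hc.1, by linarith [hc.2]⟩)
    refine h.trans ?_
    have h2 := Cct_E H lam A (i * lam) k1 hk (Ioc (Q : ℤ) (2 * (Q : ℤ)))
    calc (2 : ℝ) * g * _ ≤ 2 * g * ((H : ℝ) * ((lam : ℝ) / |(k1 : ℝ)| + 1)) :=
          mul_le_mul_of_nonneg_left h2 (by positivity)
      _ = _ := by ring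
  · intro j hk
    have h := Cct_m h1 lam g k1 hg hl ((good Q H lam g A k1).filter (fun ij => ij.2 = j))
      ((Ioc (Q : ℤ) (2 * (Q : ℤ)) ×ˢ Ico A (A + H)).filter
        (fun da : ℤ × ℤ => j * lam ≤ da.2 + da.1 * (k1 + g) ∧ da.2 + da.1 * (k1 + g) < j * lam + lam)) (by
        intro ij hij p hp
        rw [mem_filter] at hij
        rw [mem_filter]
        refine ⟨hbox ij hij.1 p hp, ?_⟩
        unfold cong at hp
        rw [mem_filter, mem_product] at hp
        have hc := hp.1.2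
        unfold cell at hc
        rw [hij.2, mem_Ico] at hc
        obtain ⟨u, hu⟩ := hp.2
        have e : p.1 - k1 * ((p.2 - p.1) / (g : ℤ)) + (p.2 - p.1) / (g : ℤ) * (k1 + g) = p.2 := by
          rw [hu, Int.mul_ediv_cancel_left _ hgz]
          linarith
        show j * lam ≤ p.1 - k1 * ((p.2 - p.1) / (g : ℤ)) + (p.2 - p.1) / (g : ℤ) * (k1 + g) ∧
          p.1 - k1 * ((p.2 - p.1) / (g : ℤ)) + (p.2 - p.1) / (g : ℤ) * (k1 + g) < j * lam + lam
        rw [e]
        exact ⟨hc.1, by linarith [hc.2]⟩)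
    refine h.trans ?_
    have h2 := Cct_E H lam A (j * lam) (k1 + g) hk (Ioc (Q : ℤ) (2 * (Q : ℤ)))
    calc (2 : ℝ) * g * _ ≤ 2 * g * ((H : ℝ) * ((lam : ℝ) / |((k1 + g : ℤ) : ℝ)| + 1)) :=
          mul_le_mul_of_nonneg_left h2 (by positivity)
      _ = _ := by ring

end Pool.Agent.Lib.UI
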