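import Pool.Agent.Lib.UI.SpecC

/-!
MP_00e23e_nt, directory Lib/UI, module Cfi: the result of step 2 (cells).
-/

namespace Pool.Agent.Lib.UI

open Finset Pool.Agent.Lib.EH3

private lemma Cfi_conj (Q H : ℕ) (A : ℤ) (u v : ℤ → ℂ) (k1 k2 : ℤ) :
    (starRingEnd ℂ) (PP Q H A u v k1 k2) = PP Q H A v u k2 k1 := by
  unfold PP
  rw [map_sum]
  refine Finset.sum_congr rfl fun d _ => ?_
  rw [map_sum]
  refine Finset.sum_congr rfl fun a _ => ?_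
  rw [map_mul, Complex.conj_conj, mul_comm]

private lemma Cfi_triv (Q H : ℕ) (A : ℤ) (u v : ℤ → ℂ) (k1 k2 : ℤ) (M : ℝ)
    (hu : ∀ n, ‖u n‖ ≤ M) (hv : ∀ n, ‖v n‖ ≤ M) : ‖PP Q H A u v k1 k2‖ ≤ (H : ℝ) * Q * M ^ 2 := by
  have hM : 0 ≤ M := (norm_nonneg _).trans (hu 0)
  unfold PP
  have h1 : ∀ d ∈ Ioc Q (2 * Q), ‖∑ a ∈ Ico A (A + H), u (a + d * k1) *
      (starRingEnd ℂ) (v (a + d * k2))‖ ≤ (H : ℝ) * M ^ 2 := by
    intro d _
    refine (norm_sum_le _ _).trans ?_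
    have h2 : ∀ a ∈ Ico A (A + H), ‖u (a + d * k1) * (starRingEnd ℂ) (v (a + d * k2))‖ ≤ M ^ 2 := by
      intro a _
      rw [norm_mul, RCLike.norm_conj, pow_two]
      exact mul_le_mul (hu _) (hv _) (norm_nonneg _) hM
    refine (Finset.sum_le_sum h2).trans ?_
    rw [Finset.sum_const, Int.card_Ico, nsmul_eq_mul, add_sub_cancel_left, Int.toNat_natCast]
  refine (norm_sum_le _ _).trans ((Finset.sum_le_sum h1).trans ?_)
  rw [Finset.sum_const, Nat.card_Ioc, nsmul_eq_mul]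
  have h3 : 2 * Q - Q = Q := by omega
  rw [h3]
  exact le_of_eq (by ring)

private lemma Cfi_redc_le (q : ℕ) (G : ℝ → ℂ) (b : ℝ) (hG : ∀ t, ‖G t‖ ≤ b) :
    ‖redc q G‖ ≤ q * b := by
  have hb : 0 ≤ b := (norm_nonneg _).trans (hG 0)
  unfold redc
  refine (norm_sum_le _ _).trans ((Finset.sum_le_sum fun h _ => hG _).trans ?_)
  rw [Finset.sum_const, nsmul_eq_mul]
  refine mul_le_mul_of_nonneg_right ?_ hb
  have h1 := Finset.card_filter_le (range q) (fun h => h.Coprime q)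
  rw [Finset.card_range] at h1
  exact_mod_cast h1

private lemma Cfi_redc_sum {ι : Type*} (q : ℕ) (s : Finset ι) (G : ι → ℝ → ℂ) :
    redc q (fun t => ∑ k ∈ s, G k t) = ∑ k ∈ s, redc q (G k) := by
  unfold redc
  exact Finset.sum_comm

private lemma Cfi_redc_conj (q : ℕ) (G : ℝ → ℂ) :
    (starRingEnd ℂ) (redc q G) = redc q (fun t => (starRingEnd ℂ) (G t)) := by
  unfold redc
  rw [map_sum]

/-- the second term of the pair (k1, k2) -/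
private noncomputable def Cfi_S (Q H lam B0 : ℕ) (A : ℤ) (f : ℤ → ℝ) (k1 k2 : ℤ) : ℂ :=
  ∑ q ∈ (Icc 1 B0).filter (fun q : ℕ => (q : ℤ) ∣ k2 - k1),
    redc q (fun t => PP Q H A (cA lam f t) (cA lam f t) k1 k2)

/-- the difference of the pair (k1, k2) -/
private noncomputable def Cfi_D (Q H lam B0 : ℕ) (A : ℤ) (f : ℤ → ℝ) (k1 k2 : ℤ) : ℂ :=
  PP Q H A (fun n => ((f n : ℝ) : ℂ)) (fun n => ((f n : ℝ) : ℂ)) k1 k2 - Cfi_S Q H lam B0 A f k1 k2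

private lemma Cfi_D_symm (Q H lam B0 : ℕ) (A : ℤ) (f : ℤ → ℝ) (k1 k2 : ℤ) :
    ‖Cfi_D Q H lam B0 A f k2 k1‖ = ‖Cfi_D Q H lam B0 A f k1 k2‖ := by
  have h1 : (starRingEnd ℂ) (Cfi_D Q H lam B0 A f k1 k2) = Cfi_D Q H lam B0 A f k2 k1 := by
    unfold Cfi_D Cfi_S
    rw [map_sub, Cfi_conj, map_sum]
    congr 1
    have h2 : (Icc 1 B0).filter (fun q : ℕ => (q : ℤ) ∣ k2 - k1) =
        (Icc 1 B0).filter (fun q : ℕ => (q : ℤ) ∣ k1 - k2) := by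
      refine Finset.filter_congr fun q _ => ?_
      rw [← dvd_neg, neg_sub]
    rw [h2]
    refine Finset.sum_congr rfl fun q _ => ?_
    rw [Cfi_redc_conj]
    congr 1
    funext t
    exact Cfi_conj _ _ _ _ _ _ _
  rw [← h1, RCLike.norm_conj]

private lemma Cfi_D_triv (h4 : CpcStmt) (Q H lam B0 : ℕ) (A : ℤ) (f : ℤ → ℝ) (M : ℝ) (hlam : 1 ≤ lam)
    (hf : ∀ n, |f n| ≤ M) (k1 k2 : ℤ) :
    ‖Cfi_D Q H lam B0 A f k1 k2‖ ≤ (1 + (B0 : ℝ) ^ 2) * (H * Q * M ^ 2) := by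
  have e1 : ‖PP Q H A (fun n => ((f n : ℝ) : ℂ)) (fun n => ((f n : ℝ) : ℂ)) k1 k2‖ ≤
      (H : ℝ) * Q * M ^ 2 := by
    have hf' : ∀ n, ‖((f n : ℝ) : ℂ)‖ ≤ M := fun n => by
      rw [Complex.norm_real, Real.norm_eq_abs]
      exact hf n
    exact Cfi_triv Q H A _ _ k1 k2 M hf' hf'
  have hb : 0 ≤ (H : ℝ) * Q * M ^ 2 := by positivity
  have e2 : ‖Cfi_S Q H lam B0 A f k1 k2‖ ≤ (B0 : ℝ) ^ 2 * (H * Q * M ^ 2) := by
    unfold Cfi_S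
    have e3 : ∀ q ∈ (Icc 1 B0).filter (fun q : ℕ => (q : ℤ) ∣ k2 - k1),
        ‖redc q (fun t => PP Q H A (cA lam f t) (cA lam f t) k1 k2)‖ ≤
          (B0 : ℝ) * (H * Q * M ^ 2) := by
      intro q hq
      have hqB : (q : ℝ) ≤ B0 := by
        exact_mod_cast (Finset.mem_Icc.1 (Finset.mem_filter.1 hq).1).2
      refine (Cfi_redc_le q _ ((H : ℝ) * Q * M ^ 2) fun t => ?_).trans
        (mul_le_mul_of_nonneg_right hqB hb)
      exact Cfi_triv Q H A _ _ k1 k2 M (fun n => h4.2.2 lam f M t n hlam hf)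
        (fun n => h4.2.2 lam f M t n hlam hf)
    refine (norm_sum_le _ _).trans ((Finset.sum_le_sum e3).trans ?_)
    rw [Finset.sum_const, nsmul_eq_mul]
    have e4 : (((Icc 1 B0).filter (fun q : ℕ => (q : ℤ) ∣ k2 - k1)).card : ℝ) ≤ B0 := by
      have := Finset.card_filter_le (Icc 1 B0) (fun q : ℕ => (q : ℤ) ∣ k2 - k1)
      rw [Nat.card_Icc, Nat.add_sub_cancel] at this
      exact_mod_cast this
    calc (((Icc 1 B0).filter (fun q : ℕ => (q : ℤ) ∣ k2 - k1)).card : ℝ) *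
          ((B0 : ℝ) * (H * Q * M ^ 2)) ≤ B0 * ((B0 : ℝ) * (H * Q * M ^ 2)) :=
          mul_le_mul_of_nonneg_right e4 (by positivity)
      _ = (B0 : ℝ) ^ 2 * (H * Q * M ^ 2) := by ring
  unfold Cfi_D
  refine (norm_sub_le _ _).trans ?_
  linarith

private lemma Cfi_mnr_nonneg (Q H lam g B0 : ℕ) (A k1 : ℤ) (f : ℤ → ℝ) :
    0 ≤ mnr Q H lam g B0 A k1 f := by
  unfold mnr red
  refine Finset.sum_nonneg fun ij _ => mul_nonneg (by positivity)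
    (Finset.sum_nonneg fun q _ => Finset.sum_nonneg fun h _ => by positivity)

/-- the bound of one pair in order -/
private lemma Cfi_pair (h1 : CfxStmt) (Q H K lam G0 B0 : ℕ) (A : ℤ) (f : ℤ → ℝ) (M : ℝ) (hG : 1 ≤ G0)
    (hGK : G0 ≤ K) (hK : 4 * K ≤ lam) (hf : ∀ n, |f n| ≤ M) (k1 k2 : ℤ)
    (hk1 : k1 ∈ Icc (-(K : ℤ)) K) (hk2 : k2 ∈ Icc (-(K : ℤ)) K) (hg : (G0 : ℤ) ≤ k2 - k1) :
    ‖Cfi_D Q H lam B0 A f k1 k2‖ ≤
      (1 + (B0 : ℝ) ^ 2) * (M ^ 2 * ((H : ℝ) * (4 * lam / G0 + 2) + (Q : ℝ) * (6 * K * lam / G0 + 2))) +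
      (B0 : ℝ) ^ 2 * (4 * K * Q * H * M ^ 2 / lam) + mnr Q H lam (k2 - k1).toNat B0 A k1 f := by
  rw [Finset.mem_Icc] at hk1 hk2
  obtain ⟨g, hgg⟩ : ∃ g : ℕ, k2 - k1 = g := ⟨(k2 - k1).toNat, by omega⟩
  have hk2' : k2 = k1 + g := by omega
  subst hk2'
  have e0 : (k1 + (g : ℤ) - k1).toNat = g := by omega
  rw [e0]
  have key := h1 Q H lam g G0 B0 K A k1 f M hG (by omega) hGK (by omega) hK
    (by rw [abs_le]; exact hk1) hf
  have e1 : Cfi_S Q H lam B0 A f k1 (k1 + g) = ∑ q ∈ g.divisors.filter (fun q => q ≤ B0),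
      redc q (fun t => PP Q H A (cA lam f t) (cA lam f t) k1 (k1 + g)) := by
    unfold Cfi_S
    refine Finset.sum_congr ?_ fun q _ => rfl
    ext q
    rw [Finset.mem_filter, Finset.mem_filter, Finset.mem_Icc, Nat.mem_divisors, add_sub_cancel_left,
      Int.natCast_dvd_natCast]
    constructor
    · rintro ⟨⟨_, h2⟩, h3⟩
      exact ⟨⟨h3, by omega⟩, h2⟩
    · rintro ⟨⟨h2, h3⟩, h4⟩
      exact ⟨⟨Nat.pos_of_dvd_of_pos h2 (by omega), h4⟩, h2⟩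
  unfold Cfi_D
  rw [e1]
  exact key

private lemma Cfi_main (h3 : CorStmt) (Q H K lam B0 : ℕ) (A : ℤ) (f : ℤ → ℝ) :
    ((∑ q ∈ Icc 1 B0, red q (fun t => (1 / (q : ℝ)) * ∑ b ∈ range q,
      WW Q H K q b A (cA lam f t)) : ℝ) : ℂ) =
      ∑ k1 ∈ Icc (-(K : ℤ)) K, ∑ k2 ∈ Icc (-(K : ℤ)) K, Cfi_S Q H lam B0 A f k1 k2 := by
  have e1 : ∀ q ∈ Icc 1 B0, ((red q (fun t => (1 / (q : ℝ)) * ∑ b ∈ range q,
      WW Q H K q b A (cA lam f t)) : ℝ) : ℂ) =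
      ∑ k1 ∈ Icc (-(K : ℤ)) K, ∑ k2 ∈ Icc (-(K : ℤ)) K, if (q : ℤ) ∣ k2 - k1 then
        redc q (fun t => PP Q H A (cA lam f t) (cA lam f t) k1 k2) else 0 := by
    intro q hq
    have hq1 := (Finset.mem_Icc.1 hq).1
    have e2 : ((red q (fun t => (1 / (q : ℝ)) * ∑ b ∈ range q,
        WW Q H K q b A (cA lam f t)) : ℝ) : ℂ) =
        redc q (fun t => ∑ k1 ∈ Icc (-(K : ℤ)) K,
          ∑ k2 ∈ (Icc (-(K : ℤ)) K).filter (fun k2 => (q : ℤ) ∣ k2 - k1),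
            PP Q H A (cA lam f t) (cA lam f t) k1 k2) := by
      unfold red redc
      rw [Complex.ofReal_sum]
      exact Finset.sum_congr rfl fun h _ => h3.2 Q H K q A _ hq1
    rw [e2, Cfi_redc_sum]
    refine Finset.sum_congr rfl fun k1 _ => ?_
    rw [Cfi_redc_sum, Finset.sum_filter]
  rw [Complex.ofReal_sum, Finset.sum_congr rfl e1, Finset.sum_comm]
  refine Finset.sum_congr rfl fun k1 _ => ?_
  rw [Finset.sum_comm]
  refine Finset.sum_congr rfl fun k2 _ => ?_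
  unfold Cfi_S
  rw [Finset.sum_filter]

/-- the contributions of the large denominators -/
private noncomputable def Cfi_m (Q H lam G0 B0 : ℕ) (A : ℤ) (f : ℤ → ℝ) (k1 k2 : ℤ) : ℝ :=
  if k1 ≠ 0 ∧ k2 ≠ 0 ∧ (G0 : ℤ) ≤ k2 - k1 then mnr Q H lam (k2 - k1).toNat B0 A k1 f else 0

private lemma Cfi_m_nonneg (Q H lam G0 B0 : ℕ) (A : ℤ) (f : ℤ → ℝ) (k1 k2 : ℤ) :
    0 ≤ Cfi_m Q H lam G0 B0 A f k1 k2 := by
  unfold Cfi_m
  split_ifs
  · exact Cfi_mnr_nonneg _ _ _ _ _ _ _ _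
  · exact le_rfl

private lemma Cfi_m_sum (Q H K lam G0 B0 : ℕ) (A : ℤ) (f : ℤ → ℝ) (hG : 1 ≤ G0) :
    ∑ k1 ∈ Icc (-(K : ℤ)) K, ∑ k2 ∈ Icc (-(K : ℤ)) K, Cfi_m Q H lam G0 B0 A f k1 k2 ≤
      ∑ k1 ∈ (Icc (-(K : ℤ)) K).filter (fun k => k ≠ 0),
        ∑ g ∈ (Icc 1 (2 * K)).filter (fun g : ℕ => k1 + g ≤ K ∧ k1 + g ≠ 0),
          mnr Q H lam g B0 A k1 f := by
  rw [Finset.sum_filter]
  refine Finset.sum_le_sum fun k1 hk1 => ?_
  rw [Finset.mem_Icc] at hk1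
  split_ifs with h0
  · have e1 : ∑ k2 ∈ Icc (-(K : ℤ)) K, Cfi_m Q H lam G0 B0 A f k1 k2 =
        ∑ k2 ∈ (Icc (-(K : ℤ)) K).filter (fun k2 => k2 ≠ 0 ∧ (G0 : ℤ) ≤ k2 - k1),
          mnr Q H lam (k2 - k1).toNat B0 A k1 f := by
      rw [Finset.sum_filter]
      refine Finset.sum_congr rfl fun k2 _ => ?_
      unfold Cfi_m
      by_cases hc : k2 ≠ 0 ∧ (G0 : ℤ) ≤ k2 - k1
      · rw [if_pos ⟨h0, hc⟩, if_pos hc]
      · rw [if_neg (fun h => hc h.2), if_neg hc]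
    rw [e1]
    have hinj : Set.InjOn (fun k2 : ℤ => (k2 - k1).toNat)
        ((Icc (-(K : ℤ)) K).filter (fun k2 => k2 ≠ 0 ∧ (G0 : ℤ) ≤ k2 - k1) : Finset ℤ) := by
      intro x hx y hy hxy
      rw [Finset.mem_coe, Finset.mem_filter] at hx hy
      have h1 : (x - k1).toNat = (y - k1).toNat := hxy
      have hx2 := hx.2.2
      have hy2 := hy.2.2
      omega
    rw [← Finset.sum_image (f := fun g => mnr Q H lam g B0 A k1 f) hinj]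
    refine Finset.sum_le_sum_of_subset_of_nonneg ?_ fun g _ _ => Cfi_mnr_nonneg _ _ _ _ _ _ _ _
    intro g hg
    obtain ⟨k2, hk2, rfl⟩ := Finset.mem_image.1 hg
    rw [Finset.mem_filter, Finset.mem_Icc] at hk2
    obtain ⟨⟨ha, hb⟩, hc, hd⟩ := hk2
    rw [Finset.mem_filter, Finset.mem_Icc]
    refine ⟨⟨by omega, by omega⟩, by omega, by omega⟩
  · refine le_of_eq (Finset.sum_eq_zero fun k2 _ => ?_)
    unfold Cfi_m
    rw [if_neg (fun h => h0 h.1)]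

private lemma Cfi_count (K G0 : ℕ) (hG : 1 ≤ G0) (hGK : G0 ≤ K) :
    ∑ k1 ∈ Icc (-(K : ℤ)) K, ∑ k2 ∈ Icc (-(K : ℤ)) K,
      (((if k1 = 0 then 1 else 0) + (if k2 = 0 then 1 else 0) +
        (if |k1 - k2| < (G0 : ℤ) then 1 else 0) : ℝ)) ≤ 12 * K * G0 := by
  have hcard : ((Icc (-(K : ℤ)) K).card : ℝ) = 2 * K + 1 := by
    rw [Int.card_Icc]
    have : ((K : ℤ) + 1 - -(K : ℤ)).toNat = 2 * K + 1 := by omega
    rw [this]
    push_cast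
    ring
  have h0 : (0 : ℤ) ∈ Icc (-(K : ℤ)) K := by
    rw [Finset.mem_Icc]
    omega
  have e1 : ∑ k1 ∈ Icc (-(K : ℤ)) K, ∑ k2 ∈ Icc (-(K : ℤ)) K, (if k1 = 0 then (1 : ℝ) else 0) =
      2 * K + 1 := by
    rw [Finset.sum_comm]
    simp only [Finset.sum_ite_eq', if_pos h0, Finset.sum_const, nsmul_eq_mul, mul_one, hcard]
  have e2 : ∑ k1 ∈ Icc (-(K : ℤ)) K, ∑ k2 ∈ Icc (-(K : ℤ)) K, (if k2 = 0 then (1 : ℝ) else 0) =
      2 * K + 1 := by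
    simp only [Finset.sum_ite_eq', if_pos h0, Finset.sum_const, nsmul_eq_mul, mul_one, hcard]
  have e3 : ∀ k1 ∈ Icc (-(K : ℤ)) K,
      ∑ k2 ∈ Icc (-(K : ℤ)) K, (if |k1 - k2| < (G0 : ℤ) then (1 : ℝ) else 0) ≤ 2 * G0 := by
    intro k1 _
    rw [Finset.sum_boole]
    have h1 : (Icc (-(K : ℤ)) K).filter (fun k2 => |k1 - k2| < (G0 : ℤ)) ⊆
        Ioo (k1 - G0) (k1 + G0) := by
      intro k2 hk2
      have h2 := (Finset.mem_filter.1 hk2).2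
      rw [abs_lt] at h2
      rw [Finset.mem_Ioo]
      constructor <;> omega
    have h2 := Finset.card_le_card h1
    rw [Int.card_Ioo] at h2
    have h3 : (k1 + (G0 : ℤ) - (k1 - G0) - 1).toNat ≤ 2 * G0 := by omega
    exact_mod_cast h2.trans h3
  have hGR : (1 : ℝ) ≤ G0 := by exact_mod_cast hG
  have hKR : (1 : ℝ) ≤ K := by exact_mod_cast hG.trans hGK
  have e4 : ∑ k1 ∈ Icc (-(K : ℤ)) K, ∑ k2 ∈ Icc (-(K : ℤ)) K,
      (if |k1 - k2| < (G0 : ℤ) then (1 : ℝ) else 0) ≤ (2 * K + 1) * (2 * G0) := by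
    refine (Finset.sum_le_sum e3).trans ?_
    rw [Finset.sum_const, nsmul_eq_mul, hcard]
  simp only [Finset.sum_add_distrib]
  rw [e1, e2]
  nlinarith

private lemma Cfi_split (s : Finset ℤ) (E T0 : ℝ) (F m : ℤ → ℤ → ℝ) :
    ∑ k1 ∈ s, ∑ k2 ∈ s, (E + T0 * F k1 k2 + (m k1 k2 + m k2 k1)) =
      (s.card : ℝ) * (s.card * E) + T0 * ∑ k1 ∈ s, ∑ k2 ∈ s, F k1 k2 +
        (∑ k1 ∈ s, ∑ k2 ∈ s, m k1 k2 + ∑ k1 ∈ s, ∑ k2 ∈ s, m k1 k2) := by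
  simp only [Finset.sum_add_distrib, Finset.mul_sum]
  rw [Finset.sum_comm (f := fun k1 k2 => m k2 k1), Finset.sum_const, Finset.sum_const,
    nsmul_eq_mul, nsmul_eq_mul]

/-- the result of step 2 -/
theorem tCfi (h1 : CfxStmt) (h2 : CmiStmt) (h3 : CorStmt) (h4 : CpcStmt) : CfiStmt := by
  intro Q H K lam G0 B0 N A f M hB hG hGK hK hf hsupp
  have hlam : 1 ≤ lam := by omega
  have hM : 0 ≤ M := (abs_nonneg _).trans (hf 0)
  have hKR : (1 : ℝ) ≤ K := by exact_mod_cast hG.trans hGK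
  have hGR : (1 : ℝ) ≤ G0 := by exact_mod_cast hG
  have hlR : (1 : ℝ) ≤ lam := by exact_mod_cast hlam
  set W : ℝ := ∑ q ∈ Icc 1 B0, red q (fun t => (1 / (q : ℝ)) * ∑ b ∈ range q,
      WW Q H K q b A (cA lam f t)) with hW
  set V : ℝ := VV Q H K A (fun n => ((f n : ℝ) : ℂ)) with hV
  set E : ℝ := (1 + (B0 : ℝ) ^ 2) * (M ^ 2 * ((H : ℝ) * (4 * lam / G0 + 2) +
    (Q : ℝ) * (6 * K * lam / G0 + 2))) + (B0 : ℝ) ^ 2 * (4 * K * Q * H * M ^ 2 / lam) with hE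
  have hE0 : 0 ≤ E := by
    rw [hE]
    positivity
  set T0 : ℝ := (1 + (B0 : ℝ) ^ 2) * (H * Q * M ^ 2) with hT0
  have hT00 : 0 ≤ T0 := by
    rw [hT0]
    positivity
  have hdiff : V - W ≤ ∑ k1 ∈ Icc (-(K : ℤ)) K, ∑ k2 ∈ Icc (-(K : ℤ)) K,
      ‖Cfi_D Q H lam B0 A f k1 k2‖ := by
    have e1 : ((V - W : ℝ) : ℂ) = ∑ k1 ∈ Icc (-(K : ℤ)) K, ∑ k2 ∈ Icc (-(K : ℤ)) K,
        Cfi_D Q H lam B0 A f k1 k2 := by
      rw [Complex.ofReal_sub, hV, h3.1, hW, Cfi_main h3, ← Finset.sum_sub_distrib]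
      refine Finset.sum_congr rfl fun k1 _ => ?_
      rw [← Finset.sum_sub_distrib]
      rfl
    have e2 : |V - W| = ‖∑ k1 ∈ Icc (-(K : ℤ)) K, ∑ k2 ∈ Icc (-(K : ℤ)) K,
        Cfi_D Q H lam B0 A f k1 k2‖ := by
      rw [← e1, Complex.norm_real, Real.norm_eq_abs]
    refine (le_abs_self _).trans ?_
    rw [e2]
    exact (norm_sum_le _ _).trans (Finset.sum_le_sum fun k1 _ => norm_sum_le _ _)
  have hpt : ∀ k1 ∈ Icc (-(K : ℤ)) K, ∀ k2 ∈ Icc (-(K : ℤ)) K, ‖Cfi_D Q H lam B0 A f k1 k2‖ ≤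
      E + T0 * (((if k1 = 0 then 1 else 0) + (if k2 = 0 then 1 else 0) +
        (if |k1 - k2| < (G0 : ℤ) then 1 else 0) : ℝ)) +
        (Cfi_m Q H lam G0 B0 A f k1 k2 + Cfi_m Q H lam G0 B0 A f k2 k1) := by
    intro k1 hk1 k2 hk2
    have m1 := Cfi_m_nonneg Q H lam G0 B0 A f k1 k2
    have m2 := Cfi_m_nonneg Q H lam G0 B0 A f k2 k1
    have i1 : (0 : ℝ) ≤ if k1 = 0 then 1 else 0 := by split_ifs <;> norm_num
    have i2 : (0 : ℝ) ≤ if k2 = 0 then 1 else 0 := by split_ifs <;> norm_num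
    have i3 : (0 : ℝ) ≤ if |k1 - k2| < (G0 : ℤ) then 1 else 0 := by split_ifs <;> norm_num
    have ht := Cfi_D_triv h4 Q H lam B0 A f M hlam hf k1 k2
    rw [← hT0] at ht
    by_cases hex : k1 = 0 ∨ k2 = 0 ∨ |k1 - k2| < (G0 : ℤ)
    · have i4 : (1 : ℝ) ≤ (if k1 = 0 then 1 else 0) + (if k2 = 0 then 1 else 0) +
          (if |k1 - k2| < (G0 : ℤ) then 1 else 0) := by
        rcases hex with h | h | h
        · rw [if_pos h] at i1 ⊢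
          linarith
        · rw [if_pos h] at i2 ⊢
          linarith
        · rw [if_pos h] at i3 ⊢
          linarith
      have i5 := mul_le_mul_of_nonneg_left i4 hT00
      linarith
    · push Not at hex
      obtain ⟨n1, n2, n3⟩ := hex
      have i5 : 0 ≤ T0 * (((if k1 = 0 then 1 else 0) + (if k2 = 0 then 1 else 0) +
        (if |k1 - k2| < (G0 : ℤ) then 1 else 0) : ℝ)) := mul_nonneg hT00 (by linarith)
      rcases le_total k1 k2 with hle | hle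
      · have hg : (G0 : ℤ) ≤ k2 - k1 := by
          rw [abs_sub_comm, abs_of_nonneg (by omega)] at n3
          exact n3
        have e1 := Cfi_pair h1 Q H K lam G0 B0 A f M hG hGK hK hf k1 k2 hk1 hk2 hg
        have e2 : Cfi_m Q H lam G0 B0 A f k1 k2 = mnr Q H lam (k2 - k1).toNat B0 A k1 f := by
          unfold Cfi_m
          rw [if_pos ⟨n1, n2, hg⟩]
        rw [← e2, ← hE] at e1
        linarith
      · have hg : (G0 : ℤ) ≤ k1 - k2 := by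
          rw [abs_of_nonneg (by omega)] at n3
          exact n3
        have e1 := Cfi_pair h1 Q H K lam G0 B0 A f M hG hGK hK hf k2 k1 hk2 hk1 hg
        have e2 : Cfi_m Q H lam G0 B0 A f k2 k1 = mnr Q H lam (k1 - k2).toNat B0 A k2 f := by
          unfold Cfi_m
          rw [if_pos ⟨n2, n1, hg⟩]
        rw [← e2, ← hE, Cfi_D_symm] at e1
        linarith
  have hcard : ((Icc (-(K : ℤ)) K).card : ℝ) = 2 * K + 1 := by
    rw [Int.card_Icc]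
    have : ((K : ℤ) + 1 - -(K : ℤ)).toNat = 2 * K + 1 := by omega
    rw [this]
    push_cast
    ring
  have hsum : ∑ k1 ∈ Icc (-(K : ℤ)) K, ∑ k2 ∈ Icc (-(K : ℤ)) K, ‖Cfi_D Q H lam B0 A f k1 k2‖ ≤
      (2 * (K : ℝ) + 1) * ((2 * K + 1) * E) + T0 * (12 * K * G0) +
        (∑ k1 ∈ Icc (-(K : ℤ)) K, ∑ k2 ∈ Icc (-(K : ℤ)) K, Cfi_m Q H lam G0 B0 A f k1 k2 +
         ∑ k1 ∈ Icc (-(K : ℤ)) K, ∑ k2 ∈ Icc (-(K : ℤ)) K, Cfi_m Q H lam G0 B0 A f k1 k2) := by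
    refine (Finset.sum_le_sum fun k1 hk1 => Finset.sum_le_sum fun k2 hk2 => hpt k1 hk1 k2 hk2).trans ?_
    rw [Cfi_split, hcard]
    have e3 := mul_le_mul_of_nonneg_left (Cfi_count K G0 hG hGK) hT00
    linarith
  have hm := (Cfi_m_sum Q H K lam G0 B0 A f hG).trans
    (h2 Q H lam B0 K N A f hB (hG.trans hGK) hK hsupp)
  have hKK : (2 * (K : ℝ) + 1) * ((2 * K + 1) * E) ≤ 9 * (K : ℝ) ^ 2 * E := by
    have : (2 * (K : ℝ) + 1) * (2 * K + 1) ≤ 9 * (K : ℝ) ^ 2 := by nlinarith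
    calc (2 * (K : ℝ) + 1) * ((2 * K + 1) * E) = (2 * (K : ℝ) + 1) * (2 * K + 1) * E := by ring
      _ ≤ 9 * (K : ℝ) ^ 2 * E := mul_le_mul_of_nonneg_right this hE0
  have hEr : ErC Q H K lam G0 B0 M (∑ n ∈ Icc (1 : ℤ) N, (f n) ^ 2) =
      9 * (K : ℝ) ^ 2 * E + T0 * (12 * K * G0) +
      (16 * ((H : ℝ) * K / lam) * (1 + Real.log K) * (40 * (lam : ℝ) / B0 + 320 * K) *
        ∑ n ∈ Icc (1 : ℤ) N, (f n) ^ 2 +
       16 * ((H : ℝ) * K / lam) * (1 + Real.log K) * (40 * (lam : ℝ) / B0 + 320 * K) *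
        ∑ n ∈ Icc (1 : ℤ) N, (f n) ^ 2) := by
    unfold ErC
    rw [hE, hT0]
    ring
  rw [hEr]
  linarith

end Pool.Agent.Lib.UI
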