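import Pool.Agent.Lib.UI.SpecC

/-!
MP_00e23e_nt, Lib/UI, module Cfx: one pair (k1, k1 + g).
-/

namespace Pool.Agent.Lib.UI

open Finset Pool.Agent.Lib.EH3

private lemma Cfx_redc_sub (q : ℕ) (G G' : ℝ → ℂ) :
    redc q G - redc q G' = redc q (fun t => G t - G' t) := by
  unfold redc
  rw [Finset.sum_sub_distrib]

private lemma Cfx_redc_norm (q : ℕ) (G : ℝ → ℂ) (G' : ℝ → ℝ) (h : ∀ t, ‖G t‖ ≤ G' t) :
    ‖redc q G‖ ≤ red q G' := by
  unfold redc red
  exact (norm_sum_le _ _).trans (Finset.sum_le_sum fun _ _ => h _)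

private lemma Cfx_red_const (q : ℕ) (c : ℝ) (hc : 0 ≤ c) : red q (fun _ => c) ≤ q * c := by
  unfold red
  rw [Finset.sum_const, nsmul_eq_mul]
  refine mul_le_mul_of_nonneg_right ?_ hc
  have h := Finset.card_filter_le (range q) (fun h => h.Coprime q)
  rw [Finset.card_range] at h
  exact_mod_cast h

private lemma Cfx_sum_D (g B0 : ℕ) :
    ∑ q ∈ g.divisors.filter (fun q => q ≤ B0), (q : ℝ) ≤ (B0 : ℝ) ^ 2 := by
  have h1 : g.divisors.filter (fun q => q ≤ B0) ⊆ Icc 1 B0 := by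
    intro q hq
    rw [Finset.mem_filter] at hq
    rw [Finset.mem_Icc]
    exact ⟨Nat.pos_of_mem_divisors hq.1, hq.2⟩
  calc ∑ q ∈ g.divisors.filter (fun q => q ≤ B0), (q : ℝ)
      ≤ ∑ q ∈ Icc 1 B0, (q : ℝ) :=
        Finset.sum_le_sum_of_subset_of_nonneg h1 fun q _ _ => Nat.cast_nonneg q
    _ ≤ ∑ _q ∈ Icc 1 B0, (B0 : ℝ) := by
        refine Finset.sum_le_sum fun q hq => ?_
        exact_mod_cast (Finset.mem_Icc.1 hq).2
    _ = (B0 : ℝ) ^ 2 := by
        rw [Finset.sum_const, nsmul_eq_mul, Nat.card_Icc, Nat.add_sub_cancel]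
        ring

theorem tCfx (h1 : CfrStmt) (h2 : CpaStmt) (h3 : CpcStmt) (h4 : CinStmt) (h5 : CctStmt) :
    CfxStmt := by
  intro Q H lam g G0 B0 K A k1 f M hG0 hG0g hG0K hg2K h4K hk1 hf
  have hlam : 1 ≤ lam := by omega
  have hg : 1 ≤ g := by omega
  have hM : 0 ≤ M := (abs_nonneg _).trans (hf 0)
  have hlam0 : (0 : ℝ) < lam := by exact_mod_cast hlam
  have hg0 : (0 : ℝ) < g := by exact_mod_cast hg
  obtain ⟨-, h3b, h3c⟩ := h3
  obtain ⟨BB, hBB⟩ : ∃ BB : ℝ, BB = M ^ 2 * ((H : ℝ) * (4 * lam / G0 + 2) +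
      (Q : ℝ) * (6 * K * lam / G0 + 2)) := ⟨_, rfl⟩
  obtain ⟨C, hC⟩ : ∃ C : ℝ, C = 4 * K * Q * H * M ^ 2 / lam := ⟨_, rfl⟩
  have hBB0 : 0 ≤ BB := by
    rw [hBB]
    positivity
  have hC0 : 0 ≤ C := by
    rw [hC]
    positivity
  rw [← hBB, ← hC]
  obtain ⟨I, hI⟩ : ∃ I : Finset (ℤ × ℤ), I = good Q H lam g A k1 := ⟨_, rfl⟩
  obtain ⟨F, hF⟩ : ∃ F : ℝ → ℤ × ℤ → ℂ, ∀ t ij, F t ij =
      (1 / (g : ℂ)) * (cF lam f t ij.1 * (starRingEnd ℂ) (cF lam f t ij.2)) :=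
    ⟨fun t ij => (1 / (g : ℂ)) * (cF lam f t ij.1 * (starRingEnd ℂ) (cF lam f t ij.2)),
      fun _ _ => rfl⟩
  -- the number of good pairs
  have hcard : (I.card : ℝ) * (M ^ 2 * lam) ≤ C := by
    have h6 := (h5 Q H lam g A k1 hg (by omega)).1
    rw [← hI] at h6
    have h7 : (I.card : ℝ) * lam ≤ 4 * K * Q * H / lam := by
      rw [le_div_iff₀ hlam0]
      have h8 : (2 : ℝ) * g * Q * H ≤ 4 * K * Q * H := by
        have h9 : (g : ℝ) ≤ 2 * K := by exact_mod_cast hg2K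
        have h10 : (0 : ℝ) ≤ (Q : ℝ) * H := by positivity
        nlinarith
      nlinarith
    have h8 : (I.card : ℝ) * (M ^ 2 * lam) = (I.card * lam) * M ^ 2 := by ring
    have h9 : C = 4 * K * Q * H / lam * M ^ 2 := by
      rw [hC]
      ring
    rw [h8, h9]
    exact mul_le_mul_of_nonneg_right h7 (by positivity)
  -- the step functions
  have key2 : ∀ t : ℝ, ‖PP Q H A (cA lam f t) (cA lam f t) k1 (k1 + g) - ∑ ij ∈ I, F t ij‖ ≤
      BB + C := by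
    intro t
    have h6 := h4 Q H lam g G0 K A k1 (cA lam f t) (cA lam f t) M hlam hG0 hG0g hG0K hk1
      (fun n => h3c lam f M t n hlam hf) (fun n => h3c lam f M t n hlam hf)
    rw [← hBB, ← hI] at h6
    have h7 : ‖∑ ij ∈ I, ∑ p ∈ cong lam g ij.1 ij.2,
        cA lam f t p.1 * (starRingEnd ℂ) (cA lam f t p.2) - ∑ ij ∈ I, F t ij‖ ≤ C := by
      rw [← Finset.sum_sub_distrib]
      refine (norm_sum_le _ _).trans (le_trans ?_ hcard)
      rw [← nsmul_eq_mul]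
      refine Finset.sum_le_card_nsmul _ _ _ fun ij _ => ?_
      rw [hF]
      exact h3b lam g f M t ij.1 ij.2 hlam hg hf
    calc ‖PP Q H A (cA lam f t) (cA lam f t) k1 (k1 + g) - ∑ ij ∈ I, F t ij‖
        = ‖(PP Q H A (cA lam f t) (cA lam f t) k1 (k1 + g) -
            ∑ ij ∈ I, ∑ p ∈ cong lam g ij.1 ij.2,
              cA lam f t p.1 * (starRingEnd ℂ) (cA lam f t p.2)) +
            (∑ ij ∈ I, ∑ p ∈ cong lam g ij.1 ij.2,
              cA lam f t p.1 * (starRingEnd ℂ) (cA lam f t p.2) - ∑ ij ∈ I, F t ij)‖ := by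
          congr 1
          ring
      _ ≤ BB + C := (norm_add_le _ _).trans (add_le_add h6 h7)
  -- the function itself
  have key1 : ‖PP Q H A (fun n => ((f n : ℝ) : ℂ)) (fun n => ((f n : ℝ) : ℂ)) k1 (k1 + g) -
      ∑ ij ∈ I, ∑ q ∈ g.divisors, redc q (fun t => F t ij)‖ ≤ BB := by
    have h6 := h4 Q H lam g G0 K A k1 (fun n => ((f n : ℝ) : ℂ)) (fun n => ((f n : ℝ) : ℂ)) M
      hlam hG0 hG0g hG0K hk1
      (fun n => by
        rw [Complex.norm_real]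
        exact hf n)
      (fun n => by
        rw [Complex.norm_real]
        exact hf n)
    rw [← hBB, ← hI] at h6
    have h7 : ∀ ij : ℤ × ℤ, ∑ p ∈ cong lam g ij.1 ij.2,
        ((f p.1 : ℝ) : ℂ) * (starRingEnd ℂ) ((f p.2 : ℝ) : ℂ) =
          ∑ q ∈ g.divisors, redc q (fun t => F t ij) := by
      intro ij
      rw [h2 lam g f ij.1 ij.2 hg, ← h1 g (fun t => F t ij) hg, Finset.mul_sum]
      refine Finset.sum_congr rfl fun h _ => ?_
      rw [hF]
    rw [Finset.sum_congr rfl fun ij _ => h7 ij] at h6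
    exact h6
  -- the splitting
  have hsplit : ∑ ij ∈ I, ∑ q ∈ g.divisors, redc q (fun t => F t ij) =
      ∑ q ∈ g.divisors.filter (fun q => q ≤ B0), redc q (fun t => ∑ ij ∈ I, F t ij) +
        ∑ ij ∈ I, ∑ q ∈ g.divisors.filter (fun q => B0 < q), redc q (fun t => F t ij) := by
    have h6 : ∀ ij : ℤ × ℤ, ∑ q ∈ g.divisors, redc q (fun t => F t ij) =
        ∑ q ∈ g.divisors.filter (fun q => q ≤ B0), redc q (fun t => F t ij) +
          ∑ q ∈ g.divisors.filter (fun q => B0 < q), redc q (fun t => F t ij) := by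
      intro ij
      rw [← Finset.sum_filter_add_sum_filter_not g.divisors (fun q => q ≤ B0)]
      congr 1
      refine Finset.sum_congr (Finset.filter_congr fun q _ => not_le) fun _ _ => rfl
    rw [Finset.sum_congr rfl fun ij _ => h6 ij, Finset.sum_add_distrib]
    congr 1
    rw [Finset.sum_comm]
    refine Finset.sum_congr rfl fun q _ => ?_
    unfold redc
    rw [Finset.sum_comm]
  -- the large denominators
  have hlarge : ‖∑ ij ∈ I, ∑ q ∈ g.divisors.filter (fun q => B0 < q),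
      redc q (fun t => F t ij)‖ ≤ mnr Q H lam g B0 A k1 f := by
    unfold mnr
    rw [← hI]
    refine (norm_sum_le _ _).trans (Finset.sum_le_sum fun ij _ => ?_)
    rw [Finset.mul_sum]
    refine (norm_sum_le _ _).trans (Finset.sum_le_sum fun q _ => ?_)
    have h6 : (1 / (g : ℝ)) * red q
        (fun t => (‖cF lam f t ij.1‖ ^ 2 + ‖cF lam f t ij.2‖ ^ 2) / 2) =
        red q (fun t => (1 / (g : ℝ)) *
          ((‖cF lam f t ij.1‖ ^ 2 + ‖cF lam f t ij.2‖ ^ 2) / 2)) := by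
      unfold red
      rw [Finset.mul_sum]
    rw [h6]
    refine Cfx_redc_norm q _ _ fun t => ?_
    rw [hF, norm_mul, norm_mul, RCLike.norm_conj]
    have h7 : ‖(1 / (g : ℂ))‖ = 1 / (g : ℝ) := by
      rw [norm_div, norm_one, Complex.norm_natCast]
    rw [h7]
    refine mul_le_mul_of_nonneg_left ?_ (by positivity)
    nlinarith [sq_nonneg (‖cF lam f t ij.1‖ - ‖cF lam f t ij.2‖)]
  -- the small denominators
  have hsmall : ‖∑ q ∈ g.divisors.filter (fun q => q ≤ B0),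
        redc q (fun t => PP Q H A (cA lam f t) (cA lam f t) k1 (k1 + g)) -
      ∑ q ∈ g.divisors.filter (fun q => q ≤ B0), redc q (fun t => ∑ ij ∈ I, F t ij)‖ ≤
      (B0 : ℝ) ^ 2 * (BB + C) := by
    rw [← Finset.sum_sub_distrib]
    calc ‖∑ q ∈ g.divisors.filter (fun q => q ≤ B0),
          (redc q (fun t => PP Q H A (cA lam f t) (cA lam f t) k1 (k1 + g)) -
            redc q (fun t => ∑ ij ∈ I, F t ij))‖
        ≤ ∑ q ∈ g.divisors.filter (fun q => q ≤ B0), (q : ℝ) * (BB + C) := by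
          refine (norm_sum_le _ _).trans (Finset.sum_le_sum fun q _ => ?_)
          rw [Cfx_redc_sub]
          exact (Cfx_redc_norm q _ _ key2).trans (Cfx_red_const q _ (by linarith))
      _ = (∑ q ∈ g.divisors.filter (fun q => q ≤ B0), (q : ℝ)) * (BB + C) :=
          (Finset.sum_mul _ _ _).symm
      _ ≤ (B0 : ℝ) ^ 2 * (BB + C) :=
          mul_le_mul_of_nonneg_right (Cfx_sum_D g B0) (by linarith)
  rw [hsplit] at key1
  obtain ⟨a, ha⟩ : ∃ a : ℂ, a = PP Q H A (fun n => ((f n : ℝ) : ℂ))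
    (fun n => ((f n : ℝ) : ℂ)) k1 (k1 + g) := ⟨_, rfl⟩
  obtain ⟨b, hb⟩ : ∃ b : ℂ, b = ∑ q ∈ g.divisors.filter (fun q => q ≤ B0),
    redc q (fun t => PP Q H A (cA lam f t) (cA lam f t) k1 (k1 + g)) := ⟨_, rfl⟩
  obtain ⟨c, hc⟩ : ∃ c : ℂ, c = ∑ q ∈ g.divisors.filter (fun q => q ≤ B0),
    redc q (fun t => ∑ ij ∈ I, F t ij) := ⟨_, rfl⟩
  obtain ⟨d, hd⟩ : ∃ d : ℂ, d = ∑ ij ∈ I, ∑ q ∈ g.divisors.filter (fun q => B0 < q),
    redc q (fun t => F t ij) := ⟨_, rfl⟩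
  rw [← ha, ← hc, ← hd] at key1
  rw [← hb, ← hc] at hsmall
  rw [← hd] at hlarge
  rw [← ha, ← hb]
  calc ‖a - b‖ = ‖(a - (c + d)) - (b - c) + d‖ := by
        congr 1
        ring
    _ ≤ ‖a - (c + d)‖ + ‖b - c‖ + ‖d‖ :=
        (norm_add_le _ _).trans (add_le_add (norm_sub_le _ _) le_rfl)
    _ ≤ BB + (B0 : ℝ) ^ 2 * (BB + C) + mnr Q H lam g B0 A k1 f := by linarith
    _ = (1 + (B0 : ℝ) ^ 2) * BB + (B0 : ℝ) ^ 2 * C + mnr Q H lam g B0 A k1 f := by ring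

end Pool.Agent.Lib.UI
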