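import Pool.Agent.Lib.UI.SpecC

namespace Pool.Agent.Lib.UI

open Finset Pool.Agent.Lib.EH3

/-- the pair of integers of (d, a) -/
private def Cin_phi (g : ℕ) (k1 : ℤ) (x : ℕ × ℤ) : ℤ × ℤ :=
  (x.2 + x.1 * k1, x.2 + x.1 * (k1 + g))

/-- the pair of cells of (d, a) -/
private def Cin_cp (lam g : ℕ) (k1 : ℤ) (x : ℕ × ℤ) : ℤ × ℤ :=
  ((x.2 + x.1 * k1) / (lam : ℤ), (x.2 + x.1 * (k1 + g)) / (lam : ℤ))

private lemma Cin_mem {lam : ℕ} (hl : 1 ≤ lam) (n : ℤ) : n ∈ cell lam (n / (lam : ℤ)) := by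
  have h0 : (0 : ℤ) < lam := by exact_mod_cast hl
  unfold cell
  rw [mem_Ico]
  exact ⟨Int.ediv_mul_le n h0.ne', Int.lt_ediv_add_one_mul_self n h0⟩

private lemma Cin_div {lam : ℕ} (hl : 1 ≤ lam) {j n : ℤ} (hn : n ∈ cell lam j) :
    n / (lam : ℤ) = j := by
  unfold cell at hn
  rw [mem_Ico] at hn
  have h0 : (0 : ℤ) < lam := by exact_mod_cast hl
  exact le_antisymm (Int.lt_add_one_iff.1 (Int.ediv_lt_of_lt_mul h0 hn.2))
    (Int.le_ediv_of_mul_le h0 hn.1)

private lemma Cin_lt {lam : ℕ} {j m n : ℤ} (hm : m ∈ cell lam j) (hn : n ∈ cell lam j) :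
    m - n < lam := by
  unfold cell at hm hn
  rw [mem_Ico] at hm hn
  have h : (j + 1) * (lam : ℤ) = j * lam + lam := by ring
  linarith [hm.2, hn.1]

open Classical in
private lemma Cin_good (Q H lam g : ℕ) (A k1 : ℤ) (hl : 1 ≤ lam) (hg : 1 ≤ g)
    (F : ℤ × ℤ → ℂ) :
    ∑ ij ∈ good Q H lam g A k1, ∑ p ∈ cong lam g ij.1 ij.2, F p =
      ∑ x ∈ (Ioc Q (2 * Q) ×ˢ Ico A (A + H)).filter
        (fun x => Good Q H lam g A k1 (Cin_cp lam g k1 x)), F (Cin_phi g k1 x) := by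
  have h0 : (0 : ℤ) < g := by exact_mod_cast hg
  have hmaps : ∀ x ∈ (Ioc Q (2 * Q) ×ˢ Ico A (A + H)).filter
      (fun x => Good Q H lam g A k1 (Cin_cp lam g k1 x)),
      Cin_cp lam g k1 x ∈ good Q H lam g A k1 := by
    intro x hx
    rw [mem_filter] at hx
    unfold good
    rw [mem_filter]
    exact ⟨mem_image.2 ⟨x, hx.1, rfl⟩, hx.2⟩
  rw [← Finset.sum_fiberwise_of_maps_to hmaps (fun x => F (Cin_phi g k1 x))]
  refine Finset.sum_congr rfl fun ij hij => ?_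
  have hGood : Good Q H lam g A k1 ij := (mem_filter.1 hij).2
  symm
  refine Finset.sum_bij' (fun x _ => Cin_phi g k1 x)
    (fun p _ => (((p.2 - p.1) / (g : ℤ)).toNat, p.1 - k1 * ((p.2 - p.1) / g)))
    ?_ ?_ ?_ ?_ ?_
  · intro x hx
    rw [mem_filter] at hx
    have h1 : (x.2 + x.1 * k1) / (lam : ℤ) = ij.1 := congrArg Prod.fst hx.2
    have h2 : (x.2 + x.1 * (k1 + g)) / (lam : ℤ) = ij.2 := congrArg Prod.snd hx.2
    unfold cong
    rw [mem_filter, mem_product]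
    refine ⟨⟨?_, ?_⟩, ?_⟩
    · rw [← h1]; exact Cin_mem hl _
    · rw [← h2]; exact Cin_mem hl _
    · refine ⟨x.1, ?_⟩
      change x.2 + x.1 * (k1 + g) - (x.2 + x.1 * k1) = g * x.1
      ring
  · intro p hp
    have hp' := hGood p hp
    unfold cong at hp
    rw [mem_filter, mem_product] at hp
    obtain ⟨q, hq⟩ := hp.2
    have hdiv : (p.2 - p.1) / (g : ℤ) = q := by rw [hq, Int.mul_ediv_cancel_left _ h0.ne']
    rw [hdiv] at hp'
    have hq0 : (0 : ℤ) ≤ q := by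
      have := hp'.1
      omega
    have hphi : Cin_phi g k1 (((p.2 - p.1) / (g : ℤ)).toNat, p.1 - k1 * ((p.2 - p.1) / g)) = p := by
      unfold Cin_phi
      refine Prod.ext ?_ ?_
      · change p.1 - k1 * ((p.2 - p.1) / g) + ((((p.2 - p.1) / (g : ℤ)).toNat : ℕ) : ℤ) * k1 = p.1
        rw [hdiv, Int.toNat_of_nonneg hq0]
        ring
      · change p.1 - k1 * ((p.2 - p.1) / g) +
          ((((p.2 - p.1) / (g : ℤ)).toNat : ℕ) : ℤ) * (k1 + g) = p.2
        rw [hdiv, Int.toNat_of_nonneg hq0]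
        linear_combination -hq
    have hcp : Cin_cp lam g k1 (((p.2 - p.1) / (g : ℤ)).toNat, p.1 - k1 * ((p.2 - p.1) / g)) =
        ij := by
      have e : ∀ x, Cin_cp lam g k1 x =
          ((Cin_phi g k1 x).1 / (lam : ℤ), (Cin_phi g k1 x).2 / (lam : ℤ)) := fun x => rfl
      rw [e, hphi]
      exact Prod.ext (Cin_div hl hp.1.1) (Cin_div hl hp.1.2)
    rw [mem_filter, mem_filter, mem_product, hcp]
    refine ⟨⟨⟨?_, ?_⟩, hGood⟩, rfl⟩
    · rw [mem_Ioc]
      change Q < ((p.2 - p.1) / (g : ℤ)).toNat ∧ ((p.2 - p.1) / (g : ℤ)).toNat ≤ 2 * Q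
      rw [hdiv]
      have h3 := hp'.1
      have h4 := hp'.2.1
      omega
    · rw [mem_Ico]
      change A ≤ p.1 - k1 * ((p.2 - p.1) / g) ∧ p.1 - k1 * ((p.2 - p.1) / g) < A + H
      rw [hdiv]
      exact hp'.2.2
  · intro x hx
    have e : (Cin_phi g k1 x).2 - (Cin_phi g k1 x).1 = g * (x.1 : ℤ) := by
      change x.2 + x.1 * (k1 + g) - (x.2 + x.1 * k1) = g * x.1
      ring
    refine Prod.ext ?_ ?_
    · change (((Cin_phi g k1 x).2 - (Cin_phi g k1 x).1) / (g : ℤ)).toNat = x.1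
      rw [e, Int.mul_ediv_cancel_left _ h0.ne', Int.toNat_natCast]
    · change (Cin_phi g k1 x).1 - k1 * (((Cin_phi g k1 x).2 - (Cin_phi g k1 x).1) / g) = x.2
      rw [e, Int.mul_ediv_cancel_left _ h0.ne']
      change x.2 + x.1 * k1 - k1 * x.1 = x.2
      ring
  · intro p hp
    have hp' := hGood p hp
    unfold cong at hp
    rw [mem_filter, mem_product] at hp
    obtain ⟨q, hq⟩ := hp.2
    have hdiv : (p.2 - p.1) / (g : ℤ) = q := by rw [hq, Int.mul_ediv_cancel_left _ h0.ne']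
    rw [hdiv] at hp'
    have hq0 : (0 : ℤ) ≤ q := by
      have := hp'.1
      omega
    refine Prod.ext ?_ ?_
    · change p.1 - k1 * ((p.2 - p.1) / g) + ((((p.2 - p.1) / (g : ℤ)).toNat : ℕ) : ℤ) * k1 = p.1
      rw [hdiv, Int.toNat_of_nonneg hq0]
      ring
    · change p.1 - k1 * ((p.2 - p.1) / g) +
        ((((p.2 - p.1) / (g : ℤ)).toNat : ℕ) : ℤ) * (k1 + g) = p.2
      rw [hdiv, Int.toNat_of_nonneg hq0]
      linear_combination -hq
  · intro x hx
    rfl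

open Classical in
private lemma Cin_bad (Q H lam g G0 K : ℕ) (A k1 : ℤ) (hl : 1 ≤ lam) (hG0 : 1 ≤ G0)
    (hGg : G0 ≤ g) (hGK : G0 ≤ K) (hk : |k1| ≤ (K : ℤ)) :
    (((Ioc Q (2 * Q) ×ˢ Ico A (A + H)).filter
        (fun x => ¬ Good Q H lam g A k1 (Cin_cp lam g k1 x))).card : ℝ) ≤
      (H : ℝ) * (4 * lam / G0 + 2) + (Q : ℝ) * (6 * K * lam / G0 + 2) := by
  have h0 : (0 : ℤ) < g := by exact_mod_cast (hG0.trans hGg)
  have hG0Z : (0 : ℤ) < G0 := by exact_mod_cast hG0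
  have hG0N : 0 < G0 := hG0
  obtain ⟨m, hm⟩ : ∃ m : ℕ, m = 2 * lam / G0 := ⟨_, rfl⟩
  obtain ⟨m', hm'⟩ : ∃ m' : ℕ, m' = 3 * K * lam / G0 := ⟨_, rfl⟩
  have hsub : (Ioc Q (2 * Q) ×ˢ Ico A (A + H)).filter
        (fun x => ¬ Good Q H lam g A k1 (Cin_cp lam g k1 x)) ⊆
      ((Ioc Q (Q + m) ∪ Ioc (2 * Q - m) (2 * Q)) ×ˢ Ico A (A + H)) ∪
        (Ioc Q (2 * Q) ×ˢ (Ico A (A + m') ∪ Ico (A + H - m') (A + H))) := by
    intro x hx
    rw [mem_filter, mem_product] at hx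
    obtain ⟨⟨hx1, hx2⟩, hx3⟩ := hx
    unfold Good at hx3
    push Not at hx3
    obtain ⟨p, hp, hx4⟩ := hx3
    unfold cong at hp
    rw [mem_filter, mem_product] at hp
    obtain ⟨q, hq⟩ := hp.2
    have hdiv : (p.2 - p.1) / (g : ℤ) = q := by rw [hq, Int.mul_ediv_cancel_left _ h0.ne']
    rw [hdiv] at hx4
    have hc1 := Cin_mem hl (x.2 + x.1 * k1)
    have hc2 := Cin_mem hl (x.2 + x.1 * (k1 + g))
    have l1 := Cin_lt hp.1.1 hc1
    have l2 := Cin_lt hc1 hp.1.1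
    have l3 := Cin_lt hp.1.2 hc2
    have l4 := Cin_lt hc2 hp.1.2
    -- distance of d
    have g1 : (g : ℤ) * (q - x.1) = (p.2 - (x.2 + x.1 * (k1 + g))) - (p.1 - (x.2 + x.1 * k1)) := by
      linear_combination -hq
    have hab : |(g : ℤ) * (q - x.1)| < 2 * lam := by
      rw [g1, abs_lt]
      constructor <;> linarith
    have hab2 : (G0 : ℤ) * |q - x.1| < 2 * lam := by
      have hle : (G0 : ℤ) * |q - x.1| ≤ (g : ℤ) * |q - x.1| :=
        mul_le_mul_of_nonneg_right (by exact_mod_cast hGg) (abs_nonneg _)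
      rw [abs_mul, abs_of_pos h0] at hab
      exact lt_of_le_of_lt hle hab
    have hd : |q - x.1| ≤ (m : ℤ) := by
      rw [hm]
      push_cast
      rw [Int.le_ediv_iff_mul_le hG0Z, mul_comm]
      exact hab2.le
    -- distance of a
    have ha1 : p.1 - k1 * q - x.2 = (p.1 - (x.2 + x.1 * k1)) - k1 * (q - x.1) := by ring
    have ha2 : (G0 : ℤ) * |p.1 - k1 * q - x.2| ≤ 3 * K * lam := by
      have t1 : |p.1 - k1 * q - x.2| ≤ lam + |k1| * |q - x.1| := by
        rw [ha1, ← abs_mul]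
        refine (abs_sub _ _).trans (add_le_add ?_ le_rfl)
        rw [abs_le]
        constructor <;> linarith
      have t2 : |k1| * |q - x.1| ≤ K * |q - x.1| := mul_le_mul_of_nonneg_right hk (abs_nonneg _)
      have t3 : (G0 : ℤ) * lam ≤ K * lam :=
        mul_le_mul_of_nonneg_right (by exact_mod_cast hGK) (by positivity)
      have t4 : (K : ℤ) * ((G0 : ℤ) * |q - x.1|) ≤ K * (2 * lam) :=
        mul_le_mul_of_nonneg_left hab2.le (by positivity)
      calc (G0 : ℤ) * |p.1 - k1 * q - x.2| ≤ G0 * (lam + K * |q - x.1|) :=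
            mul_le_mul_of_nonneg_left (t1.trans (add_le_add le_rfl t2)) hG0Z.le
        _ = G0 * lam + K * ((G0 : ℤ) * |q - x.1|) := by ring
        _ ≤ K * lam + K * (2 * lam) := add_le_add t3 t4
        _ = 3 * K * lam := by ring
    have ha : |p.1 - k1 * q - x.2| ≤ (m' : ℤ) := by
      rw [hm']
      push_cast
      rw [Int.le_ediv_iff_mul_le hG0Z, mul_comm]
      exact ha2
    rw [mem_Ioc] at hx1
    rw [mem_Ico] at hx2
    rw [abs_le] at hd ha
    rw [mem_union, mem_product, mem_product, mem_union, mem_union, mem_Ioc, mem_Ioc, mem_Ioc,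
      mem_Ico, mem_Ico, mem_Ico]
    by_cases c1 : (Q : ℤ) < q
    · by_cases c2 : q ≤ 2 * (Q : ℤ)
      · right
        refine ⟨hx1, ?_⟩
        by_cases c3 : A ≤ p.1 - k1 * q
        · have c4 := hx4 c1 c2 c3
          right
          constructor <;> linarith
        · left
          push Not at c3
          constructor <;> linarith
      · left
        refine ⟨Or.inr ?_, hx2⟩
        push Not at c2
        have hd1 := hd.1
        have hd2 := hd.2
        omega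
    · left
      refine ⟨Or.inl ?_, hx2⟩
      push Not at c1
      have hd1 := hd.1
      have hd2 := hd.2
      omega
  have hcard := Finset.card_le_card hsub
  have hc1 : (((Ioc Q (Q + m) ∪ Ioc (2 * Q - m) (2 * Q)) ×ˢ Ico A (A + H)) ∪
        (Ioc Q (2 * Q) ×ˢ (Ico A (A + m') ∪ Ico (A + H - m') (A + H)))).card ≤
      (m + m) * H + Q * (m' + m') := by
    refine (Finset.card_union_le _ _).trans (add_le_add ?_ ?_)
    · rw [Finset.card_product]
      refine Nat.mul_le_mul ((Finset.card_union_le _ _).trans (add_le_add ?_ ?_)) ?_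
      · rw [Nat.card_Ioc]; omega
      · rw [Nat.card_Ioc]; omega
      · rw [Int.card_Ico]; omega
    · rw [Finset.card_product]
      refine Nat.mul_le_mul ?_ ((Finset.card_union_le _ _).trans (add_le_add ?_ ?_))
      · rw [Nat.card_Ioc]; omega
      · rw [Int.card_Ico]; omega
      · rw [Int.card_Ico]; omega
  have hc2 : (((Ioc Q (2 * Q) ×ˢ Ico A (A + H)).filter
        (fun x => ¬ Good Q H lam g A k1 (Cin_cp lam g k1 x))).card : ℝ) ≤
      ((m : ℝ) + m) * H + Q * ((m' : ℝ) + m') := by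
    exact_mod_cast hcard.trans hc1
  have hmR : (m : ℝ) ≤ 2 * lam / G0 := by
    rw [hm]
    refine Nat.cast_div_le.trans ?_
    push_cast
    exact le_rfl
  have hmR' : (m' : ℝ) ≤ 3 * K * lam / G0 := by
    rw [hm']
    refine Nat.cast_div_le.trans ?_
    push_cast
    exact le_rfl
  refine hc2.trans ?_
  have hH : (0 : ℝ) ≤ H := Nat.cast_nonneg _
  have hQ : (0 : ℝ) ≤ Q := Nat.cast_nonneg _
  have e1 : (4 : ℝ) * lam / G0 = 2 * (2 * lam / G0) := by ring
  have e2 : (6 : ℝ) * K * lam / G0 = 2 * (3 * K * lam / G0) := by ring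
  rw [e1, e2]
  have i1 : ((m : ℝ) + m) * H ≤ (H : ℝ) * (2 * (2 * lam / G0) + 2) := by
    rw [mul_comm]
    exact mul_le_mul_of_nonneg_left (by linarith) hH
  have i2 : (Q : ℝ) * ((m' : ℝ) + m') ≤ (Q : ℝ) * (2 * (3 * K * lam / G0) + 2) :=
    mul_le_mul_of_nonneg_left (by linarith) hQ
  linarith

theorem tCin : CinStmt := by
  classical
  intro Q H lam g G0 K A k1 u v M hl hG0 hGg hGK hk hu hv
  have hg : 1 ≤ g := hG0.trans hGg
  have hM : 0 ≤ M := (norm_nonneg _).trans (hu 0)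
  have h1 := Cin_good Q H lam g A k1 hl hg (fun p => u p.1 * (starRingEnd ℂ) (v p.2))
  have h2 : PP Q H A u v k1 (k1 + g) = ∑ x ∈ Ioc Q (2 * Q) ×ˢ Ico A (A + H),
      u (Cin_phi g k1 x).1 * (starRingEnd ℂ) (v (Cin_phi g k1 x).2) := by
    unfold PP
    rw [Finset.sum_product]
    rfl
  rw [h1, h2, ← Finset.sum_filter_add_sum_filter_not (Ioc Q (2 * Q) ×ˢ Ico A (A + H))
    (fun x => Good Q H lam g A k1 (Cin_cp lam g k1 x)), add_sub_cancel_left]
  have hb := Cin_bad Q H lam g G0 K A k1 hl hG0 hGg hGK hk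
  calc ‖∑ x ∈ (Ioc Q (2 * Q) ×ˢ Ico A (A + H)).filter
          (fun x => ¬ Good Q H lam g A k1 (Cin_cp lam g k1 x)),
          u (Cin_phi g k1 x).1 * (starRingEnd ℂ) (v (Cin_phi g k1 x).2)‖
      ≤ ∑ x ∈ (Ioc Q (2 * Q) ×ˢ Ico A (A + H)).filter
          (fun x => ¬ Good Q H lam g A k1 (Cin_cp lam g k1 x)),
          ‖u (Cin_phi g k1 x).1 * (starRingEnd ℂ) (v (Cin_phi g k1 x).2)‖ := norm_sum_le _ _
    _ ≤ ∑ _x ∈ (Ioc Q (2 * Q) ×ˢ Ico A (A + H)).filter
          (fun x => ¬ Good Q H lam g A k1 (Cin_cp lam g k1 x)), M ^ 2 := by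
        refine Finset.sum_le_sum fun x _ => ?_
        rw [norm_mul, RCLike.norm_conj, pow_two]
        exact mul_le_mul (hu _) (hv _) (norm_nonneg _) hM
    _ = M ^ 2 * (((Ioc Q (2 * Q) ×ˢ Ico A (A + H)).filter
          (fun x => ¬ Good Q H lam g A k1 (Cin_cp lam g k1 x))).card : ℝ) := by
        rw [Finset.sum_const, nsmul_eq_mul, mul_comm]
    _ ≤ _ := mul_le_mul_of_nonneg_left hb (by positivity)

end Pool.Agent.Lib.UI
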