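import Pool.Agent.Lib.UI.SpecC

namespace Pool.Agent.Lib.UI

open Finset Pool.Agent.Lib.EH3

/-- the cell as an image of 1, ..., lam -/
private lemma Cls_sum {E : Type*} [AddCommMonoid E] (lam : ℕ) (j : ℤ) (G : ℤ → E) :
    ∑ n ∈ cell lam j, G n = ∑ m ∈ Icc 1 lam, G (j * lam - 1 + (m : ℤ)) := by
  symm
  refine Finset.sum_bij' (fun m _ => j * lam - 1 + (m : ℤ)) (fun n _ => (n - (j * lam - 1)).toNat)
    ?_ ?_ ?_ ?_ ?_
  · intro m hm
    rw [mem_Icc] at hm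
    unfold cell
    rw [mem_Ico]
    constructor
    · omega
    · have : (j + 1) * (lam : ℤ) = j * lam + lam := by ring
      rw [this]
      omega
  · intro n hn
    unfold cell at hn
    rw [mem_Ico] at hn
    have : (j + 1) * (lam : ℤ) = j * lam + lam := by ring
    rw [this] at hn
    rw [mem_Icc]
    omega
  · intro m hm
    simp
  · intro n hn
    unfold cell at hn
    rw [mem_Ico] at hn
    omega
  · intro m _
    rfl

private lemma Cls_cF (lam : ℕ) (f : ℤ → ℝ) (t : ℝ) (j : ℤ) :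
    ‖cF lam f t j‖ = ‖∑ m ∈ Icc 1 lam, ((f (j * lam - 1 + (m : ℤ)) : ℝ) : ℂ) * ee ((m : ℝ) * t)‖ := by
  unfold cF
  rw [Cls_sum]
  have h1 : ∀ m ∈ Icc 1 lam, ((f (j * lam - 1 + (m : ℤ)) : ℝ) : ℂ) *
      ee (((j * lam - 1 + (m : ℤ) : ℤ) : ℝ) * t) =
      ee (((j * lam - 1 : ℤ) : ℝ) * t) *
        (((f (j * lam - 1 + (m : ℤ)) : ℝ) : ℂ) * ee ((m : ℝ) * t)) := by
    intro m _
    have e1 : ee (((j * lam - 1 + (m : ℤ) : ℤ) : ℝ) * t) =
        ee (((j * lam - 1 : ℤ) : ℝ) * t) * ee ((m : ℝ) * t) := by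
      rw [← ee_add]
      congr 1
      push_cast
      ring
    rw [e1]
    ring
  rw [Finset.sum_congr rfl h1, ← Finset.mul_sum, norm_mul, norm_ee, one_mul]

private lemma Cls_ls (lam : ℕ) (f : ℤ → ℝ) (j : ℤ) (R : ℕ) (hR : 1 ≤ R) :
    ∑ q ∈ Icc 2 R, red q (fun t => ‖cF lam f t j‖ ^ 2) ≤
      20 * ((lam : ℝ) + (R : ℝ) ^ 2) * ∑ n ∈ cell lam j, (f n) ^ 2 := by
  have h := BV.tFar R lam (fun m => ((f (j * lam - 1 + (m : ℤ)) : ℝ) : ℂ)) hR
  have e1 : ∑ n ∈ Icc 1 lam, ‖((f (j * lam - 1 + (n : ℤ)) : ℝ) : ℂ)‖ ^ 2 =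
      ∑ n ∈ cell lam j, (f n) ^ 2 := by
    rw [Cls_sum]
    refine Finset.sum_congr rfl fun m _ => ?_
    rw [Complex.norm_real, Real.norm_eq_abs, sq_abs]
  rw [e1] at h
  refine le_trans (le_of_eq ?_) h
  refine Finset.sum_congr rfl fun q _ => ?_
  unfold red
  refine Finset.sum_congr rfl fun b _ => ?_
  have e2 := Cls_cF lam f ((b : ℝ) / (q : ℝ)) j
  dsimp only
  rw [e2]

private lemma Cls_nn (lam : ℕ) (f : ℤ → ℝ) (j : ℤ) (q : ℕ) :
    0 ≤ red q (fun t => ‖cF lam f t j‖ ^ 2) :=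
  Finset.sum_nonneg fun _ _ => by positivity

private lemma Cls_blk (lam : ℕ) (f : ℤ → ℝ) (j : ℤ) (B : ℕ) (hB : 1 ≤ B) :
    ∑ q ∈ Ioc B (2 * B), (1 / (q : ℝ)) * red q (fun t => ‖cF lam f t j‖ ^ 2) ≤
      (20 * (lam : ℝ) / B + 80 * B) * ∑ n ∈ cell lam j, (f n) ^ 2 := by
  have hB0 : (0 : ℝ) < B := by exact_mod_cast hB
  have h1 : ∑ q ∈ Ioc B (2 * B), (1 / (q : ℝ)) * red q (fun t => ‖cF lam f t j‖ ^ 2) ≤
      ∑ q ∈ Ioc B (2 * B), (1 / (B : ℝ)) * red q (fun t => ‖cF lam f t j‖ ^ 2) := by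
    refine Finset.sum_le_sum fun q hq => ?_
    rw [mem_Ioc] at hq
    refine mul_le_mul_of_nonneg_right ?_ (Cls_nn lam f j q)
    refine one_div_le_one_div_of_le hB0 ?_
    exact_mod_cast hq.1.le
  have h2 : ∑ q ∈ Ioc B (2 * B), red q (fun t => ‖cF lam f t j‖ ^ 2) ≤
      ∑ q ∈ Icc 2 (2 * B), red q (fun t => ‖cF lam f t j‖ ^ 2) := by
    refine Finset.sum_le_sum_of_subset_of_nonneg ?_ fun q _ _ => Cls_nn lam f j q
    intro q hq
    rw [mem_Ioc] at hq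
    rw [mem_Icc]
    omega
  have h3 := Cls_ls lam f j (2 * B) (by omega)
  rw [← Finset.mul_sum] at h1
  have h4 := mul_le_mul_of_nonneg_left (h2.trans h3) (by positivity : (0 : ℝ) ≤ 1 / (B : ℝ))
  refine h1.trans (h4.trans (le_of_eq ?_))
  push_cast
  field_simp
  ring

private lemma Cls_ind (lam : ℕ) (f : ℤ → ℝ) (j : ℤ) (M : ℕ) : ∀ n B : ℕ, 1 ≤ B → B ≤ 2 * M → M ≤ B + n →
    ∑ q ∈ Ioc B M, (1 / (q : ℝ)) * red q (fun t => ‖cF lam f t j‖ ^ 2) ≤
      (40 * (lam : ℝ) / B + (160 * M - 80 * B)) * ∑ n ∈ cell lam j, (f n) ^ 2 := by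
  have hS : 0 ≤ ∑ n ∈ cell lam j, (f n) ^ 2 := Finset.sum_nonneg fun _ _ => by positivity
  have hbase : ∀ B : ℕ, 1 ≤ B → B ≤ 2 * M → M ≤ B →
      ∑ q ∈ Ioc B M, (1 / (q : ℝ)) * red q (fun t => ‖cF lam f t j‖ ^ 2) ≤
      (40 * (lam : ℝ) / B + (160 * M - 80 * B)) * ∑ n ∈ cell lam j, (f n) ^ 2 := by
    intro B hB hBM hMB
    rw [Ioc_eq_empty_of_le hMB, Finset.sum_empty]
    refine mul_nonneg ?_ hS
    have h1 : (B : ℝ) ≤ 2 * M := by exact_mod_cast hBM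
    have h2 : (0 : ℝ) ≤ 40 * (lam : ℝ) / B := by positivity
    linarith
  intro n
  induction n with
  | zero =>
    intro B hB hBM hMB
    exact hbase B hB hBM (by omega)
  | succ n ih =>
    intro B hB hBM hMB
    by_cases hc : M ≤ B
    · exact hbase B hB hBM hc
    · push Not at hc
      have h1 := ih (2 * B) (by omega) (by omega) (by omega)
      have h2 := Cls_blk lam f j B hB
      have h3 : ∑ q ∈ Ioc B M, (1 / (q : ℝ)) * red q (fun t => ‖cF lam f t j‖ ^ 2) ≤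
          ∑ q ∈ Ioc B (2 * B), (1 / (q : ℝ)) * red q (fun t => ‖cF lam f t j‖ ^ 2) +
          ∑ q ∈ Ioc (2 * B) M, (1 / (q : ℝ)) * red q (fun t => ‖cF lam f t j‖ ^ 2) := by
        rw [← Finset.sum_union]
        · refine Finset.sum_le_sum_of_subset_of_nonneg ?_ fun q _ _ =>
            mul_nonneg (by positivity) (Cls_nn lam f j q)
          intro q hq
          rw [mem_Ioc] at hq
          rw [mem_union, mem_Ioc, mem_Ioc]
          omega
        · rw [Finset.disjoint_left]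
          intro q hq hq'
          rw [mem_Ioc] at hq hq'
          omega
      refine h3.trans ((add_le_add h2 h1).trans (le_of_eq ?_))
      rw [← add_mul]
      congr 1
      have hB0 : (B : ℝ) ≠ 0 := by
        have : (0 : ℝ) < B := by exact_mod_cast hB
        exact this.ne'
      push_cast
      field_simp
      ring

theorem tCls : ClsStmt := by
  intro lam B0 K f j _ hB0 hK
  have hS : 0 ≤ ∑ n ∈ cell lam j, (f n) ^ 2 := Finset.sum_nonneg fun _ _ => by positivity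
  by_cases h : B0 ≤ 2 * (2 * K)
  · refine (Cls_ind lam f j (2 * K) (2 * K) B0 hB0 h (by omega)).trans ?_
    refine mul_le_mul_of_nonneg_right ?_ hS
    have : (0 : ℝ) ≤ B0 := by positivity
    push_cast
    linarith
  · push Not at h
    rw [Ioc_eq_empty_of_le (by omega), Finset.sum_empty]
    exact mul_nonneg (by positivity) hS

end Pool.Agent.Lib.UI
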