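import Pool.Agent.Lib.UI.SpecC

namespace Pool.Agent.Lib.UI

open Finset Pool.Agent.Lib.EH3

private noncomputable def Cmi_Phi (lam B0 : ℕ) (f : ℤ → ℝ) (g : ℕ) (i : ℤ) : ℝ :=
  ∑ q ∈ g.divisors.filter (fun q => B0 < q), red q (fun t => ‖cF lam f t i‖ ^ 2)

private lemma Cmi_red_nonneg (q : ℕ) (G : ℝ → ℝ) (h : ∀ t, 0 ≤ G t) : 0 ≤ red q G :=
  Finset.sum_nonneg fun _ _ => h _

private lemma Cmi_red_half (q : ℕ) (F G : ℝ → ℝ) :
    red q (fun t => (F t + G t) / 2) = (red q F + red q G) / 2 := by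
  unfold red
  rw [← Finset.sum_add_distrib, Finset.sum_div]

private lemma Cmi_Phi_nonneg (lam B0 : ℕ) (f : ℤ → ℝ) (g : ℕ) (i : ℤ) : 0 ≤ Cmi_Phi lam B0 f g i :=
  Finset.sum_nonneg fun _ _ => Cmi_red_nonneg _ _ fun _ => by positivity

private lemma Cmi_cF_zero (lam N : ℕ) (f : ℤ → ℝ) (hlam : 1 ≤ lam)
    (hf : ∀ n, (n < 1 ∨ (N : ℤ) < n) → f n = 0) (i : ℤ) (hi : i ∉ Icc (0 : ℤ) ((N : ℤ) / lam)) (t : ℝ) :
    cF lam f t i = 0 := by
  have hl : (0 : ℤ) < lam := by exact_mod_cast hlam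
  unfold cF
  refine Finset.sum_eq_zero fun n hn => ?_
  have hn' : i * lam ≤ n ∧ n < (i + 1) * lam := by
    have := hn
    unfold cell at this
    exact Finset.mem_Ico.mp this
  rw [hf n, Complex.ofReal_zero, zero_mul]
  rw [Finset.mem_Icc, not_and_or, not_le, not_le] at hi
  rcases hi with hi | hi
  · left
    have : (i + 1) * (lam : ℤ) ≤ 0 := by nlinarith
    omega
  · right
    have h2 : (N : ℤ) < ((N : ℤ) / lam + 1) * lam := by
      have h3 := Int.emod_add_mul_ediv (N : ℤ) lam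
      have h4 := Int.emod_lt_of_pos (N : ℤ) hl
      nlinarith
    have h5 : ((N : ℤ) / lam + 1) * lam ≤ i * lam := by
      apply mul_le_mul_of_nonneg_right _ hl.le
      omega
    omega

private lemma Cmi_Phi_zero (lam N B0 : ℕ) (f : ℤ → ℝ) (hlam : 1 ≤ lam)
    (hf : ∀ n, (n < 1 ∨ (N : ℤ) < n) → f n = 0) (g : ℕ) (i : ℤ)
    (hi : i ∉ Icc (0 : ℤ) ((N : ℤ) / lam)) : Cmi_Phi lam B0 f g i = 0 := by
  unfold Cmi_Phi red
  refine Finset.sum_eq_zero fun q _ => Finset.sum_eq_zero fun h _ => ?_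
  change ‖cF lam f ((h : ℝ) / (q : ℝ)) i‖ ^ 2 = 0
  rw [Cmi_cF_zero lam N f hlam hf i hi]
  simp

private lemma Cmi_fib (s : Finset (ℤ × ℤ)) (π : ℤ × ℤ → ℤ) (J : Finset ℤ) (Φ : ℤ → ℝ) (c L : ℝ)
    (hL : 0 < L) (hΦ : ∀ i, 0 ≤ Φ i) (hz : ∀ i, i ∉ J → Φ i = 0)
    (hc : ∀ i, ((s.filter (fun x => π x = i)).card : ℝ) * L ≤ c) :
    ∑ x ∈ s, Φ (π x) ≤ ∑ i ∈ J, Φ i * (c / L) := by
  have h1 : ∑ x ∈ s, Φ (π x) = ∑ x ∈ s.filter (fun x => π x ∈ J), Φ (π x) := by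
    rw [Finset.sum_filter]
    refine Finset.sum_congr rfl fun x _ => ?_
    split_ifs with h
    · rfl
    · exact hz _ h
  rw [h1, ← Finset.sum_fiberwise_of_maps_to (s := s.filter (fun x => π x ∈ J)) (t := J) (g := π)
    (fun x hx => (Finset.mem_filter.mp hx).2)]
  refine Finset.sum_le_sum fun i _ => ?_
  have h2 : ∑ x ∈ (s.filter (fun x => π x ∈ J)).filter (fun x => π x = i), Φ (π x) =
      (((s.filter (fun x => π x ∈ J)).filter (fun x => π x = i)).card : ℝ) * Φ i := by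
    rw [Finset.sum_congr rfl (fun x hx => by rw [(Finset.mem_filter.mp hx).2]), Finset.sum_const,
      nsmul_eq_mul]
  rw [h2]
  have h3 : (((s.filter (fun x => π x ∈ J)).filter (fun x => π x = i)).card : ℝ) ≤
      ((s.filter (fun x => π x = i)).card : ℝ) := by
    exact_mod_cast Finset.card_le_card
      (Finset.filter_subset_filter _ (Finset.filter_subset _ _))
  have h4 : ((s.filter (fun x => π x = i)).card : ℝ) ≤ c / L := by
    rw [le_div_iff₀ hL]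
    exact hc i
  calc _ ≤ (c / L) * Φ i := mul_le_mul_of_nonneg_right (h3.trans h4) (hΦ i)
    _ = Φ i * (c / L) := mul_comm _ _

private lemma Cmi_mnr (Q H lam g B0 : ℕ) (A k1 : ℤ) (f : ℤ → ℝ) :
    mnr Q H lam g B0 A k1 f = (1 / (g : ℝ)) * ((∑ ij ∈ good Q H lam g A k1, Cmi_Phi lam B0 f g ij.1 +
      ∑ ij ∈ good Q H lam g A k1, Cmi_Phi lam B0 f g ij.2) / 2) := by
  unfold mnr
  rw [← Finset.sum_add_distrib, Finset.sum_div, Finset.mul_sum]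
  refine Finset.sum_congr rfl fun ij _ => ?_
  congr 1
  unfold Cmi_Phi
  rw [← Finset.sum_add_distrib, Finset.sum_div]
  exact Finset.sum_congr rfl fun q _ => Cmi_red_half q _ _

private lemma Cmi_L (K lam : ℕ) (hK : 1 ≤ K) (hlam : 4 * K ≤ lam) :
    ∑ k ∈ (Icc (-(K : ℤ)) K).filter (fun k => k ≠ 0), ((lam : ℝ) / |(k : ℝ)| + 1) ≤
      4 * lam * (1 + Real.log K) := by
  have hl : (0 : ℝ) < lam := by
    have : 1 ≤ lam := by omega
    exact_mod_cast this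
  have hlog : 0 ≤ Real.log K := Real.log_nonneg (by exact_mod_cast hK)
  have h0 : ∀ k : ℤ, ((lam : ℝ) / |(k : ℝ)| + 1) = (fun m : ℕ => (lam : ℝ) / m + 1) k.natAbs := by
    intro k
    have : ((k.natAbs : ℕ) : ℝ) = |(k : ℝ)| := by
      rw [Nat.cast_natAbs]; push_cast; rfl
    simp only [this]
  have h1 : ∑ k ∈ (Icc (-(K : ℤ)) K).filter (fun k => k ≠ 0), ((lam : ℝ) / |(k : ℝ)| + 1) ≤
      ∑ m ∈ Icc 1 K, 2 * ((lam : ℝ) / m + 1) := by
    rw [Finset.sum_congr rfl (fun k _ => h0 k),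
      ← Finset.sum_fiberwise_of_maps_to (t := Icc 1 K) (g := Int.natAbs) (by
        intro k hk
        rw [Finset.mem_filter, Finset.mem_Icc] at hk
        rw [Finset.mem_Icc]
        omega)]
    refine Finset.sum_le_sum fun m _ => ?_
    rw [Finset.sum_congr rfl (fun x hx => by rw [(Finset.mem_filter.mp hx).2]), Finset.sum_const,
      nsmul_eq_mul]
    apply mul_le_mul_of_nonneg_right _ (by positivity)
    have h2 : (((Icc (-(K : ℤ)) K).filter (fun k => k ≠ 0)).filter (fun k => k.natAbs = m)) ⊆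
        ({(m : ℤ), -(m : ℤ)} : Finset ℤ) := by
      intro k hk
      rw [Finset.mem_filter] at hk
      rw [Finset.mem_insert, Finset.mem_singleton]
      omega
    have h3 := Finset.card_le_card h2
    have h4 : ({(m : ℤ), -(m : ℤ)} : Finset ℤ).card ≤ 2 := Finset.card_le_two
    exact_mod_cast h3.trans h4
  have h5 : ∑ m ∈ Icc 1 K, 2 * ((lam : ℝ) / m + 1) = 2 * lam * (∑ m ∈ Icc 1 K, ((m : ℝ))⁻¹) + 2 * K := by
    rw [Finset.mul_sum]
    have : ∀ m ∈ Icc 1 K, 2 * ((lam : ℝ) / m + 1) = 2 * lam * ((m : ℝ))⁻¹ + 2 := by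
      intro m _
      rw [div_eq_mul_inv]; ring
    rw [Finset.sum_congr rfl this, Finset.sum_add_distrib, Finset.sum_const, Nat.card_Icc, nsmul_eq_mul]
    push_cast
    simp
    ring
  have h6 : ∑ m ∈ Icc 1 K, ((m : ℝ))⁻¹ ≤ 1 + Real.log K := by
    have h7 := harmonic_le_one_add_log K
    rw [harmonic_eq_sum_Icc] at h7
    push_cast at h7
    exact h7
  have h8 : (4 : ℝ) * K ≤ lam := by exact_mod_cast hlam
  rw [h5] at h1
  have h9 : 2 * lam * (∑ m ∈ Icc 1 K, ((m : ℝ))⁻¹) ≤ 2 * lam * (1 + Real.log K) :=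
    mul_le_mul_of_nonneg_left h6 (by positivity)
  have h10 : 0 ≤ (lam : ℝ) * Real.log K := by positivity
  nlinarith

private lemma Cmi_cells (lam N : ℕ) (f : ℤ → ℝ) (hlam : 1 ≤ lam)
    (hf : ∀ n, (n < 1 ∨ (N : ℤ) < n) → f n = 0) :
    ∑ i ∈ Icc (0 : ℤ) ((N : ℤ) / lam), ∑ n ∈ cell lam i, (f n) ^ 2 ≤ ∑ n ∈ Icc (1 : ℤ) N, (f n) ^ 2 := by
  have hl : (0 : ℤ) < lam := by exact_mod_cast hlam
  rw [← Finset.sum_fiberwise_of_maps_to (s := Icc (1 : ℤ) N) (t := Icc (0 : ℤ) ((N : ℤ) / lam))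
    (g := fun n => n / (lam : ℤ)) (by
      intro n hn
      rw [Finset.mem_Icc] at hn ⊢
      exact ⟨Int.ediv_nonneg (by omega) hl.le, Int.ediv_le_ediv hl hn.2⟩)]
  refine Finset.sum_le_sum fun i _ => ?_
  have h1 : ∑ n ∈ cell lam i, (f n) ^ 2 =
      ∑ n ∈ (cell lam i).filter (fun n => 1 ≤ n ∧ n ≤ (N : ℤ)), (f n) ^ 2 := by
    rw [Finset.sum_filter]
    refine Finset.sum_congr rfl fun n _ => ?_
    split_ifs with h
    · rfl
    · rw [hf n (by omega)]; simp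
  rw [h1]
  refine Finset.sum_le_sum_of_subset_of_nonneg ?_ fun _ _ _ => sq_nonneg _
  intro n hn
  rw [Finset.mem_filter] at hn
  unfold cell at hn
  rw [Finset.mem_Ico] at hn
  rw [Finset.mem_filter, Finset.mem_Icc]
  refine ⟨hn.2, ?_⟩
  have h2 : n = (n - i * lam) + lam * i := by ring
  change n / (lam : ℤ) = i
  rw [h2, Int.add_mul_ediv_left _ _ hl.ne', Int.ediv_eq_zero_of_lt (by linarith [hn.1.1])
    (by nlinarith [hn.1.2])]
  ring

private lemma Cmi_E (h2 : ClsStmt) (lam B0 K N : ℕ) (f : ℤ → ℝ) (hB : 1 ≤ B0) (hK : 1 ≤ K)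
    (hlam : 1 ≤ lam) (hf : ∀ n, (n < 1 ∨ (N : ℤ) < n) → f n = 0) :
    ∑ g ∈ Icc 1 (2 * K), ∑ i ∈ Icc (0 : ℤ) ((N : ℤ) / lam), Cmi_Phi lam B0 f g i ≤
      2 * K * ((40 * (lam : ℝ) / B0 + 320 * K) * ∑ n ∈ Icc (1 : ℤ) N, (f n) ^ 2) := by
  set J := Icc (0 : ℤ) ((N : ℤ) / lam) with hJ
  set x : ℕ → ℤ → ℝ := fun q i => red q (fun t => ‖cF lam f t i‖ ^ 2) with hx
  have hx0 : ∀ q i, 0 ≤ x q i := fun q i => Cmi_red_nonneg _ _ fun _ => by positivity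
  have h3 : ∑ g ∈ Icc 1 (2 * K), ∑ i ∈ J, Cmi_Phi lam B0 f g i =
      ∑ g ∈ Icc 1 (2 * K), ∑ q ∈ (Ioc B0 (2 * K)).filter (fun q => q ∣ g), ∑ i ∈ J, x q i := by
    refine Finset.sum_congr rfl fun g hg => ?_
    rw [Finset.mem_Icc] at hg
    unfold Cmi_Phi
    rw [Finset.sum_comm]
    refine Finset.sum_congr ?_ fun _ _ => rfl
    ext q
    rw [Finset.mem_filter, Finset.mem_filter, Nat.mem_divisors, Finset.mem_Ioc]
    constructor
    · rintro ⟨⟨h4, _⟩, h5⟩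
      exact ⟨⟨h5, (Nat.le_of_dvd (by omega) h4).trans hg.2⟩, h4⟩
    · rintro ⟨⟨h4, _⟩, h5⟩
      exact ⟨⟨h5, by omega⟩, h4⟩
  have h4 : ∑ g ∈ Icc 1 (2 * K), ∑ q ∈ (Ioc B0 (2 * K)).filter (fun q => q ∣ g), ∑ i ∈ J, x q i =
      ∑ q ∈ Ioc B0 (2 * K), (((Icc 1 (2 * K)).filter (fun g => q ∣ g)).card : ℝ) * ∑ i ∈ J, x q i := by
    simp_rw [Finset.sum_filter]
    rw [Finset.sum_comm]
    refine Finset.sum_congr rfl fun q _ => ?_
    rw [← Finset.sum_filter, Finset.sum_const, nsmul_eq_mul]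
  have h5 : ∑ q ∈ Ioc B0 (2 * K), (((Icc 1 (2 * K)).filter (fun g => q ∣ g)).card : ℝ) * ∑ i ∈ J, x q i ≤
      ∑ q ∈ Ioc B0 (2 * K), (2 * K) * ((1 / (q : ℝ)) * ∑ i ∈ J, x q i) := by
    refine Finset.sum_le_sum fun q hq => ?_
    rw [Finset.mem_Ioc] at hq
    have hq0 : (0 : ℝ) < q := by
      have : 0 < q := by omega
      exact_mod_cast this
    have h6 : ((Icc 1 (2 * K)).filter (fun g => q ∣ g)).card = 2 * K / q := by
      have h7 := Nat.Ioc_filter_dvd_card_eq_div (2 * K) q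
      rw [← h7]
      rfl
    rw [h6]
    have h8 : (((2 * K / q : ℕ)) : ℝ) ≤ (2 * K) * (1 / (q : ℝ)) := by
      have h9 := @Nat.cast_div_le ℝ _ _ _ (2 * K) q
      calc (((2 * K / q : ℕ)) : ℝ) ≤ ((2 * K : ℕ) : ℝ) / (q : ℝ) := h9
        _ = (2 * K) * (1 / (q : ℝ)) := by push_cast; ring
    calc _ ≤ ((2 * K) * (1 / (q : ℝ))) * ∑ i ∈ J, x q i :=
          mul_le_mul_of_nonneg_right h8 (Finset.sum_nonneg fun _ _ => hx0 _ _)
      _ = _ := by ring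
  have h6 : ∑ q ∈ Ioc B0 (2 * K), (2 * K) * ((1 / (q : ℝ)) * ∑ i ∈ J, x q i) =
      2 * K * ∑ i ∈ J, ∑ q ∈ Ioc B0 (2 * K), (1 / (q : ℝ)) * x q i := by
    rw [← Finset.mul_sum, Finset.sum_comm]
    congr 1
    refine Finset.sum_congr rfl fun q _ => ?_
    rw [Finset.mul_sum]
  have h7 : ∑ i ∈ J, ∑ q ∈ Ioc B0 (2 * K), (1 / (q : ℝ)) * x q i ≤
      ∑ i ∈ J, (40 * (lam : ℝ) / B0 + 320 * K) * ∑ n ∈ cell lam i, (f n) ^ 2 :=
    Finset.sum_le_sum fun i _ => h2 lam B0 K f i hlam hB hK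
  rw [h3, h4]
  refine h5.trans ?_
  rw [h6]
  apply mul_le_mul_of_nonneg_left _ (by positivity)
  refine h7.trans ?_
  rw [← Finset.mul_sum]
  exact mul_le_mul_of_nonneg_left (Cmi_cells lam N f hlam hf) (by positivity)

theorem tCmi (h1 : CctStmt) (h2 : ClsStmt) : CmiStmt := by
  intro Q H lam B0 K N A f hB hK hlam hf
  have hlam1 : 1 ≤ lam := by omega
  have hl : (0 : ℝ) < lam := by exact_mod_cast hlam1
  have hlog : 0 ≤ Real.log K := Real.log_nonneg (by exact_mod_cast hK)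
  set J := Icc (0 : ℤ) ((N : ℤ) / lam) with hJ
  set s := (Icc (-(K : ℤ)) K).filter (fun k => k ≠ 0) with hs
  set c : ℤ → ℝ := fun k => (H : ℝ) / (lam : ℝ) ^ 2 * ((lam : ℝ) / |(k : ℝ)| + 1) with hc
  set P : ℕ → ℝ := fun g => ∑ i ∈ J, Cmi_Phi lam B0 f g i with hP
  set S := ∑ n ∈ Icc (1 : ℤ) N, (f n) ^ 2 with hS
  have hc0 : ∀ k, 0 ≤ c k := fun k => by positivity
  have hP0 : ∀ g, 0 ≤ P g := fun g => Finset.sum_nonneg fun _ _ => Cmi_Phi_nonneg _ _ _ _ _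
  have hm : ∀ k1 : ℤ, k1 ≠ 0 → ∀ g : ℕ, 1 ≤ g → g ≤ 2 * K → k1 + g ≠ 0 →
      mnr Q H lam g B0 A k1 f ≤ c k1 * P g + c (k1 + g) * P g := by
    intro k1 hk1 g hg1 hg2 hk2
    have hgR : (0 : ℝ) < g := by exact_mod_cast (by omega : 0 < g)
    obtain ⟨_, hb, hd⟩ := h1 Q H lam g A k1 hg1 (by omega)
    have e1 := Cmi_fib (good Q H lam g A k1) (fun x => x.1) J (Cmi_Phi lam B0 f g)
      (2 * g * H * ((lam : ℝ) / |(k1 : ℝ)| + 1)) ((lam : ℝ) ^ 2) (by positivity)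
      (Cmi_Phi_nonneg lam B0 f g) (Cmi_Phi_zero lam N B0 f hlam1 hf g) (fun i => hb i hk1)
    have e2 := Cmi_fib (good Q H lam g A k1) (fun x => x.2) J (Cmi_Phi lam B0 f g)
      (2 * g * H * ((lam : ℝ) / |((k1 + g : ℤ) : ℝ)| + 1)) ((lam : ℝ) ^ 2) (by positivity)
      (Cmi_Phi_nonneg lam B0 f g) (Cmi_Phi_zero lam N B0 f hlam1 hf g) (fun i => hd i hk2)
    rw [← Finset.sum_mul] at e1 e2
    rw [Cmi_mnr]
    have e3 : (1 / (g : ℝ)) * ((P g * (2 * g * H * ((lam : ℝ) / |(k1 : ℝ)| + 1) / (lam : ℝ) ^ 2) +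
        P g * (2 * g * H * ((lam : ℝ) / |((k1 + g : ℤ) : ℝ)| + 1) / (lam : ℝ) ^ 2)) / 2) =
        c k1 * P g + c (k1 + g) * P g := by
      simp only [hc]
      field_simp
    rw [← e3]
    apply mul_le_mul_of_nonneg_left _ (by positivity)
    linarith
  have hE := Cmi_E h2 lam B0 K N f hB hK hlam1 hf
  have hL := Cmi_L K lam hK hlam
  set E := ∑ g ∈ Icc 1 (2 * K), P g with hEdef
  have hE0 : 0 ≤ E := Finset.sum_nonneg fun g _ => hP0 g
  set L := ∑ k ∈ s, c k with hLdef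
  have hL' : L ≤ (H : ℝ) / (lam : ℝ) ^ 2 * (4 * lam * (1 + Real.log K)) := by
    rw [hLdef, hc, ← Finset.mul_sum]
    exact mul_le_mul_of_nonneg_left hL (by positivity)
  have hL0 : 0 ≤ L := Finset.sum_nonneg fun k _ => hc0 k
  have t1 : ∑ k1 ∈ s, ∑ g ∈ (Icc 1 (2 * K)).filter (fun g : ℕ => k1 + g ≤ K ∧ k1 + g ≠ 0),
      mnr Q H lam g B0 A k1 f ≤
      ∑ k1 ∈ s, ∑ g ∈ (Icc 1 (2 * K)).filter (fun g : ℕ => k1 + g ≤ K ∧ k1 + g ≠ 0), c k1 * P g +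
      ∑ k1 ∈ s, ∑ g ∈ (Icc 1 (2 * K)).filter (fun g : ℕ => k1 + g ≤ K ∧ k1 + g ≠ 0),
        c (k1 + g) * P g := by
    rw [← Finset.sum_add_distrib]
    refine Finset.sum_le_sum fun k1 hk1 => ?_
    rw [← Finset.sum_add_distrib]
    refine Finset.sum_le_sum fun g hg => ?_
    rw [Finset.mem_filter, Finset.mem_Icc] at hg
    exact hm k1 (Finset.mem_filter.mp hk1).2 g hg.1.1 hg.1.2 hg.2.2
  have t2 : ∑ k1 ∈ s, ∑ g ∈ (Icc 1 (2 * K)).filter (fun g : ℕ => k1 + g ≤ K ∧ k1 + g ≠ 0), c k1 * P g ≤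
      L * E := by
    rw [hLdef, hEdef, Finset.sum_mul_sum]
    refine Finset.sum_le_sum fun k1 _ => ?_
    exact Finset.sum_le_sum_of_subset_of_nonneg (Finset.filter_subset _ _)
      fun g _ _ => mul_nonneg (hc0 _) (hP0 _)
  have t3 : ∑ k1 ∈ s, ∑ g ∈ (Icc 1 (2 * K)).filter (fun g : ℕ => k1 + g ≤ K ∧ k1 + g ≠ 0),
      c (k1 + g) * P g ≤ L * E := by
    simp_rw [Finset.sum_filter]
    rw [Finset.sum_comm, hEdef, Finset.mul_sum]
    refine Finset.sum_le_sum fun g hg => ?_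
    rw [Finset.mem_Icc] at hg
    rw [← Finset.sum_filter, ← Finset.sum_mul]
    apply mul_le_mul_of_nonneg_right _ (hP0 g)
    have hinj : Set.InjOn (fun k1 : ℤ => k1 + g)
        (s.filter (fun k1 : ℤ => k1 + g ≤ K ∧ k1 + g ≠ 0)) := by
      intro a _ b _ hab
      have : a + (g : ℤ) = b + g := hab
      omega
    rw [← Finset.sum_image (f := c) hinj, hLdef]
    refine Finset.sum_le_sum_of_subset_of_nonneg ?_ fun k _ _ => hc0 k
    intro k hk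
    rw [Finset.mem_image] at hk
    obtain ⟨a, ha, rfl⟩ := hk
    rw [Finset.mem_filter, hs, Finset.mem_filter, Finset.mem_Icc] at ha
    rw [hs, Finset.mem_filter, Finset.mem_Icc]
    omega
  have hfin : L * E ≤ (H : ℝ) / (lam : ℝ) ^ 2 * (4 * lam * (1 + Real.log K)) *
      (2 * K * ((40 * (lam : ℝ) / B0 + 320 * K) * S)) :=
    mul_le_mul hL' hE hE0 (by positivity)
  have hid : 2 * ((H : ℝ) / (lam : ℝ) ^ 2 * (4 * lam * (1 + Real.log K)) *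
      (2 * K * ((40 * (lam : ℝ) / B0 + 320 * K) * S))) =
      16 * ((H : ℝ) * K / lam) * (1 + Real.log K) * (40 * (lam : ℝ) / B0 + 320 * K) * S := by
    field_simp
    ring
  linarith

end Pool.Agent.Lib.UI
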