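import Pool.Agent.Lib.UI.SpecC

namespace Pool.Agent.Lib.UI

open Finset Pool.Agent.Lib.EH3

private lemma Cor_sq {ι : Type*} (s : Finset ι) (F : ι → ℂ) :
    ((‖∑ k ∈ s, F k‖ ^ 2 : ℝ) : ℂ) = ∑ k1 ∈ s, ∑ k2 ∈ s, F k1 * (starRingEnd ℂ) (F k2) := by
  have h := Complex.mul_conj' (∑ k ∈ s, F k)
  push_cast
  rw [← h, map_sum, Finset.sum_mul_sum]

private lemma Cor_swap {α β γ δ : Type*} (s : Finset α) (t : Finset β) (u : Finset γ) (v : Finset δ)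
    (X : α → β → γ → δ → ℂ) :
    ∑ d ∈ s, ∑ a ∈ t, ∑ k1 ∈ u, ∑ k2 ∈ v, X d a k1 k2 =
      ∑ k1 ∈ u, ∑ k2 ∈ v, ∑ d ∈ s, ∑ a ∈ t, X d a k1 k2 := by
  calc ∑ d ∈ s, ∑ a ∈ t, ∑ k1 ∈ u, ∑ k2 ∈ v, X d a k1 k2
      = ∑ d ∈ s, ∑ k1 ∈ u, ∑ a ∈ t, ∑ k2 ∈ v, X d a k1 k2 :=
        Finset.sum_congr rfl fun _ _ => Finset.sum_comm
    _ = ∑ k1 ∈ u, ∑ d ∈ s, ∑ a ∈ t, ∑ k2 ∈ v, X d a k1 k2 := Finset.sum_comm
    _ = ∑ k1 ∈ u, ∑ d ∈ s, ∑ k2 ∈ v, ∑ a ∈ t, X d a k1 k2 :=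
        Finset.sum_congr rfl fun _ _ => Finset.sum_congr rfl fun _ _ => Finset.sum_comm
    _ = ∑ k1 ∈ u, ∑ k2 ∈ v, ∑ d ∈ s, ∑ a ∈ t, X d a k1 k2 :=
        Finset.sum_congr rfl fun _ _ => Finset.sum_comm

private lemma Cor_WW (Q H K q b : ℕ) (A : ℤ) (u : ℤ → ℂ) :
    ((WW Q H K q b A u : ℝ) : ℂ) = ∑ k1 ∈ Icc (-(K : ℤ)) K, ∑ k2 ∈ Icc (-(K : ℤ)) K,
      ee ((b : ℝ) * (((k1 - k2 : ℤ) : ℝ) / (q : ℝ))) * PP Q H A u u k1 k2 := by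
  unfold WW
  rw [Complex.ofReal_sum]
  have h1 : ∀ d ∈ Ioc Q (2 * Q), ((∑ a ∈ Ico A (A + H),
      ‖∑ k ∈ Icc (-(K : ℤ)) K, ee ((b : ℝ) * (k : ℝ) / (q : ℝ)) * u (a + d * k)‖ ^ 2 : ℝ) : ℂ) =
      ∑ a ∈ Ico A (A + H), ∑ k1 ∈ Icc (-(K : ℤ)) K, ∑ k2 ∈ Icc (-(K : ℤ)) K,
        ee ((b : ℝ) * (((k1 - k2 : ℤ) : ℝ) / (q : ℝ))) *
          (u (a + d * k1) * (starRingEnd ℂ) (u (a + d * k2))) := by
    intro d _
    rw [Complex.ofReal_sum]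
    refine Finset.sum_congr rfl fun a _ => ?_
    rw [Cor_sq]
    refine Finset.sum_congr rfl fun k1 _ => Finset.sum_congr rfl fun k2 _ => ?_
    rw [map_mul, conj_ee]
    have h2 : ee ((b : ℝ) * (((k1 - k2 : ℤ) : ℝ) / (q : ℝ))) =
        ee ((b : ℝ) * (k1 : ℝ) / (q : ℝ)) * ee (-((b : ℝ) * (k2 : ℝ) / (q : ℝ))) := by
      rw [← ee_add]
      congr 1
      push_cast
      ring
    rw [h2]
    ring
  rw [Finset.sum_congr rfl h1, Cor_swap]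
  refine Finset.sum_congr rfl fun k1 _ => Finset.sum_congr rfl fun k2 _ => ?_
  unfold PP
  rw [Finset.mul_sum]
  refine Finset.sum_congr rfl fun d _ => ?_
  rw [Finset.mul_sum]

theorem tCor : CorStmt := by
  constructor
  · intro Q H K A u
    unfold VV
    rw [Complex.ofReal_sum]
    have h1 : ∀ d ∈ Ioc Q (2 * Q), ((∑ a ∈ Ico A (A + H),
        ‖∑ k ∈ Icc (-(K : ℤ)) K, u (a + d * k)‖ ^ 2 : ℝ) : ℂ) =
        ∑ a ∈ Ico A (A + H), ∑ k1 ∈ Icc (-(K : ℤ)) K, ∑ k2 ∈ Icc (-(K : ℤ)) K,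
          (u (a + d * k1) * (starRingEnd ℂ) (u (a + d * k2))) := by
      intro d _
      rw [Complex.ofReal_sum]
      refine Finset.sum_congr rfl fun a _ => ?_
      rw [Cor_sq]
    rw [Finset.sum_congr rfl h1, Cor_swap]
    rfl
  · intro Q H K q A u hq
    rw [Complex.ofReal_mul, Complex.ofReal_sum,
      Finset.sum_congr rfl (fun b _ => Cor_WW Q H K q b A u)]
    have h1 : ∑ b ∈ range q, ∑ k1 ∈ Icc (-(K : ℤ)) K, ∑ k2 ∈ Icc (-(K : ℤ)) K,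
        ee ((b : ℝ) * (((k1 - k2 : ℤ) : ℝ) / (q : ℝ))) * PP Q H A u u k1 k2 =
        ∑ k1 ∈ Icc (-(K : ℤ)) K, ∑ k2 ∈ Icc (-(K : ℤ)) K,
          (if (q : ℤ) ∣ (k1 - k2) then (q : ℂ) else 0) * PP Q H A u u k1 k2 := by
      rw [Finset.sum_comm]
      refine Finset.sum_congr rfl fun k1 _ => ?_
      rw [Finset.sum_comm]
      refine Finset.sum_congr rfl fun k2 _ => ?_
      rw [← Finset.sum_mul]
      congr 1
      exact orth (by omega) (k1 - k2)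
    rw [h1, Finset.mul_sum]
    refine Finset.sum_congr rfl fun k1 _ => ?_
    rw [Finset.mul_sum, Finset.sum_filter]
    refine Finset.sum_congr rfl fun k2 _ => ?_
    have h2 : ((q : ℤ) ∣ (k1 - k2)) ↔ ((q : ℤ) ∣ (k2 - k1)) := dvd_sub_comm
    have hq0 : (q : ℂ) ≠ 0 := by
      exact_mod_cast (by omega : q ≠ 0)
    by_cases h3 : (q : ℤ) ∣ (k2 - k1)
    · rw [if_pos (h2.mpr h3), if_pos h3]
      push_cast
      field_simp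
    · rw [if_neg (fun h => h3 (h2.mp h)), if_neg h3]
      simp

end Pool.Agent.Lib.UI
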