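import Pool.Agent.Lib.UI.SpecC

namespace Pool.Agent.Lib.UI

open Finset Pool.Agent.Lib.EH3

theorem tCpa : CpaStmt := by
  intro lam g f i j hg
  have hg0 : 0 < g := hg
  have hgC : (g : ℂ) ≠ 0 := by exact_mod_cast hg0.ne'
  have h1 : ∀ h ∈ range g, cF lam f ((h : ℝ) / (g : ℝ)) i *
      (starRingEnd ℂ) (cF lam f ((h : ℝ) / (g : ℝ)) j) =
      ∑ p ∈ cell lam i ×ˢ cell lam j, ((f p.1 : ℝ) : ℂ) * (starRingEnd ℂ) ((f p.2 : ℝ) : ℂ) *
        ee ((h : ℝ) * (((p.1 - p.2 : ℤ) : ℝ) / (g : ℝ))) := by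
    intro h _
    unfold cF
    rw [map_sum, Finset.sum_mul_sum, ← Finset.sum_product']
    refine Finset.sum_congr rfl fun p _ => ?_
    rw [map_mul, conj_ee]
    have e1 : ee ((h : ℝ) * (((p.1 - p.2 : ℤ) : ℝ) / (g : ℝ))) =
        ee ((p.1 : ℝ) * ((h : ℝ) / (g : ℝ))) * ee (-((p.2 : ℝ) * ((h : ℝ) / (g : ℝ)))) := by
      rw [← ee_add]
      congr 1
      push_cast
      ring
    rw [e1]
    ring
  rw [Finset.sum_congr rfl h1, Finset.sum_comm, cong, Finset.sum_filter, Finset.mul_sum]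
  refine Finset.sum_congr rfl fun p _ => ?_
  rw [← Finset.mul_sum, orth hg0]
  have h2 : ((g : ℤ) ∣ p.2 - p.1) ↔ ((g : ℤ) ∣ p.1 - p.2) := by
    rw [← dvd_neg, neg_sub]
  by_cases h : (g : ℤ) ∣ p.1 - p.2
  · rw [if_pos (h2.2 h), if_pos h]
    field_simp
  · rw [if_neg (fun h' => h (h2.1 h')), if_neg h]
    simp

end Pool.Agent.Lib.UI
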