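import Pool.Agent.Lib.UI.SpecC

namespace Pool.Agent.Lib.UI

open Finset Pool.Agent.Lib.EH3

private lemma Cpc_card (lam : ℕ) (j : ℤ) : (cell lam j).card = lam := by
  unfold cell
  rw [Int.card_Ico]
  have h : (j + 1) * (lam : ℤ) - j * lam = lam := by ring
  rw [h, Int.toNat_natCast]

private lemma Cpc_div {lam : ℕ} (hl : 1 ≤ lam) {j n : ℤ} (hn : n ∈ cell lam j) :
    n / (lam : ℤ) = j := by
  unfold cell at hn
  rw [mem_Ico] at hn
  have h0 : (0 : ℤ) < lam := by exact_mod_cast hl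
  exact le_antisymm (Int.lt_add_one_iff.1 (Int.ediv_lt_of_lt_mul h0 hn.2))
    (Int.le_ediv_of_mul_le h0 hn.1)

private lemma Cpc_row (lam g : ℕ) (n j : ℤ) (hg : 1 ≤ g) :
    |((((cell lam j).filter (fun m => (g : ℤ) ∣ m - n)).card : ℕ) : ℝ) - (lam : ℝ) / g| ≤ 1 := by
  have h0 : (0 : ℤ) < g := by exact_mod_cast hg
  have hgR : (0 : ℚ) < g := by exact_mod_cast hg
  have e : (cell lam j).filter (fun m => (g : ℤ) ∣ m - n) =
      (Ico (j * lam) ((j + 1) * lam) : Finset ℤ).filter (fun m => m ≡ n [ZMOD (g : ℤ)]) := by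
    unfold cell
    refine Finset.filter_congr fun m _ => ?_
    rw [Int.modEq_comm, Int.modEq_iff_dvd]
  have h1 := Int.Ico_filter_modEq_card (j * lam) ((j + 1) * lam) h0 n
  rw [e]
  have h2 : (((Ico (j * lam) ((j + 1) * lam) : Finset ℤ).filter
      (fun m => m ≡ n [ZMOD (g : ℤ)])).card : ℚ) =
      max (((⌈(((j + 1) * lam - n : ℤ) : ℚ) / (g : ℤ)⌉ : ℤ) : ℚ) -
        ((⌈((j * lam - n : ℤ) : ℚ) / (g : ℤ)⌉ : ℤ) : ℚ)) 0 := by
    have h3 := congrArg (fun z : ℤ => (z : ℚ)) h1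
    simp only [Int.cast_natCast] at h3
    rw [h3]
    push_cast
    rfl
  have hY := Int.le_ceil ((((j + 1) * lam - n : ℤ) : ℚ) / (g : ℤ))
  have hY' := Int.ceil_lt_add_one ((((j + 1) * lam - n : ℤ) : ℚ) / (g : ℤ))
  have hX := Int.le_ceil (((j * lam - n : ℤ) : ℚ) / (g : ℤ))
  have hX' := Int.ceil_lt_add_one (((j * lam - n : ℤ) : ℚ) / (g : ℤ))
  have hXY : (((j + 1) * lam - n : ℤ) : ℚ) / (g : ℤ) =
      ((j * lam - n : ℤ) : ℚ) / (g : ℤ) + (lam : ℚ) / g := by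
    push_cast
    field_simp
    ring
  have hnn : 0 ≤ (lam : ℚ) / g := by positivity
  rw [hXY] at hY hY' h2
  have h4 : |((((Ico (j * lam) ((j + 1) * lam) : Finset ℤ).filter
      (fun m => m ≡ n [ZMOD (g : ℤ)])).card : ℕ) : ℚ) - (lam : ℚ) / g| ≤ 1 := by
    rw [h2, abs_le]
    rcases max_cases (((⌈((j * lam - n : ℤ) : ℚ) / (g : ℤ) + (lam : ℚ) / g⌉ : ℤ) : ℚ) -
        ((⌈((j * lam - n : ℤ) : ℚ) / (g : ℤ)⌉ : ℤ) : ℚ)) 0 with h | h
    · rw [h.1]
      constructor <;> linarith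
    · rw [h.1]
      constructor <;> linarith
  have h5 := (Rat.cast_le (K := ℝ)).2 h4
  rw [Rat.cast_abs, Rat.cast_sub, Rat.cast_div, Rat.cast_natCast, Rat.cast_natCast,
    Rat.cast_natCast, Rat.cast_one] at h5
  exact h5

private lemma Cpc_count (lam g : ℕ) (i j : ℤ) (hg : 1 ≤ g) :
    |((cong lam g i j).card : ℝ) - (lam : ℝ) ^ 2 / g| ≤ lam := by
  have h1 : ((cong lam g i j).card : ℝ) =
      ∑ n ∈ cell lam i, ((((cell lam j).filter (fun m => (g : ℤ) ∣ m - n)).card : ℕ) : ℝ) := by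
    unfold cong
    rw [Finset.card_filter, Finset.sum_product]
    push_cast
    refine Finset.sum_congr rfl fun n _ => ?_
    rw [Finset.card_filter]
    push_cast
    rfl
  have h2 : (lam : ℝ) ^ 2 / g = ∑ _n ∈ cell lam i, (lam : ℝ) / g := by
    rw [Finset.sum_const, Cpc_card, nsmul_eq_mul]
    ring
  rw [h1, h2, ← Finset.sum_sub_distrib]
  calc |∑ n ∈ cell lam i, (((((cell lam j).filter (fun m => (g : ℤ) ∣ m - n)).card : ℕ) : ℝ) -
        (lam : ℝ) / g)|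
      ≤ ∑ n ∈ cell lam i, |((((cell lam j).filter (fun m => (g : ℤ) ∣ m - n)).card : ℕ) : ℝ) -
        (lam : ℝ) / g| := Finset.abs_sum_le_sum_abs _ _
    _ ≤ ∑ _n ∈ cell lam i, (1 : ℝ) := Finset.sum_le_sum fun n _ => Cpc_row lam g n j hg
    _ = lam := by rw [Finset.sum_const, Cpc_card, nsmul_eq_mul, mul_one]

private lemma Cpc_norm (lam : ℕ) (f : ℤ → ℝ) (M t : ℝ) (j : ℤ) (hf : ∀ n, |f n| ≤ M) :
    ‖cF lam f t j‖ ≤ M * lam := by
  unfold cF
  calc ‖∑ n ∈ cell lam j, ((f n : ℝ) : ℂ) * ee ((n : ℝ) * t)‖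
      ≤ ∑ n ∈ cell lam j, ‖((f n : ℝ) : ℂ) * ee ((n : ℝ) * t)‖ := norm_sum_le _ _
    _ ≤ ∑ _n ∈ cell lam j, M := by
        refine Finset.sum_le_sum fun n _ => ?_
        rw [norm_mul, norm_ee, mul_one, Complex.norm_real, Real.norm_eq_abs]
        exact hf n
    _ = M * lam := by rw [Finset.sum_const, Cpc_card, nsmul_eq_mul, mul_comm]

theorem tCpc : CpcStmt := by
  refine ⟨fun lam g i j _ hg => Cpc_count lam g i j hg, ?_, ?_⟩
  · intro lam g f M t i j hl hg hf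
    have hlR : (0 : ℝ) < lam := by exact_mod_cast hl
    have hgR : (0 : ℝ) < g := by exact_mod_cast hg
    have hlC : (lam : ℂ) ≠ 0 := by exact_mod_cast (ne_of_gt hl)
    have hgC : (g : ℂ) ≠ 0 := by exact_mod_cast (ne_of_gt hg)
    have hM : 0 ≤ M := (abs_nonneg _).trans (hf 0)
    have h1 : ∑ p ∈ cong lam g i j, cA lam f t p.1 * (starRingEnd ℂ) (cA lam f t p.2) =
        ((cong lam g i j).card : ℂ) *
          ((cF lam f t i * (starRingEnd ℂ) (cF lam f t j)) / (lam : ℂ) ^ 2) := by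
      have h2 : ∀ p ∈ cong lam g i j, cA lam f t p.1 * (starRingEnd ℂ) (cA lam f t p.2) =
          (cF lam f t i * (starRingEnd ℂ) (cF lam f t j)) / (lam : ℂ) ^ 2 := by
        intro p hp
        have hp' := Finset.mem_product.1 (Finset.mem_filter.1 hp).1
        unfold cA
        rw [Cpc_div hl hp'.1, Cpc_div hl hp'.2, map_div₀, Complex.conj_natCast]
        field_simp
      rw [Finset.sum_congr rfl h2, Finset.sum_const, nsmul_eq_mul]
    rw [h1]
    have h3 : ((cong lam g i j).card : ℂ) *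
          ((cF lam f t i * (starRingEnd ℂ) (cF lam f t j)) / (lam : ℂ) ^ 2) -
        (1 / (g : ℂ)) * (cF lam f t i * (starRingEnd ℂ) (cF lam f t j)) =
        (((((cong lam g i j).card : ℝ) - (lam : ℝ) ^ 2 / g) / (lam : ℝ) ^ 2 : ℝ) : ℂ) *
          (cF lam f t i * (starRingEnd ℂ) (cF lam f t j)) := by
      push_cast
      field_simp
    rw [h3, norm_mul, norm_mul, RCLike.norm_conj, Complex.norm_real, Real.norm_eq_abs, abs_div,
      abs_of_pos (pow_pos hlR 2)]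
    have h4 := Cpc_count lam g i j hg
    have h5 := Cpc_norm lam f M t i hf
    have h6 := Cpc_norm lam f M t j hf
    have h7 : ‖cF lam f t i‖ * ‖cF lam f t j‖ ≤ (M * lam) * (M * lam) :=
      mul_le_mul h5 h6 (norm_nonneg _) (by positivity)
    have h8 : |((cong lam g i j).card : ℝ) - (lam : ℝ) ^ 2 / g| / (lam : ℝ) ^ 2 ≤
        (lam : ℝ) / (lam : ℝ) ^ 2 := by gcongr
    calc |((cong lam g i j).card : ℝ) - (lam : ℝ) ^ 2 / g| / (lam : ℝ) ^ 2 *
          (‖cF lam f t i‖ * ‖cF lam f t j‖)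
        ≤ (lam : ℝ) / (lam : ℝ) ^ 2 * ((M * lam) * (M * lam)) :=
          mul_le_mul h8 h7 (by positivity) (by positivity)
      _ = M ^ 2 * lam := by field_simp
  · intro lam f M t n hl hf
    have hlR : (0 : ℝ) < lam := by exact_mod_cast hl
    unfold cA
    rw [norm_div, Complex.norm_natCast, div_le_iff₀ hlR]
    exact Cpc_norm lam f M t _ hf

end Pool.Agent.Lib.UI
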