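import Pool.Agent.Lib.UI.Cfr
import Pool.Agent.Lib.UI.Cpa
import Pool.Agent.Lib.UI.Cpc
import Pool.Agent.Lib.UI.Cin
import Pool.Agent.Lib.UI.Cct
import Pool.Agent.Lib.UI.Cls
import Pool.Agent.Lib.UI.Cfx
import Pool.Agent.Lib.UI.Cmi
import Pool.Agent.Lib.UI.Cor
import Pool.Agent.Lib.UI.Cfi

/-! MP_00e23e_nt, theorem U1: part C (step 2, reduction to small denominators), assembled. -/

namespace Pool.Agent.Lib.UI

/-- The result of step 2, unconditional. -/
theorem tCfiAll : CfiStmt :=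
  tCfi (tCfx tCfr tCpa tCpc tCin (tCct tCpc)) (tCmi (tCct tCpc) tCls) tCor tCpc

end Pool.Agent.Lib.UI
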