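import Pool.Agent.Lib.UI.SpecS

/-! MP_00e23e_nt, Lib/UI: one dyadic block (BlkStmt of UI/SpecS). -/

namespace Pool.Agent.Lib.UI

open Finset Pool.Agent.Lib.EH3

theorem tBlk (h1 : ParStmt) (h2 : PsiStmt) (h3 : CofStmt) (h4 : HiStmt) (h5 : LoStmt) (h6 : ChgStmt)
    (h7 : ItsStmt) : BlkStmt := by
  intro G Q K1 c M Z D m0 m1 hQ hK1 hc hM hG hZ hm0 hm1 htv hsum hD
  have hV : 1 ≤ Q * K1 := Nat.one_le_iff_ne_zero.mpr (by positivity)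
  obtain ⟨hψm, hψb⟩ := h2 G (Q * K1) M hM hG
  have hD0 : 0 ≤ D := by
    have := hD (Q * K1) le_rfl (by omega)
    exact le_trans (norm_nonneg _) this
  have hVr : (0 : ℝ) < ((Q : ℝ) * K1) := by
    have : (0 : ℝ) < ((Q * K1 : ℕ) : ℝ) := by exact_mod_cast hV
    push_cast at this
    exact this
  have htv0 : 0 ≤ tv G (Q * K1) (4 * (Q * K1)) := by
    unfold tv
    exact Finset.sum_nonneg (fun _ _ => norm_nonneg _)
  set T : ℝ := tv G (Q * K1) (4 * (Q * K1)) with hT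
  have hm1r : (1 : ℝ) ≤ (m1 : ℝ) := by exact_mod_cast hm1
  have hm0r : (1 : ℝ) ≤ (m0 : ℝ) := by exact_mod_cast hm0
  have hw : ∀ m : ℤ, |m| ≤ (m0 : ℤ) →
      ‖fourierCoeff (psi G (Q * K1)) m‖ ≤ 5 * m0 * D / ((Q : ℝ) * K1) := by
    intro m hm
    rw [h3 G (Q * K1) m hV, norm_mul]
    have h8 := h5 G (Q * K1) D m hV hD
    have h9 : ‖(1 / 4 : ℂ)‖ = 1 / 4 := by norm_num
    rw [h9]
    have hmr : |(m : ℝ)| ≤ (m0 : ℝ) := by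
      have : ((|m| : ℤ) : ℝ) ≤ ((m0 : ℤ) : ℝ) := by exact_mod_cast hm
      rw [Int.cast_abs] at this
      simpa using this
    have h10 : 10 * (1 + |(m : ℝ)|) * D / ((Q * K1 : ℕ) : ℝ) ≤ 20 * m0 * D / ((Q : ℝ) * K1) := by
      push_cast
      apply div_le_div_of_nonneg_right _ hVr.le
      apply mul_le_mul_of_nonneg_right _ hD0
      linarith
    calc 1 / 4 * ‖∑ n ∈ Ico (Q * K1) (4 * (Q * K1)), G n * om m n‖
        ≤ 1 / 4 * (20 * m0 * D / ((Q : ℝ) * K1)) := by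
          apply mul_le_mul_of_nonneg_left (le_trans h8 h10) (by norm_num)
      _ = 5 * m0 * D / ((Q : ℝ) * K1) := by ring
  have hW : ∀ m : ℤ, m ≠ 0 →
      ‖fourierCoeff (psi G (Q * K1)) m‖ ≤ ((2 * M + T) / 4) / |(m : ℝ)| := by
    intro m hm
    rw [h3 G (Q * K1) m hV, norm_mul]
    have h8 := h4 G (Q * K1) M m hV hG hm
    have h9 : ‖(1 / 4 : ℂ)‖ = 1 / 4 := by norm_num
    rw [h9]
    calc 1 / 4 * ‖∑ n ∈ Ico (Q * K1) (4 * (Q * K1)), G n * om m n‖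
        ≤ 1 / 4 * ((2 * M + T) / |(m : ℝ)|) := by
          apply mul_le_mul_of_nonneg_left h8 (by norm_num)
      _ = ((2 * M + T) / 4) / |(m : ℝ)| := by ring
  have hP := h1 (psi G (Q * K1)) (Ioc K1 (2 * K1)) c (fun k => Real.log k) M Z
    (5 * m0 * D / ((Q : ℝ) * K1)) ((2 * M + T) / 4) m0 m1 hψm hψb (fun k _ => hc k) hZ hm0 hm1
    hsum hw hW
  have hcard : (((Ioc K1 (2 * K1)).card : ℕ) : ℝ) = (K1 : ℝ) := by
    rw [Nat.card_Ioc]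
    congr 1
    omega
  rw [hcard] at hP
  have hC := h6 G Q K1 c M hQ hK1 hG
  have hI := h7 G Q K1 c M hQ hK1 hc hG htv
  have hQr : (0 : ℝ) ≤ (Q : ℝ) := Nat.cast_nonneg _
  have hbound : Z ^ 2 * M ^ 2 + (K1 : ℝ) ^ 2 * (3 * m0 * (5 * m0 * D / ((Q : ℝ) * K1)) ^ 2 +
      2 * ((2 * M + T) / 4) ^ 2 / m1) ≤ Z ^ 2 * M ^ 2 + (K1 : ℝ) ^ 2 *
      (75 * (m0 : ℝ) ^ 3 * D ^ 2 / ((Q : ℝ) * K1) ^ 2 + (2 * M + T) ^ 2 / m1) := by
    have e1 : 3 * (m0 : ℝ) * (5 * m0 * D / ((Q : ℝ) * K1)) ^ 2 =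
        75 * (m0 : ℝ) ^ 3 * D ^ 2 / ((Q : ℝ) * K1) ^ 2 := by
      rw [div_pow]
      ring
    have e2 : 2 * ((2 * M + T) / 4) ^ 2 / (m1 : ℝ) ≤ (2 * M + T) ^ 2 / m1 := by
      apply div_le_div_of_nonneg_right _ (by linarith)
      nlinarith [sq_nonneg (2 * M + T)]
    rw [e1]
    have e3 : (K1 : ℝ) ^ 2 * (75 * (m0 : ℝ) ^ 3 * D ^ 2 / ((Q : ℝ) * K1) ^ 2 +
        2 * ((2 * M + T) / 4) ^ 2 / m1) ≤ (K1 : ℝ) ^ 2 *
        (75 * (m0 : ℝ) ^ 3 * D ^ 2 / ((Q : ℝ) * K1) ^ 2 + (2 * M + T) ^ 2 / m1) := by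
      apply mul_le_mul_of_nonneg_left _ (by positivity)
      linarith
    linarith
  have hfin := le_trans hC (mul_le_mul_of_nonneg_left (le_trans hP hbound) (by positivity :
    (0 : ℝ) ≤ 8 * Q))
  linarith

end Pool.Agent.Lib.UI
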