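import Pool.Agent.Lib.UI.SpecS

/-!
MP_00e23e_nt, directory Lib/UI, module Chg: change of variables u = e^x.
-/

namespace Pool.Agent.Lib.UI

open Finset Pool.Agent.Lib.EH3

private lemma Chg_gy (G : ℕ → ℂ) (V : ℕ) : Measurable (gy G V) := by
  unfold gy
  refine Measurable.ite (measurableSet_lt Real.measurable_exp measurable_const) ?_ measurable_const
  exact (measurable_from_nat (f := G)).comp (Nat.measurable_floor.comp Real.measurable_exp)

private lemma Chg_psi (G : ℕ → ℂ) (V : ℕ) : Measurable (psi G V) :=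
  ((Chg_gy G V).comp measurable_subtype_coe).comp
    (AddCircle.measurableEquivIco 4 (Real.log V)).measurable

private lemma Chg_psi_bd (G : ℕ → ℂ) (V : ℕ) (M : ℝ) (hG : ∀ n, ‖G n‖ ≤ M) (x : AddCircle (4 : ℝ)) :
    ‖psi G V x‖ ≤ M := by
  have h : ∀ y, ‖gy G V y‖ ≤ M := by
    intro y
    unfold gy
    split_ifs
    · exact hG _
    · rw [norm_zero]
      exact (norm_nonneg _).trans (hG 0)
  exact h _

/-- the function on the circle -/
private noncomputable def Chg_h (G : ℕ → ℂ) (V K1 : ℕ) (c : ℕ → ℂ) (x : AddCircle (4 : ℝ)) : ℝ :=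
  ‖∑ k ∈ Ioc K1 (2 * K1), c k * psi G V (x + ((Real.log k : ℝ) : AddCircle (4 : ℝ)))‖ ^ 2

private lemma Chg_h_meas (G : ℕ → ℂ) (V K1 : ℕ) (c : ℕ → ℂ) : Measurable (Chg_h G V K1 c) := by
  unfold Chg_h
  refine Measurable.pow_const (Measurable.norm ?_) 2
  refine Finset.measurable_sum _ fun k _ => ?_
  exact ((Chg_psi G V).comp (measurable_id.add_const _)).const_mul _

private lemma Chg_h_bd (G : ℕ → ℂ) (V K1 : ℕ) (c : ℕ → ℂ) (M : ℝ) (hG : ∀ n, ‖G n‖ ≤ M) :
    ∃ B : ℝ, ∀ x, ‖Chg_h G V K1 c x‖ ≤ B := by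
  refine ⟨(∑ k ∈ Ioc K1 (2 * K1), ‖c k‖ * M) ^ 2, fun x => ?_⟩
  unfold Chg_h
  rw [Real.norm_of_nonneg (by positivity)]
  refine pow_le_pow_left₀ (norm_nonneg _) ((norm_sum_le _ _).trans (Finset.sum_le_sum fun k _ => ?_)) 2
  rw [norm_mul]
  exact mul_le_mul_of_nonneg_left (Chg_psi_bd G V M hG _) (norm_nonneg _)

private lemma Chg_pt (G : ℕ → ℂ) (Q K1 : ℕ) (c : ℕ → ℂ) (hQ : 1 ≤ Q) (hK1 : 1 ≤ K1) (x : ℝ)
    (hx1 : Real.log Q ≤ x) (hx2 : x < Real.log (2 * Q)) :
    ‖∑ k ∈ Ioc K1 (2 * K1), c k * G ⌊Real.exp x * (k : ℝ)⌋₊‖ ^ 2 =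
      Chg_h G (Q * K1) K1 c (x : AddCircle (4 : ℝ)) := by
  unfold Chg_h
  congr 2
  refine Finset.sum_congr rfl fun k hk => ?_
  rw [mem_Ioc] at hk
  have hQ' : (1 : ℝ) ≤ Q := by exact_mod_cast hQ
  have hK' : (1 : ℝ) ≤ K1 := by exact_mod_cast hK1
  have hk1 : (K1 : ℝ) ≤ k := by exact_mod_cast hk.1.le
  have hk2 : (k : ℝ) ≤ 2 * K1 := by exact_mod_cast hk.2
  have hk0 : (0 : ℝ) < k := by linarith
  have hV : (((Q * K1 : ℕ) : ℝ)) = Q * K1 := by push_cast; ring
  have hexp : Real.exp (x + Real.log k) = Real.exp x * k := by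
    rw [Real.exp_add, Real.exp_log hk0]
  have hlt : Real.exp x < 2 * Q := by
    rw [← Real.exp_log (show (0 : ℝ) < 2 * Q by linarith)]
    exact Real.exp_lt_exp.2 hx2
  have hprod : Real.exp x * k < 4 * (Q * K1) := by
    calc Real.exp x * k ≤ Real.exp x * (2 * K1) :=
          mul_le_mul_of_nonneg_left hk2 (Real.exp_pos x).le
      _ < 2 * Q * (2 * K1) := mul_lt_mul_of_pos_right hlt (by linarith)
      _ = 4 * (Q * K1) := by ring
  have hlog4 : Real.log 4 < 4 := by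
    have := Real.log_lt_sub_one_of_pos (show (0 : ℝ) < 4 by norm_num) (by norm_num)
    linarith
  have hmem : x + Real.log k ∈ Set.Ico (Real.log ((Q * K1 : ℕ) : ℝ)) (Real.log ((Q * K1 : ℕ) : ℝ) + 4) := by
    rw [hV]
    constructor
    · rw [Real.log_mul (by linarith) (by linarith)]
      have := Real.log_le_log (by linarith) hk1
      linarith
    · have h1 : x + Real.log k < Real.log (4 * (Q * K1)) := by
        rw [Real.lt_log_iff_exp_lt (by positivity), hexp]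
        exact hprod
      rw [Real.log_mul (by norm_num) (by positivity)] at h1
      linarith
  have h2 : psi G (Q * K1) ((x : AddCircle (4 : ℝ)) + ((Real.log k : ℝ) : AddCircle (4 : ℝ))) =
      gy G (Q * K1) (x + Real.log k) := by
    rw [← AddCircle.coe_add]
    exact AddCircle.liftIco_coe_apply hmem
  rw [h2]
  unfold gy
  rw [hexp, hV, if_pos hprod]

theorem tChg : ChgStmt := by
  intro G Q K1 c M hQ hK1 hG
  have hQ' : (1 : ℝ) ≤ Q := by exact_mod_cast hQ
  have hQ0 : (0 : ℝ) < Q := by linarith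
  set h : AddCircle (4 : ℝ) → ℝ := Chg_h G (Q * K1) K1 c with hh
  have hm : Measurable h := Chg_h_meas G (Q * K1) K1 c
  obtain ⟨B, hB⟩ := Chg_h_bd G (Q * K1) K1 c M hG
  have hnn : ∀ x, 0 ≤ h x := fun x => by
    rw [hh]
    unfold Chg_h
    positivity
  have hm2 : Measurable fun x : ℝ => h (x : AddCircle (4 : ℝ)) := hm.comp AddCircle.measurable_mk'
  set a : ℝ := Real.log Q with ha
  set b : ℝ := Real.log (2 * Q) with hb
  have hab : a < b := Real.log_lt_log hQ0 (by linarith)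
  have hb4 : b ≤ a + 4 := by
    rw [hb, Real.log_mul (by norm_num) (by linarith)]
    have := Real.log_two_lt_d9
    linarith
  have hea : Real.exp a = Q := Real.exp_log hQ0
  have heb : Real.exp b = 2 * Q := Real.exp_log (by linarith)
  -- the image of the interval
  have himg : Real.exp '' Set.Ioo a b = Set.Ioo (Q : ℝ) (2 * Q) := by
    ext y
    constructor
    · rintro ⟨x, hx, rfl⟩
      refine ⟨?_, ?_⟩
      · rw [← hea]
        exact Real.exp_lt_exp.2 hx.1
      · rw [← heb]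
        exact Real.exp_lt_exp.2 hx.2
    · intro hy
      have hy0 : 0 < y := by linarith [hy.1]
      refine ⟨Real.log y, ⟨?_, ?_⟩, Real.exp_log hy0⟩
      · exact Real.log_lt_log hQ0 hy.1
      · exact Real.log_lt_log hy0 hy.2
  have hint : ∀ s t : ℝ, MeasureTheory.IntegrableOn (fun x : ℝ => h (x : AddCircle (4 : ℝ)))
      (Set.Ioc s t) := by
    intro s t
    refine MeasureTheory.Measure.integrableOn_of_bounded (M := B) (by simp)
      hm2.aestronglyMeasurable ?_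
    exact Filter.Eventually.of_forall fun x => hB _
  have h1 : ∫ u in (Q : ℝ)..(2 * Q), ‖∑ k ∈ Ioc K1 (2 * K1), c k * G ⌊u * (k : ℝ)⌋₊‖ ^ 2 =
      ∫ x in Set.Ioo a b, |Real.exp x| • ‖∑ k ∈ Ioc K1 (2 * K1), c k * G ⌊Real.exp x * (k : ℝ)⌋₊‖ ^ 2 := by
    rw [intervalIntegral.integral_of_le (by linarith), MeasureTheory.integral_Ioc_eq_integral_Ioo,
      ← himg, MeasureTheory.integral_image_eq_integral_abs_deriv_smul measurableSet_Ioo
        (fun x _ => (Real.hasDerivAt_exp x).hasDerivWithinAt) (Real.exp_injective.injOn)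
        (fun u => ‖∑ k ∈ Ioc K1 (2 * K1), c k * G ⌊u * (k : ℝ)⌋₊‖ ^ 2)]
  have h2 : ∫ x in Set.Ioo a b, |Real.exp x| • ‖∑ k ∈ Ioc K1 (2 * K1), c k * G ⌊Real.exp x * (k : ℝ)⌋₊‖ ^ 2 =
      ∫ x in Set.Ioo a b, Real.exp x * h (x : AddCircle (4 : ℝ)) := by
    refine MeasureTheory.setIntegral_congr_fun measurableSet_Ioo fun x hx => ?_
    change |Real.exp x| • ‖∑ k ∈ Ioc K1 (2 * K1), c k * G ⌊Real.exp x * (k : ℝ)⌋₊‖ ^ 2 =
      Real.exp x * h (x : AddCircle (4 : ℝ))
    rw [Chg_pt G Q K1 c hQ hK1 x hx.1.le hx.2, abs_of_pos (Real.exp_pos x), smul_eq_mul]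
  have hI : MeasureTheory.IntegrableOn (fun x : ℝ => h (x : AddCircle (4 : ℝ))) (Set.Ioo a b) :=
    (hint a b).mono_set Set.Ioo_subset_Ioc_self
  have hJ : MeasureTheory.IntegrableOn (fun x : ℝ => Real.exp x * h (x : AddCircle (4 : ℝ)))
      (Set.Ioo a b) := by
    refine MeasureTheory.Measure.integrableOn_of_bounded (M := 2 * Q * B) (by simp)
      (Real.measurable_exp.mul hm2).aestronglyMeasurable ?_
    refine (MeasureTheory.ae_restrict_iff' measurableSet_Ioo).2 (Filter.Eventually.of_forall fun x hx => ?_)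
    rw [norm_mul, Real.norm_of_nonneg (Real.exp_pos x).le]
    have h5 : Real.exp x ≤ 2 * Q := by
      rw [← heb]
      exact Real.exp_le_exp.2 hx.2.le
    exact mul_le_mul h5 (hB _) (norm_nonneg _) (by linarith)
  have h3 : ∫ x in Set.Ioo a b, Real.exp x * h (x : AddCircle (4 : ℝ)) ≤
      ∫ x in Set.Ioo a b, 2 * Q * h (x : AddCircle (4 : ℝ)) := by
    refine MeasureTheory.setIntegral_mono_on hJ (hI.const_mul (2 * (Q : ℝ))) measurableSet_Ioo fun x hx => ?_
    refine mul_le_mul_of_nonneg_right ?_ (hnn _)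
    rw [← heb]
    exact Real.exp_le_exp.2 hx.2.le
  have h4 : ∫ x in Set.Ioo a b, h (x : AddCircle (4 : ℝ)) ≤
      ∫ x in Set.Ioc a (a + 4), h (x : AddCircle (4 : ℝ)) := by
    refine MeasureTheory.setIntegral_mono_set (hint a (a + 4)) ?_ ?_
    · exact Filter.Eventually.of_forall fun x => hnn _
    · refine (Set.Ioo_subset_Ioc_self.trans (Set.Ioc_subset_Ioc_right hb4)).eventuallyLE
  have h5 : ∫ x in Set.Ioc a (a + 4), h (x : AddCircle (4 : ℝ)) = 4 * ∫ x, h x ∂AddCircle.haarAddCircle := by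
    rw [AddCircle.integral_preimage 4 a h, AddCircle.integral_haarAddCircle, smul_eq_mul]
    ring
  rw [h1, h2]
  rw [MeasureTheory.integral_const_mul] at h3
  have h6 : 0 ≤ 2 * (Q : ℝ) := by linarith
  calc ∫ x in Set.Ioo a b, Real.exp x * h (x : AddCircle (4 : ℝ)) ≤
      2 * Q * ∫ x in Set.Ioo a b, h (x : AddCircle (4 : ℝ)) := h3
    _ ≤ 2 * Q * ∫ x in Set.Ioc a (a + 4), h (x : AddCircle (4 : ℝ)) := mul_le_mul_of_nonneg_left h4 h6
    _ = 8 * Q * ∫ x, h x ∂AddCircle.haarAddCircle := by rw [h5]; ring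

end Pool.Agent.Lib.UI
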