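import Pool.Agent.Lib.UI.SpecS

namespace Pool.Agent.Lib.UI

open Finset Pool.Agent.Lib.EH3 MeasureTheory

/-- the integrand -/
private noncomputable def Cof_h (G : ℕ → ℂ) (V : ℕ) (m : ℤ) (y : ℝ) : ℂ :=
  fourier (T := (4 : ℝ)) (-m) (y : AddCircle (4 : ℝ)) • psi G V (y : AddCircle (4 : ℝ))

private theorem Cof_four (m : ℤ) (y : ℝ) :
    (fourier (T := (4 : ℝ)) (-m) (y : AddCircle (4 : ℝ)) : ℂ) = ee (-((m : ℝ) * y / 4)) := by
  rw [fourier_coe_apply, ee]
  congr 1
  push_cast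
  ring

private theorem Cof_psi (G : ℕ → ℂ) (V : ℕ) (y : ℝ) (h1 : Real.log V ≤ y) (h2 : y < Real.log V + 4) :
    psi G V (y : AddCircle (4 : ℝ)) = gy G V y := by
  rw [psi]
  exact AddCircle.liftIco_coe_apply ⟨h1, h2⟩

private theorem Cof_log4 : Real.log 4 < 4 := by
  have := Real.log_lt_sub_one_of_pos (show (0 : ℝ) < 4 by norm_num) (by norm_num)
  linarith

private theorem Cof_h1 (G : ℕ → ℂ) (V : ℕ) (m : ℤ) (hV : 1 ≤ V) (n : ℕ) (hn1 : V ≤ n) (hn2 : n < 4 * V)
    (y : ℝ) (hy : y ∈ Set.Ioo (Real.log n) (Real.log ((n : ℝ) + 1))) :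
    Cof_h G V m y = G n * ee (-((m : ℝ) * y / 4)) := by
  have hV0 : (0 : ℝ) < V := by exact_mod_cast hV
  have hn0 : (0 : ℝ) < n := by
    have : 0 < n := by omega
    exact_mod_cast this
  have hVn : (V : ℝ) ≤ n := by exact_mod_cast hn1
  have hn4 : (n : ℝ) + 1 ≤ 4 * V := by
    have : n + 1 ≤ 4 * V := by omega
    exact_mod_cast this
  have e1 : (n : ℝ) < Real.exp y := by
    have := Real.exp_lt_exp.mpr hy.1
    rwa [Real.exp_log hn0] at this
  have e2 : Real.exp y < (n : ℝ) + 1 := by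
    have := Real.exp_lt_exp.mpr hy.2
    rwa [Real.exp_log (by positivity)] at this
  have hl1 : Real.log V ≤ Real.log n := Real.log_le_log hV0 hVn
  have hl2 : Real.log ((n : ℝ) + 1) ≤ Real.log V + Real.log 4 := by
    rw [← Real.log_mul hV0.ne' (by norm_num)]
    exact Real.log_le_log (by positivity) (by linarith)
  rw [Cof_h, Cof_four, Cof_psi G V y (by linarith [hy.1]) (by linarith [hy.2, Cof_log4]), gy,
    if_pos (lt_of_lt_of_le e2 hn4), (Nat.floor_eq_iff (Real.exp_pos y).le).mpr ⟨e1.le, e2⟩, smul_eq_mul,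
    mul_comm]

private theorem Cof_h2 (G : ℕ → ℂ) (V : ℕ) (m : ℤ) (hV : 1 ≤ V)
    (y : ℝ) (hy : y ∈ Set.Ioo (Real.log ((4 * V : ℕ) : ℝ)) (Real.log V + 4)) :
    Cof_h G V m y = 0 := by
  have hV0 : (0 : ℝ) < V := by exact_mod_cast hV
  have e1 : (4 : ℝ) * V < Real.exp y := by
    have := Real.exp_lt_exp.mpr hy.1
    rw [Real.exp_log (by positivity)] at this
    push_cast at this
    exact this
  have hl1 : Real.log V ≤ Real.log ((4 * V : ℕ) : ℝ) := by
    refine Real.log_le_log hV0 ?_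
    push_cast
    linarith
  rw [Cof_h, Cof_psi G V y (by linarith [hy.1]) hy.2, gy, if_neg (by linarith), smul_zero]

private theorem Cof_cont (c : ℂ) (m : ℤ) : Continuous (fun y : ℝ => c * ee (-((m : ℝ) * y / 4))) := by
  unfold ee
  fun_prop

private theorem Cof_int1 (G : ℕ → ℂ) (V : ℕ) (m : ℤ) (hV : 1 ≤ V) (n : ℕ) (hn1 : V ≤ n) (hn2 : n < 4 * V) :
    IntervalIntegrable (Cof_h G V m) volume (Real.log n) (Real.log ((n : ℝ) + 1)) := by
  have hn0 : (0 : ℝ) < n := by
    have : 0 < n := by omega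
    exact_mod_cast this
  have hle : Real.log n ≤ Real.log ((n : ℝ) + 1) := Real.log_le_log hn0 (by linarith)
  rw [intervalIntegrable_iff_integrableOn_Ioo_of_le hle]
  have h1 : IntegrableOn (fun y : ℝ => G n * ee (-((m : ℝ) * y / 4))) (Set.Ioo (Real.log n)
      (Real.log ((n : ℝ) + 1))) :=
    ((Cof_cont (G n) m).integrableOn_Icc (a := Real.log n)
      (b := Real.log ((n : ℝ) + 1))).mono_set Set.Ioo_subset_Icc_self
  exact h1.congr_fun (fun y hy => (Cof_h1 G V m hV n hn1 hn2 y hy).symm) measurableSet_Ioo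

private theorem Cof_val1 (G : ℕ → ℂ) (V : ℕ) (m : ℤ) (hV : 1 ≤ V) (n : ℕ) (hn1 : V ≤ n) (hn2 : n < 4 * V) :
    ∫ y in (Real.log n)..(Real.log ((n : ℝ) + 1)), Cof_h G V m y = G n * om m n := by
  have hn0 : (0 : ℝ) < n := by
    have : 0 < n := by omega
    exact_mod_cast this
  have hle : Real.log n ≤ Real.log ((n : ℝ) + 1) := Real.log_le_log hn0 (by linarith)
  rw [intervalIntegral.integral_congr_Ioo_of_le hle (fun y hy => Cof_h1 G V m hV n hn1 hn2 y hy),
    intervalIntegral.integral_const_mul, om]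

theorem tCof : CofStmt := by
  intro G V m hV
  have hV0 : (0 : ℝ) < V := by exact_mod_cast hV
  have hl2 : Real.log ((4 * V : ℕ) : ℝ) ≤ Real.log V + 4 := by
    push_cast
    rw [Real.log_mul (by norm_num) hV0.ne']
    linarith [Cof_log4]
  have hI1 : ∀ n ∈ Set.Ico V (4 * V), IntervalIntegrable (Cof_h G V m) volume
      (Real.log ((n : ℕ) : ℝ)) (Real.log ((n + 1 : ℕ) : ℝ)) := by
    intro n hn
    have := Cof_int1 G V m hV n hn.1 hn.2
    push_cast
    exact this
  have hI2 : IntervalIntegrable (Cof_h G V m) volume (Real.log ((4 * V : ℕ) : ℝ)) (Real.log V + 4) := by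
    rw [intervalIntegrable_iff_integrableOn_Ioo_of_le hl2]
    have h1 : IntegrableOn (fun _ : ℝ => (0 : ℂ)) (Set.Ioo (Real.log ((4 * V : ℕ) : ℝ))
      (Real.log V + 4)) := integrableOn_zero
    exact h1.congr_fun (fun y hy => (Cof_h2 G V m hV y hy).symm) measurableSet_Ioo
  have hI3 : IntervalIntegrable (Cof_h G V m) volume (Real.log V) (Real.log ((4 * V : ℕ) : ℝ)) :=
    IntervalIntegrable.trans_iterate_Ico (a := fun n : ℕ => Real.log (n : ℝ)) (by omega) hI1
  have hS : ∑ n ∈ Ico V (4 * V), (∫ y in (Real.log ((n : ℕ) : ℝ))..(Real.log ((n + 1 : ℕ) : ℝ)),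
      Cof_h G V m y) = ∫ y in (Real.log V)..(Real.log ((4 * V : ℕ) : ℝ)), Cof_h G V m y :=
    intervalIntegral.sum_integral_adjacent_intervals_Ico (a := fun n : ℕ => Real.log (n : ℝ)) (by omega) hI1
  have hZ : ∫ y in (Real.log ((4 * V : ℕ) : ℝ))..(Real.log V + 4), Cof_h G V m y = 0 := by
    rw [intervalIntegral.integral_congr_Ioo_of_le hl2 (fun y hy => Cof_h2 G V m hV y hy)]
    simp
  rw [fourierCoeff_eq_intervalIntegral (psi G V) m (Real.log V)]
  have h0 : ∫ x in (Real.log V)..(Real.log V + 4), (fourier (T := (4 : ℝ)) (-m) (x : AddCircle (4 : ℝ)) : ℂ) •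
      psi G V (x : AddCircle (4 : ℝ)) = ∑ n ∈ Ico V (4 * V), G n * om m n := by
    change ∫ x in (Real.log V)..(Real.log V + 4), Cof_h G V m x = _
    rw [← intervalIntegral.integral_add_adjacent_intervals hI3 hI2, hZ, add_zero, ← hS]
    refine sum_congr rfl fun n hn => ?_
    rw [mem_Ico] at hn
    have := Cof_val1 G V m hV n hn.1 hn.2
    push_cast
    exact this
  rw [h0, Complex.real_smul]
  push_cast
  ring

end Pool.Agent.Lib.UI
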