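import Pool.Agent.Lib.UI.SpecS

/-!
MP_00e23e_nt, directory Lib/UI, part S, module Dya: dyadic decomposition of a sum over k ≤ K.
-/

set_option autoImplicit false

namespace Pool.Agent.Lib.UI

open Finset Pool.Agent.Lib.EH3

private lemma Dya_sum (x : ℕ → ℂ) (K K0 : ℕ) : ∀ J : ℕ,
    ∑ k ∈ (Icc 1 (K0 * 2 ^ J)).filter (fun k => k ≤ K), x k =
      ∑ j ∈ range J, ∑ k ∈ (Ioc (K0 * 2 ^ j) (2 * (K0 * 2 ^ j))).filter (fun k => k ≤ K), x k +
        ∑ k ∈ (Icc 1 K0).filter (fun k => k ≤ K), x k := by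
  intro J
  induction J with
  | zero => simp
  | succ J ih =>
    rw [sum_range_succ, add_right_comm, ← ih, ← sum_union]
    · apply sum_congr _ (fun _ _ => rfl)
      ext k
      have h : K0 * 2 ^ (J + 1) = 2 * (K0 * 2 ^ J) := by ring
      simp only [mem_filter, mem_Icc, mem_union, mem_Ioc, h]
      omega
    · rw [disjoint_left]
      intro k hk hk'
      simp only [mem_filter, mem_Icc, mem_Ioc] at hk hk'
      omega

theorem tDya : DyaStmt := by
  intro x K K0 J hK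
  have h1 : (Icc 1 K) = (Icc 1 (K0 * 2 ^ J)).filter (fun k => k ≤ K) := by
    ext k
    simp only [mem_filter, mem_Icc]
    omega
  rw [h1, Dya_sum]
  set a : ℕ → ℂ := fun j => ∑ k ∈ (Ioc (K0 * 2 ^ j) (2 * (K0 * 2 ^ j))).filter (fun k => k ≤ K), x k with ha
  set b : ℂ := ∑ k ∈ (Icc 1 K0).filter (fun k => k ≤ K), x k with hb
  have h2 : ‖∑ j ∈ range J, a j + b‖ ≤ ∑ i ∈ range (J + 1), (if i < J then ‖a i‖ else ‖b‖) := by
    rw [sum_range_succ]
    refine (norm_add_le _ _).trans ?_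
    apply add_le_add
    · refine (norm_sum_le _ _).trans (le_of_eq ?_)
      apply sum_congr rfl
      intro i hi
      rw [if_pos (mem_range.1 hi)]
    · rw [if_neg (lt_irrefl J)]
  calc ‖∑ j ∈ range J, a j + b‖ ^ 2 ≤ (∑ i ∈ range (J + 1), (if i < J then ‖a i‖ else ‖b‖)) ^ 2 :=
        pow_le_pow_left₀ (norm_nonneg _) h2 2
    _ ≤ ((range (J + 1)).card : ℝ) * ∑ i ∈ range (J + 1), (if i < J then ‖a i‖ else ‖b‖) ^ 2 :=
        sq_sum_le_card_mul_sum_sq
    _ = ((J : ℝ) + 1) * (‖b‖ ^ 2 + ∑ j ∈ range J, ‖a j‖ ^ 2) := by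
        rw [card_range, sum_range_succ, if_neg (lt_irrefl J), add_comm (‖b‖ ^ 2)]
        push_cast
        have h3 : ∑ i ∈ range J, (if i < J then ‖a i‖ else ‖b‖) ^ 2 = ∑ j ∈ range J, ‖a j‖ ^ 2 := by
          apply sum_congr rfl
          intro i hi
          rw [if_pos (mem_range.1 hi)]
        rw [h3]

end Pool.Agent.Lib.UI
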