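import Pool.Agent.Lib.UI.SpecS

namespace Pool.Agent.Lib.UI

open Finset Pool.Agent.Lib.EH3

/-- the primitive -/
private noncomputable def Hi_E (m : ℤ) (y : ℝ) : ℂ :=
  ee (-((m : ℝ) * y / 4)) / (Complex.I * ((-(2 * Real.pi * (m : ℝ) / 4) : ℝ) : ℂ))

private lemma Hi_deriv (m : ℤ) (hm : m ≠ 0) (y : ℝ) :
    HasDerivAt (Hi_E m) (ee (-((m : ℝ) * y / 4))) y := by
  have hm' : (m : ℝ) ≠ 0 := by exact_mod_cast hm
  set c : ℝ := -(2 * Real.pi * (m : ℝ) / 4) with hc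
  have hc0 : c ≠ 0 := by
    rw [hc]
    have := Real.pi_pos
    intro h
    apply hm'
    have h2 : Real.pi * (m : ℝ) = 0 := by linarith
    rcases mul_eq_zero.1 h2 with h | h
    · exact absurd h Real.pi_ne_zero
    · exact h
  have hcc : Complex.I * (c : ℂ) ≠ 0 := mul_ne_zero Complex.I_ne_zero (by exact_mod_cast hc0)
  have he : ∀ y : ℝ, ee (-((m : ℝ) * y / 4)) = Complex.exp (Complex.I * ((c : ℝ) : ℂ) * (y : ℂ)) := by
    intro y
    unfold ee
    congr 1
    rw [hc]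
    push_cast
    ring
  have h1 : HasDerivAt (fun y : ℝ => Complex.exp (Complex.I * ((c : ℝ) : ℂ) * (y : ℂ)))
      (Complex.exp (Complex.I * ((c : ℝ) : ℂ) * (y : ℂ)) * (Complex.I * ((c : ℝ) : ℂ) * 1)) y := by
    have h2 : HasDerivAt (fun y : ℝ => Complex.I * ((c : ℝ) : ℂ) * (y : ℂ))
        (Complex.I * ((c : ℝ) : ℂ) * 1) y := by
      have h3 : HasDerivAt (fun y : ℝ => (y : ℂ)) 1 y := Complex.ofRealCLM.hasDerivAt
      exact h3.const_mul _
    exact h2.cexp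
  have h4 := h1.div_const (Complex.I * ((c : ℝ) : ℂ))
  have h5 : Hi_E m = fun y : ℝ =>
      Complex.exp (Complex.I * ((c : ℝ) : ℂ) * (y : ℂ)) / (Complex.I * ((c : ℝ) : ℂ)) := by
    funext y
    unfold Hi_E
    rw [he y]
  rw [h5, he y]
  have h6 : Complex.exp (Complex.I * ((c : ℝ) : ℂ) * (y : ℂ)) * (Complex.I * ((c : ℝ) : ℂ) * 1) /
      (Complex.I * ((c : ℝ) : ℂ)) = Complex.exp (Complex.I * ((c : ℝ) : ℂ) * (y : ℂ)) := by
    rw [mul_one, mul_div_assoc, div_self hcc, mul_one]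
  rw [h6] at h4
  exact h4

private lemma Hi_cont (m : ℤ) : Continuous (fun y : ℝ => ee (-((m : ℝ) * y / 4))) := by
  unfold ee
  fun_prop

private lemma Hi_om (m : ℤ) (hm : m ≠ 0) (n : ℕ) :
    om m n = Hi_E m (Real.log ((n : ℝ) + 1)) - Hi_E m (Real.log n) := by
  unfold om
  apply intervalIntegral.integral_eq_sub_of_hasDerivAt
  · intro y _
    exact Hi_deriv m hm y
  · exact (Hi_cont m).intervalIntegrable _ _

private lemma Hi_norm (m : ℤ) (hm : m ≠ 0) (y : ℝ) : ‖Hi_E m y‖ ≤ 1 / |(m : ℝ)| := by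
  have hm' : 0 < |(m : ℝ)| := by
    have : (m : ℝ) ≠ 0 := by exact_mod_cast hm
    exact abs_pos.2 this
  unfold Hi_E
  rw [norm_div, norm_ee, norm_mul, Complex.norm_I, one_mul, Complex.norm_real, Real.norm_eq_abs, abs_neg]
  have h1 : |2 * Real.pi * (m : ℝ) / 4| = Real.pi / 2 * |(m : ℝ)| := by
    have : 2 * Real.pi * (m : ℝ) / 4 = Real.pi / 2 * (m : ℝ) := by ring
    rw [this, abs_mul, abs_of_pos (by positivity)]
  rw [h1]
  apply one_div_le_one_div_of_le hm'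
  have : (1 : ℝ) ≤ Real.pi / 2 := by linarith [Real.two_le_pi]
  nlinarith

/-- Abel summation -/
private lemma Hi_abel (G E : ℕ → ℂ) (V W : ℕ) (h : V ≤ W) :
    ∑ n ∈ Ico V W, G n * (E (n + 1) - E n) =
      G W * E W - G V * E V - ∑ n ∈ Ico V W, (G (n + 1) - G n) * E (n + 1) := by
  induction W, h using Nat.le_induction with
  | base => simp
  | succ W hW ih =>
    rw [Finset.sum_Ico_succ_top hW, Finset.sum_Ico_succ_top hW, ih]
    ring

theorem tHi : HiStmt := by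
  intro G V M m hV hG hm
  have hm' : 0 < |(m : ℝ)| := by
    have : (m : ℝ) ≠ 0 := by exact_mod_cast hm
    exact abs_pos.2 this
  set E : ℕ → ℂ := fun n => Hi_E m (Real.log n) with hE
  have h1 : ∑ n ∈ Ico V (4 * V), G n * om m n = ∑ n ∈ Ico V (4 * V), G n * (E (n + 1) - E n) := by
    apply Finset.sum_congr rfl
    intro n _
    rw [Hi_om m hm n, hE]
    simp only [Nat.cast_add, Nat.cast_one]
  rw [h1, Hi_abel G E V (4 * V) (by omega)]
  have hEn : ∀ n, ‖E n‖ ≤ 1 / |(m : ℝ)| := fun n => Hi_norm m hm _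
  have hb : ∀ n, ‖G n * E n‖ ≤ M * (1 / |(m : ℝ)|) := by
    intro n
    rw [norm_mul]
    exact mul_le_mul (hG n) (hEn n) (norm_nonneg _) (le_trans (norm_nonneg _) (hG n))
  have hs : ‖∑ n ∈ Ico V (4 * V), (G (n + 1) - G n) * E (n + 1)‖ ≤
      tv G V (4 * V) * (1 / |(m : ℝ)|) := by
    refine le_trans (norm_sum_le _ _) ?_
    unfold tv
    rw [Finset.sum_mul]
    apply Finset.sum_le_sum
    intro n _
    rw [norm_mul]
    exact mul_le_mul_of_nonneg_left (hEn _) (norm_nonneg _)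
  calc ‖G (4 * V) * E (4 * V) - G V * E V - ∑ n ∈ Ico V (4 * V), (G (n + 1) - G n) * E (n + 1)‖
      ≤ ‖G (4 * V) * E (4 * V)‖ + ‖G V * E V‖ +
        ‖∑ n ∈ Ico V (4 * V), (G (n + 1) - G n) * E (n + 1)‖ := by
        refine le_trans (norm_sub_le _ _) ?_
        have := norm_sub_le (G (4 * V) * E (4 * V)) (G V * E V)
        linarith
    _ ≤ M * (1 / |(m : ℝ)|) + M * (1 / |(m : ℝ)|) + tv G V (4 * V) * (1 / |(m : ℝ)|) := by
        have h2 := hb (4 * V)
        have h3 := hb V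
        linarith
    _ = (2 * M + tv G V (4 * V)) / |(m : ℝ)| := by
        field_simp
        ring

end Pool.Agent.Lib.UI
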