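import Pool.Agent.Lib.UI.SpecS

/-!
MP_00e23e_nt, directory Lib/UI, module Its: from the sum over d to the integral over u.
-/

namespace Pool.Agent.Lib.UI

open Finset Pool.Agent.Lib.EH3

/-- the sum at the real point u -/
private noncomputable def Its_S (G : ℕ → ℂ) (K1 : ℕ) (c : ℕ → ℂ) (u : ℝ) : ℂ :=
  ∑ k ∈ Ioc K1 (2 * K1), c k * G ⌊u * (k : ℝ)⌋₊

private lemma Its_meas (G : ℕ → ℂ) (K1 : ℕ) (c : ℕ → ℂ) : Measurable (Its_S G K1 c) := by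
  unfold Its_S
  refine Finset.measurable_sum _ fun k _ => ?_
  refine Measurable.const_mul ?_ _
  exact (measurable_from_nat (f := G)).comp (Nat.measurable_floor.comp (measurable_id.mul_const _))

private lemma Its_bd (G : ℕ → ℂ) (K1 : ℕ) (c : ℕ → ℂ) (M : ℝ) (hc : ∀ k, ‖c k‖ ≤ 1)
    (hG : ∀ n, ‖G n‖ ≤ M) (u : ℝ) : ‖Its_S G K1 c u‖ ≤ K1 * M := by
  unfold Its_S
  refine (norm_sum_le _ _).trans ?_
  have h1 : ∀ k ∈ Ioc K1 (2 * K1), ‖c k * G ⌊u * (k : ℝ)⌋₊‖ ≤ M := by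
    intro k _
    rw [norm_mul]
    have h2 := hG ⌊u * (k : ℝ)⌋₊
    have h3 := norm_nonneg (G ⌊u * (k : ℝ)⌋₊)
    calc ‖c k‖ * ‖G ⌊u * (k : ℝ)⌋₊‖ ≤ 1 * ‖G ⌊u * (k : ℝ)⌋₊‖ :=
          mul_le_mul_of_nonneg_right (hc k) h3
      _ ≤ M := by rw [one_mul]; exact h2
  refine (Finset.sum_le_sum h1).trans ?_
  rw [Finset.sum_const, Nat.card_Ioc, nsmul_eq_mul]
  have : 2 * K1 - K1 = K1 := by omega
  rw [this]

private lemma Its_int (G : ℕ → ℂ) (K1 : ℕ) (c : ℕ → ℂ) (M : ℝ) (hc : ∀ k, ‖c k‖ ≤ 1)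
    (hG : ∀ n, ‖G n‖ ≤ M) (a b : ℝ) :
    IntervalIntegrable (fun u => ‖Its_S G K1 c u‖ ^ 2) MeasureTheory.volume a b := by
  refine IntervalIntegrable.mono_fun' (g := fun _ => ((K1 : ℝ) * M) ^ 2) intervalIntegrable_const
    ((Its_meas G K1 c).norm.pow_const 2).aestronglyMeasurable ?_
  refine Filter.Eventually.of_forall fun u => ?_
  change ‖‖Its_S G K1 c u‖ ^ 2‖ ≤ ((K1 : ℝ) * M) ^ 2
  rw [Real.norm_of_nonneg (by positivity)]
  exact pow_le_pow_left₀ (norm_nonneg _) (Its_bd G K1 c M hc hG u) 2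

/-- the values of G differ by the variation -/
private lemma Its_var (G : ℕ → ℂ) (x y z : ℕ) (h1 : x ≤ y) (h2 : y ≤ z) :
    ‖G z - G y‖ ≤ tv G x z := by
  have h3 : G z - G y = ∑ n ∈ Ico y z, (G (n + 1) - G n) := (Finset.sum_Ico_sub G h2).symm
  rw [h3]
  refine (norm_sum_le _ _).trans ?_
  unfold tv
  refine Finset.sum_le_sum_of_subset_of_nonneg (Finset.Ico_subset_Ico_left h1) ?_
  intro _ _ _
  exact norm_nonneg _

private lemma Its_tv_nonneg (G : ℕ → ℂ) (x y : ℕ) : 0 ≤ tv G x y :=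
  Finset.sum_nonneg fun _ _ => norm_nonneg _

private lemma Its_tv_mono (G : ℕ → ℂ) {x y x' y' : ℕ} (h1 : x' ≤ x) (h2 : y ≤ y') :
    tv G x y ≤ tv G x' y' :=
  Finset.sum_le_sum_of_subset_of_nonneg (Finset.Ico_subset_Ico h1 h2) fun _ _ _ => norm_nonneg _

private lemma Its_diff (G : ℕ → ℂ) (K1 : ℕ) (c : ℕ → ℂ) (hc : ∀ k, ‖c k‖ ≤ 1) (d : ℕ) (u : ℝ)
    (h1 : (d : ℝ) ≤ u) (h2 : u < d + 1) :
    ‖(∑ k ∈ Ioc K1 (2 * K1), c k * G ((d + 1) * k)) - Its_S G K1 c u‖ ≤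
      ∑ k ∈ Ioc K1 (2 * K1), tv G (d * k) ((d + 1) * k) := by
  unfold Its_S
  rw [← Finset.sum_sub_distrib]
  refine (norm_sum_le _ _).trans (Finset.sum_le_sum fun k hk => ?_)
  have hk0 : 0 < k := by
    rw [mem_Ioc] at hk
    omega
  have hk0' : (0 : ℝ) < k := by exact_mod_cast hk0
  rw [← mul_sub, norm_mul]
  have h3 : d * k ≤ ⌊u * (k : ℝ)⌋₊ := by
    apply Nat.le_floor
    push_cast
    exact mul_le_mul_of_nonneg_right h1 hk0'.le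
  have h4 : ⌊u * (k : ℝ)⌋₊ ≤ (d + 1) * k := by
    apply Nat.floor_le_of_le
    push_cast
    exact mul_le_mul_of_nonneg_right h2.le hk0'.le
  calc ‖c k‖ * ‖G ((d + 1) * k) - G ⌊u * (k : ℝ)⌋₊‖ ≤ 1 * ‖G ((d + 1) * k) - G ⌊u * (k : ℝ)⌋₊‖ :=
        mul_le_mul_of_nonneg_right (hc k) (norm_nonneg _)
    _ ≤ tv G (d * k) ((d + 1) * k) := by
        rw [one_mul]
        exact Its_var G _ _ _ h3 h4

private lemma Its_step (G : ℕ → ℂ) (K1 : ℕ) (c : ℕ → ℂ) (M : ℝ) (hc : ∀ k, ‖c k‖ ≤ 1)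
    (hG : ∀ n, ‖G n‖ ≤ M) (htv : ∀ n, tv G n (n + 2 * K1) ≤ 4 * M) (d : ℕ) :
    ‖∑ k ∈ Ioc K1 (2 * K1), c k * G ((d + 1) * k)‖ ^ 2 ≤
      2 * (∫ u in (d : ℝ)..((d : ℝ) + 1), ‖Its_S G K1 c u‖ ^ 2) +
        8 * M * K1 * ∑ k ∈ Ioc K1 (2 * K1), tv G (d * k) ((d + 1) * k) := by
  set V : ℝ := ∑ k ∈ Ioc K1 (2 * K1), tv G (d * k) ((d + 1) * k) with hV
  set A : ℂ := ∑ k ∈ Ioc K1 (2 * K1), c k * G ((d + 1) * k) with hA
  have hM : 0 ≤ M := (norm_nonneg _).trans (hG 0)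
  have hV0 : 0 ≤ V := Finset.sum_nonneg fun _ _ => Its_tv_nonneg _ _ _
  have hV1 : V ≤ K1 * (4 * M) := by
    have h1 : ∀ k ∈ Ioc K1 (2 * K1), tv G (d * k) ((d + 1) * k) ≤ 4 * M := by
      intro k hk
      rw [mem_Ioc] at hk
      refine le_trans (Its_tv_mono G le_rfl ?_) (htv (d * k))
      rw [add_mul, one_mul]
      omega
    refine (Finset.sum_le_sum h1).trans ?_
    rw [Finset.sum_const, Nat.card_Ioc, nsmul_eq_mul]
    have : 2 * K1 - K1 = K1 := by omega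
    rw [this]
  have hV2 : V ^ 2 ≤ 4 * M * K1 * V := by
    calc V ^ 2 = V * V := by ring
      _ ≤ (K1 * (4 * M)) * V := mul_le_mul_of_nonneg_right hV1 hV0
      _ = 4 * M * K1 * V := by ring
  have hpt : ∀ u ∈ Set.Ioo (d : ℝ) ((d : ℝ) + 1), ‖A‖ ^ 2 ≤ 2 * ‖Its_S G K1 c u‖ ^ 2 + 2 * V ^ 2 := by
    intro u hu
    have h1 := Its_diff G K1 c hc d u hu.1.le hu.2
    rw [← hA, ← hV] at h1
    have h2 : ‖A‖ ≤ ‖Its_S G K1 c u‖ + V := by
      have h3 : A = Its_S G K1 c u + (A - Its_S G K1 c u) := by ring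
      calc ‖A‖ = ‖Its_S G K1 c u + (A - Its_S G K1 c u)‖ := by rw [← h3]
        _ ≤ ‖Its_S G K1 c u‖ + ‖A - Its_S G K1 c u‖ := norm_add_le _ _
        _ ≤ ‖Its_S G K1 c u‖ + V := by linarith
    have h4 := norm_nonneg A
    have h5 := norm_nonneg (Its_S G K1 c u)
    nlinarith [sq_nonneg (‖Its_S G K1 c u‖ - V)]
  have hF := Its_int G K1 c M hc hG (d : ℝ) ((d : ℝ) + 1)
  have h1 : ∫ _u in (d : ℝ)..((d : ℝ) + 1), ‖A‖ ^ 2 ≤
      ∫ u in (d : ℝ)..((d : ℝ) + 1), (2 * ‖Its_S G K1 c u‖ ^ 2 + 2 * V ^ 2) :=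
    intervalIntegral.integral_mono_on_of_le_Ioo (by linarith) intervalIntegrable_const
      ((hF.const_mul 2).add intervalIntegrable_const) hpt
  rw [intervalIntegral.integral_const, intervalIntegral.integral_add (hF.const_mul 2)
    intervalIntegrable_const, intervalIntegral.integral_const_mul, intervalIntegral.integral_const,
    add_sub_cancel_left, one_smul, one_smul] at h1
  linarith

theorem tIts : ItsStmt := by
  intro G Q K1 c M hQ hK1 hc hG htv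
  have hM : 0 ≤ M := (norm_nonneg _).trans (hG 0)
  have key : ∀ m, Q ≤ m → ∑ d ∈ Ioc Q m, ‖∑ k ∈ Ioc K1 (2 * K1), c k * G (d * k)‖ ^ 2 ≤
      2 * (∫ u in (Q : ℝ)..m, ‖Its_S G K1 c u‖ ^ 2) +
        8 * M * K1 * ∑ k ∈ Ioc K1 (2 * K1), tv G (Q * k) (m * k) := by
    intro m hm
    induction m, hm using Nat.le_induction with
    | base =>
      rw [Finset.Ioc_self, Finset.sum_empty, intervalIntegral.integral_same, mul_zero, zero_add]
      have : 0 ≤ ∑ k ∈ Ioc K1 (2 * K1), tv G (Q * k) (Q * k) :=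
        Finset.sum_nonneg fun _ _ => Its_tv_nonneg _ _ _
      positivity
    | succ m hm IH =>
      rw [Finset.sum_Ioc_succ_top hm]
      have h1 := Its_step G K1 c M hc hG htv m
      have h2 : ∫ u in (Q : ℝ)..((m + 1 : ℕ) : ℝ), ‖Its_S G K1 c u‖ ^ 2 =
          (∫ u in (Q : ℝ)..m, ‖Its_S G K1 c u‖ ^ 2) +
            ∫ u in (m : ℝ)..((m : ℝ) + 1), ‖Its_S G K1 c u‖ ^ 2 := by
        rw [Nat.cast_succ, intervalIntegral.integral_add_adjacent_intervals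
          (Its_int G K1 c M hc hG _ _) (Its_int G K1 c M hc hG _ _)]
      have h3 : ∑ k ∈ Ioc K1 (2 * K1), tv G (Q * k) ((m + 1) * k) =
          (∑ k ∈ Ioc K1 (2 * K1), tv G (Q * k) (m * k)) +
            ∑ k ∈ Ioc K1 (2 * K1), tv G (m * k) ((m + 1) * k) := by
        rw [← Finset.sum_add_distrib]
        refine Finset.sum_congr rfl fun k _ => ?_
        unfold tv
        rw [Finset.sum_Ico_consecutive _ (Nat.mul_le_mul_right k hm)
          (Nat.mul_le_mul_right k (Nat.le_succ m))]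
      rw [h2, h3, mul_add, mul_add]
      linarith
  have h1 := key (2 * Q) (by omega)
  have h2 : ∑ k ∈ Ioc K1 (2 * K1), tv G (Q * k) (2 * Q * k) ≤ K1 * tv G (Q * K1) (4 * (Q * K1)) := by
    have h3 : ∀ k ∈ Ioc K1 (2 * K1), tv G (Q * k) (2 * Q * k) ≤ tv G (Q * K1) (4 * (Q * K1)) := by
      intro k hk
      rw [mem_Ioc] at hk
      refine Its_tv_mono G (Nat.mul_le_mul_left Q hk.1.le) ?_
      calc 2 * Q * k ≤ 2 * Q * (2 * K1) := Nat.mul_le_mul_left _ hk.2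
        _ = 4 * (Q * K1) := by ring
    refine (Finset.sum_le_sum h3).trans ?_
    rw [Finset.sum_const, Nat.card_Ioc, nsmul_eq_mul]
    have : 2 * K1 - K1 = K1 := by omega
    rw [this]
  have h4 : 8 * M * K1 * ∑ k ∈ Ioc K1 (2 * K1), tv G (Q * k) (2 * Q * k) ≤
      8 * M * (K1 : ℝ) ^ 2 * tv G (Q * K1) (4 * (Q * K1)) := by
    calc 8 * M * K1 * ∑ k ∈ Ioc K1 (2 * K1), tv G (Q * k) (2 * Q * k) ≤
        8 * M * K1 * (K1 * tv G (Q * K1) (4 * (Q * K1))) :=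
          mul_le_mul_of_nonneg_left h2 (by positivity)
      _ = _ := by ring
  have h5 : ((2 * Q : ℕ) : ℝ) = 2 * Q := by push_cast; ring
  rw [h5] at h1
  have h6 : (∫ u in (Q : ℝ)..(2 * Q), ‖∑ k ∈ Ioc K1 (2 * K1), c k * G ⌊u * (k : ℝ)⌋₊‖ ^ 2) =
      ∫ u in (Q : ℝ)..(2 * Q), ‖Its_S G K1 c u‖ ^ 2 := rfl
  rw [h6]
  linarith

end Pool.Agent.Lib.UI
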