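import Pool.Agent.Lib.UI.SpecS

/-!
MP_00e23e_nt, UI, module Lo: low frequencies, Abel summation.
-/

namespace Pool.Agent.Lib.UI

open Finset Pool.Agent.Lib.EH3

private lemma Lo_ee (x y : ℝ) : ‖ee x - ee y‖ ≤ 2 * Real.pi * |x - y| := by
  have h1 : ee x - ee y = ee y * (ee (x - y) - 1) := by
    have : ee x = ee y * ee (x - y) := by
      rw [← ee_add]
      congr 1
      ring
    rw [this]
    ring
  rw [h1, norm_mul, norm_ee, one_mul]
  have h2 : ‖ee (x - y) - 1‖ ≤ ‖2 * Real.pi * (x - y)‖ := by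
    unfold ee
    exact Real.norm_exp_I_mul_ofReal_sub_one_le
  refine h2.trans (le_of_eq ?_)
  rw [Real.norm_eq_abs, abs_mul, abs_of_pos (by positivity : 0 < 2 * Real.pi)]

private lemma Lo_cont (m : ℤ) : Continuous (fun y : ℝ => ee (-((m : ℝ) * y / 4))) := by
  unfold ee
  fun_prop

/-- comparison of an integral with the value at a point c of the interval -/
private lemma Lo_int (m : ℤ) (a b c δ : ℝ) (hab : a ≤ b) (hδ : b - a ≤ δ) (hc : c ∈ Set.Icc a b) :
    ‖(∫ y in a..b, ee (-((m : ℝ) * y / 4))) - ((b - a : ℝ) : ℂ) * ee (-((m : ℝ) * c / 4))‖ ≤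
      Real.pi / 2 * |(m : ℝ)| * δ ^ 2 := by
  have h1 : (∫ y in a..b, ee (-((m : ℝ) * y / 4))) - ((b - a : ℝ) : ℂ) * ee (-((m : ℝ) * c / 4)) =
      ∫ y in a..b, (ee (-((m : ℝ) * y / 4)) - ee (-((m : ℝ) * c / 4))) := by
    rw [intervalIntegral.integral_sub ((Lo_cont m).intervalIntegrable _ _)
      (intervalIntegrable_const)]
    rw [intervalIntegral.integral_const]
    rw [Complex.real_smul]
  rw [h1]
  have h2 : ∀ y ∈ Set.uIoc a b, ‖ee (-((m : ℝ) * y / 4)) - ee (-((m : ℝ) * c / 4))‖ ≤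
      Real.pi / 2 * |(m : ℝ)| * δ := by
    intro y hy
    rw [Set.uIoc_of_le hab] at hy
    refine (Lo_ee _ _).trans ?_
    have h3 : -((m : ℝ) * y / 4) - -((m : ℝ) * c / 4) = (m : ℝ) * ((c - y) / 4) := by ring
    rw [h3, abs_mul, abs_div, abs_of_pos (by norm_num : (0 : ℝ) < 4)]
    have h4 : |c - y| ≤ δ := by
      rw [abs_le]
      constructor
      · linarith [hy.1, hy.2, hc.1, hc.2]
      · linarith [hy.1, hy.2, hc.1, hc.2]
    calc 2 * Real.pi * (|(m : ℝ)| * (|c - y| / 4)) = Real.pi / 2 * |(m : ℝ)| * |c - y| := by ring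
      _ ≤ Real.pi / 2 * |(m : ℝ)| * δ := by
        apply mul_le_mul_of_nonneg_left h4
        have := Real.pi_pos
        positivity
  refine (intervalIntegral.norm_integral_le_of_norm_le_const h2).trans ?_
  rw [abs_of_nonneg (by linarith : (0 : ℝ) ≤ b - a)]
  have h5 : 0 ≤ Real.pi / 2 * |(m : ℝ)| * δ := by
    have := Real.pi_pos
    have : 0 ≤ δ := by linarith
    positivity
  calc Real.pi / 2 * |(m : ℝ)| * δ * (b - a) ≤ Real.pi / 2 * |(m : ℝ)| * δ * δ :=
        mul_le_mul_of_nonneg_left hδ h5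
    _ = Real.pi / 2 * |(m : ℝ)| * δ ^ 2 := by ring

private lemma Lo_log (x : ℝ) (hx : 0 < x) : Real.log (x + 1) - Real.log x ≤ 1 / x := by
  rw [← Real.log_div (by positivity) (by positivity)]
  refine (Real.log_le_sub_one_of_pos (by positivity)).trans (le_of_eq ?_)
  field_simp
  ring

private lemma Lo_mono (x : ℝ) (hx : 0 < x) : Real.log x ≤ Real.log (x + 1) :=
  Real.log_le_log hx (by linarith)

private lemma Lo_log2 (x : ℝ) (hx : 0 < x) :
    |(Real.log (x + 1) - Real.log x) - (Real.log (x + 1 + 1) - Real.log (x + 1))| ≤ 1 / x ^ 2 := by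
  have h1 : (Real.log (x + 1) - Real.log x) - (Real.log (x + 1 + 1) - Real.log (x + 1)) =
      Real.log ((x + 1) ^ 2 / (x * (x + 1 + 1))) := by
    rw [Real.log_div (by positivity) (by positivity), Real.log_mul (by positivity) (by positivity),
      Real.log_pow]
    push_cast
    ring
  rw [h1]
  have h2 : (x + 1) ^ 2 / (x * (x + 1 + 1)) = 1 + 1 / (x * (x + 1 + 1)) := by
    field_simp
    ring
  have h3 : 0 ≤ Real.log ((x + 1) ^ 2 / (x * (x + 1 + 1))) := by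
    rw [h2]
    apply Real.log_nonneg
    have : 0 ≤ 1 / (x * (x + 1 + 1)) := by positivity
    linarith
  rw [abs_of_nonneg h3]
  refine (Real.log_le_sub_one_of_pos (by positivity)).trans ?_
  rw [h2]
  have h4 : 1 / (x * (x + 1 + 1)) ≤ 1 / x ^ 2 := by
    apply one_div_le_one_div_of_le (by positivity)
    nlinarith
  linarith

private lemma Lo_om (m : ℤ) (n : ℕ) (hn : 1 ≤ n) : ‖om m n‖ ≤ 1 / (n : ℝ) := by
  have hn' : (0 : ℝ) < n := by exact_mod_cast hn
  unfold om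
  have h := intervalIntegral.norm_integral_le_of_norm_le_const
    (a := Real.log n) (b := Real.log ((n : ℝ) + 1)) (C := 1)
    (f := fun y => ee (-((m : ℝ) * y / 4))) (fun y _ => (norm_ee _).le)
  refine h.trans ?_
  rw [one_mul, abs_of_nonneg (by linarith [Lo_mono n hn'])]
  exact Lo_log n hn'

private lemma Lo_om2 (m : ℤ) (n : ℕ) (hn : 1 ≤ n) :
    ‖om m (n + 1) - om m n‖ ≤ (1 + Real.pi * |(m : ℝ)|) * (1 / (n : ℝ) ^ 2) := by
  have hn' : (0 : ℝ) < n := by exact_mod_cast hn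
  have h1 := Lo_int m (Real.log n) (Real.log ((n : ℝ) + 1)) (Real.log ((n : ℝ) + 1)) (1 / n)
    (Lo_mono n hn') (Lo_log n hn') ⟨Lo_mono n hn', le_refl _⟩
  have hlog : Real.log ((n : ℝ) + 1 + 1) - Real.log ((n : ℝ) + 1) ≤ 1 / n := by
    refine (Lo_log ((n : ℝ) + 1) (by positivity)).trans ?_
    exact one_div_le_one_div_of_le hn' (by linarith)
  have h2 := Lo_int m (Real.log ((n : ℝ) + 1)) (Real.log ((n : ℝ) + 1 + 1)) (Real.log ((n : ℝ) + 1)) (1 / n)
    (Lo_mono _ (by positivity)) hlog ⟨le_refl _, Lo_mono _ (by positivity)⟩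
  have h3 := Lo_log2 n hn'
  unfold om
  have hc1 : ((n + 1 : ℕ) : ℝ) = (n : ℝ) + 1 := by push_cast; rfl
  rw [hc1]
  generalize hI1 : (∫ y in (Real.log n)..(Real.log ((n : ℝ) + 1)), ee (-((m : ℝ) * y / 4))) = I1 at *
  generalize hI2 : (∫ y in (Real.log ((n : ℝ) + 1))..(Real.log ((n : ℝ) + 1 + 1)),
    ee (-((m : ℝ) * y / 4))) = I2 at *
  generalize hE : ee (-((m : ℝ) * Real.log ((n : ℝ) + 1) / 4)) = E at *
  have hEn : ‖E‖ = 1 := by rw [← hE]; exact norm_ee _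
  generalize hl0 : Real.log (n : ℝ) = l0 at *
  generalize hl1 : Real.log ((n : ℝ) + 1) = l1 at *
  generalize hl2 : Real.log ((n : ℝ) + 1 + 1) = l2 at *
  have h4 : I2 - I1 = (I2 - ((l2 - l1 : ℝ) : ℂ) * E) - (I1 - ((l1 - l0 : ℝ) : ℂ) * E) -
      (((l1 - l0 - (l2 - l1) : ℝ)) : ℂ) * E := by
    push_cast
    ring
  rw [h4]
  refine (norm_sub_le _ _).trans ?_
  refine (add_le_add_left (norm_sub_le _ _) _).trans ?_
  have h5 : ‖(((l1 - l0 - (l2 - l1) : ℝ)) : ℂ) * E‖ ≤ 1 / (n : ℝ) ^ 2 := by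
    rw [norm_mul, hEn, mul_one, Complex.norm_real, Real.norm_eq_abs]
    exact h3
  have h6 : (1 + Real.pi * |(m : ℝ)|) * (1 / (n : ℝ) ^ 2) =
      Real.pi / 2 * |(m : ℝ)| * (1 / (n : ℝ)) ^ 2 + Real.pi / 2 * |(m : ℝ)| * (1 / (n : ℝ)) ^ 2 +
        1 / (n : ℝ) ^ 2 := by
    field_simp
    ring
  rw [h6]
  exact add_le_add (add_le_add h2 h1) h5

private lemma Lo_abel (G w : ℕ → ℂ) (V k : ℕ) :
    ∑ n ∈ Ico V (V + k + 1), G n * w n = (∑ n ∈ Ico V (V + k + 1), G n) * w (V + k) -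
      ∑ j ∈ range k, (∑ n ∈ Ico V (V + j + 1), G n) * (w (V + j + 1) - w (V + j)) := by
  induction k with
  | zero =>
    simp
  | succ k ih =>
    rw [sum_range_succ, show V + (k + 1) + 1 = (V + k + 1) + 1 from by ring,
      show V + (k + 1) = V + k + 1 from by ring,
      sum_Ico_succ_top (show V ≤ V + k + 1 by omega) (fun n => G n * w n),
      sum_Ico_succ_top (show V ≤ V + k + 1 by omega) G, ih]
    ring

/-- low frequencies -/
theorem tLo : LoStmt := by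
  intro G V D m hV hD
  have hV' : (1 : ℝ) ≤ V := by exact_mod_cast hV
  have hV0 : (0 : ℝ) < V := by linarith
  have hD0 : 0 ≤ D := (norm_nonneg _).trans (hD V (le_refl _) (by omega))
  obtain ⟨k, hk⟩ : ∃ k, 4 * V = V + k + 1 := ⟨3 * V - 1, by omega⟩
  rw [hk, Lo_abel]
  refine (norm_sub_le _ _).trans ?_
  have h1 : ‖(∑ n ∈ Ico V (V + k + 1), G n) * om m (V + k)‖ ≤ D * (1 / V) := by
    rw [norm_mul]
    apply mul_le_mul (hD _ (by omega) (by omega)) _ (norm_nonneg _) hD0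
    refine (Lo_om m (V + k) (by omega)).trans ?_
    apply one_div_le_one_div_of_le hV0
    push_cast
    linarith [(Nat.cast_nonneg k : (0 : ℝ) ≤ k)]
  have h2 : ‖∑ j ∈ range k, (∑ n ∈ Ico V (V + j + 1), G n) * (om m (V + j + 1) - om m (V + j))‖ ≤
      k * (D * ((1 + Real.pi * |(m : ℝ)|) * (1 / (V : ℝ) ^ 2))) := by
    refine (norm_sum_le _ _).trans ?_
    have h3 : ∀ j ∈ range k, ‖(∑ n ∈ Ico V (V + j + 1), G n) * (om m (V + j + 1) - om m (V + j))‖ ≤
        D * ((1 + Real.pi * |(m : ℝ)|) * (1 / (V : ℝ) ^ 2)) := by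
      intro j hj
      rw [mem_range] at hj
      rw [norm_mul]
      apply mul_le_mul (hD _ (by omega) (by omega)) _ (norm_nonneg _) hD0
      refine (Lo_om2 m (V + j) (by omega)).trans ?_
      apply mul_le_mul_of_nonneg_left
      · apply one_div_le_one_div_of_le (by positivity)
        apply pow_le_pow_left₀ hV0.le
        push_cast
        linarith [(Nat.cast_nonneg j : (0 : ℝ) ≤ j)]
      · have := Real.pi_pos
        positivity
    refine (sum_le_sum h3).trans ?_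
    rw [sum_const, card_range, nsmul_eq_mul]
  have hk' : (k : ℝ) ≤ 3 * V := by
    have : k ≤ 3 * V := by omega
    exact_mod_cast this
  have hpi : Real.pi ≤ 3.15 := by linarith [Real.pi_lt_d2]
  have habs : 0 ≤ |(m : ℝ)| := abs_nonneg _
  have h4 : (k : ℝ) * (D * ((1 + Real.pi * |(m : ℝ)|) * (1 / (V : ℝ) ^ 2))) ≤
      (3 * V) * (D * ((1 + 3 * |(m : ℝ)| + |(m : ℝ)| * (15 / 100)) * (1 / (V : ℝ) ^ 2))) := by
    have h5 : 1 + Real.pi * |(m : ℝ)| ≤ 1 + 3 * |(m : ℝ)| + |(m : ℝ)| * (15 / 100) := by nlinarith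
    have h6 : 0 ≤ 1 + Real.pi * |(m : ℝ)| := by
      have := Real.pi_pos
      positivity
    have h7 : (0 : ℝ) ≤ 1 / (V : ℝ) ^ 2 := by positivity
    gcongr
  have h8 : (3 * (V : ℝ)) * (D * ((1 + 3 * |(m : ℝ)| + |(m : ℝ)| * (15 / 100)) * (1 / (V : ℝ) ^ 2))) =
      D * (3 + 9 * |(m : ℝ)| + |(m : ℝ)| * (45 / 100)) / V := by
    field_simp
    ring
  have h9 : D * (1 / (V : ℝ)) + D * (3 + 9 * |(m : ℝ)| + |(m : ℝ)| * (45 / 100)) / V ≤
      10 * (1 + |(m : ℝ)|) * D / V := by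
    have h10 : D * (1 / (V : ℝ)) + D * (3 + 9 * |(m : ℝ)| + |(m : ℝ)| * (45 / 100)) / V =
        D * (4 + 9 * |(m : ℝ)| + |(m : ℝ)| * (45 / 100)) / V := by
      field_simp
      ring
    rw [h10]
    apply div_le_div_of_nonneg_right _ hV0.le
    nlinarith [mul_nonneg hD0 habs]
  linarith

end Pool.Agent.Lib.UI
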