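import Pool.Agent.Lib.UI.SpecS

/-!
MP_00e23e_nt, directory Lib/UI, part S, module Pos: positive k, all exponents.
-/

set_option autoImplicit false

namespace Pool.Agent.Lib.UI

open Finset Pool.Agent.Lib.EH3

private lemma Pos_asy (s r : ℝ) (hr : 0 < r) :
    ∃ N0 : ℕ, ∀ N : ℕ, N0 ≤ N → (Real.log N) ^ s ≤ (N : ℝ) ^ r := by
  have h := (isLittleO_log_rpow_rpow_atTop s hr).bound (c := 1) one_pos
  have h' := tendsto_natCast_atTop_atTop.eventually h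
  obtain ⟨N0, hN0⟩ := Filter.eventually_atTop.1 h'
  refine ⟨N0, fun N hN => ?_⟩
  have h1 := hN0 N hN
  rw [one_mul] at h1
  have h2 : ‖(N : ℝ) ^ r‖ = (N : ℝ) ^ r := Real.norm_of_nonneg (by positivity)
  exact (le_abs_self _).trans (h1.trans h2.le)

private lemma Pos_thr (ε E F : ℝ) (hε : 0 < ε) : ∃ N0 : ℕ, 8 ≤ N0 ∧ ∀ N : ℕ, N0 ≤ N →
    2 ≤ Real.log N ∧ (Real.log N) ^ E ≤ (N : ℝ) ^ (ε / 2) ∧ (Real.log N) ^ E ≤ (2 : ℝ) ^ (Real.log N) ∧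
      (Real.log N) ^ F ≤ (N : ℝ) ^ ε := by
  obtain ⟨N1, h1⟩ := Pos_asy E (ε / 2) (by positivity)
  obtain ⟨N2, h2⟩ := Pos_asy E (Real.log 2) (Real.log_pos (by norm_num))
  obtain ⟨N3, h3⟩ := Pos_asy F ε hε
  refine ⟨8 + N1 + N2 + N3, by omega, fun N hN => ⟨?_, h1 N (by omega), ?_, h3 N (by omega)⟩⟩
  · have h8 : (8 : ℝ) ≤ N := by exact_mod_cast (by omega : 8 ≤ N)
    have h9 : Real.log 8 ≤ Real.log N := Real.log_le_log (by norm_num) h8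
    have h10 : Real.log 8 = 3 * Real.log 2 := by
      rw [show (8 : ℝ) = 2 ^ 3 by norm_num, Real.log_pow]
      norm_num
    have h11 := Real.log_two_gt_d9
    linarith
  · have h4 := h2 N (by omega)
    have hN0 : (0 : ℝ) < N := by exact_mod_cast (by omega : 0 < N)
    rw [Real.rpow_def_of_pos hN0, mul_comm] at h4
    rw [Real.rpow_def_of_pos (by norm_num : (0 : ℝ) < 2)]
    exact h4

/-- the exponential sum with a cut -/
private lemma Pos_cut (h2 : ZqStmt) {q K1 K : ℕ} {b : ℤ} {Z0 : ℝ} {m : ℤ} (hq : 1 ≤ q)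
    (hz : ∀ r : ℕ, ‖∑ k ∈ (Ioc K1 (min (2 * K1) K)).filter (fun k => k ≡ r [MOD q]),
      ee ((m : ℝ) / 4 * Real.log k)‖ ≤ Z0) :
    ‖∑ k ∈ Ioc K1 (2 * K1), (if k ≤ K then ee ((b : ℝ) * k / q) else 0) * ee ((m : ℝ) * Real.log k / 4)‖ ≤
      q * Z0 := by
  have h := h2 q K1 (min (2 * K1) K) b ((m : ℝ) / 4) Z0 hq hz
  refine le_of_eq_of_le ?_ h
  have h1 : Ioc K1 (min (2 * K1) K) = (Ioc K1 (2 * K1)).filter (fun k => k ≤ K) := by
    ext k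
    simp only [mem_filter, mem_Ioc]
    omega
  rw [h1, sum_filter]
  apply congrArg
  apply sum_congr rfl
  intro k _
  by_cases hk : k ≤ K
  · rw [if_pos hk, if_pos hk, show (m : ℝ) * Real.log k / 4 = (m : ℝ) / 4 * Real.log k by ring]
  · rw [if_neg hk, if_neg hk, zero_mul]

/-- the middle frequencies -/
private lemma Pos_n1 {L B A K Cz Z M q : ℝ} (hL : 1 ≤ L) (hA : 0 < A) (hK : 0 ≤ K)
    (hCz : 0 ≤ Cz) (hM : 0 ≤ M) (hMB : M ≤ L ^ B) (hq : 0 ≤ q) (hqB : q ≤ L ^ B) {K1 : ℝ} (hK1 : 0 ≤ K1)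
    (hK1K : K1 ≤ K) (hZ : Z = q * (Cz * K1 * L ^ (-(A + 2 * B + 2)))) :
    Z ^ 2 * M ^ 2 ≤ Cz ^ 2 * K ^ 2 * L ^ (-(A + 2)) := by
  have hL0 : 0 < L := by linarith
  set P : ℝ := L ^ (-(A + 2)) with hP
  have hP0 : 0 < P := Real.rpow_pos_of_pos hL0 _
  have hP1 : P ≤ 1 := Real.rpow_le_one_of_one_le_of_nonpos hL (by linarith)
  have hW : L ^ B * L ^ (-(A + 2 * B + 2)) * L ^ B = P := by
    rw [hP, ← Real.rpow_add hL0, ← Real.rpow_add hL0]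
    congr 1
    ring
  have hZM : Z * M ≤ Cz * K * P := by
    have h1 : Z * M ≤ (L ^ B * (Cz * K * L ^ (-(A + 2 * B + 2)))) * L ^ B := by
      rw [hZ]
      gcongr
    refine h1.trans (le_of_eq ?_)
    rw [← hW]
    ring
  have hZM0 : 0 ≤ Z * M := by
    rw [hZ]
    positivity
  calc Z ^ 2 * M ^ 2 = (Z * M) ^ 2 := by ring
    _ ≤ (Cz * K * P) ^ 2 := pow_le_pow_left₀ hZM0 hZM 2
    _ = Cz ^ 2 * K ^ 2 * P * P := by ring
    _ ≤ Cz ^ 2 * K ^ 2 * P * 1 := by gcongr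
    _ = Cz ^ 2 * K ^ 2 * P := by ring

/-- the low frequencies -/
private lemma Pos_n2 {L A B K a N m0 Q K1 D : ℝ} (hL : 1 ≤ L) (hA : 0 < A) (ha : 0 < a)
    (hm0 : 0 ≤ m0) (hm : m0 ≤ 5 * L ^ a) (hQ : 0 < Q) (hK1 : 0 < K1) (hK1K : K1 ≤ K) (hN : 0 < N)
    (hNV : N ≤ Q * K1 * L ^ (A + B + 2)) (hD : D = N * L ^ (-(2 * a + (A + B + 2) + A + 2))) :
    K1 ^ 2 * (75 * m0 ^ 3 * D ^ 2 / (Q * K1) ^ 2) ≤ 9375 * K ^ 2 * L ^ (-(A + 2)) := by
  have hL0 : 0 < L := by linarith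
  set P : ℝ := L ^ (-(A + 2)) with hP
  have hP0 : 0 < P := Real.rpow_pos_of_pos hL0 _
  have hP1 : P ≤ 1 := Real.rpow_le_one_of_one_le_of_nonpos hL (by linarith)
  have hR0 : 0 < L ^ (-(2 * a)) := Real.rpow_pos_of_pos hL0 _
  have hDV : D / (Q * K1) ≤ L ^ (-(2 * a)) * P := by
    rw [div_le_iff₀ (by positivity), hD]
    have h1 : N * L ^ (-(2 * a + (A + B + 2) + A + 2)) ≤
        (Q * K1 * L ^ (A + B + 2)) * L ^ (-(2 * a + (A + B + 2) + A + 2)) := by gcongr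
    refine h1.trans (le_of_eq ?_)
    have h2 : L ^ (A + B + 2) * L ^ (-(2 * a + (A + B + 2) + A + 2)) = L ^ (-(2 * a)) * P := by
      rw [hP, ← Real.rpow_add hL0, ← Real.rpow_add hL0]
      congr 1
      ring
    rw [mul_assoc, h2]
    ring
  have hDV0 : 0 ≤ D / (Q * K1) := by
    rw [hD]
    positivity
  have hm3 : m0 ^ 3 ≤ 125 * (L ^ a) ^ 3 := by
    calc m0 ^ 3 ≤ (5 * L ^ a) ^ 3 := pow_le_pow_left₀ hm0 hm 3
      _ = 125 * (L ^ a) ^ 3 := by ring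
  have hX : (L ^ a) ^ 3 * (L ^ (-(2 * a))) ^ 2 ≤ 1 := by
    rw [← Real.rpow_natCast, ← Real.rpow_natCast, ← Real.rpow_mul hL0.le, ← Real.rpow_mul hL0.le,
      ← Real.rpow_add hL0]
    apply Real.rpow_le_one_of_one_le_of_nonpos hL
    push_cast
    linarith
  have hX0 : 0 ≤ (L ^ a) ^ 3 * (L ^ (-(2 * a))) ^ 2 := by positivity
  have hK1' : K1 ^ 2 ≤ K ^ 2 := pow_le_pow_left₀ hK1.le hK1K 2
  calc K1 ^ 2 * (75 * m0 ^ 3 * D ^ 2 / (Q * K1) ^ 2) = K1 ^ 2 * (75 * (m0 ^ 3 * (D / (Q * K1)) ^ 2)) := by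
        rw [div_pow]
        ring
    _ ≤ K ^ 2 * (75 * ((125 * (L ^ a) ^ 3) * (L ^ (-(2 * a)) * P) ^ 2)) := by gcongr
    _ = 9375 * K ^ 2 * P * (P * ((L ^ a) ^ 3 * (L ^ (-(2 * a))) ^ 2)) := by ring
    _ ≤ 9375 * K ^ 2 * P * (1 * 1) := by gcongr
    _ = 9375 * K ^ 2 * P := by ring

/-- the high frequencies -/
private lemma Pos_n3 {L A B K N ε Q K1 M tvv : ℝ} (hL : 1 ≤ L) (hε : 0 < ε) (hQ : 1 ≤ Q)
    (hK1 : 0 < K1) (hK1K : K1 ≤ K) (hN : 1 ≤ N) (hQN : Q ≤ N ^ (1 - ε)) (hlog : L ^ (A + 2 * B + 2) ≤ N ^ ε)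
    (hM : 0 ≤ M) (hMB : M ≤ L ^ B) (htv0 : 0 ≤ tvv) (htv : tvv ≤ 2 * L ^ B * (3 * Q + 1)) :
    K1 ^ 2 * ((2 * M + tvv) ^ 2 / N ^ 2) ≤ 100 * K ^ 2 * L ^ (-(A + 2)) := by
  have hL0 : 0 < L := by linarith
  have hN0 : 0 < N := by linarith
  set P : ℝ := L ^ (-(A + 2)) with hP
  have hP0 : 0 < P := Real.rpow_pos_of_pos hL0 _
  have hB0 : 0 < L ^ B := Real.rpow_pos_of_pos hL0 _
  have h1 : 2 * M + tvv ≤ 10 * L ^ B * Q := by
    have h2 : 2 * M + tvv ≤ 2 * L ^ B + 2 * L ^ B * (3 * Q + 1) := by linarith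
    refine h2.trans ?_
    nlinarith [mul_le_mul_of_nonneg_left hQ hB0.le]
  have hQN' : Q / N ≤ N ^ (-ε) := by
    rw [div_le_iff₀ hN0]
    refine hQN.trans (le_of_eq ?_)
    rw [show (1 - ε) = -ε + 1 by ring, Real.rpow_add hN0, Real.rpow_one]
  have hB2 : (L ^ B) ^ 2 * N ^ (-ε) ≤ P := by
    have h3 : (L ^ B) ^ 2 = P * L ^ (A + 2 * B + 2) := by
      rw [hP, ← Real.rpow_add hL0, ← Real.rpow_natCast, ← Real.rpow_mul hL0.le]
      congr 1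
      push_cast
      ring
    have h4 : N ^ ε * N ^ (-ε) = 1 := by
      rw [← Real.rpow_add hN0]
      simp
    rw [h3, mul_assoc]
    have h5 : L ^ (A + 2 * B + 2) * N ^ (-ε) ≤ N ^ ε * N ^ (-ε) := by gcongr
    rw [h4] at h5
    calc P * (L ^ (A + 2 * B + 2) * N ^ (-ε)) ≤ P * 1 := by gcongr
      _ = P := mul_one P
  have hN1 : N ^ (-ε) ≤ 1 := Real.rpow_le_one_of_one_le_of_nonpos hN (by linarith)
  have hN2 : 0 < N ^ (-ε) := Real.rpow_pos_of_pos hN0 _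
  calc K1 ^ 2 * ((2 * M + tvv) ^ 2 / N ^ 2) ≤ K ^ 2 * ((10 * L ^ B * Q) ^ 2 / N ^ 2) := by gcongr
    _ = 100 * K ^ 2 * ((L ^ B) ^ 2 * (Q / N) ^ 2) := by
        rw [div_pow]
        ring
    _ ≤ 100 * K ^ 2 * ((L ^ B) ^ 2 * (N ^ (-ε)) ^ 2) := by gcongr
    _ = 100 * K ^ 2 * ((L ^ B) ^ 2 * N ^ (-ε) * N ^ (-ε)) := by ring
    _ ≤ 100 * K ^ 2 * (P * 1) := by gcongr
    _ = 100 * K ^ 2 * P := by ring

/-- the discretisation term -/
private lemma Pos_n4 {L A B K N ε Q K1 M tvv : ℝ} (hL : 1 ≤ L)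
    (hK1 : 0 < K1) (hK1K : K1 ≤ K) (hN : 1 ≤ N) (hQN : N ^ ε ≤ Q) (hlog : L ^ (A + 2 * B + 2) ≤ N ^ ε)
    (hMB : M ≤ L ^ B) (htv0 : 0 ≤ tvv)
    (htv : tvv ≤ 2 * L ^ B * (3 * (Q * L ^ (-(A + 2 * B + 2))) + 1)) :
    8 * M * K1 ^ 2 * tvv ≤ 64 * Q * K ^ 2 * L ^ (-(A + 2)) := by
  have hL0 : 0 < L := by linarith
  have hN0 : 0 < N := by linarith
  set P : ℝ := L ^ (-(A + 2)) with hP
  have hP0 : 0 < P := Real.rpow_pos_of_pos hL0 _
  have hB0 : 0 < L ^ B := Real.rpow_pos_of_pos hL0 _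
  have h3 : (L ^ B) ^ 2 = P * L ^ (A + 2 * B + 2) := by
    rw [hP, ← Real.rpow_add hL0, ← Real.rpow_natCast, ← Real.rpow_mul hL0.le]
    congr 1
    push_cast
    ring
  have h4 : L ^ (A + 2 * B + 2) * L ^ (-(A + 2 * B + 2)) = 1 := by
    rw [← Real.rpow_add hL0]
    simp
  have h5 : (L ^ B) ^ 2 ≤ P * Q := by
    rw [h3]
    exact mul_le_mul_of_nonneg_left (hlog.trans hQN) hP0.le
  calc 8 * M * K1 ^ 2 * tvv ≤ 8 * L ^ B * K ^ 2 * (2 * L ^ B * (3 * (Q * L ^ (-(A + 2 * B + 2))) + 1)) := by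
        gcongr
    _ = 48 * K ^ 2 * Q * ((L ^ B) ^ 2 * L ^ (-(A + 2 * B + 2))) + 16 * K ^ 2 * (L ^ B) ^ 2 := by ring
    _ ≤ 48 * K ^ 2 * Q * P + 16 * K ^ 2 * (P * Q) := by
        apply add_le_add
        · rw [h3, mul_assoc P, h4, mul_one]
        · gcongr
    _ = 64 * Q * K ^ 2 * P := by ring

/-- one block -/
private lemma Pos_blk (h2 : ZqStmt) (h4 : BlkStmt) {ε B A Cz a : ℝ} (hε : 0 < ε) (hB : 0 < B) (hA : 0 < A)
    (hCz : 0 ≤ Cz) (ha : 0 < a)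
    (hz : ∀ (N K K2 q b : ℕ) (t : ℝ), 3 ≤ N → (N : ℝ) ^ (ε / 2) ≤ K → K ≤ N → K ≤ K2 → K2 ≤ 2 * K → 1 ≤ q →
      (q : ℝ) ≤ (Real.log N) ^ B → (Real.log N) ^ a ≤ |t| → |t| ≤ (N : ℝ) ^ 2 →
      ‖∑ k ∈ (Ioc K K2).filter (fun k => k ≡ b [MOD q]), ee (t * Real.log k)‖ ≤
        Cz * K * (Real.log N) ^ (-(A + 2 * B + 2)))
    {N Q K q lam : ℕ} {b : ℤ} {G : ℕ → ℂ} {M : ℝ} (hN : 3 ≤ N) (hL : 2 ≤ Real.log N)
    (hl1 : (Real.log N) ^ (A + B + 2) ≤ (N : ℝ) ^ (ε / 2)) (hl4 : (Real.log N) ^ (A + 2 * B + 2) ≤ (N : ℝ) ^ ε)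
    (hKN : (N : ℝ) ^ ε ≤ K) (hKN' : K ≤ N) (hQN : (N : ℝ) ^ ε ≤ Q) (hQN' : (Q : ℝ) ≤ (N : ℝ) ^ (1 - ε))
    (hKQ : N ≤ K * Q) (hq : 1 ≤ q) (hqB : (q : ℝ) ≤ (Real.log N) ^ B) (hM : 0 ≤ M) (hMB : M ≤ (Real.log N) ^ B)
    (hlam : (K : ℝ) * (Real.log N) ^ (A + 2 * B + 2) ≤ lam) (hG : ∀ n, ‖G n‖ ≤ M)
    (htv : ∀ x y, x ≤ y → tv G x y ≤ 2 * M * (((y : ℝ) - x) / lam + 1))
    (hI : ∀ x y, ‖∑ n ∈ Ico x y, G n‖ ≤ N * (Real.log N) ^ (-(2 * a + (A + B + 2) + A + 2)))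
    {K1 : ℕ} (hK1 : (K : ℝ) / (Real.log N) ^ (A + B + 2) ≤ K1) (hK1' : K1 < K) :
    ∑ d ∈ Ioc Q (2 * Q), ‖∑ k ∈ (Ioc K1 (2 * K1)).filter (fun k => k ≤ K),
      ee ((b : ℝ) * k / q) * G (d * k)‖ ^ 2 ≤
    (16 * Cz ^ 2 + 151664) * Q * (K : ℝ) ^ 2 * (Real.log N) ^ (-(A + 2)) := by
  have hNr : (3 : ℝ) ≤ N := by exact_mod_cast hN
  have hN0 : (0 : ℝ) < N := by linarith
  set L : ℝ := Real.log N with hLdef
  have hL1 : 1 ≤ L := by linarith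
  have hL0 : 0 < L := by linarith
  have hN1 : (1 : ℝ) ≤ (N : ℝ) ^ ε := Real.one_le_rpow (by linarith) hε.le
  have hQ1r : (1 : ℝ) ≤ Q := hN1.trans hQN
  have hQ1 : 1 ≤ Q := by exact_mod_cast hQ1r
  have hK1r : (1 : ℝ) ≤ K := hN1.trans hKN
  -- lower bound for K1
  have hE0 : 0 < L ^ (A + B + 2) := Real.rpow_pos_of_pos hL0 _
  have hK1low : (N : ℝ) ^ (ε / 2) ≤ K1 := by
    refine le_trans ?_ hK1
    rw [le_div_iff₀ hE0]
    calc (N : ℝ) ^ (ε / 2) * L ^ (A + B + 2) ≤ (N : ℝ) ^ (ε / 2) * (N : ℝ) ^ (ε / 2) := by gcongr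
      _ = (N : ℝ) ^ ε := by
          rw [← Real.rpow_add hN0]
          congr 1
          ring
      _ ≤ K := hKN
  have hK11r : (1 : ℝ) ≤ K1 := (Real.one_le_rpow (by linarith) (by positivity)).trans hK1low
  have hK11 : 1 ≤ K1 := by exact_mod_cast hK11r
  have hK1K : (K1 : ℝ) ≤ K := by exact_mod_cast hK1'.le
  -- lam is large
  have hA1 : 2 ≤ L ^ (A + 2 * B + 2) := by
    calc (2 : ℝ) ≤ L := hL
      _ = L ^ (1 : ℝ) := (Real.rpow_one L).symm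
      _ ≤ L ^ (A + 2 * B + 2) := Real.rpow_le_rpow_of_exponent_le hL1 (by linarith)
  have hA10 : 0 < L ^ (A + 2 * B + 2) := by linarith
  have hlam0 : (0 : ℝ) < lam := lt_of_lt_of_le (by positivity) hlam
  have hlam2 : 2 * (K1 : ℝ) ≤ lam := by
    refine le_trans ?_ hlam
    calc 2 * (K1 : ℝ) ≤ 2 * K := by gcongr
      _ = K * 2 := by ring
      _ ≤ K * L ^ (A + 2 * B + 2) := by gcongr
  set m0 : ℕ := ⌊4 * L ^ a⌋₊ + 1 with hm0
  have ha1 : 1 ≤ L ^ a := Real.one_le_rpow hL1 ha.le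
  have hm0u : (m0 : ℝ) ≤ 5 * L ^ a := by
    have h := Nat.floor_le (show 0 ≤ 4 * L ^ a by linarith)
    rw [hm0]
    push_cast
    linarith
  have hm0l : 4 * L ^ a < m0 := by
    rw [hm0]
    push_cast
    exact Nat.lt_floor_add_one _
  set Z : ℝ := q * (Cz * K1 * L ^ (-(A + 2 * B + 2))) with hZ
  have hZ0 : 0 ≤ Z := by
    rw [hZ]
    positivity
  set D : ℝ := N * L ^ (-(2 * a + (A + B + 2) + A + 2)) with hD
  set c : ℕ → ℂ := fun k => if k ≤ K then ee ((b : ℝ) * k / q) else 0 with hc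
  have hc1 : ∀ k, ‖c k‖ ≤ 1 := by
    intro k
    by_cases hk : k ≤ K
    · simp only [hc, if_pos hk, norm_ee, le_refl]
    · simp only [hc, if_neg hk, norm_zero, zero_le_one]
  have htv1 : ∀ n, tv G n (n + 2 * K1) ≤ 4 * M := by
    intro n
    refine (htv n (n + 2 * K1) (by omega)).trans ?_
    have h1 : (((n + 2 * K1 : ℕ) : ℝ) - n) / lam ≤ 1 := by
      rw [div_le_one hlam0]
      push_cast
      linarith
    calc 2 * M * ((((n + 2 * K1 : ℕ) : ℝ) - n) / lam + 1) ≤ 2 * M * (1 + 1) := by gcongr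
      _ = 4 * M := by ring
  have hB1 := h4 G Q K1 c M Z D m0 (N ^ 2) hQ1 hK11 hc1 hM hG hZ0 (by omega) (Nat.one_le_pow _ _ (by omega)) htv1
    (by
      intro m hm1 hm2
      apply Pos_cut h2 hq
      intro r
      apply hz N K1 (min (2 * K1) K) q r ((m : ℝ) / 4) hN hK1low (by omega) (by omega) (by omega) hq hqB
      · rw [abs_div, le_div_iff₀ (by norm_num), abs_of_pos (by norm_num : (0 : ℝ) < 4)]
        have h1 : ((m0 : ℤ) : ℝ) < ((|m| : ℤ) : ℝ) := by exact_mod_cast hm1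
        push_cast at h1
        linarith
      · rw [abs_div, abs_of_pos (by norm_num : (0 : ℝ) < 4)]
        have h1 : ((|m| : ℤ) : ℝ) ≤ (((N ^ 2 : ℕ) : ℤ) : ℝ) := by exact_mod_cast hm2
        push_cast at h1
        have h2 : 0 ≤ |(m : ℝ)| := abs_nonneg _
        linarith)
    (fun x _ _ => hI _ _)
  have hsum : ∀ d : ℕ, ∑ k ∈ (Ioc K1 (2 * K1)).filter (fun k => k ≤ K), ee ((b : ℝ) * k / q) * G (d * k) =
      ∑ k ∈ Ioc K1 (2 * K1), c k * G (d * k) := by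
    intro d
    rw [sum_filter]
    apply sum_congr rfl
    intro k _
    by_cases hk : k ≤ K
    · simp only [hc, if_pos hk]
    · simp only [hc, if_neg hk, zero_mul]
  simp only [hsum]
  refine hB1.trans ?_
  -- the variation on [V, 4V)
  set tvv : ℝ := tv G (Q * K1) (4 * (Q * K1)) with htvv
  have htv0 : 0 ≤ tvv := by
    rw [htvv]
    exact sum_nonneg (fun _ _ => norm_nonneg _)
  have hBpos : 0 < L ^ B := Real.rpow_pos_of_pos hL0 _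
  have hVl : (((4 * (Q * K1) : ℕ) : ℝ) - ((Q * K1 : ℕ) : ℝ)) / lam ≤ 3 * (Q * L ^ (-(A + 2 * B + 2))) := by
    rw [div_le_iff₀ hlam0]
    push_cast
    have h1 : L ^ (-(A + 2 * B + 2)) * L ^ (A + 2 * B + 2) = 1 := by
      rw [← Real.rpow_add hL0, neg_add_cancel, Real.rpow_zero]
    have h3 : (0 : ℝ) < L ^ (-(A + 2 * B + 2)) := Real.rpow_pos_of_pos hL0 _
    calc (4 * ((Q : ℝ) * K1) - Q * K1) = 3 * Q * K1 := by ring
      _ ≤ 3 * Q * K := by gcongr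
      _ = 3 * (Q * L ^ (-(A + 2 * B + 2))) * (K * L ^ (A + 2 * B + 2)) := by
          rw [show 3 * ((Q : ℝ) * L ^ (-(A + 2 * B + 2))) * (K * L ^ (A + 2 * B + 2)) =
            3 * Q * K * (L ^ (-(A + 2 * B + 2)) * L ^ (A + 2 * B + 2)) by ring, h1, mul_one]
      _ ≤ 3 * (Q * L ^ (-(A + 2 * B + 2))) * lam := by gcongr
  have htvu : tvv ≤ 2 * L ^ B * (3 * (Q * L ^ (-(A + 2 * B + 2))) + 1) := by
    refine (htv (Q * K1) (4 * (Q * K1)) (by omega)).trans ?_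
    have h3 : (0 : ℝ) < L ^ (-(A + 2 * B + 2)) := Real.rpow_pos_of_pos hL0 _
    calc 2 * M * ((((4 * (Q * K1) : ℕ) : ℝ) - ((Q * K1 : ℕ) : ℝ)) / lam + 1)
        ≤ 2 * M * (3 * (Q * L ^ (-(A + 2 * B + 2))) + 1) := by gcongr
      _ ≤ 2 * L ^ B * (3 * (Q * L ^ (-(A + 2 * B + 2))) + 1) := by gcongr
  have htvu' : tvv ≤ 2 * L ^ B * (3 * Q + 1) := by
    refine htvu.trans ?_
    have h3 : L ^ (-(A + 2 * B + 2)) ≤ 1 := Real.rpow_le_one_of_one_le_of_nonpos hL1 (by linarith)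
    have h5 : (Q : ℝ) * L ^ (-(A + 2 * B + 2)) ≤ Q := by
      calc (Q : ℝ) * L ^ (-(A + 2 * B + 2)) ≤ Q * 1 := by gcongr
        _ = Q := mul_one _
    gcongr
  have hNV : (N : ℝ) ≤ Q * K1 * L ^ (A + B + 2) := by
    have h1 : (K : ℝ) ≤ K1 * L ^ (A + B + 2) := (div_le_iff₀ hE0).1 hK1
    have h3 : (N : ℝ) ≤ K * Q := by exact_mod_cast hKQ
    calc (N : ℝ) ≤ K * Q := h3
      _ ≤ (K1 * L ^ (A + B + 2)) * Q := by gcongr
      _ = Q * K1 * L ^ (A + B + 2) := by ring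
  have e1 := Pos_n1 (L := L) (B := B) (A := A) (K := K) (Cz := Cz) (Z := Z) (M := M) (q := q) hL1 hA
    (by positivity) hCz hM hMB (by positivity) hqB (K1 := K1) (by positivity) hK1K hZ
  have e2 := Pos_n2 (L := L) (A := A) (B := B) (K := K) (a := a) (N := N) (m0 := m0) (Q := Q) (K1 := K1)
    (D := D) hL1 hA ha (by positivity) hm0u (by linarith) (by linarith) hK1K hN0 hNV hD
  have e3 := Pos_n3 (L := L) (A := A) (B := B) (K := K) (N := N) (ε := ε) (Q := Q) (K1 := K1) (M := M)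
    (tvv := tvv) hL1 hε hQ1r (by linarith) hK1K (by linarith) hQN' hl4 hM hMB htv0 htvu'
  have e4 := Pos_n4 (L := L) (A := A) (B := B) (K := K) (N := N) (ε := ε) (Q := Q) (K1 := K1) (M := M)
    (tvv := tvv) hL1 (by linarith) hK1K (by linarith) hQN hl4 hMB htv0 htvu
  push_cast
  have hQ0 : (0 : ℝ) < 16 * Q := by linarith
  calc 16 * (Q : ℝ) * (Z ^ 2 * M ^ 2 + (K1 : ℝ) ^ 2 * (75 * (m0 : ℝ) ^ 3 * D ^ 2 / ((Q : ℝ) * K1) ^ 2 +
      (2 * M + tvv) ^ 2 / (N : ℝ) ^ 2)) + 8 * M * (K1 : ℝ) ^ 2 * tvv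
      = 16 * (Q : ℝ) * (Z ^ 2 * M ^ 2 + ((K1 : ℝ) ^ 2 * (75 * (m0 : ℝ) ^ 3 * D ^ 2 / ((Q : ℝ) * K1) ^ 2) +
      (K1 : ℝ) ^ 2 * ((2 * M + tvv) ^ 2 / (N : ℝ) ^ 2))) + 8 * M * (K1 : ℝ) ^ 2 * tvv := by ring
    _ ≤ 16 * (Q : ℝ) * (Cz ^ 2 * (K : ℝ) ^ 2 * L ^ (-(A + 2)) + (9375 * (K : ℝ) ^ 2 * L ^ (-(A + 2)) +
      100 * (K : ℝ) ^ 2 * L ^ (-(A + 2)))) + 64 * Q * (K : ℝ) ^ 2 * L ^ (-(A + 2)) := by
        apply add_le_add _ e4
        apply mul_le_mul_of_nonneg_left _ hQ0.le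
        exact add_le_add e1 (add_le_add e2 e3)
    _ = (16 * Cz ^ 2 + 151664) * Q * (K : ℝ) ^ 2 * L ^ (-(A + 2)) := by ring

theorem tPos (h1 : ZStmt) (h2 : ZqStmt) (h3 : DyaStmt) (h4 : BlkStmt) : PosStmt := by
  intro ε B A hε hB hA
  obtain ⟨Cz, a, hCz, ha, hz⟩ := h1 (ε / 2) B (A + 2 * B + 2) (by positivity) hB (by positivity)
  obtain ⟨N0, hN08, hN0⟩ := Pos_thr ε (A + B + 2) (A + 2 * B + 2) hε
  have hN0log : 0 ≤ Real.log N0 := Real.log_natCast_nonneg N0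
  refine ⟨(12 + 6 * (16 * Cz ^ 2 + 151664)) + (Real.log N0) ^ (2 * B + A), A + 2 * B + 2,
    2 * a + (A + B + 2) + A + 2, by positivity, by positivity, by positivity, ?_⟩
  intro N Q K q lam b G M hN hKN hKN' hQN hQN' hKQ hq hqB hM hMB hlam hG htv hI
  have hNr : (3 : ℝ) ≤ N := by exact_mod_cast hN
  have hNpos : (0 : ℝ) < N := by linarith
  have hL1 : 1 ≤ Real.log N := by
    rw [Real.le_log_iff_exp_le hNpos]
    exact (Real.exp_one_lt_d9.le.trans (by norm_num)).trans hNr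
  have hL0 : 0 < Real.log N := by linarith
  have hN1 : (1 : ℝ) ≤ (N : ℝ) ^ ε := Real.one_le_rpow (by linarith) hε.le
  have hQ1r : (1 : ℝ) ≤ Q := hN1.trans hQN
  have hK1r : (1 : ℝ) ≤ K := hN1.trans hKN
  -- trivial bound
  have htriv : ∀ s : Finset ℕ, ∀ d : ℕ, ‖∑ k ∈ s, ee ((b : ℝ) * k / q) * G (d * k)‖ ≤ s.card * M := by
    intro s d
    refine (norm_sum_le _ _).trans ?_
    rw [← nsmul_eq_mul]
    apply sum_le_card_nsmul
    intro k _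
    rw [norm_mul, norm_ee, one_mul]
    exact hG _
  have hcardQ : ((Ioc Q (2 * Q)).card : ℝ) = Q := by
    rw [Nat.card_Ioc, show 2 * Q - Q = Q by omega]
  rcases Nat.lt_or_ge N N0 with hlt | hge
  · -- small N
    have hX : ∑ d ∈ Ioc Q (2 * Q), ‖∑ k ∈ Icc 1 K, ee ((b : ℝ) * k / q) * G (d * k)‖ ^ 2 ≤
        Q * (K * M) ^ 2 := by
      have h5 : ∀ d ∈ Ioc Q (2 * Q), ‖∑ k ∈ Icc 1 K, ee ((b : ℝ) * k / q) * G (d * k)‖ ^ 2 ≤ (K * M) ^ 2 := by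
        intro d _
        have h6 := htriv (Icc 1 K) d
        rw [Nat.card_Icc, Nat.add_sub_cancel] at h6
        exact pow_le_pow_left₀ (norm_nonneg _) h6 2
      refine (sum_le_card_nsmul _ _ _ h5).trans ?_
      rw [nsmul_eq_mul, hcardQ]
    refine hX.trans ?_
    have h7 : (1 : ℝ) ≤ (Real.log N0) ^ (2 * B + A) * (Real.log N) ^ (-A) * ((Real.log N) ^ B)⁻¹ ^ 2 := by
      have h8 : (Real.log N) ^ (2 * B + A) ≤ (Real.log N0) ^ (2 * B + A) := by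
        apply Real.rpow_le_rpow hL0.le _ (by positivity)
        exact Real.log_le_log hNpos (by exact_mod_cast hlt.le)
      have h9 : (Real.log N) ^ (2 * B + A) * (Real.log N) ^ (-A) * ((Real.log N) ^ B)⁻¹ ^ 2 = 1 := by
        rw [← Real.rpow_neg hL0.le, ← Real.rpow_natCast, ← Real.rpow_mul hL0.le, ← Real.rpow_add hL0,
          ← Real.rpow_add hL0]
        rw [show 2 * B + A + -A + -B * ((2 : ℕ) : ℝ) = 0 by push_cast; ring, Real.rpow_zero]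
      rw [← h9]
      gcongr
    have h10 : (K * M) ^ 2 ≤ (K : ℝ) ^ 2 * ((Real.log N0) ^ (2 * B + A) * (Real.log N) ^ (-A)) := by
      have hBp : 0 < (Real.log N) ^ B := Real.rpow_pos_of_pos hL0 _
      calc ((K : ℝ) * M) ^ 2 ≤ (K * (Real.log N) ^ B) ^ 2 := by gcongr
        _ = (K : ℝ) ^ 2 * (((Real.log N) ^ B) ^ 2 * 1) := by ring
        _ ≤ (K : ℝ) ^ 2 * (((Real.log N) ^ B) ^ 2 *
            ((Real.log N0) ^ (2 * B + A) * (Real.log N) ^ (-A) * ((Real.log N) ^ B)⁻¹ ^ 2)) := by gcongr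
        _ = (K : ℝ) ^ 2 * ((Real.log N0) ^ (2 * B + A) * (Real.log N) ^ (-A)) := by
            field_simp
    have hpA : 0 < (Real.log N) ^ (-A) := Real.rpow_pos_of_pos hL0 _
    calc (Q : ℝ) * (K * M) ^ 2 ≤ Q * ((K : ℝ) ^ 2 * ((Real.log N0) ^ (2 * B + A) * (Real.log N) ^ (-A))) := by
          gcongr
      _ = (0 + (Real.log N0) ^ (2 * B + A)) * Q * (K : ℝ) ^ 2 * (Real.log N) ^ (-A) := by ring
      _ ≤ ((12 + 6 * (16 * Cz ^ 2 + 151664)) + (Real.log N0) ^ (2 * B + A)) * Q * (K : ℝ) ^ 2 *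
          (Real.log N) ^ (-A) := by
          gcongr
          positivity
  · obtain ⟨hL2, hl1, hl2, hl4⟩ := hN0 N hge
    set L : ℝ := Real.log N with hLdef
    have hE0 : 0 < L ^ (A + B + 2) := Real.rpow_pos_of_pos hL0 _
    set K0 : ℕ := ⌊(K : ℝ) / L ^ (A + B + 2)⌋₊ + 1 with hK0
    set J : ℕ := ⌈L⌉₊ with hJ
    have hK0l : (K : ℝ) / L ^ (A + B + 2) ≤ K0 := by
      rw [hK0]
      push_cast
      exact (Nat.lt_floor_add_one _).le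
    have hKE1 : 1 ≤ (K : ℝ) / L ^ (A + B + 2) := by
      rw [le_div_iff₀ hE0, one_mul]
      refine hl1.trans (le_trans ?_ hKN)
      exact Real.rpow_le_rpow_of_exponent_le (by linarith) (by linarith)
    have hK0u : (K0 : ℝ) ≤ 2 * (K / L ^ (A + B + 2)) := by
      have h := Nat.floor_le (show 0 ≤ (K : ℝ) / L ^ (A + B + 2) by linarith)
      rw [hK0]
      push_cast
      linarith
    have hJu : (J : ℝ) ≤ 2 * L := by
      have h := (Nat.ceil_lt_add_one hL0.le).le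
      linarith
    have hJl : L ≤ J := Nat.le_ceil L
    have hKJ : K ≤ K0 * 2 ^ J := by
      have h5 : (K : ℝ) ≤ K0 * 2 ^ J := by
        have h6 : (K : ℝ) ≤ K0 * L ^ (A + B + 2) := (div_le_iff₀ hE0).1 hK0l
        refine h6.trans ?_
        have h7 : L ^ (A + B + 2) ≤ (2 : ℝ) ^ J := by
          refine hl2.trans ?_
          rw [← Real.rpow_natCast]
          exact Real.rpow_le_rpow_of_exponent_le (by norm_num) hJl
        gcongr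
      exact_mod_cast h5
    set P : ℝ := L ^ (-(A + 2)) with hP
    have hP0 : 0 < P := Real.rpow_pos_of_pos hL0 _
    have hP1 : P ≤ 1 := Real.rpow_le_one_of_one_le_of_nonpos hL1 (by linarith)
    -- the first part
    have hfirst : ∑ d ∈ Ioc Q (2 * Q), ‖∑ k ∈ (Icc 1 K0).filter (fun k => k ≤ K),
        ee ((b : ℝ) * k / q) * G (d * k)‖ ^ 2 ≤ 4 * Q * (K : ℝ) ^ 2 * P := by
      have h5 : ∀ d ∈ Ioc Q (2 * Q), ‖∑ k ∈ (Icc 1 K0).filter (fun k => k ≤ K),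
          ee ((b : ℝ) * k / q) * G (d * k)‖ ^ 2 ≤ (2 * K * P) ^ 2 := by
        intro d _
        apply pow_le_pow_left₀ (norm_nonneg _)
        refine (htriv _ d).trans ?_
        have h6 : (((Icc 1 K0).filter (fun k => k ≤ K)).card : ℝ) ≤ K0 := by
          have h7 := card_filter_le (Icc 1 K0) (fun k => k ≤ K)
          rw [Nat.card_Icc, Nat.add_sub_cancel] at h7
          exact_mod_cast h7
        have h8 : L ^ B / L ^ (A + B + 2) = P := by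
          rw [← Real.rpow_sub hL0, hP]
          congr 1
          ring
        calc (((Icc 1 K0).filter (fun k => k ≤ K)).card : ℝ) * M ≤ (2 * (K / L ^ (A + B + 2))) * L ^ B := by
              gcongr
              exact h6.trans hK0u
          _ = 2 * K * (L ^ B / L ^ (A + B + 2)) := by ring
          _ = 2 * K * P := by rw [h8]
      refine (sum_le_card_nsmul _ _ _ h5).trans ?_
      rw [nsmul_eq_mul, hcardQ]
      calc (Q : ℝ) * (2 * K * P) ^ 2 = 4 * Q * (K : ℝ) ^ 2 * P * P := by ring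
        _ ≤ 4 * Q * (K : ℝ) ^ 2 * P * 1 := by gcongr
        _ = 4 * Q * (K : ℝ) ^ 2 * P := by ring
    -- the blocks
    have hblk : ∀ j ∈ range J, ∑ d ∈ Ioc Q (2 * Q),
        ‖∑ k ∈ (Ioc (K0 * 2 ^ j) (2 * (K0 * 2 ^ j))).filter (fun k => k ≤ K),
          ee ((b : ℝ) * k / q) * G (d * k)‖ ^ 2 ≤ (16 * Cz ^ 2 + 151664) * Q * (K : ℝ) ^ 2 * P := by
      intro j _
      rcases Nat.lt_or_ge (K0 * 2 ^ j) K with hj | hj
      · apply Pos_blk h2 h4 hε hB hA hCz ha hz hN hL2 hl1 hl4 hKN hKN' hQN hQN' hKQ hq hqB hM hMB hlam hG htv hI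
          _ hj
        refine hK0l.trans ?_
        have h5 : K0 ≤ K0 * 2 ^ j := Nat.le_mul_of_pos_right _ (by positivity)
        exact_mod_cast h5
      · have h5 : (Ioc (K0 * 2 ^ j) (2 * (K0 * 2 ^ j))).filter (fun k => k ≤ K) = ∅ := by
          ext k
          simp only [mem_filter, mem_Ioc, notMem_empty, iff_false]
          omega
        rw [h5]
        simp only [sum_empty, norm_zero, ne_eq, OfNat.ofNat_ne_zero, not_false_eq_true, zero_pow, sum_const_zero]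
        positivity
    have hmain : ∑ d ∈ Ioc Q (2 * Q), ‖∑ k ∈ Icc 1 K, ee ((b : ℝ) * k / q) * G (d * k)‖ ^ 2 ≤
        ((J : ℝ) + 1) * (4 * Q * (K : ℝ) ^ 2 * P + J * ((16 * Cz ^ 2 + 151664) * Q * (K : ℝ) ^ 2 * P)) := by
      calc ∑ d ∈ Ioc Q (2 * Q), ‖∑ k ∈ Icc 1 K, ee ((b : ℝ) * k / q) * G (d * k)‖ ^ 2
          ≤ ∑ d ∈ Ioc Q (2 * Q), ((J : ℝ) + 1) * (‖∑ k ∈ (Icc 1 K0).filter (fun k => k ≤ K),
            ee ((b : ℝ) * k / q) * G (d * k)‖ ^ 2 +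
            ∑ j ∈ range J, ‖∑ k ∈ (Ioc (K0 * 2 ^ j) (2 * (K0 * 2 ^ j))).filter (fun k => k ≤ K),
              ee ((b : ℝ) * k / q) * G (d * k)‖ ^ 2) :=
            sum_le_sum (fun d _ => h3 (fun k => ee ((b : ℝ) * k / q) * G (d * k)) K K0 J hKJ)
        _ = ((J : ℝ) + 1) * (∑ d ∈ Ioc Q (2 * Q), ‖∑ k ∈ (Icc 1 K0).filter (fun k => k ≤ K),
            ee ((b : ℝ) * k / q) * G (d * k)‖ ^ 2 +
            ∑ j ∈ range J, ∑ d ∈ Ioc Q (2 * Q),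
              ‖∑ k ∈ (Ioc (K0 * 2 ^ j) (2 * (K0 * 2 ^ j))).filter (fun k => k ≤ K),
              ee ((b : ℝ) * k / q) * G (d * k)‖ ^ 2) := by
            rw [← mul_sum, sum_add_distrib, sum_comm]
        _ ≤ ((J : ℝ) + 1) * (4 * Q * (K : ℝ) ^ 2 * P +
            J * ((16 * Cz ^ 2 + 151664) * Q * (K : ℝ) ^ 2 * P)) := by
            have h5 := sum_le_card_nsmul _ _ _ hblk
            rw [card_range, nsmul_eq_mul] at h5
            gcongr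
    refine hmain.trans ?_
    have hLP : L * L * P = L ^ (-A) := by
      rw [hP]
      nth_rewrite 1 [← Real.rpow_one L]
      nth_rewrite 2 [← Real.rpow_one L]
      rw [← Real.rpow_add hL0, ← Real.rpow_add hL0]
      congr 1
      ring
    have hW0 : 0 ≤ (Q : ℝ) * (K : ℝ) ^ 2 * P := by positivity
    have hJ1 : ((J : ℝ) + 1) ≤ 3 * L := by linarith
    have hpA : 0 < L ^ (-A) := Real.rpow_pos_of_pos hL0 _
    calc ((J : ℝ) + 1) * (4 * Q * (K : ℝ) ^ 2 * P + J * ((16 * Cz ^ 2 + 151664) * Q * (K : ℝ) ^ 2 * P))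
        = ((J : ℝ) + 1) * ((4 + J * (16 * Cz ^ 2 + 151664)) * (Q * (K : ℝ) ^ 2 * P)) := by ring
      _ ≤ (3 * L) * ((4 * L + (2 * L) * (16 * Cz ^ 2 + 151664)) * (Q * (K : ℝ) ^ 2 * P)) := by
          have h5 : (4 : ℝ) ≤ 4 * L := by linarith
          gcongr
      _ = (12 + 6 * (16 * Cz ^ 2 + 151664) + 0) * Q * (K : ℝ) ^ 2 * (L * L * P) := by ring
      _ = (12 + 6 * (16 * Cz ^ 2 + 151664) + 0) * Q * (K : ℝ) ^ 2 * L ^ (-A) := by rw [hLP]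
      _ ≤ ((12 + 6 * (16 * Cz ^ 2 + 151664)) + (Real.log N0) ^ (2 * B + A)) * Q * (K : ℝ) ^ 2 * L ^ (-A) := by
          gcongr
          positivity

end Pool.Agent.Lib.UI
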