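import Pool.Agent.Lib.UI.SpecS

/-!
MP_00e23e_nt, directory Lib/UI, module Psi: the function psi is measurable and bounded.
-/

namespace Pool.Agent.Lib.UI

open Finset Pool.Agent.Lib.EH3

private lemma Psi_gy (G : ℕ → ℂ) (V : ℕ) : Measurable (gy G V) := by
  unfold gy
  refine Measurable.ite ?_ ?_ measurable_const
  · exact measurableSet_lt Real.measurable_exp measurable_const
  · exact (measurable_from_top (f := G)).comp (Nat.measurable_floor.comp Real.measurable_exp)

theorem tPsi : PsiStmt := by
  intro G V M hM hG
  have hgy : ∀ y, ‖gy G V y‖ ≤ M := by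
    intro y
    unfold gy
    split_ifs
    · exact hG _
    · rw [norm_zero]
      exact hM
  constructor
  · have h1 : psi G V = (fun y : Set.Ico (Real.log V) (Real.log V + 4) => gy G V y) ∘
        (AddCircle.measurableEquivIco 4 (Real.log V)) := rfl
    rw [h1]
    exact ((Psi_gy G V).comp measurable_subtype_coe).comp
      (AddCircle.measurableEquivIco 4 (Real.log V)).measurable
  · intro x
    exact hgy _

end Pool.Agent.Lib.UI
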