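import Pool.Agent.Lib.UI.SpecS

/-! MP_00e23e_nt, Lib/UI: the result of part S (StpStmt of UI/SpecS). -/

namespace Pool.Agent.Lib.UI

open Finset Pool.Agent.Lib.EH3

private lemma Stp_split (f : ℤ → ℂ) (K : ℕ) :
    ∑ k ∈ Icc (-(K : ℤ)) K, f k =
      f 0 + ∑ k ∈ Icc 1 K, f (k : ℤ) + ∑ k ∈ Icc 1 K, f (-(k : ℤ)) := by
  induction K with
  | zero => simp
  | succ K ih =>
    have h1 : Icc (-((K + 1 : ℕ) : ℤ)) ((K + 1 : ℕ) : ℤ) =
        insert (-((K + 1 : ℕ) : ℤ)) (insert ((K + 1 : ℕ) : ℤ) (Icc (-(K : ℤ)) K)) := by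
      ext x
      simp only [mem_Icc, mem_insert]
      push_cast
      omega
    rw [h1, sum_insert, sum_insert, ih, Finset.sum_Icc_succ_top (by omega),
      Finset.sum_Icc_succ_top (by omega)]
    · ring
    · simp only [mem_Icc]
      push_cast
      omega
    · simp only [mem_Icc, mem_insert]
      push_cast
      omega

private lemma Stp_plus (FF : ℤ → ℂ) (a : ℤ) (x y : ℕ) :
    ∑ n ∈ Ico x y, FF (a + n) = ∑ m ∈ Ico (a + x) (a + y), FF m := by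
  apply Finset.sum_nbij' (fun n : ℕ => a + (n : ℤ)) (fun m : ℤ => (m - a).toNat)
  · intro n hn
    simp only [mem_Ico] at hn ⊢
    omega
  · intro m hm
    simp only [mem_Ico] at hm ⊢
    omega
  · intro n hn
    simp only [mem_Ico] at hn
    omega
  · intro m hm
    simp only [mem_Ico] at hm
    omega
  · intro n _
    rfl

private lemma Stp_minus (FF : ℤ → ℂ) (a : ℤ) (x y : ℕ) :
    ∑ n ∈ Ico x y, FF (a - n) = ∑ m ∈ Ico (a - y + 1) (a - x + 1), FF m := by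
  apply Finset.sum_nbij' (fun n : ℕ => a - (n : ℤ)) (fun m : ℤ => (a - m).toNat)
  · intro n hn
    simp only [mem_Ico] at hn ⊢
    omega
  · intro m hm
    simp only [mem_Ico] at hm ⊢
    omega
  · intro n hn
    simp only [mem_Ico] at hn
    omega
  · intro m hm
    simp only [mem_Ico] at hm
    omega
  · intro n _
    rfl

private lemma Stp_log (ε E : ℝ) (hε : 0 < ε) (hE : 0 < E) :
    ∃ C : ℝ, 0 ≤ C ∧ ∀ N : ℕ, 3 ≤ N → (Real.log N) ^ E ≤ C * (N : ℝ) ^ ε := by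
  refine ⟨((ε / E)⁻¹) ^ E, by positivity, ?_⟩
  intro N hN
  have hN0 : (0 : ℝ) ≤ (N : ℝ) := Nat.cast_nonneg _
  have hs : 0 < ε / E := div_pos hε hE
  have h1 := Real.log_le_rpow_div hN0 hs
  have hlog : 0 ≤ Real.log N := Real.log_natCast_nonneg N
  have h2 := Real.rpow_le_rpow hlog h1 hE.le
  refine le_trans h2 (le_of_eq ?_)
  rw [div_eq_mul_inv, Real.mul_rpow (by positivity) (by positivity), ← Real.rpow_mul hN0,
    div_mul_cancel₀ _ hE.ne', mul_comm]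

private lemma Stp_sq (x y z : ℂ) :
    ‖x + y + z‖ ^ 2 ≤ 3 * (‖x‖ ^ 2 + ‖y‖ ^ 2 + ‖z‖ ^ 2) := by
  have h1 : ‖x + y + z‖ ≤ ‖x‖ + ‖y‖ + ‖z‖ := norm_add₃_le
  have h2 : ‖x + y + z‖ ^ 2 ≤ (‖x‖ + ‖y‖ + ‖z‖) ^ 2 :=
    pow_le_pow_left₀ (norm_nonneg _) h1 2
  nlinarith [sq_nonneg (‖x‖ - ‖y‖), sq_nonneg (‖x‖ - ‖z‖), sq_nonneg (‖y‖ - ‖z‖)]

theorem tStp (h1 : PosStmt) (h2 : VarStmt) : StpStmt := by
  intro ε B A hε hB hA
  obtain ⟨C0, A1, A2, hC0, hA1, hA2, hPos⟩ := h1 ε B A hε hB hA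
  obtain ⟨C1, hC1, hlog⟩ := Stp_log (2 * ε) (2 * B + A) (by linarith) (by linarith)
  refine ⟨3 * (C1 + 2 * C0), A1, A2, by positivity, hA1, hA2, ?_⟩
  intro N Q K q lam a b FF M hN hNK hKN hNQ hQN hNKQ hq hqB hM hML hlam hFF hstep hsum
  have hNr : (3 : ℝ) ≤ (N : ℝ) := by exact_mod_cast hN
  have hNpos : (0 : ℝ) < (N : ℝ) := by linarith
  have hL : 0 < Real.log N := Real.log_pos (by linarith)
  have hNe : (0 : ℝ) < (N : ℝ) ^ ε := Real.rpow_pos_of_pos hNpos ε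
  have hKpos : (0 : ℝ) < (K : ℝ) := lt_of_lt_of_le hNe hNK
  have hlam1 : 1 ≤ lam := by
    have h3 : (0 : ℝ) < (K : ℝ) * (Real.log N) ^ A1 := mul_pos hKpos (Real.rpow_pos_of_pos hL _)
    have h4 : (0 : ℝ) < (lam : ℝ) := lt_of_lt_of_le h3 hlam
    have h5 : 0 < lam := by exact_mod_cast h4
    omega
  have hP := hPos N Q K q lam b (fun n => FF (a + n)) M hN hNK hKN hNQ hQN hNKQ hq hqB hM hML hlam
    (fun n => hFF _) (fun x y hxy => (h2 FF lam M a x y hlam1 hM hFF hstep hxy).1)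
    (fun x y => by rw [Stp_plus]; exact hsum _ _)
  have hQ := hPos N Q K q lam (-b) (fun n => FF (a - n)) M hN hNK hKN hNQ hQN hNKQ hq hqB hM hML
    hlam (fun n => hFF _) (fun x y hxy => (h2 FF lam M a x y hlam1 hM hFF hstep hxy).2)
    (fun x y => by rw [Stp_minus]; exact hsum _ _)
  -- the constant term
  have hM2 : M ^ 2 ≤ C1 * (K : ℝ) ^ 2 * (Real.log N) ^ (-A) := by
    have h3 : M ^ 2 ≤ ((Real.log N) ^ B) ^ 2 := pow_le_pow_left₀ hM hML 2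
    have h4 : ((Real.log N) ^ B) ^ 2 = (Real.log N) ^ (2 * B + A) * (Real.log N) ^ (-A) := by
      rw [← Real.rpow_add hL, ← Real.rpow_natCast, ← Real.rpow_mul hL.le]
      congr 1
      push_cast
      ring
    have h5 : (N : ℝ) ^ (2 * ε) ≤ (K : ℝ) ^ 2 := by
      have h6 : (N : ℝ) ^ (2 * ε) = ((N : ℝ) ^ ε) ^ 2 := by
        rw [← Real.rpow_natCast, ← Real.rpow_mul hNpos.le]
        congr 1
        push_cast
        ring
      rw [h6]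
      exact pow_le_pow_left₀ hNe.le hNK 2
    have h7 : (Real.log N) ^ (2 * B + A) ≤ C1 * (K : ℝ) ^ 2 :=
      le_trans (hlog N hN) (mul_le_mul_of_nonneg_left h5 hC1)
    calc M ^ 2 ≤ (Real.log N) ^ (2 * B + A) * (Real.log N) ^ (-A) := by rw [← h4]; exact h3
      _ ≤ C1 * (K : ℝ) ^ 2 * (Real.log N) ^ (-A) :=
        mul_le_mul_of_nonneg_right h7 (Real.rpow_nonneg hL.le _)
  -- each term
  have hterm : ∀ d ∈ Ioc Q (2 * Q),
      ‖∑ k ∈ Icc (-(K : ℤ)) K, ee ((b : ℝ) * k / q) * FF (a + d * k)‖ ^ 2 ≤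
      3 * (M ^ 2 + ‖∑ k ∈ Icc 1 K, ee ((b : ℝ) * k / q) * FF (a + ((d * k : ℕ) : ℤ))‖ ^ 2 +
        ‖∑ k ∈ Icc 1 K, ee (((-b : ℤ) : ℝ) * k / q) * FF (a - ((d * k : ℕ) : ℤ))‖ ^ 2) := by
    intro d _
    rw [Stp_split (fun k : ℤ => ee ((b : ℝ) * k / q) * FF (a + d * k)) K]
    refine le_trans (Stp_sq _ _ _) ?_
    have e0 : ‖ee ((b : ℝ) * ((0 : ℤ) : ℝ) / q) * FF (a + d * 0)‖ ^ 2 ≤ M ^ 2 := by
      rw [norm_mul, norm_ee, one_mul]
      exact pow_le_pow_left₀ (norm_nonneg _) (hFF _) 2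
    have e1 : ∑ k ∈ Icc 1 K, ee ((b : ℝ) * (((k : ℕ) : ℤ) : ℝ) / q) * FF (a + d * ((k : ℕ) : ℤ)) =
        ∑ k ∈ Icc 1 K, ee ((b : ℝ) * k / q) * FF (a + ((d * k : ℕ) : ℤ)) := by
      apply Finset.sum_congr rfl
      intro k _
      push_cast
      rfl
    have e2 : ∑ k ∈ Icc 1 K, ee ((b : ℝ) * ((-((k : ℕ) : ℤ) : ℤ) : ℝ) / q) *
        FF (a + d * (-((k : ℕ) : ℤ))) =
        ∑ k ∈ Icc 1 K, ee (((-b : ℤ) : ℝ) * k / q) * FF (a - ((d * k : ℕ) : ℤ)) := by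
      apply Finset.sum_congr rfl
      intro k _
      have e3 : (b : ℝ) * ((-((k : ℕ) : ℤ) : ℤ) : ℝ) / q = ((-b : ℤ) : ℝ) * k / q := by
        push_cast
        ring
      have e4 : a + d * (-((k : ℕ) : ℤ)) = a - ((d * k : ℕ) : ℤ) := by
        push_cast
        ring
      rw [e3, e4]
    rw [e1, e2]
    linarith
  refine le_trans (Finset.sum_le_sum hterm) ?_
  rw [← Finset.mul_sum, Finset.sum_add_distrib, Finset.sum_add_distrib]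
  have hcst : ∑ d ∈ Ioc Q (2 * Q), M ^ 2 = Q * M ^ 2 := by
    rw [Finset.sum_const, Nat.card_Ioc, nsmul_eq_mul]
    congr 2
    omega
  rw [hcst]
  have hQM : (Q : ℝ) * M ^ 2 ≤ Q * (C1 * (K : ℝ) ^ 2 * (Real.log N) ^ (-A)) :=
    mul_le_mul_of_nonneg_left hM2 (Nat.cast_nonneg _)
  have hP' : ∑ d ∈ Ioc Q (2 * Q),
      ‖∑ k ∈ Icc 1 K, ee ((b : ℝ) * k / q) * FF (a + ((d * k : ℕ) : ℤ))‖ ^ 2 ≤
      C0 * Q * (K : ℝ) ^ 2 * (Real.log N) ^ (-A) := hP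
  have hQ' : ∑ d ∈ Ioc Q (2 * Q),
      ‖∑ k ∈ Icc 1 K, ee (((-b : ℤ) : ℝ) * k / q) * FF (a - ((d * k : ℕ) : ℤ))‖ ^ 2 ≤
      C0 * Q * (K : ℝ) ^ 2 * (Real.log N) ^ (-A) := hQ
  calc 3 * (↑Q * M ^ 2 + _ + _) ≤ 3 * (Q * (C1 * (K : ℝ) ^ 2 * (Real.log N) ^ (-A)) +
      C0 * Q * (K : ℝ) ^ 2 * (Real.log N) ^ (-A) +
      C0 * Q * (K : ℝ) ^ 2 * (Real.log N) ^ (-A)) := by
        apply mul_le_mul_of_nonneg_left _ (by norm_num)
        exact add_le_add (add_le_add hQM hP') hQ'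
    _ = 3 * (C1 + 2 * C0) * Q * (K : ℝ) ^ 2 * (Real.log N) ^ (-A) := by ring

end Pool.Agent.Lib.UI
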