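import Pool.Agent.Lib.UI.SpecS

namespace Pool.Agent.Lib.UI

open Finset Pool.Agent.Lib.EH3

private theorem Var_step (m : ℤ) (lam : ℤ) (hl : 0 < lam) (h : ¬ lam ∣ m + 1) : m / lam = (m + 1) / lam := by
  have h1 := Int.emod_add_mul_ediv m lam
  have h2 := Int.emod_nonneg m hl.ne'
  have h3 := Int.emod_lt_of_pos m hl
  have h4 : m % lam + 1 ≠ lam := by
    intro h5
    apply h
    refine ⟨m / lam + 1, ?_⟩
    linear_combination (1 : ℤ) * h5 - h1
  have h5 : m % lam + 1 < lam := by omega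
  symm
  exact ((Int.ediv_emod_unique hl).2 ⟨by linear_combination h1, by omega, h5⟩ :
    (m + 1) / lam = m / lam ∧ (m + 1) % lam = m % lam + 1).1

private theorem Var_cp (c : ℤ) (lam x y : ℕ) (hl : 1 ≤ lam) (hxy : x ≤ y) :
    (((Ico x y).filter (fun n : ℕ => (lam : ℤ) ∣ c + (n : ℤ))).card : ℝ) ≤ ((y : ℝ) - x) / lam + 1 := by
  have hl' : (0 : ℤ) < lam := by omega
  have h1 : ((Ico x y).filter (fun n : ℕ => (lam : ℤ) ∣ c + (n : ℤ))).card ≤
      ((Ico (c + (x : ℤ)) (c + (y : ℤ))).filter (fun m : ℤ => (lam : ℤ) ∣ m)).card := by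
    refine Finset.card_le_card_of_injOn (fun n => c + (n : ℤ)) ?_ ?_
    · intro n hn
      have hn' := Finset.mem_filter.1 (Finset.mem_coe.1 hn)
      have hn1 := Finset.mem_Ico.1 hn'.1
      refine Finset.mem_coe.2 (Finset.mem_filter.2 ⟨Finset.mem_Ico.2 ⟨?_, ?_⟩, hn'.2⟩)
      · show c + (x : ℤ) ≤ c + (n : ℤ)
        omega
      · show c + (n : ℤ) < c + (y : ℤ)
        omega
    · intro n _ n' _ h
      simpa using h
  have h2 := Int.Ico_filter_dvd_card (c + (x : ℤ)) (c + (y : ℤ)) hl'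
  have hlR : (0 : ℝ) < lam := by exact_mod_cast hl
  have h3 : (((Ico (c + (x : ℤ)) (c + (y : ℤ))).filter (fun m : ℤ => (lam : ℤ) ∣ m)).card : ℚ) ≤
      ((y : ℚ) - x) / lam + 1 := by
    have hlQ : (0 : ℚ) < lam := by exact_mod_cast hl
    have h4 : (((Ico (c + (x : ℤ)) (c + (y : ℤ))).filter (fun m : ℤ => (lam : ℤ) ∣ m)).card : ℚ) =
      (((((Ico (c + (x : ℤ)) (c + (y : ℤ))).filter (fun m : ℤ => (lam : ℤ) ∣ m)).card : ℤ)) : ℚ) := by
      norm_cast
    rw [h4, h2]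
    push_cast
    apply max_le
    · have h5 := Int.ceil_lt_add_one (((c : ℚ) + (y : ℚ)) / (lam : ℚ))
      have h6 := Int.le_ceil (((c : ℚ) + (x : ℚ)) / (lam : ℚ))
      have h7 : ((c : ℚ) + (y : ℚ)) / (lam : ℚ) - ((c : ℚ) + (x : ℚ)) / (lam : ℚ) = ((y : ℚ) - x) / lam := by
        field_simp; ring
      linarith
    · have : (0 : ℚ) ≤ ((y : ℚ) - x) / lam :=
        div_nonneg (sub_nonneg.2 (by exact_mod_cast hxy)) hlQ.le
      linarith
  have h5 : (((Ico x y).filter (fun n : ℕ => (lam : ℤ) ∣ c + (n : ℤ))).card : ℚ) ≤ ((y : ℚ) - x) / lam + 1 :=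
    le_trans (by exact_mod_cast h1) h3
  have h6 : (((((Ico x y).filter (fun n : ℕ => (lam : ℤ) ∣ c + (n : ℤ))).card : ℚ)) : ℝ) ≤
      ((((y : ℚ) - x) / lam + 1 : ℚ) : ℝ) := Rat.cast_le.2 h5
  push_cast at h6
  exact h6

private theorem Var_cm (c : ℤ) (lam x y : ℕ) (hl : 1 ≤ lam) (hxy : x ≤ y) :
    (((Ico x y).filter (fun n : ℕ => (lam : ℤ) ∣ c - (n : ℤ))).card : ℝ) ≤ ((y : ℝ) - x) / lam + 1 := by
  have h := Var_cp (-c) lam x y hl hxy
  have h1 : (Ico x y).filter (fun n : ℕ => (lam : ℤ) ∣ c - (n : ℤ)) =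
      (Ico x y).filter (fun n : ℕ => (lam : ℤ) ∣ -c + (n : ℤ)) := by
    refine Finset.filter_congr fun n _ => ?_
    rw [← dvd_neg]
    have : -(c - (n : ℤ)) = -c + n := by ring
    rw [this]
  rw [h1]
  exact h

private theorem Var_bd (g : ℕ → ℂ) (P : ℕ → Prop) [DecidablePred P] (M R : ℝ) (x y : ℕ) (hM : 0 ≤ M)
    (hg : ∀ n, ‖g n‖ ≤ M) (hP : ∀ n, ¬ P n → g (n + 1) = g n)
    (hc : (((Ico x y).filter P).card : ℝ) ≤ R) : tv g x y ≤ 2 * M * R := by
  unfold tv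
  have h1 : ∀ n ∈ Ico x y, ‖g (n + 1) - g n‖ ≤ if P n then 2 * M else 0 := by
    intro n _
    split_ifs with h
    · have := norm_sub_le (g (n + 1)) (g n)
      have h2 := hg n
      have h3 := hg (n + 1)
      linarith
    · rw [hP n h, sub_self, norm_zero]
  refine le_trans (Finset.sum_le_sum h1) ?_
  rw [← Finset.sum_filter, Finset.sum_const, nsmul_eq_mul, mul_comm]
  exact mul_le_mul_of_nonneg_left hc (by positivity)

theorem tVar : VarStmt := by
  intro FF lam M a x y hl hM hF hc hxy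
  have hl' : (0 : ℤ) < lam := by omega
  constructor
  · refine Var_bd (fun n : ℕ => FF (a + n)) (fun n : ℕ => (lam : ℤ) ∣ a + 1 + n) M _ x y hM
      (fun n => hF _) ?_ (Var_cp (a + 1) lam x y hl hxy)
    intro n hn
    have h1 : (((n + 1 : ℕ) : ℤ)) = (n : ℤ) + 1 := by push_cast; ring
    simp only [h1]
    refine (hc _ _ ?_)
    have h2 := Var_step (a + n) lam hl' (by
      have : a + (n : ℤ) + 1 = a + 1 + n := by ring
      rw [this]; exact hn)
    rw [← add_assoc, ← h2]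
  · refine Var_bd (fun n : ℕ => FF (a - n)) (fun n : ℕ => (lam : ℤ) ∣ a - n) M _ x y hM
      (fun n => hF _) ?_ (Var_cm a lam x y hl hxy)
    intro n hn
    have h1 : (((n + 1 : ℕ) : ℤ)) = (n : ℤ) + 1 := by push_cast; ring
    simp only [h1]
    refine (hc _ _ ?_)
    have h2 := Var_step (a - (n + 1)) lam hl' (by
      have : a - ((n : ℤ) + 1) + 1 = a - n := by ring
      rw [this]; exact hn)
    rw [h2]
    congr 1
    ring

end Pool.Agent.Lib.UI
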