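import Pool.Agent.Lib.UI.SpecS

namespace Pool.Agent.Lib.UI

open Finset Pool.Agent.Lib.EH3

private theorem Zq_per (q : ℕ) (hq : 1 ≤ q) (b : ℤ) (k r : ℕ) (h : k % q = r) :
    ee ((b : ℝ) * k / q) = ee ((b : ℝ) * r / q) := by
  have hq0 : (q : ℝ) ≠ 0 := by positivity
  obtain ⟨j, hj⟩ : ∃ j : ℕ, k = q * j + r := ⟨k / q, by
    have := Nat.div_add_mod k q
    rw [h] at this
    exact this.symm⟩
  have h1 : (k : ℝ) = q * (j : ℝ) + r := by
    rw [hj]
    push_cast
    ring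
  have h2 : (b : ℝ) * k / q = (b : ℝ) * r / q + (b : ℝ) * (j : ℝ) := by
    rw [h1]
    field_simp
    ring
  rw [h2, ee, ee, Complex.exp_eq_exp_iff_exists_int]
  refine ⟨b * j, ?_⟩
  push_cast
  ring

private theorem Zq_norm (x : ℝ) : ‖ee x‖ = 1 := by
  rw [ee, mul_comm, Complex.norm_exp_ofReal_mul_I]

theorem tZq : ZqStmt := by
  intro q K1 K2 b t Z0 hq h
  have hmap : ∀ k ∈ Ioc K1 K2, k % q ∈ range q := fun k _ =>
    mem_range.mpr (Nat.mod_lt _ (by omega))
  rw [← sum_fiberwise_of_maps_to hmap]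
  refine (norm_sum_le _ _).trans ?_
  have h1 : ∀ r ∈ range q, ‖∑ k ∈ Ioc K1 K2 with k % q = r, ee ((b : ℝ) * k / q) * ee (t * Real.log k)‖
      ≤ Z0 := by
    intro r hr
    rw [mem_range] at hr
    have h2 : ∑ k ∈ Ioc K1 K2 with k % q = r, ee ((b : ℝ) * k / q) * ee (t * Real.log k) =
        ee ((b : ℝ) * r / q) * ∑ k ∈ (Ioc K1 K2).filter (fun k => k ≡ r [MOD q]), ee (t * Real.log k) := by
      rw [mul_sum]
      have h3 : (Ioc K1 K2).filter (fun k => k % q = r) = (Ioc K1 K2).filter (fun k => k ≡ r [MOD q]) := by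
        refine filter_congr fun k _ => ?_
        rw [Nat.ModEq, Nat.mod_eq_of_lt hr]
      rw [← h3]
      refine sum_congr rfl fun k hk => ?_
      rw [Zq_per q hq b k r (mem_filter.mp hk).2]
    rw [h2, norm_mul, Zq_norm, one_mul]
    exact h r
  refine (sum_le_sum h1).trans ?_
  rw [sum_const, card_range, nsmul_eq_mul]

end Pool.Agent.Lib.UI
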