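import Pool.Agent.Lib.UI.Par
import Pool.Agent.Lib.UI.Psi
import Pool.Agent.Lib.UI.Cof
import Pool.Agent.Lib.UI.Hi
import Pool.Agent.Lib.UI.Lo
import Pool.Agent.Lib.UI.Chg
import Pool.Agent.Lib.UI.Its
import Pool.Agent.Lib.UI.Blk
import Pool.Agent.Lib.UI.Var
import Pool.Agent.Lib.UI.Zq
import Pool.Agent.Lib.UI.Dya
import Pool.Agent.Lib.UI.Pos
import Pool.Agent.Lib.UI.Stp

/-! MP_00e23e_nt, theorem U1: part S (step 3), assembled. -/

namespace Pool.Agent.Lib.UI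

/-- Part S from the bound for zeta sums. -/
theorem tStpOf (hZ : ZStmt) : StpStmt :=
  tStp (tPos hZ tZq tDya (tBlk tPar tPsi tCof tHi tLo tChg tIts)) tVar

end Pool.Agent.Lib.UI
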