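import Pool.Agent.Lib.UI.SpecZ
import Pool.Agent.Lib.MP_aa9ae4_nt.Vdc

/-!
MP_00e23e_nt, Lib/UI, part Z: the second difference test.
-/

set_option autoImplicit false

namespace Pool.Agent.Lib.UI

open Finset Pool.Agent.Lib.EH3

theorem zb_trivial (x : ℕ → ℝ) (a b : ℕ) (hab : a ≤ b) : ‖Sx x a b‖ ≤ (b : ℝ) - a := by
  unfold Sx
  refine (norm_sum_le _ _).trans ?_
  rw [sum_congr rfl fun n _ => norm_ee (x n), sum_const, Nat.card_Ico, nsmul_eq_mul, mul_one,
    Nat.cast_sub hab]

theorem zb_exp (y : ℝ) : Complex.exp (2 * Real.pi * (y : ℂ) * Complex.I) = ee y := by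
  unfold ee
  congr 1
  push_cast
  ring

/-- the reflected phases, continued linearly -/
noncomputable def yb (x : ℕ → ℝ) (K : ℤ) (e n : ℕ) : ℝ :=
  if n ≤ e then K * n - x n else (K * e - x e) + ((n : ℝ) - e) * (K - (x e - x (e - 1)))

theorem yb_diff (x : ℕ → ℝ) (K : ℤ) (e n : ℕ) (he : 1 ≤ e) :
    yb x K e (n + 1) - yb x K e n = K - (x (min n (e - 1) + 1) - x (min n (e - 1))) := by
  rcases Nat.lt_or_ge n e with h | h
  · rw [min_eq_left (by omega)]
    unfold yb
    rw [if_pos (by omega), if_pos h.le]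
    push_cast
    ring
  · rw [min_eq_right (by omega)]
    have he1 : e - 1 + 1 = e := by omega
    rw [he1]
    unfold yb
    rw [if_neg (by omega)]
    rcases Nat.eq_or_lt_of_le h with h1 | h1
    · rw [if_pos h1.ge, ← h1]
      push_cast
      ring
    · rw [if_neg (by omega)]
      push_cast
      ring

theorem zb_main (x : ℕ → ℝ) (a e : ℕ) (lam α M : ℝ) (hlam : 0 < lam) (hlam2 : lam ≤ 1 / 4)
    (hα : 1 ≤ α) (hM : 1 ≤ M) (hae : a + 2 ≤ e) (hM2 : (e : ℝ) + 1 - a ≤ M)
    (hd : ∀ n, a ≤ n → n + 2 ≤ e →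
      lam ≤ (x (n + 2) - x (n + 1)) - (x (n + 1) - x n) ∧
        (x (n + 2) - x (n + 1)) - (x (n + 1) - x n) ≤ α * lam) :
    ‖Sx x a e‖ ≤ 5 * α * M * √lam + 10 / √lam := by
  have hs : 0 < √lam := Real.sqrt_pos.mpr hlam
  have hss : √lam * √lam = lam := Real.mul_self_sqrt hlam.le
  have hs2 : √lam ≤ 1 / 2 := by
    rw [Real.sqrt_le_left (by norm_num)]
    norm_num
    linarith
  set K : ℤ := ⌈x e - x (e - 1)⌉ with hK
  have hK1 : x e - x (e - 1) ≤ K := Int.le_ceil _
  have hK2 : (K : ℝ) < x e - x (e - 1) + 1 := Int.ceil_lt_add_one _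
  -- monotonicity of the differences
  have hmono : ∀ i n, a ≤ n → n + i + 1 ≤ e →
      x (n + 1) - x n ≤ x (n + i + 1) - x (n + i) ∧
        x (n + i + 1) - x (n + i) ≤ x (n + 1) - x n + i * (α * lam) := by
    intro i n hn
    induction i with
    | zero => intro _; simp
    | succ i ih =>
      intro hi
      obtain ⟨h1, h2⟩ := ih (by omega)
      obtain ⟨h3, h4⟩ := hd (n + i) (by omega) (by omega)
      have e1 : n + (i + 1) + 1 = n + i + 2 := by omega
      have e2 : n + (i + 1) = n + i + 1 := by omega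
      rw [e1, e2]
      push_cast
      constructor <;> linarith
  have hmin : ∀ n m, a ≤ n → n ≤ m →
      x (min n (e - 1) + 1) - x (min n (e - 1)) ≤ x (min m (e - 1) + 1) - x (min m (e - 1)) := by
    intro n m hn hnm
    obtain ⟨i, hi⟩ : ∃ i, min m (e - 1) = min n (e - 1) + i :=
      ⟨min m (e - 1) - min n (e - 1), by omega⟩
    rw [hi]
    exact (hmono i (min n (e - 1)) (by omega) (by omega)).1
  set k : ℕ := ⌊α * lam * M + 1⌋₊ + 1 with hk
  have hpos1 : 0 ≤ α * lam * M := by positivity
  have hk1 : α * lam * M + 1 < k := by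
    rw [hk]
    push_cast
    exact Nat.lt_floor_add_one _
  have hk2 : (k : ℝ) ≤ α * lam * M + 2 := by
    rw [hk]
    push_cast
    have := Nat.floor_le (a := α * lam * M + 1) (by linarith)
    linarith
  have hvdc := MP_aa9ae4_nt.vdc_general (yb x K e) lam (√lam) hlam hs e k a (by omega)
    (fun n m hn hnm => by
      rw [yb_diff x K e m (by omega), yb_diff x K e n (by omega)]
      have := hmin n m hn hnm
      linarith)
    (fun n hn hne => by
      have e0 : n + 2 = n + 1 + 1 := by omega
      rw [e0, yb_diff x K e (n + 1) (by omega), yb_diff x K e n (by omega),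
        min_eq_left (by omega), min_eq_left (by omega)]
      have := (hd n hn (by omega)).1
      have e1 : n + 1 + 1 = n + 2 := by omega
      rw [e1]
      linarith)
    (fun n hn => by
      rw [yb_diff x K e n (by omega)]
      have h1 := hmin n (max n (e - 1)) hn (le_max_left _ _)
      have h2 : min (max n (e - 1)) (e - 1) = e - 1 := by omega
      rw [h2] at h1
      have h3 : e - 1 + 1 = e := by omega
      rw [h3] at h1
      linarith)
    (fun _ => by
      rw [yb_diff x K e a (by omega), min_eq_left (by omega)]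
      obtain ⟨i, hi⟩ : ∃ i, e = a + i + 1 := ⟨e - a - 1, by omega⟩
      have h1 := (hmono i a le_rfl (by omega)).2
      have h2 : e - 1 = a + i := by omega
      rw [h2, hi] at hK2
      have h3 : (i : ℝ) ≤ M := by
        rw [hi] at hM2
        push_cast at hM2
        linarith
      have h4 : (i : ℝ) * (α * lam) ≤ α * lam * M := by
        have : (i : ℝ) * (α * lam) ≤ M * (α * lam) :=
          mul_le_mul_of_nonneg_right h3 (by positivity)
        linarith
      linarith)
  have hconj : ‖Sx x a e‖ =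
      ‖∑ n ∈ Ico a e, Complex.exp (2 * Real.pi * (yb x K e n : ℂ) * Complex.I)‖ := by
    rw [← RCLike.norm_conj]
    congr 1
    unfold Sx
    rw [map_sum]
    refine sum_congr rfl fun n hn => ?_
    rw [mem_Ico] at hn
    rw [conj_ee, zb_exp]
    unfold yb
    rw [if_pos hn.2.le]
    have h1 : (K : ℝ) * n - x n = ((K * (n : ℤ) : ℤ) : ℝ) + (-x n) := by
      push_cast
      ring
    rw [h1, ee_add, ee_int, one_mul]
  rw [hconj]
  refine hvdc.trans ?_
  have h5 : 2 * (√lam / lam + 1) + 2 / √lam ≤ 5 / √lam := by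
    have h6 : √lam / lam = 1 / √lam := by
      rw [div_eq_div_iff hlam.ne' hs.ne', one_mul]
      exact hss
    rw [h6]
    have h7 : 2 ≤ 1 / √lam := by
      rw [le_div_iff₀ hs]
      linarith
    have h8 : (5 : ℝ) / √lam = 5 * (1 / √lam) := by ring
    have h9 : (2 : ℝ) / √lam = 2 * (1 / √lam) := by ring
    rw [h8, h9]
    linarith
  calc (k : ℝ) * (2 * (√lam / lam + 1) + 2 / √lam) ≤ (α * lam * M + 2) * (5 / √lam) :=
        mul_le_mul hk2 h5 (by positivity) (by linarith)
    _ = 5 * α * M * (lam / √lam) + 10 / √lam := by ring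
    _ = 5 * α * M * √lam + 10 / √lam := by
        rw [Real.div_sqrt]

theorem tZb : SZb := by
  intro x a b lam α M hlam hα hM hab hM2 hd
  have hs : 0 < √lam := Real.sqrt_pos.mpr hlam
  have hinv : 0 < 1 / √lam := by positivity
  rcases lt_or_ge (1 / 4) lam with h | h
  · have h1 : 1 / 2 ≤ √lam := by
      apply Real.le_sqrt_of_sq_le
      norm_num
      linarith
    have h2 := zb_trivial x a b hab
    have h3 : M ≤ 5 * α * M * √lam := by
      have h4 : (1 : ℝ) ≤ 5 * α * √lam := by nlinarith
      nlinarith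
    have h5 : (0 : ℝ) ≤ 11 / √lam := by positivity
    linarith
  · have hs2 : √lam ≤ 1 / 2 := by
      rw [Real.sqrt_le_left (by norm_num)]
      norm_num
      linarith
    have h7 : 2 ≤ 1 / √lam := by
      rw [le_div_iff₀ hs]
      linarith
    have h8 : (11 : ℝ) / √lam = 11 * (1 / √lam) := by ring
    have h9 : (10 : ℝ) / √lam = 10 * (1 / √lam) := by ring
    have h10 : 0 ≤ 5 * α * M * √lam := by positivity
    rcases Nat.lt_or_ge (a + 2) b with hb | hb
    · obtain ⟨e, rfl⟩ : ∃ e, b = e + 1 := ⟨b - 1, by omega⟩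
      have h1 := zb_main x a e lam α M hlam h hα hM (by omega) (by push_cast at hM2; linarith)
        (fun n hn hne => by
          have := hd n hn (by omega)
          simp only [dif] at this
          exact this)
      have h2 : Sx x a (e + 1) = Sx x a e + ee (x e) := by
        unfold Sx
        rw [sum_Ico_succ_top (by omega)]
      rw [h2]
      refine (norm_add_le _ _).trans ?_
      rw [norm_ee]
      rw [h9] at h1
      rw [h8]
      linarith
    · have h1 := zb_trivial x a b hab
      have h2 : (b : ℝ) ≤ a + 2 := by exact_mod_cast hb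
      rw [h8]
      linarith

end Pool.Agent.Lib.UI
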