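import Pool.Agent.Lib.UI.SpecZ

/-!
# Zeta sums, assembly
-/

set_option autoImplicit false

namespace Pool.Agent.Lib.UI

open Finset Pool.Agent.Lib.EH3

private lemma Zf_ev (r s K : ℝ) (hs : 0 < s) :
    ∀ᶠ x : ℝ in Filter.atTop, K * (Real.log x) ^ r ≤ x ^ s := by
  have h := isLittleO_log_rpow_rpow_atTop r hs
  have h1 := h.def (c := 1 / (|K| + 1)) (by positivity)
  filter_upwards [h1, Filter.eventually_ge_atTop (1 : ℝ)] with x hx hx1
  have hlog : 0 ≤ Real.log x := Real.log_nonneg hx1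
  rw [Real.norm_of_nonneg (Real.rpow_nonneg hlog _),
    Real.norm_of_nonneg (Real.rpow_nonneg (by linarith) _)] at hx
  rw [one_div, ← div_eq_inv_mul, le_div_iff₀ (by positivity)] at hx
  have h2 : K ≤ |K| + 1 := by
    have := le_abs_self K
    linarith
  have h3 : 0 ≤ (Real.log x) ^ r := Real.rpow_nonneg hlog _
  nlinarith

private lemma Zf_norm (y : ℝ) : ‖ee y‖ = 1 := by
  unfold ee
  rw [mul_comm, Complex.norm_exp_ofReal_mul_I]

/-- the sum is symmetric in `t` -/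
private lemma Zf_neg (S : Finset ℕ) (t : ℝ) :
    ‖∑ k ∈ S, ee (t * Real.log k)‖ = ‖∑ k ∈ S, ee (|t| * Real.log k)‖ := by
  rcases le_total 0 t with h | h
  · rw [abs_of_nonneg h]
  · rw [abs_of_nonpos h]
    have h1 : (starRingEnd ℂ) (∑ k ∈ S, ee (t * Real.log k)) = ∑ k ∈ S, ee (-t * Real.log k) := by
      rw [map_sum]
      refine Finset.sum_congr rfl fun k _ => ?_
      rw [conj_ee, neg_mul]
    rw [← h1, RCLike.norm_conj]

/-- the trivial bound -/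
private lemma Zf_triv (K K2 q b : ℕ) (t : ℝ) (hK2 : K2 ≤ 2 * K) :
    ‖∑ k ∈ (Ioc K K2).filter (fun k => k ≡ b [MOD q]), ee (t * Real.log k)‖ ≤ K := by
  refine (norm_sum_le _ _).trans ?_
  have h1 : ∑ k ∈ (Ioc K K2).filter (fun k => k ≡ b [MOD q]), ‖ee (t * Real.log k)‖ =
      (((Ioc K K2).filter (fun k => k ≡ b [MOD q])).card : ℝ) := by
    rw [Finset.sum_congr rfl fun k _ => Zf_norm _, sum_const, nsmul_eq_mul, mul_one]
  rw [h1]
  have h2 : ((Ioc K K2).filter (fun k => k ≡ b [MOD q])).card ≤ K := by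
    refine (card_filter_le _ _).trans ?_
    rw [Nat.card_Ioc]
    omega
  exact_mod_cast h2

/-- the main bound, for positive `t` -/
private lemma Zf_main (h1 : SZk) (h3 : SZq) {A ε B C1 δ : ℝ} {R : ℕ} (hA : 0 < A) (hε : 0 < ε)
    (hδ : 0 < δ) (hC1 : 0 < C1) (hR : 4 / ε ≤ R)
    (hp : ∀ (t c M : ℝ) (a b : ℕ), 1 ≤ M →
      M ^ (3 / 4 : ℝ) ≤ t → t ≤ M ^ (R : ℝ) → 0 ≤ c → a ≤ b →
      (∀ n, a ≤ n → n < b → M < (n : ℝ) + c ∧ (n : ℝ) + c ≤ 2 * M) →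
      ‖Sx (lg t c) a b‖ ≤ C1 * M ^ (1 - δ))
    (N K K2 q b : ℕ) (t : ℝ) (hN : 3 ≤ N) (hK : (N : ℝ) ^ ε ≤ K) (hKK : K ≤ K2) (hK2 : K2 ≤ 2 * K)
    (hq : 1 ≤ q) (hqL : (q : ℝ) ≤ (Real.log N) ^ B) (ht : (Real.log N) ^ A ≤ t) (htN : t ≤ (N : ℝ) ^ 2)
    (e1 : (Real.log N) ^ B ≤ (N : ℝ) ^ (ε / 2)) (e2 : 16 ≤ (N : ℝ) ^ (ε / 2))
    (e3 : (Real.log N) ^ A ≤ (N : ℝ) ^ (ε * δ / 2)) :
    ‖∑ k ∈ (Ioc K K2).filter (fun k => k ≡ b [MOD q]), ee (t * Real.log k)‖ ≤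
      (6 + C1) * (K * (Real.log N) ^ (-A)) := by
  have hN3 : (3 : ℝ) ≤ N := by exact_mod_cast hN
  have hN0 : (0 : ℝ) < N := by linarith
  have hN1 : (1 : ℝ) ≤ N := by linarith
  have hL0 : 0 < Real.log N := Real.log_pos (by linarith)
  have hLA : 0 < (Real.log N) ^ A := Real.rpow_pos_of_pos hL0 _
  have hLB : 0 < (Real.log N) ^ B := Real.rpow_pos_of_pos hL0 _
  have hq0 : (0 : ℝ) < q := by exact_mod_cast hq
  have hNe : 0 < (N : ℝ) ^ (ε / 2) := by positivity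
  have ht0 : 0 < t := lt_of_lt_of_le hLA ht
  have hM1 : (N : ℝ) ^ (ε / 2) ≤ (K : ℝ) / q := by
    rw [le_div_iff₀ hq0]
    calc (N : ℝ) ^ (ε / 2) * q ≤ (N : ℝ) ^ (ε / 2) * (N : ℝ) ^ (ε / 2) :=
          mul_le_mul_of_nonneg_left (hqL.trans e1) hNe.le
      _ = (N : ℝ) ^ ε := by
          rw [← Real.rpow_add hN0]
          congr 1
          ring
      _ ≤ K := hK
  have hM16 : 16 ≤ (K : ℝ) / q := e2.trans hM1
  have hM0 : 0 < (K : ℝ) / q := by linarith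
  have hK1 : 1 ≤ K := by
    have h5 : (1 : ℝ) ≤ K := (Real.one_le_rpow hN1 hε.le).trans hK
    exact_mod_cast h5
  have hMK : (K : ℝ) / q ≤ K := by
    rw [div_le_iff₀ hq0]
    have h5 : (1 : ℝ) ≤ q := by exact_mod_cast hq
    nlinarith [Nat.cast_nonneg (α := ℝ) K]
  obtain ⟨c, a', b', hc, hab, hn, heq⟩ := h3 t K K2 q b hq hK1 hKK hK2
  rw [heq]
  have hneg : (Real.log N) ^ (-A) = ((Real.log N) ^ A)⁻¹ := Real.rpow_neg hL0.le A
  rw [hneg]
  have hKn : (0 : ℝ) ≤ K := Nat.cast_nonneg K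
  by_cases hcase : t ≤ ((K : ℝ) / q) ^ (3 / 4 : ℝ)
  · have h4 : t ≤ (K : ℝ) / q / 2 := by
      have h5 : ((K : ℝ) / q) ^ (3 / 4 : ℝ) * ((K : ℝ) / q) ^ (1 / 4 : ℝ) = (K : ℝ) / q := by
        rw [← Real.rpow_add hM0]
        norm_num
      have h6 : (2 : ℝ) ≤ ((K : ℝ) / q) ^ (1 / 4 : ℝ) := by
        have h7 : (16 : ℝ) ^ (1 / 4 : ℝ) = 2 := by
          rw [show (16 : ℝ) = 2 ^ (4 : ℝ) by norm_num, ← Real.rpow_mul (by norm_num)]
          norm_num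
        rw [← h7]
        exact Real.rpow_le_rpow (by norm_num) hM16 (by norm_num)
      have h8 : 0 < ((K : ℝ) / q) ^ (3 / 4 : ℝ) := Real.rpow_pos_of_pos hM0 _
      nlinarith
    refine (h1 t c _ a' b' (by linarith) ht0 h4 hc hab hn).trans ?_
    have h5 : 6 * ((K : ℝ) / q) / t ≤ 6 * K / t := by
      exact div_le_div_of_nonneg_right (by linarith) ht0.le
    have h6 : 6 * (K : ℝ) / t ≤ 6 * K / (Real.log N) ^ A :=
      div_le_div_of_nonneg_left (by positivity) hLA ht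
    have h7 : 6 * (K : ℝ) / (Real.log N) ^ A = 6 * (K * ((Real.log N) ^ A)⁻¹) := by
      rw [div_eq_mul_inv]
      ring
    have h8 : 0 ≤ C1 * (K * ((Real.log N) ^ A)⁻¹) := by positivity
    linarith
  · have hcase' := not_le.1 hcase
    have hMR : t ≤ ((K : ℝ) / q) ^ (R : ℝ) := by
      refine htN.trans ?_
      have h5 : (N : ℝ) ^ 2 ≤ ((N : ℝ) ^ (ε / 2)) ^ (R : ℝ) := by
        rw [← Real.rpow_mul hN0.le, ← Real.rpow_natCast (N : ℝ) 2]
        refine Real.rpow_le_rpow_of_exponent_le hN1 ?_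
        rw [div_le_iff₀ hε] at hR
        push_cast
        linarith
      exact h5.trans (Real.rpow_le_rpow hNe.le hM1 (Nat.cast_nonneg R))
    refine (hp t c _ a' b' (by linarith) hcase'.le hMR hc hab hn).trans ?_
    have h5 : ((K : ℝ) / q) ^ (1 - δ) = (K : ℝ) / q * (((K : ℝ) / q) ^ δ)⁻¹ := by
      rw [Real.rpow_sub hM0, Real.rpow_one, div_eq_mul_inv]
    have h6 : (Real.log N) ^ A ≤ ((K : ℝ) / q) ^ δ := by
      refine e3.trans ?_
      have h7 : (N : ℝ) ^ (ε * δ / 2) = ((N : ℝ) ^ (ε / 2)) ^ δ := by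
        rw [← Real.rpow_mul hN0.le]
        congr 1
        ring
      rw [h7]
      exact Real.rpow_le_rpow hNe.le hM1 hδ.le
    have h8 : (((K : ℝ) / q) ^ δ)⁻¹ ≤ ((Real.log N) ^ A)⁻¹ := inv_anti₀ hLA h6
    have h9 : (K : ℝ) / q * (((K : ℝ) / q) ^ δ)⁻¹ ≤ K * ((Real.log N) ^ A)⁻¹ :=
      mul_le_mul hMK h8 (by positivity) hKn
    rw [h5]
    have h10 := mul_le_mul_of_nonneg_left h9 hC1.le
    have h11 : 0 ≤ K * ((Real.log N) ^ A)⁻¹ := by positivity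
    linarith

theorem tZf (h1 : SZk) (h2 : SZp) (h3 : SZq) : SZf := by
  intro ε B A hε hB hA
  obtain ⟨C1, δ, hC1, hδ, -, hp⟩ := h2 ⌈4 / ε⌉₊
  have hR : 4 / ε ≤ (⌈4 / ε⌉₊ : ℝ) := Nat.le_ceil _
  have ev1 := Zf_ev B (ε / 2) 1 (by positivity)
  have ev2 := Zf_ev 0 (ε / 2) 16 (by positivity)
  have ev3 := Zf_ev A (ε * δ / 2) 1 (by positivity)
  obtain ⟨x0, hx0⟩ := Filter.eventually_atTop.1 (ev1.and (ev2.and ev3))
  refine ⟨6 + C1 + (Real.log (max x0 3)) ^ A, A, ?_, hA, ?_⟩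
  · have : 0 ≤ (Real.log (max x0 3)) ^ A := by
      refine Real.rpow_nonneg (Real.log_nonneg ?_) _
      exact le_trans (by norm_num) (le_max_right x0 3)
    linarith
  intro N K K2 q b t hN hK hKN hKK hK2 hq hqL ht htN
  have hN3 : (3 : ℝ) ≤ N := by exact_mod_cast hN
  have hL0 : 0 < Real.log N := Real.log_pos (by linarith)
  have hLA : 0 < (Real.log N) ^ A := Real.rpow_pos_of_pos hL0 _
  have hneg : (Real.log N) ^ (-A) = ((Real.log N) ^ A)⁻¹ := Real.rpow_neg hL0.le A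
  have hx3 : 0 ≤ (Real.log (max x0 3)) ^ A := by
    refine Real.rpow_nonneg (Real.log_nonneg ?_) _
    exact le_trans (by norm_num) (le_max_right x0 3)
  have hKn : (0 : ℝ) ≤ K := Nat.cast_nonneg K
  rw [Zf_neg]
  rcases le_total x0 (N : ℝ) with hNx | hNx
  · obtain ⟨e1, e2, e3⟩ := hx0 N hNx
    rw [one_mul] at e1 e3
    rw [Real.rpow_zero, mul_one] at e2
    have h4 := Zf_main h1 h3 hA hε hδ hC1 hR hp N K K2 q b |t| hN hK hKK hK2 hq hqL ht htN e1 e2 e3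
    have h5 : 0 ≤ (Real.log (max x0 3)) ^ A * (K * (Real.log N) ^ (-A)) := by
      rw [hneg]
      positivity
    calc _ ≤ (6 + C1) * (K * (Real.log N) ^ (-A)) := h4
      _ ≤ (6 + C1) * (K * (Real.log N) ^ (-A)) + (Real.log (max x0 3)) ^ A * (K * (Real.log N) ^ (-A)) := by
          linarith
      _ = _ := by ring
  · refine (Zf_triv K K2 q b |t| hK2).trans ?_
    have h5 : Real.log N ≤ Real.log (max x0 3) :=
      Real.log_le_log (by linarith) (hNx.trans (le_max_left _ _))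
    have h6 : (Real.log N) ^ A ≤ (Real.log (max x0 3)) ^ A := Real.rpow_le_rpow hL0.le h5 hA.le
    rw [hneg]
    have h7 : (1 : ℝ) ≤ (6 + C1 + (Real.log (max x0 3)) ^ A) * ((Real.log N) ^ A)⁻¹ := by
      rw [← div_eq_mul_inv, le_div_iff₀ hLA]
      linarith
    calc (K : ℝ) = K * 1 := (mul_one _).symm
      _ ≤ K * ((6 + C1 + (Real.log (max x0 3)) ^ A) * ((Real.log N) ^ A)⁻¹) :=
          mul_le_mul_of_nonneg_left h7 hKn
      _ = _ := by ring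

end Pool.Agent.Lib.UI
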