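import Pool.Agent.Lib.UI.SpecZ

set_option autoImplicit false

namespace Pool.Agent.Lib.UI

open Finset Pool.Agent.Lib.EH3

private theorem Zi_norm (x : ℝ) : ‖ee x‖ = 1 := by
  rw [ee, mul_comm, Complex.norm_exp_ofReal_mul_I]

private theorem Zi_dif (x : ℕ → ℝ) (h : ℕ) : ∀ r n : ℕ,
    dif (fun n => x (n + h) - x n) r n = dif x r (n + h) - dif x r n := by
  intro r
  induction r with
  | zero => intro n; rfl
  | succ r ih =>
    intro n
    change dif (fun n => x (n + h) - x n) r (n + 1) - dif (fun n => x (n + h) - x n) r n = _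
    rw [ih, ih]
    change _ = (dif x r (n + h + 1) - dif x r (n + h)) - (dif x r (n + 1) - dif x r n)
    rw [show n + 1 + h = n + h + 1 by omega]
    ring

private theorem Zi_tel (x : ℕ → ℝ) (r n h : ℕ) :
    dif x r (n + h) - dif x r n = ∑ i ∈ range h, dif x (r + 1) (n + i) := by
  induction h with
  | zero => simp
  | succ h ih =>
    rw [sum_range_succ, ← ih]
    change _ = _ + (dif x r (n + h + 1) - dif x r (n + h))
    rw [show n + (h + 1) = n + h + 1 by omega]
    ring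

private theorem Zi_triv (x : ℕ → ℝ) (a b : ℕ) (M : ℝ) (hab : a ≤ b) (hM : (b : ℝ) - a ≤ M) :
    ‖Sx x a b‖ ≤ M := by
  rw [Sx]
  refine (norm_sum_le _ _).trans ?_
  have h1 : ∀ n ∈ Ico a b, ‖ee (x n)‖ = 1 := fun n _ => Zi_norm _
  rw [sum_congr rfl h1, sum_const, Nat.card_Ico, nsmul_eq_mul, mul_one, Nat.cast_sub hab]
  exact hM

theorem tZi (h : SZv) : SZi := by
  intro r hr hQ α β hα hβ hβ1
  obtain ⟨C0, δ0, hC0, hδ0, hmain⟩ := hQ α (β / 2) hα (by linarith) (by linarith)
  obtain ⟨σ, hσ⟩ : ∃ σ : ℝ, σ = β / 2 := ⟨_, rfl⟩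
  have hσ0 : 0 < σ := by rw [hσ]; linarith
  have hσ1 : σ ≤ 1 := by rw [hσ]; linarith
  have hmin : 0 < min σ δ0 := lt_min hσ0 hδ0
  refine ⟨6 + 6 * C0, min σ δ0 / 2, by positivity, by linarith, ?_⟩
  intro x a b M lam hM hab hbM hlam1 hlam2 hdif
  have hM0 : 0 < M := by linarith
  have hlam0 : 0 < lam := lt_of_lt_of_le (Real.rpow_pos_of_pos hM0 _) hlam1
  have hMσ : 1 ≤ M ^ σ := Real.one_le_rpow hM hσ0.le
  have hMσ1 : M ^ σ ≤ M := by
    calc M ^ σ ≤ M ^ (1 : ℝ) := Real.rpow_le_rpow_of_exponent_le hM hσ1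
      _ = M := Real.rpow_one M
  obtain ⟨H, hH⟩ : ∃ H : ℕ, H = ⌈M ^ σ⌉₊ := ⟨_, rfl⟩
  have hH1 : M ^ σ ≤ H := by rw [hH]; exact Nat.le_ceil _
  have hH2 : (H : ℝ) < M ^ σ + 1 := by rw [hH]; exact Nat.ceil_lt_add_one (by linarith)
  have hH0 : 1 ≤ H := by
    have : (1 : ℝ) ≤ H := hMσ.trans hH1
    exact_mod_cast this
  have hH3 : ∀ k : ℕ, k < H → (k : ℝ) < M ^ σ := by
    intro k hk
    rw [hH] at hk
    exact Nat.lt_ceil.mp hk
  have hHr : (0 : ℝ) < H := by exact_mod_cast hH0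
  -- the terms
  obtain ⟨P, hP⟩ : ∃ P : ℝ, P = C0 * M ^ (1 - δ0) := ⟨_, rfl⟩
  have hP0 : 0 ≤ P := by rw [hP]; positivity
  have hterm : ∀ k ∈ range H, ‖Sx (fun n => x (n + k) - x n) a (b - k)‖ ≤ P + if k = 0 then M else 0 := by
    intro k hk
    rw [mem_range] at hk
    by_cases hk0 : k = 0
    · rw [if_pos hk0, hk0]
      have := Zi_triv (fun n => x (n + 0) - x n) a (b - 0) M (by simpa using hab) (by simpa using hbM)
      linarith
    · rw [if_neg hk0, add_zero]
      have hk1 : (1 : ℝ) ≤ k := by exact_mod_cast (Nat.one_le_iff_ne_zero.mpr hk0)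
      by_cases hak : a ≤ b - k
      · rw [hP]
        refine hmain _ a (b - k) M (k * lam) hM hak ?_ ?_ ?_ ?_
        · have h1 : ((b - k : ℕ) : ℝ) ≤ b := by exact_mod_cast Nat.sub_le b k
          linarith
        · nlinarith
        · have h1 : (k : ℝ) * lam ≤ M ^ σ * M ^ (-β) :=
            mul_le_mul (hH3 k hk).le hlam2 hlam0.le (by positivity)
          rw [← Real.rpow_add hM0] at h1
          rwa [show σ + -β = -(β / 2) by rw [hσ]; ring] at h1
        · intro n hn1 hn2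
          rw [Zi_dif, Zi_tel]
          have h1 : ∀ i ∈ range k, lam ≤ dif x (r + 1) (n + i) ∧ dif x (r + 1) (n + i) ≤ α * lam := by
            intro i hi
            rw [mem_range] at hi
            exact hdif (n + i) (by omega) (by omega)
          constructor
          · have := sum_le_sum (fun i hi => (h1 i hi).1)
            rwa [sum_const, card_range, nsmul_eq_mul] at this
          · have := sum_le_sum (fun i hi => (h1 i hi).2)
            rw [sum_const, card_range, nsmul_eq_mul] at this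
            linarith
      · have h1 : Ico a (b - k) = ∅ := Ico_eq_empty (by omega)
        rw [Sx, h1, sum_empty, norm_zero]
        exact hP0
  have hsum : ∑ k ∈ range H, ‖Sx (fun n => x (n + k) - x n) a (b - k)‖ ≤ H * P + M := by
    refine (sum_le_sum hterm).trans ?_
    rw [sum_add_distrib, sum_const, card_range, nsmul_eq_mul, sum_ite_eq' (range H) 0 (fun _ => M),
      if_pos (mem_range.mpr hH0)]
  have hv := h x a b H hH0 hab
  -- square bound
  have hsq : ‖Sx x a b‖ ^ 2 ≤ (6 + 6 * C0) * M ^ (2 - min σ δ0) := by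
    have h1 : 2 * (((b : ℝ) - a) + H) / H ≤ 6 * M / H := by
      refine div_le_div_of_nonneg_right ?_ hHr.le
      linarith
    have h2 : 0 ≤ H * P + M := by positivity
    have h3 : ‖Sx x a b‖ ^ 2 ≤ 6 * M / H * (H * P + M) := by
      have h0 : 0 ≤ 2 * (((b : ℝ) - a) + H) / H := by
        have : (a : ℝ) ≤ b := by exact_mod_cast hab
        have h01 : 0 ≤ (b : ℝ) - a := by linarith
        positivity
      calc ‖Sx x a b‖ ^ 2 ≤ 2 * (((b : ℝ) - a) + H) / H *
            ∑ k ∈ range H, ‖Sx (fun n => x (n + k) - x n) a (b - k)‖ := hv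
        _ ≤ 2 * (((b : ℝ) - a) + H) / H * (H * P + M) := mul_le_mul_of_nonneg_left hsum h0
        _ ≤ 6 * M / H * (H * P + M) := mul_le_mul_of_nonneg_right h1 h2
    have h4 : 6 * M / H * (H * P + M) = 6 * M * P + 6 * M * M / H := by
      field_simp
    have h5 : 6 * M * M / H ≤ 6 * M * M / M ^ σ :=
      div_le_div_of_nonneg_left (by positivity) (by positivity) hH1
    have h6 : 6 * M * M / M ^ σ = 6 * M ^ (2 - σ) := by
      rw [Real.rpow_sub hM0, Real.rpow_two]
      ring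
    have h7 : 6 * M * P = 6 * C0 * M ^ (2 - δ0) := by
      rw [hP, show (2 : ℝ) - δ0 = 1 + (1 - δ0) by ring, Real.rpow_add hM0, Real.rpow_one]
      ring
    have h8 : M ^ (2 - σ) ≤ M ^ (2 - min σ δ0) :=
      Real.rpow_le_rpow_of_exponent_le hM (by linarith [min_le_left σ δ0])
    have h9 : M ^ (2 - δ0) ≤ M ^ (2 - min σ δ0) :=
      Real.rpow_le_rpow_of_exponent_le hM (by linarith [min_le_right σ δ0])
    rw [h4, h7] at h3
    rw [h6] at h5
    nlinarith
  have hfin : ‖Sx x a b‖ ^ 2 ≤ ((6 + 6 * C0) * M ^ (1 - min σ δ0 / 2)) ^ 2 := by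
    have h1 : (M ^ (1 - min σ δ0 / 2)) ^ 2 = M ^ (2 - min σ δ0) := by
      rw [← Real.rpow_natCast, ← Real.rpow_mul hM0.le]
      congr 1
      push_cast
      ring
    rw [mul_pow, h1]
    have h2 : 0 ≤ M ^ (2 - min σ δ0) := by positivity
    have h3 : (6 + 6 * C0) ≤ (6 + 6 * C0) ^ 2 := by nlinarith
    exact hsq.trans (mul_le_mul_of_nonneg_right h3 h2)
  exact (pow_le_pow_iff_left₀ (norm_nonneg _) (by positivity) (by norm_num)).mp hfin

end Pool.Agent.Lib.UI
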