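import Pool.Agent.Lib.UI.SpecZ
import Pool.Agent.Lib.MP_aa9ae4_nt.Kuzmin

/-!
# Zeta sums, small `t`
-/

set_option autoImplicit false

namespace Pool.Agent.Lib.UI

open Finset Pool.Agent.Lib.EH3

private lemma Zk_exp (y : ℝ) : Complex.exp (2 * Real.pi * y * Complex.I) = ee y := by
  unfold ee
  congr 1
  push_cast
  ring

private lemma Zk_up {t u : ℝ} (ht : 0 < t) (hu : 0 < u) :
    t * Real.log (u + 1) - t * Real.log u ≤ t / u := by
  have h1 : Real.log (u + 1) - Real.log u ≤ 1 / u := by
    rw [← Real.log_div (by positivity) hu.ne']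
    refine (Real.log_le_sub_one_of_pos (by positivity)).trans (le_of_eq ?_)
    field_simp
    ring
  have h2 := mul_le_mul_of_nonneg_left h1 ht.le
  rw [mul_one_div] at h2
  linarith

private lemma Zk_low {t u : ℝ} (ht : 0 < t) (hu : 0 < u) :
    t / (u + 1) ≤ t * Real.log (u + 1) - t * Real.log u := by
  have h1 : 1 / (u + 1) ≤ Real.log (u + 1) - Real.log u := by
    have h3 := Real.log_le_sub_one_of_pos (show 0 < u / (u + 1) by positivity)
    rw [Real.log_div hu.ne' (by positivity)] at h3
    have h4 : u / (u + 1) - 1 = -(1 / (u + 1)) := by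
      field_simp
      ring
    linarith
  have h2 := mul_le_mul_of_nonneg_left h1 ht.le
  rw [mul_one_div] at h2
  linarith

private lemma Zk_anti {t u : ℝ} (ht : 0 < t) (hu : 0 < u) :
    t * Real.log (u + 2) - t * Real.log (u + 1) ≤ t * Real.log (u + 1) - t * Real.log u := by
  have h1 : Real.log ((u + 2) * u) ≤ Real.log ((u + 1) * (u + 1)) := by
    apply Real.log_le_log (by positivity)
    nlinarith
  rw [Real.log_mul (by positivity) hu.ne', Real.log_mul (by positivity) (by positivity)] at h1
  nlinarith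

theorem tZk : SZk := by
  intro t c M a b hM ht htM hc hab hn
  have hM0 : 0 < M := by linarith
  have hθ : 0 < t / (3 * M) := by positivity
  have hpos : ∀ n : ℕ, a ≤ n → n < b → 0 < (n : ℝ) + c := fun n h1 h2 => by
    have := (hn n h1 h2).1
    linarith
  have e1 : ∀ n : ℕ, lg t c (n + 1) = t * Real.log ((n : ℝ) + c + 1) := by
    intro n
    unfold lg
    push_cast
    congr 2
    ring
  have e2 : ∀ n : ℕ, lg t c (n + 2) = t * Real.log ((n : ℝ) + c + 2) := by
    intro n
    unfold lg
    push_cast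
    congr 2
    ring
  have e0 : ∀ n : ℕ, lg t c n = t * Real.log ((n : ℝ) + c) := fun n => rfl
  have hθ6 : t / (3 * M) ≤ 1 / 6 := by
    rw [div_le_iff₀ (by positivity)]
    linarith
  have h := Pool.Agent.Lib.MP_aa9ae4_nt.kuzmin_landau (lg t c) (t / (3 * M)) hθ a b ?_ ?_ ?_
  · have h1 : Sx (lg t c) a b = ∑ n ∈ Ico a b, Complex.exp (2 * Real.pi * (lg t c n) * Complex.I) := by
      unfold Sx
      refine Finset.sum_congr rfl fun n _ => ?_
      rw [Zk_exp]
    rw [h1]
    refine h.trans (le_of_eq ?_)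
    field_simp
    norm_num
  · intro n h1 h2
    rw [e2, e1, e0]
    exact Zk_anti ht (hpos n h1 (by omega))
  · intro n h1 h2
    rw [e1, e0]
    refine le_trans ?_ (Zk_low ht (hpos n h1 h2))
    have := (hn n h1 h2).2
    exact div_le_div_of_nonneg_left ht.le (by linarith [hpos n h1 h2]) (by linarith)
  · intro n h1 h2
    rw [e1, e0]
    refine (Zk_up ht (hpos n h1 h2)).trans ?_
    have h3 := (hn n h1 h2).1
    have h4 : t / ((n : ℝ) + c) ≤ 1 / 2 := by
      rw [div_le_iff₀ (hpos n h1 h2)]
      linarith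
    linarith

end Pool.Agent.Lib.UI
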