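import Pool.Agent.Lib.UI.SpecZ

set_option autoImplicit false

namespace Pool.Agent.Lib.UI

open Finset Pool.Agent.Lib.EH3

/-- iterated differences of a function on the reals -/
private noncomputable def Zl_dd (g : ℝ → ℝ) : ℕ → ℝ → ℝ
  | 0, y => g y
  | j + 1, y => Zl_dd g j (y + 1) - Zl_dd g j y

/-- `k (k + 1) .. (k + j - 1)` -/
private noncomputable def Zl_P : ℕ → ℕ → ℝ
  | _, 0 => 1
  | k, j + 1 => k * Zl_P (k + 1) j

private lemma Zl_P_pos (j : ℕ) : ∀ k : ℕ, 1 ≤ k → 0 < Zl_P k j := by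
  induction j with
  | zero => intro k _; simp [Zl_P]
  | succ j ih =>
    intro k hk
    have h1 := ih (k + 1) (by omega)
    have h2 : (0 : ℝ) < k := by exact_mod_cast hk
    simp only [Zl_P]
    positivity

private lemma Zl_P_fac (j : ℕ) : ∀ k : ℕ, (k.factorial : ℝ) * Zl_P (k + 1) j = ((k + j).factorial : ℝ) := by
  induction j with
  | zero => intro k; simp [Zl_P]
  | succ j ih =>
    intro k
    have h1 := ih (k + 1)
    simp only [Zl_P]
    have h2 : (k + 1 + j).factorial = (k + (j + 1)).factorial := by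
      congr 1
      omega
    rw [← h2, ← h1, Nat.factorial_succ]
    push_cast
    ring

private lemma Zl_deriv (g g' : ℝ → ℝ) (h : ∀ y, 0 < y → HasDerivAt g (g' y) y) (j : ℕ) :
    ∀ y, 0 < y → HasDerivAt (Zl_dd g j) (Zl_dd g' j y) y := by
  induction j with
  | zero => intro y hy; exact h y hy
  | succ j ih =>
    intro y hy
    have h1 := ih (y + 1) (by linarith)
    have h2 := ih y hy
    have h3 : HasDerivAt (fun z => Zl_dd g j (z + 1)) (Zl_dd g' j (y + 1)) y := h1.comp_add_const y 1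
    exact h3.sub h2

private lemma Zl_smul (c : ℝ) (g : ℝ → ℝ) (j : ℕ) : ∀ y, Zl_dd (fun y => c * g y) j y = c * Zl_dd g j y := by
  induction j with
  | zero => intro y; simp [Zl_dd]
  | succ j ih =>
    intro y
    simp only [Zl_dd]
    rw [ih, ih]
    ring

/-- `1 / y ^ k` -/
private noncomputable def Zl_phi (k : ℕ) (y : ℝ) : ℝ := (y ^ k)⁻¹

private lemma Zl_phi_deriv (k : ℕ) (y : ℝ) (hy : 0 < y) :
    HasDerivAt (Zl_phi k) (-(k : ℝ) * Zl_phi (k + 1) y) y := by
  have h1 : HasDerivAt (fun z : ℝ => z ^ k) ((k : ℝ) * y ^ (k - 1)) y := hasDerivAt_pow k y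
  have h2 := h1.inv (by positivity)
  have h3 : -((k : ℝ) * y ^ (k - 1)) / (y ^ k) ^ 2 = -(k : ℝ) * Zl_phi (k + 1) y := by
    unfold Zl_phi
    rcases k with _ | k
    · simp
    · simp only [Nat.add_sub_cancel]
      have : y ≠ 0 := hy.ne'
      field_simp
      ring
  rw [h3] at h2
  exact h2

/-- one step of the mean value theorem -/
private lemma Zl_mvt (g g' : ℝ → ℝ) (h : ∀ y, 0 < y → HasDerivAt g (g' y) y) (j : ℕ) (y : ℝ) (hy : 0 < y) :
    ∃ ξ, y < ξ ∧ ξ < y + 1 ∧ Zl_dd g (j + 1) y = Zl_dd g' j ξ := by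
  have hd : ∀ z, 0 < z → HasDerivAt (Zl_dd g j) (Zl_dd g' j z) z := Zl_deriv g g' h j
  obtain ⟨ξ, hξ, he⟩ := exists_hasDerivAt_eq_slope (Zl_dd g j) (Zl_dd g' j)
    (show y < y + 1 by linarith)
    (fun z hz => (hd z (lt_of_lt_of_le hy hz.1)).continuousAt.continuousWithinAt)
    (fun z hz => hd z (lt_trans hy hz.1))
  refine ⟨ξ, hξ.1, hξ.2, ?_⟩
  rw [he]
  simp only [Zl_dd]
  have : y + 1 - y = 1 := by ring
  rw [this, div_one]

private lemma Zl_bd (j : ℕ) : ∀ (k : ℕ) (y : ℝ), 1 ≤ k → 0 < y →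
    Zl_P k j / (y + j) ^ (k + j) ≤ (-1) ^ j * Zl_dd (Zl_phi k) j y ∧
      (-1) ^ j * Zl_dd (Zl_phi k) j y ≤ Zl_P k j / y ^ (k + j) := by
  induction j with
  | zero =>
    intro k y _ _
    simp [Zl_P, Zl_dd, Zl_phi]
  | succ j ih =>
    intro k y hk hy
    obtain ⟨ξ, h1, h2, h3⟩ := Zl_mvt (Zl_phi k) (fun y => -(k : ℝ) * Zl_phi (k + 1) y)
      (fun y hy => Zl_phi_deriv k y hy) j y hy
    have hξ : 0 < ξ := lt_trans hy h1
    rw [h3, Zl_smul]
    obtain ⟨h4, h5⟩ := ih (k + 1) ξ (by omega) hξ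
    have hP := Zl_P_pos j (k + 1) (by omega)
    have hk0 : (0 : ℝ) < k := by exact_mod_cast hk
    have e1 : (-1 : ℝ) ^ (j + 1) * (-(k : ℝ) * Zl_dd (Zl_phi (k + 1)) j ξ) =
        (k : ℝ) * ((-1) ^ j * Zl_dd (Zl_phi (k + 1)) j ξ) := by
      rw [pow_succ]; ring
    rw [e1]
    have e2 : k + 1 + j = k + (j + 1) := by ring
    rw [e2] at h4 h5
    simp only [Zl_P]
    push_cast
    constructor
    · refine le_trans ?_ (mul_le_mul_of_nonneg_left h4 hk0.le)
      rw [mul_div_assoc]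
      apply mul_le_mul_of_nonneg_left _ hk0.le
      apply div_le_div_of_nonneg_left hP.le (by positivity)
      apply pow_le_pow_left₀ (by positivity)
      linarith
    · refine le_trans (mul_le_mul_of_nonneg_left h5 hk0.le) ?_
      rw [mul_div_assoc]
      apply mul_le_mul_of_nonneg_left _ hk0.le
      apply div_le_div_of_nonneg_left hP.le (by positivity)
      apply pow_le_pow_left₀ hy.le h1.le

private lemma Zl_dif (t c : ℝ) (r : ℕ) : ∀ n : ℕ, dif (lg t c) r n = t * Zl_dd Real.log r ((n : ℝ) + c) := by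
  induction r with
  | zero => intro n; simp [dif, lg, Zl_dd]
  | succ r ih =>
    intro n
    simp only [dif, Zl_dd]
    rw [ih, ih]
    have : ((n + 1 : ℕ) : ℝ) + c = (n : ℝ) + c + 1 := by push_cast; ring
    rw [this]
    ring

theorem tZl : SZl := by
  intro t c r n ht hc hn hr
  obtain ⟨s, rfl⟩ : ∃ s, r = s + 1 := ⟨r - 1, by omega⟩
  simp only [Nat.add_sub_cancel]
  rw [Zl_dif]
  have hlog : ∀ y : ℝ, 0 < y → HasDerivAt Real.log (Zl_phi 1 y) y := by
    intro y hy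
    have := Real.hasDerivAt_log hy.ne'
    unfold Zl_phi
    rw [pow_one]
    exact this
  obtain ⟨ξ, h1, h2, h3⟩ := Zl_mvt Real.log (Zl_phi 1) hlog s ((n : ℝ) + c) hn
  rw [h3]
  have hξ : 0 < ξ := lt_trans hn h1
  obtain ⟨h4, h5⟩ := Zl_bd s 1 ξ le_rfl hξ
  have hP : Zl_P 1 s = (s.factorial : ℝ) := by
    have := Zl_P_fac s 0
    simpa using this
  rw [hP] at h4 h5
  have e1 : 1 + s = s + 1 := by ring
  rw [e1] at h4 h5
  have e2 : (-1 : ℝ) ^ s * (t * Zl_dd (Zl_phi 1) s ξ) = t * ((-1) ^ s * Zl_dd (Zl_phi 1) s ξ) := by ring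
  rw [e2]
  have hf : (0 : ℝ) < (s.factorial : ℝ) := by exact_mod_cast Nat.factorial_pos s
  push_cast
  constructor
  · refine le_trans ?_ (mul_le_mul_of_nonneg_left h4 ht.le)
    rw [mul_div_assoc]
    apply mul_le_mul_of_nonneg_left _ ht.le
    apply div_le_div_of_nonneg_left hf.le (by positivity)
    apply pow_le_pow_left₀ (by positivity)
    linarith
  · refine le_trans (mul_le_mul_of_nonneg_left h5 ht.le) ?_
    rw [mul_div_assoc]
    apply mul_le_mul_of_nonneg_left _ ht.le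
    apply div_le_div_of_nonneg_left hf.le (by positivity)
    apply pow_le_pow_left₀ hn.le h1.le

end Pool.Agent.Lib.UI
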