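import Pool.Agent.Lib.UI.SpecZ

set_option autoImplicit false

namespace Pool.Agent.Lib.UI

open Finset Pool.Agent.Lib.EH3

lemma Zp_dif (s : ℝ) (x : ℕ → ℝ) (r : ℕ) : ∀ n, dif (fun n => s * x n) r n = s * dif x r n := by
  induction r with
  | zero => intro n; rfl
  | succ r ih =>
    intro n
    show dif (fun n => s * x n) r (n + 1) - dif (fun n => s * x n) r n = s * (dif x r (n + 1) - dif x r n)
    rw [ih, ih]; ring

lemma Zp_norm_ee (t : ℝ) : ‖ee t‖ = 1 := by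
  unfold ee
  rw [mul_comm, Complex.norm_exp_ofReal_mul_I]

lemma Zp_conj (t : ℝ) : ee (-t) = (starRingEnd ℂ) (ee t) := by
  unfold ee
  rw [← Complex.exp_conj]
  congr 1
  simp only [map_mul, Complex.conj_I, Complex.conj_ofReal]
  push_cast
  ring

lemma Zp_neg (x : ℕ → ℝ) (a b : ℕ) : ‖Sx (fun n => (-1) * x n) a b‖ = ‖Sx x a b‖ := by
  have h : Sx (fun n => (-1) * x n) a b = (starRingEnd ℂ) (Sx x a b) := by
    unfold Sx
    rw [map_sum]
    refine Finset.sum_congr rfl fun n _ => ?_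
    rw [← Zp_conj]
    show ee (-1 * x n) = ee (-x n)
    rw [neg_one_mul]
  rw [h, Complex.norm_conj]

lemma Zp_sgn (x : ℕ → ℝ) (a b r : ℕ) : ‖Sx (fun n => (-1) ^ r * x n) a b‖ = ‖Sx x a b‖ := by
  rcases Nat.even_or_odd r with h | h
  · rw [h.neg_one_pow]; simp
  · rw [h.neg_one_pow]; exact Zp_neg x a b

lemma Zp_triv (x : ℕ → ℝ) (a b : ℕ) (hab : a ≤ b) : ‖Sx x a b‖ ≤ (b : ℝ) - a := by
  unfold Sx
  refine (norm_sum_le _ _).trans ?_
  simp only [Zp_norm_ee, Finset.sum_const, Nat.card_Ico, nsmul_eq_mul, mul_one]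
  rw [Nat.cast_sub hab]

lemma Zp_len (c M : ℝ) (a b : ℕ) (hM : 1 ≤ M) (hab : a ≤ b)
    (h : ∀ n, a ≤ n → n < b → M < (n : ℝ) + c ∧ (n : ℝ) + c ≤ 2 * M) : (b : ℝ) - a ≤ 2 * M := by
  rcases Nat.eq_or_lt_of_le hab with h0 | h0
  · rw [h0]; linarith
  · have h1 := (h a le_rfl h0).1
    have h2 := (h (b - 1) (by omega) (by omega)).2
    have h3 : ((b - 1 : ℕ) : ℝ) = (b : ℝ) - 1 := by
      rw [Nat.cast_sub (by omega)]; simp
    rw [h3] at h2
    linarith

lemma Zp_step (h3 : SZl) (r : ℕ) (hr : 2 ≤ r) (hQ : Qr r) :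
    ∃ C δ : ℝ, 0 < C ∧ 0 < δ ∧ δ ≤ 1 ∧ ∀ (t c M : ℝ) (a b : ℕ), 1 ≤ M →
      M ^ ((r : ℝ) - 5 / 4) ≤ t → t ≤ M ^ ((r : ℝ) - 1 / 4) → 0 ≤ c → a ≤ b →
      (∀ n, a ≤ n → n < b → M < (n : ℝ) + c ∧ (n : ℝ) + c ≤ 2 * M) →
      ‖Sx (lg t c) a b‖ ≤ C * M ^ (1 - δ) := by
  obtain ⟨C0, δ0, hC0, hδ0, hT⟩ := hQ (2 ^ r) (1 / 8) (one_le_pow₀ (by norm_num)) (by norm_num) (by norm_num)
  set F : ℝ := ((r - 1).factorial : ℝ) with hF
  have hF1 : 1 ≤ F := by
    rw [hF]; exact_mod_cast Nat.one_le_iff_ne_zero.2 (Nat.factorial_ne_zero _)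
  set M0 : ℝ := max (F ^ 8) (16 ^ r) with hM0
  have hM01 : 1 ≤ M0 := le_max_of_le_left (one_le_pow₀ hF1)
  refine ⟨2 * C0 + 2 * M0, min δ0 1, by positivity, lt_min hδ0 one_pos, min_le_right _ _, ?_⟩
  intro t c M a b hM ht1 ht2 hc hab hn
  have hM' : 0 < M := by linarith
  have hlen := Zp_len c M a b hM hab hn
  set δ : ℝ := min δ0 1 with hδ
  have hδ1 : δ ≤ 1 := min_le_right _ _
  have hδ2 : δ ≤ δ0 := min_le_left _ _
  have hδ3 : 0 < δ := lt_min hδ0 one_pos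
  have hMp : 0 < M ^ (1 - δ) := Real.rpow_pos_of_pos hM' _
  rcases lt_or_ge M M0 with hlt | hge
  · -- small M
    have h4 : M = M ^ δ * M ^ (1 - δ) := by
      rw [← Real.rpow_add hM']; simp
    have h5 : M ^ δ ≤ M := by
      calc M ^ δ ≤ M ^ (1 : ℝ) := Real.rpow_le_rpow_of_exponent_le hM hδ1
        _ = M := Real.rpow_one M
    have h6 : M ≤ M0 * M ^ (1 - δ) := by
      calc M = M ^ δ * M ^ (1 - δ) := h4
        _ ≤ M0 * M ^ (1 - δ) := by
          apply mul_le_mul_of_nonneg_right _ hMp.le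
          linarith
    have h7 := Zp_triv (lg t c) a b hab
    have h8 : 0 < C0 * M ^ (1 - δ) := mul_pos hC0 hMp
    nlinarith
  · have hF8 : F ^ 8 ≤ M := le_trans (le_max_left _ _) hge
    have h16 : (16 : ℝ) ^ r ≤ M := le_trans (le_max_right _ _) hge
    have hMF : F ≤ M ^ (1 / 8 : ℝ) := by
      have : F = (F ^ 8) ^ (1 / 8 : ℝ) := by
        rw [← Real.rpow_natCast, ← Real.rpow_mul (by linarith)]; norm_num
      rw [this]
      exact Real.rpow_le_rpow (by positivity) hF8 (by norm_num)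
    have hM2 : (2 : ℝ) ^ r ≤ M ^ (1 / 4 : ℝ) := by
      have : (2 : ℝ) ^ r = ((16 : ℝ) ^ r) ^ (1 / 4 : ℝ) := by
        rw [show (16 : ℝ) = 2 ^ 4 by norm_num, ← pow_mul, mul_comm 4 r, pow_mul]
        rw [← Real.rpow_natCast ((2 : ℝ) ^ r) 4, ← Real.rpow_mul (by positivity)]
        norm_num
      rw [this]
      exact Real.rpow_le_rpow (by positivity) h16 (by norm_num)
    have ht0 : 0 < t := lt_of_lt_of_le (Real.rpow_pos_of_pos hM' _) ht1
    have hMr : 0 < M ^ r := pow_pos hM' r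
    have h54 : 0 < M ^ (5 / 4 : ℝ) := Real.rpow_pos_of_pos hM' _
    have h14 : 0 < M ^ (1 / 4 : ℝ) := Real.rpow_pos_of_pos hM' _
    have h18 : 0 < M ^ (1 / 8 : ℝ) := Real.rpow_pos_of_pos hM' _
    have hE1 : M ^ ((r : ℝ) - 5 / 4) = M ^ r / M ^ (5 / 4 : ℝ) := by
      rw [Real.rpow_sub hM', Real.rpow_natCast]
    have hE2 : M ^ ((r : ℝ) - 1 / 4) = M ^ r / M ^ (1 / 4 : ℝ) := by
      rw [Real.rpow_sub hM', Real.rpow_natCast]
    rw [hE1] at ht1
    rw [hE2] at ht2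
    have h2r : (0 : ℝ) < 2 ^ r := by positivity
    have h2r4 : (2 : ℝ) ≤ 2 ^ r := by
      calc (2 : ℝ) = 2 ^ 1 := by norm_num
        _ ≤ 2 ^ r := pow_le_pow_right₀ (by norm_num) (by omega)
    set lam : ℝ := t * F / (2 * M) ^ r with hlam
    have hlam0 : 0 < lam := by positivity
    have hlo : (2 * M) ^ (-(3 / 2) : ℝ) ≤ lam := by
      have e1 : (2 * M) ^ (-(3 / 2) : ℝ) ≤ M ^ (-(3 / 2) : ℝ) :=
        Real.rpow_le_rpow_of_nonpos hM' (by linarith) (by norm_num)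
      have e2 : M ^ (-(3 / 2) : ℝ) = 1 / (M ^ (5 / 4 : ℝ) * M ^ (1 / 4 : ℝ)) := by
        rw [← Real.rpow_add hM', Real.rpow_neg hM'.le, one_div]; norm_num
      have e3 : 1 / (M ^ (5 / 4 : ℝ) * M ^ (1 / 4 : ℝ)) ≤ 1 / (M ^ (5 / 4 : ℝ) * 2 ^ r) := by
        apply one_div_le_one_div_of_le (by positivity)
        exact mul_le_mul_of_nonneg_left hM2 h54.le
      have e4 : 1 / (M ^ (5 / 4 : ℝ) * 2 ^ r) = (M ^ r / M ^ (5 / 4 : ℝ)) * 1 / (2 * M) ^ r := by
        rw [mul_pow]; field_simp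
      have e5 : (M ^ r / M ^ (5 / 4 : ℝ)) * 1 / (2 * M) ^ r ≤ lam := by
        rw [hlam]
        apply div_le_div_of_nonneg_right _ (by positivity)
        exact mul_le_mul ht1 hF1 (by norm_num) ht0.le
      linarith [e1, e2.le, e3, e4.le, e5]
    have hhi : lam ≤ (2 * M) ^ (-(1 / 8) : ℝ) := by
      have e1 : (2 * M) ^ (-(1 / 8) : ℝ) = 1 / (2 * M) ^ (1 / 8 : ℝ) := by
        rw [Real.rpow_neg (by positivity)]
        exact (one_div _).symm
      have e2 : (2 * M) ^ (1 / 8 : ℝ) ≤ 2 * M ^ (1 / 8 : ℝ) := by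
        rw [Real.mul_rpow (by norm_num) hM'.le]
        apply mul_le_mul_of_nonneg_right _ h18.le
        calc (2 : ℝ) ^ (1 / 8 : ℝ) ≤ 2 ^ (1 : ℝ) := Real.rpow_le_rpow_of_exponent_le (by norm_num) (by norm_num)
          _ = 2 := Real.rpow_one 2
      have e3 : M ^ (1 / 4 : ℝ) = M ^ (1 / 8 : ℝ) * M ^ (1 / 8 : ℝ) := by
        rw [← Real.rpow_add hM']; norm_num
      have e4 : lam ≤ F / (2 ^ r * M ^ (1 / 4 : ℝ)) := by
        have : F / (2 ^ r * M ^ (1 / 4 : ℝ)) = (M ^ r / M ^ (1 / 4 : ℝ)) * F / (2 * M) ^ r := by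
          rw [mul_pow]; field_simp
        rw [this, hlam]
        apply div_le_div_of_nonneg_right _ (by positivity)
        exact mul_le_mul_of_nonneg_right ht2 (by linarith)
      rw [e1]
      refine e4.trans ?_
      rw [div_le_div_iff₀ (by positivity) (Real.rpow_pos_of_pos (by positivity) _)]
      calc F * (2 * M) ^ (1 / 8 : ℝ) ≤ M ^ (1 / 8 : ℝ) * (2 * M ^ (1 / 8 : ℝ)) :=
            mul_le_mul hMF e2 (Real.rpow_nonneg (by positivity) _) h18.le
        _ = 2 * M ^ (1 / 4 : ℝ) := by rw [e3]; ring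
        _ ≤ 1 * (2 ^ r * M ^ (1 / 4 : ℝ)) := by
            rw [one_mul]
            exact mul_le_mul_of_nonneg_right h2r4 h14.le
    have key := hT (fun n => (-1) ^ (r - 1) * lg t c n) a b (2 * M) lam (by linarith) hab hlen hlo hhi ?_
    · rw [Zp_sgn] at key
      have e1 : (2 * M) ^ (1 - δ0) ≤ 2 * M ^ (1 - δ) := by
        calc (2 * M) ^ (1 - δ0) ≤ (2 * M) ^ (1 - δ) :=
              Real.rpow_le_rpow_of_exponent_le (by linarith) (by linarith)
          _ = 2 ^ (1 - δ) * M ^ (1 - δ) := Real.mul_rpow (by norm_num) hM'.le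
          _ ≤ 2 * M ^ (1 - δ) := by
              apply mul_le_mul_of_nonneg_right _ hMp.le
              calc (2 : ℝ) ^ (1 - δ) ≤ 2 ^ (1 : ℝ) :=
                    Real.rpow_le_rpow_of_exponent_le (by norm_num) (by linarith)
                _ = 2 := Real.rpow_one 2
      calc ‖Sx (lg t c) a b‖ ≤ C0 * (2 * M) ^ (1 - δ0) := key
        _ ≤ C0 * (2 * M ^ (1 - δ)) := mul_le_mul_of_nonneg_left e1 hC0.le
        _ ≤ (2 * C0 + 2 * M0) * M ^ (1 - δ) := by
            have : 0 ≤ M0 * M ^ (1 - δ) := by positivity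
            linarith [this]
    · intro n hn1 hn2
      have hb1 := hn n hn1 (by omega)
      have hb2 := (hn (n + r) (by omega) hn2).2
      push_cast at hb2
      have hpos : 0 < (n : ℝ) + c := by linarith [hb1.1]
      have hl := h3 t c r n ht0 hc hpos (by omega)
      rw [Zp_dif]
      constructor
      · refine le_trans ?_ hl.1
        rw [hlam]
        apply div_le_div_of_nonneg_left (by positivity) (by positivity)
        apply pow_le_pow_left₀ (by positivity)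
        linarith
      · refine hl.2.trans ?_
        have : (2 : ℝ) ^ r * lam = t * F / M ^ r := by
          rw [hlam, mul_pow]; field_simp
        rw [this]
        apply div_le_div_of_nonneg_left (by positivity) (by positivity)
        exact pow_le_pow_left₀ hM'.le hb1.1.le r

theorem tZp (h1 : SZa) (h2 : SZi) (h3 : SZl) : SZp := by
  have hQ : ∀ r, 2 ≤ r → Qr r := by
    intro r hr
    induction r, hr using Nat.le_induction with
    | base => exact h1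
    | succ r hr ih => exact h2 r hr ih
  have main : ∀ r : ℕ, 2 ≤ r → ∃ C δ : ℝ, 0 < C ∧ 0 < δ ∧ δ ≤ 1 ∧ ∀ (t c M : ℝ) (a b : ℕ), 1 ≤ M →
      M ^ (3 / 4 : ℝ) ≤ t → t ≤ M ^ ((r : ℝ) - 1 / 4) → 0 ≤ c → a ≤ b →
      (∀ n, a ≤ n → n < b → M < (n : ℝ) + c ∧ (n : ℝ) + c ≤ 2 * M) →
      ‖Sx (lg t c) a b‖ ≤ C * M ^ (1 - δ) := by
    intro r hr
    induction r, hr using Nat.le_induction with
    | base =>
      obtain ⟨C, δ, hC, hδ, hδ1, h⟩ := Zp_step h3 2 le_rfl (hQ 2 le_rfl)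
      refine ⟨C, δ, hC, hδ, hδ1, fun t c M a b hM ht1 ht2 hc hab hn => ?_⟩
      refine h t c M a b hM ?_ ht2 hc hab hn
      convert ht1 using 2
      norm_num
    | succ r hr ih =>
      obtain ⟨C1, δ1, hC1, hδ1, hδ11, g1⟩ := ih
      obtain ⟨C2, δ2, hC2, hδ2, hδ22, g2⟩ := Zp_step h3 (r + 1) (by omega) (hQ (r + 1) (by omega))
      refine ⟨max C1 C2, min δ1 δ2, lt_max_of_lt_left hC1, lt_min hδ1 hδ2,
        (min_le_left _ _).trans hδ11, fun t c M a b hM ht1 ht2 hc hab hn => ?_⟩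
      have hM' : 0 < M := by linarith
      rcases le_or_gt t (M ^ ((r : ℝ) - 1 / 4)) with h | h
      · calc ‖Sx (lg t c) a b‖ ≤ C1 * M ^ (1 - δ1) := g1 t c M a b hM ht1 h hc hab hn
          _ ≤ max C1 C2 * M ^ (1 - min δ1 δ2) := by
            apply mul_le_mul (le_max_left _ _) _ (Real.rpow_nonneg hM'.le _) (le_max_of_le_left hC1.le)
            exact Real.rpow_le_rpow_of_exponent_le hM (by linarith [min_le_left δ1 δ2])
      · have h5 : M ^ (((r + 1 : ℕ) : ℝ) - 5 / 4) ≤ t := by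
          have : ((r + 1 : ℕ) : ℝ) - 5 / 4 = (r : ℝ) - 1 / 4 := by push_cast; ring
          rw [this]; exact h.le
        calc ‖Sx (lg t c) a b‖ ≤ C2 * M ^ (1 - δ2) := g2 t c M a b hM h5 ht2 hc hab hn
          _ ≤ max C1 C2 * M ^ (1 - min δ1 δ2) := by
            apply mul_le_mul (le_max_right _ _) _ (Real.rpow_nonneg hM'.le _) (le_max_of_le_left hC1.le)
            exact Real.rpow_le_rpow_of_exponent_le hM (by linarith [min_le_right δ1 δ2])
  intro R
  obtain ⟨C, δ, hC, hδ, hδ1, h⟩ := main (R + 2) (by omega)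
  refine ⟨C, δ, hC, hδ, hδ1, fun t c M a b hM ht1 ht2 hc hab hn => h t c M a b hM ht1 ?_ hc hab hn⟩
  refine ht2.trans (Real.rpow_le_rpow_of_exponent_le hM ?_)
  push_cast
  linarith

end Pool.Agent.Lib.UI
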