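import Pool.Agent.Lib.UI.SpecZ

/-!
# Zeta sums, residue classes
-/

set_option autoImplicit false

namespace Pool.Agent.Lib.UI

open Finset Pool.Agent.Lib.EH3

private lemma Zrc_norm (y : ℝ) : ‖ee y‖ = 1 := by
  unfold ee
  rw [mul_comm, Complex.norm_exp_ofReal_mul_I]

/-- the least `m` with `X < q m + r` -/
private lemma Zrc_least (X q r : ℕ) (hq : 1 ≤ q) : ∃ a : ℕ, ∀ m : ℕ, a ≤ m ↔ X < q * m + r := by
  have hex : ∃ m : ℕ, X < q * m + r := by
    refine ⟨X + 1, ?_⟩
    nlinarith
  classical
  refine ⟨Nat.find hex, fun m => ⟨fun h => ?_, fun h => Nat.find_min' hex h⟩⟩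
  have h1 := Nat.find_spec hex
  have h2 : q * Nat.find hex ≤ q * m := Nat.mul_le_mul_left q h
  omega

theorem tZrc : SZq := by
  intro t K K2 q b hq hK hKK hK2
  obtain ⟨r, hr⟩ : ∃ r : ℕ, r = b % q := ⟨_, rfl⟩
  have hrq : r < q := by
    rw [hr]
    exact Nat.mod_lt _ hq
  obtain ⟨a', ha'⟩ := Zrc_least K q r hq
  obtain ⟨b', hb'⟩ := Zrc_least K2 q r hq
  have hq0 : (0 : ℝ) < q := by exact_mod_cast hq
  have hab : a' ≤ b' := by
    rw [ha' b']
    have := (hb' b').1 le_rfl
    omega
  have hcast : ∀ n : ℕ, (n : ℝ) + (r : ℝ) / q = ((q * n + r : ℕ) : ℝ) / q := by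
    intro n
    push_cast
    field_simp
  refine ⟨(r : ℝ) / q, a', b', by positivity, hab, ?_, ?_⟩
  · intro n h1 h2
    have h3 := (ha' n).1 h1
    have h4 : q * n + r ≤ K2 := by
      by_contra h
      have := (hb' n).2 (by omega)
      omega
    rw [hcast]
    constructor
    · rw [div_lt_div_iff_of_pos_right hq0]
      exact_mod_cast h3
    · rw [← mul_div_assoc, div_le_div_iff_of_pos_right hq0]
      have h5 : q * n + r ≤ 2 * K := h4.trans hK2
      exact_mod_cast h5
  · have hsum : ∑ k ∈ (Ioc K K2).filter (fun k => k ≡ b [MOD q]), ee (t * Real.log k) =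
        ∑ n ∈ Ico a' b', ee (t * Real.log q) * ee (lg t ((r : ℝ) / q) n) := by
      symm
      refine Finset.sum_nbij' (fun n => q * n + r) (fun k => k / q) ?_ ?_ ?_ ?_ ?_
      · intro n hn
        rw [mem_Ico] at hn
        rw [mem_filter, mem_Ioc]
        refine ⟨⟨(ha' n).1 hn.1, ?_⟩, ?_⟩
        · by_contra h
          have := (hb' n).2 (by omega)
          omega
        · unfold Nat.ModEq
          rw [hr, Nat.mul_add_mod, Nat.mod_mod]
      · intro k hk
        rw [mem_filter, mem_Ioc] at hk
        have h1 : q * (k / q) + r = k := by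
          have h2 : k % q = r := by
            rw [hr]
            exact hk.2
          rw [← h2]
          exact Nat.div_add_mod k q
        rw [mem_Ico]
        constructor
        · rw [ha', h1]
          exact hk.1.1
        · by_contra h
          have h3 := (hb' (k / q)).1 (by omega)
          rw [h1] at h3
          omega
      · intro n hn
        show (q * n + r) / q = n
        rw [Nat.mul_add_div hq, Nat.div_eq_of_lt hrq, add_zero]
      · intro k hk
        rw [mem_filter] at hk
        have h2 : k % q = r := by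
          rw [hr]
          exact hk.2
        show q * (k / q) + r = k
        rw [← h2]
        exact Nat.div_add_mod k q
      · intro n hn
        rw [mem_Ico] at hn
        have h3 := (ha' n).1 hn.1
        have h4 : (0 : ℝ) < ((q * n + r : ℕ) : ℝ) := by
          have : 0 < q * n + r := by omega
          exact_mod_cast this
        rw [← ee_add]
        unfold lg
        rw [hcast, Real.log_div h4.ne' hq0.ne']
        congr 1
        ring
    rw [hsum, ← mul_sum, norm_mul, Zrc_norm, one_mul]
    rfl

end Pool.Agent.Lib.UI
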