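import Pool.Agent.Lib.UI.SpecZ

/-!
MP_00e23e_nt, Lib/UI, part Z: the inequality of van der Corput.
-/

set_option autoImplicit false

namespace Pool.Agent.Lib.UI

open Finset Pool.Agent.Lib.EH3

/-- the shifted phases, cut off -/
noncomputable def zv (x : ℕ → ℝ) (a b m i : ℕ) : ℂ :=
  if a + i ≤ m ∧ m < b + i then ee (x (m - i)) else 0

theorem zv_sum (x : ℕ → ℝ) (a b H i : ℕ) (hi : i < H) :
    ∑ m ∈ Ico a (b + H), zv x a b m i = Sx x a b := by
  have h1 : Sx x a b = ∑ n ∈ Ico a b, zv x a b (n + i) i := by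
    unfold Sx
    refine sum_congr rfl fun n hn => ?_
    rw [mem_Ico] at hn
    unfold zv
    rw [if_pos ⟨by omega, by omega⟩, Nat.add_sub_cancel]
  rw [h1, Finset.sum_Ico_add' (fun m => zv x a b m i) a b i]
  symm
  refine sum_subset ?_ ?_
  · intro m hm
    rw [mem_Ico] at hm ⊢
    omega
  · intro m _ hm2
    rw [mem_Ico] at hm2
    unfold zv
    rw [if_neg]
    exact hm2

theorem zv_corr (x : ℕ → ℝ) (a b H i j : ℕ) (hi : i < H) (hji : j ≤ i) :
    ‖∑ m ∈ Ico a (b + H), zv x a b m i * (starRingEnd ℂ) (zv x a b m j)‖ =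
      ‖Sx (fun n => x (n + (i - j)) - x n) a (b - (i - j))‖ := by
  have h1 : (starRingEnd ℂ) (Sx (fun n => x (n + (i - j)) - x n) a (b - (i - j))) =
      ∑ n ∈ Ico a (b - (i - j)), zv x a b (n + i) i * (starRingEnd ℂ) (zv x a b (n + i) j) := by
    unfold Sx
    rw [map_sum]
    refine sum_congr rfl fun n hn => ?_
    rw [mem_Ico] at hn
    unfold zv
    rw [if_pos ⟨by omega, by omega⟩, if_pos ⟨by omega, by omega⟩, Nat.add_sub_cancel, conj_ee,
      conj_ee, ← ee_add]
    congr 1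
    have h2 : n + i - j = n + (i - j) := by omega
    rw [h2]
    ring
  have h3 : ∑ m ∈ Ico a (b + H), zv x a b m i * (starRingEnd ℂ) (zv x a b m j) =
      (starRingEnd ℂ) (Sx (fun n => x (n + (i - j)) - x n) a (b - (i - j))) := by
    rw [h1, Finset.sum_Ico_add' (fun m => zv x a b m i * (starRingEnd ℂ) (zv x a b m j)) a
      (b - (i - j)) i]
    symm
    refine sum_subset ?_ ?_
    · intro m hm
      rw [mem_Ico] at hm ⊢
      omega
    · intro m hm1 hm2
      rw [mem_Ico] at hm1 hm2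
      by_cases hc : a + i ≤ m
      · have h4 : zv x a b m j = 0 := by
          unfold zv
          rw [if_neg]
          omega
        rw [h4, map_zero, mul_zero]
      · have h4 : zv x a b m i = 0 := by
          unfold zv
          rw [if_neg]
          omega
        rw [h4, zero_mul]
  rw [h3, RCLike.norm_conj]

theorem zv_dist (N : ℕ → ℝ) (hN : ∀ h, 0 ≤ N h) (H i : ℕ) (hi : i < H) (g : ℕ → ℝ)
    (hg1 : ∀ j, j ≤ i → g j = N (i - j)) (hg2 : ∀ j, i ≤ j → g j = N (j - i)) :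
    ∑ j ∈ range H, g j ≤ 2 * ∑ h ∈ range H, N h := by
  rw [← Finset.sum_range_add_sum_Ico g hi.le]
  have h1 : ∑ j ∈ range i, g j ≤ ∑ h ∈ range H, N h := by
    calc ∑ j ∈ range i, g j = ∑ j ∈ range i, N (i - j) :=
          sum_congr rfl fun j hj => hg1 j (by rw [mem_range] at hj; omega)
      _ ≤ ∑ j ∈ range (i + 1), N (i - j) := by
          rw [sum_range_succ]
          linarith [hN (i - i)]
      _ = ∑ j ∈ range (i + 1), N j := Finset.sum_flip N
      _ ≤ ∑ h ∈ range H, N h :=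
          sum_le_sum_of_subset_of_nonneg (range_mono hi) fun k _ _ => hN k
  have h2 : ∑ j ∈ Ico i H, g j ≤ ∑ h ∈ range H, N h := by
    calc ∑ j ∈ Ico i H, g j = ∑ j ∈ Ico i H, N (j - i) :=
          sum_congr rfl fun j hj => hg2 j (by rw [mem_Ico] at hj; omega)
      _ = ∑ k ∈ range (H - i), N (i + k - i) := Finset.sum_Ico_eq_sum_range _ _ _
      _ = ∑ k ∈ range (H - i), N k := sum_congr rfl fun k _ => by rw [Nat.add_sub_cancel_left]
      _ ≤ ∑ h ∈ range H, N h :=
          sum_le_sum_of_subset_of_nonneg (range_mono (Nat.sub_le H i)) fun k _ _ => hN k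
  linarith

theorem tZv : SZv := by
  intro x a b H hH hab
  set N : ℕ → ℝ := fun h => ‖Sx (fun n => x (n + h) - x n) a (b - h)‖ with hNdef
  have hN : ∀ h, 0 ≤ N h := fun h => norm_nonneg _
  have hHpos : (0 : ℝ) < H := by exact_mod_cast hH
  -- the correlations
  have hcorr : ∀ i j, i < H → j < H →
      ‖∑ m ∈ Ico a (b + H), zv x a b m i * (starRingEnd ℂ) (zv x a b m j)‖ =
        if j ≤ i then N (i - j) else N (j - i) := by
    intro i j hi hj
    split_ifs with hji
    · exact zv_corr x a b H i j hi hji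
    · have hq : N (j - i) = ‖∑ m ∈ Ico a (b + H), zv x a b m j *
          (starRingEnd ℂ) (zv x a b m i)‖ := (zv_corr x a b H j i hj (by omega)).symm
      rw [hq, ← RCLike.norm_conj, map_sum]
      congr 1
      refine sum_congr rfl fun m _ => ?_
      rw [map_mul, Complex.conj_conj, mul_comm]
  -- the square sum
  have hsq : ∑ m ∈ Ico a (b + H), ‖∑ i ∈ range H, zv x a b m i‖ ^ 2 ≤
      H * (2 * ∑ h ∈ range H, N h) := by
    have h1 : ((∑ m ∈ Ico a (b + H), ‖∑ i ∈ range H, zv x a b m i‖ ^ 2 : ℝ) : ℂ) =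
        ∑ i ∈ range H, ∑ j ∈ range H, ∑ m ∈ Ico a (b + H),
          zv x a b m i * (starRingEnd ℂ) (zv x a b m j) := by
      push_cast
      have h2 : ∀ m ∈ Ico a (b + H), ((‖∑ i ∈ range H, zv x a b m i‖ : ℝ) : ℂ) ^ 2 =
          ∑ i ∈ range H, ∑ j ∈ range H, zv x a b m i * (starRingEnd ℂ) (zv x a b m j) := by
        intro m _
        rw [← Complex.mul_conj', map_sum, sum_mul_sum]
      rw [sum_congr rfl h2, sum_comm]
      refine sum_congr rfl fun i _ => ?_
      rw [sum_comm]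
    have h3 : ∑ m ∈ Ico a (b + H), ‖∑ i ∈ range H, zv x a b m i‖ ^ 2 =
        ‖∑ i ∈ range H, ∑ j ∈ range H, ∑ m ∈ Ico a (b + H),
          zv x a b m i * (starRingEnd ℂ) (zv x a b m j)‖ := by
      rw [← h1, Complex.norm_real, Real.norm_eq_abs, abs_of_nonneg]
      exact sum_nonneg fun m _ => sq_nonneg _
    rw [h3]
    calc ‖∑ i ∈ range H, ∑ j ∈ range H, ∑ m ∈ Ico a (b + H),
          zv x a b m i * (starRingEnd ℂ) (zv x a b m j)‖
        ≤ ∑ i ∈ range H, ∑ j ∈ range H, ‖∑ m ∈ Ico a (b + H),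
          zv x a b m i * (starRingEnd ℂ) (zv x a b m j)‖ :=
          (norm_sum_le _ _).trans (sum_le_sum fun i _ => norm_sum_le _ _)
      _ = ∑ i ∈ range H, ∑ j ∈ range H, (if j ≤ i then N (i - j) else N (j - i)) :=
          sum_congr rfl fun i hi => sum_congr rfl fun j hj =>
            hcorr i j (mem_range.mp hi) (mem_range.mp hj)
      _ ≤ ∑ _i ∈ range H, 2 * ∑ h ∈ range H, N h := by
          refine sum_le_sum fun i hi => ?_
          refine zv_dist N hN H i (mem_range.mp hi) _ (fun j hj => if_pos hj) (fun j hj => ?_)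
          by_cases hji : j ≤ i
          · have : j = i := le_antisymm hji hj
            subst this
            simp
          · rw [if_neg hji]
      _ = H * (2 * ∑ h ∈ range H, N h) := by
          rw [sum_const, card_range, nsmul_eq_mul]
  -- the first step
  have hone : (H : ℝ) * ‖Sx x a b‖ ≤ ∑ m ∈ Ico a (b + H), ‖∑ i ∈ range H, zv x a b m i‖ := by
    have h1 : (H : ℂ) * Sx x a b = ∑ m ∈ Ico a (b + H), ∑ i ∈ range H, zv x a b m i := by
      rw [sum_comm, sum_congr rfl fun i hi => zv_sum x a b H i (mem_range.mp hi), sum_const,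
        card_range, nsmul_eq_mul]
    calc (H : ℝ) * ‖Sx x a b‖ = ‖(H : ℂ) * Sx x a b‖ := by rw [norm_mul, Complex.norm_natCast]
      _ = ‖∑ m ∈ Ico a (b + H), ∑ i ∈ range H, zv x a b m i‖ := by rw [h1]
      _ ≤ _ := norm_sum_le _ _
  have hcs : (∑ m ∈ Ico a (b + H), ‖∑ i ∈ range H, zv x a b m i‖) ^ 2 ≤
      (((b : ℝ) - a) + H) * ∑ m ∈ Ico a (b + H), ‖∑ i ∈ range H, zv x a b m i‖ ^ 2 := by
    have h1 := sq_sum_le_card_mul_sum_sq (s := Ico a (b + H))
      (f := fun m => ‖∑ i ∈ range H, zv x a b m i‖)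
    rw [Nat.card_Ico] at h1
    have h2 : ((b + H - a : ℕ) : ℝ) = ((b : ℝ) - a) + H := by
      rw [Nat.cast_sub (by omega)]
      push_cast
      ring
    rw [h2] at h1
    exact h1
  have hba : (0 : ℝ) ≤ ((b : ℝ) - a) + H := by
    have : (a : ℝ) ≤ b := by exact_mod_cast hab
    linarith
  have h5 : ((H : ℝ) * ‖Sx x a b‖) ^ 2 ≤
      (((b : ℝ) - a) + H) * (H * (2 * ∑ h ∈ range H, N h)) := by
    refine (pow_le_pow_left₀ (by positivity) hone 2).trans (hcs.trans ?_)
    exact mul_le_mul_of_nonneg_left hsq hba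
  have h6 : (H : ℝ) ^ 2 * ‖Sx x a b‖ ^ 2 ≤
      (H : ℝ) ^ 2 * (2 * (((b : ℝ) - a) + H) / H * ∑ h ∈ range H, N h) := by
    calc (H : ℝ) ^ 2 * ‖Sx x a b‖ ^ 2 = ((H : ℝ) * ‖Sx x a b‖) ^ 2 := by ring
      _ ≤ _ := h5
      _ = _ := by
        field_simp
  exact le_of_mul_le_mul_left h6 (by positivity)

end Pool.Agent.Lib.UI
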