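import Pool.Agent.Lib.UI.Za
import Pool.Agent.Lib.UI.Zb
import Pool.Agent.Lib.UI.Zf
import Pool.Agent.Lib.UI.Zi
import Pool.Agent.Lib.UI.Zk
import Pool.Agent.Lib.UI.Zl
import Pool.Agent.Lib.UI.Zp
import Pool.Agent.Lib.UI.Zrc
import Pool.Agent.Lib.UI.Zv

/-! MP_00e23e_nt, part Z of theorem U1: the bound `ZStmt` for zeta sums, unconditional. -/

set_option autoImplicit false

namespace Pool.Agent.Lib.UI

theorem tZZ : ZStmt :=
  tZf tZk (tZp (tZa tZb) (tZi tZv) tZl) tZrc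

end Pool.Agent.Lib.UI
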