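import Pool.Agent.Lib.UI.SpecF

/-!
Module Blu: one dyadic block and one y.
-/

namespace Pool.Agent.Lib.UI

open Finset Pool.Agent.Lib.EH3 Pool.Agent.Results.MP_00e23e_nt

/-- the sum over the progression -/
private lemma Blu_reidx {R N Q K d : ℕ} {a : ℤ} {y : ℝ} (hQ : 0 < Q) (hQd : Q < d) (hK : K = 2 * N / Q + 1)
    (ha : |a| ≤ (N : ℤ)) (hy : ⌊y⌋ ≤ (N : ℤ)) :
    ∑ k ∈ Icc (-(K : ℤ)) K, fm R y (a + d * k) =
      ∑ n ∈ (Icc (1 : ℤ) ⌊y⌋).filter (fun n => (d : ℤ) ∣ n - a), fm R y n := by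
  have hd0 : (0 : ℤ) < d := by exact_mod_cast lt_trans hQ hQd
  rw [← Finset.sum_filter_of_ne (s := Icc (-(K : ℤ)) K) (p := fun k => 1 ≤ a + d * k ∧ a + d * k ≤ ⌊y⌋)]
  · refine Finset.sum_nbij' (fun k => a + d * k) (fun n => (n - a) / d) ?_ ?_ ?_ ?_ ?_
    · intro k hk
      rw [mem_filter] at hk
      rw [mem_filter, mem_Icc]
      refine ⟨hk.2, ?_⟩
      rw [add_sub_cancel_left]
      exact dvd_mul_right _ _
    · intro n hn
      rw [mem_filter, mem_Icc] at hn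
      obtain ⟨⟨h1, h2⟩, h3⟩ := hn
      obtain ⟨k, hk⟩ := h3
      have hk2 : (n - a) / d = k := by
        rw [hk]
        exact Int.mul_ediv_cancel_left _ hd0.ne'
      have hn' : n = a + d * k := by linarith
      rw [hk2, mem_filter, mem_Icc]
      refine ⟨?_, by rw [← hn']; exact ⟨h1, h2⟩⟩
      rw [← abs_le]
      have h4 : |k| * Q ≤ 2 * N := by
        have h5 : |k| * d = |n - a| := by
          rw [hk, abs_mul, abs_of_pos hd0, mul_comm]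
        have h6 : |n - a| ≤ 2 * N := by
          have := abs_le.1 ha
          rw [abs_le]
          constructor <;> linarith
        have h7 : (Q : ℤ) ≤ d := by exact_mod_cast hQd.le
        have h8 : |k| * Q ≤ |k| * d := mul_le_mul_of_nonneg_left h7 (abs_nonneg k)
        linarith
      have h9 : |k| ≤ ((2 * N / Q : ℕ) : ℤ) := by
        push_cast
        rw [Int.le_ediv_iff_mul_le (by exact_mod_cast hQ)]
        exact_mod_cast h4
      rw [hK]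
      push_cast at h9 ⊢
      linarith
    · intro k _
      rw [add_sub_cancel_left]
      exact Int.mul_ediv_cancel_left _ hd0.ne'
    · intro n hn
      rw [mem_filter] at hn
      obtain ⟨k, hk⟩ := hn.2
      rw [hk, Int.mul_ediv_cancel_left _ hd0.ne', ← hk]
      ring
    · intro k _
      rfl
  · intro k _ hne
    by_contra hcon
    apply hne
    unfold fm
    rw [if_neg hcon]

/-- the primes in the progression -/
private lemma Blu_count {d : ℕ} {a : ℤ} {y : ℝ} (hy : 0 ≤ y) :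
    (resCount y d a : ℝ) = ∑ n ∈ (Icc (1 : ℤ) ⌊y⌋).filter (fun n => (d : ℤ) ∣ n - a),
      (if n.toNat.Prime then (1 : ℝ) else 0) := by
  unfold resCount
  rw [← Finset.sum_filter, Finset.filter_filter]
  rw [Finset.sum_const, nsmul_eq_mul, mul_one]
  norm_cast
  refine Finset.card_nbij' (fun p : ℕ => (p : ℤ)) (fun n : ℤ => n.toNat) ?_ ?_ ?_ ?_
  · intro p hp
    rw [mem_coe, mem_filter, mem_Icc] at hp
    obtain ⟨⟨h1, h2⟩, h3, h4⟩ := hp
    have h5 : (p : ℤ) ≤ ⌊y⌋ := by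
      rw [← Int.natCast_floor_eq_floor hy]
      exact_mod_cast h2
    have h6 : (1 : ℤ) ≤ p := by exact_mod_cast h1
    beta_reduce
    rw [mem_coe, mem_filter, mem_Icc]
    exact ⟨⟨h6, h5⟩, h4, by simpa using h3⟩
  · intro n hn
    rw [mem_coe, mem_filter, mem_Icc] at hn
    obtain ⟨⟨h1, h2⟩, h3, h4⟩ := hn
    have h5 : ((n.toNat : ℕ) : ℤ) = n := Int.toNat_of_nonneg (by linarith)
    rw [← Int.natCast_floor_eq_floor hy] at h2
    beta_reduce
    rw [mem_coe, mem_filter, mem_Icc]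
    have h6 : 1 ≤ n.toNat := by omega
    have h7 : n.toNat ≤ ⌊y⌋₊ := by omega
    exact ⟨⟨h6, h7⟩, h4, by rw [h5]; exact h3⟩
  · intro p _
    simp
  · intro n hn
    rw [mem_coe, mem_filter, mem_Icc] at hn
    exact Int.toNat_of_nonneg (by linarith [hn.1.1])

private lemma Blu_split {R d : ℕ} {a : ℤ} {y : ℝ} (hy : 0 ≤ y) :
    (resCount y d a : ℝ) = (∑ n ∈ (Icc (1 : ℤ) ⌊y⌋).filter (fun n => (d : ℤ) ∣ n - a), fm R y n) +
      ∑ n ∈ (Icc (1 : ℤ) ⌊y⌋).filter (fun n => (d : ℤ) ∣ n - a), lci n * wR R n := by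
  rw [Blu_count hy, ← Finset.sum_add_distrib]
  apply Finset.sum_congr rfl
  intro n hn
  rw [mem_filter, mem_Icc] at hn
  unfold fm
  rw [if_pos hn.1]
  ring

/-- the distance of the truncated singular series from 1/φ(d) -/
private noncomputable def Blu_tau (R d : ℕ) : ℝ :=
  |(1 / (d : ℝ)) * (∑ r ∈ d.divisors.filter (fun r => r ≤ R),
    ((ArithmeticFunction.moebius r : ℝ)) ^ 2 / (r.totient : ℝ)) - 1 / (d.totient : ℝ)|

private lemma Blu_point (h2 : MmaStmt) {R N Q K d : ℕ} {a : ℤ} {y : ℝ} (hQ : 0 < Q) (hQd : Q < d)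
    (hK : K = 2 * N / Q + 1) (ha : |a| ≤ (N : ℤ)) (hyN : ⌊y⌋ ≤ (N : ℤ)) (hy : 2 ≤ y) (hg : Int.gcd a d = 1) :
    |resErr y d a| ≤ ‖∑ k ∈ Icc (-(K : ℤ)) K, ((fm R y (a + d * k) : ℝ) : ℂ)‖ + 6 * (R : ℝ) ^ 2 +
      |li y| * Blu_tau R d := by
  have hd1 : 1 ≤ d := by omega
  have e1 := h2 R d a y hd1 hy hg
  have e2 := Blu_split (R := R) (d := d) (a := a) (y := y) (by linarith)
  rw [← Blu_reidx hQ hQd hK ha hyN] at e2
  have e3 : ‖∑ k ∈ Icc (-(K : ℤ)) K, ((fm R y (a + d * k) : ℝ) : ℂ)‖ =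
      |∑ k ∈ Icc (-(K : ℤ)) K, fm R y (a + d * k)| := by
    rw [← Complex.ofReal_sum, Complex.norm_real, Real.norm_eq_abs]
  rw [e3]
  unfold resErr
  rw [e2]
  set S := ∑ k ∈ Icc (-(K : ℤ)) K, fm R y (a + d * k)
  set W := ∑ n ∈ (Icc (1 : ℤ) ⌊y⌋).filter (fun n => (d : ℤ) ∣ n - a), lci n * wR R n
  unfold Blu_tau
  set T := (1 / (d : ℝ)) * ∑ r ∈ d.divisors.filter (fun r => r ≤ R),
      ((ArithmeticFunction.moebius r : ℝ)) ^ 2 / (r.totient : ℝ)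
  have e4 : S + W - li y / (d.totient : ℝ) = S + (W - li y * T) + li y * (T - 1 / (d.totient : ℝ)) := by ring
  rw [e4, ← abs_mul]
  exact (abs_add_three _ _ _).trans (by linarith)

private lemma Blu_cs {Q H K : ℕ} {A0 : ℤ} {u : ℤ → ℂ} :
    (∑ d ∈ Ioc Q (2 * Q), ∑ a ∈ Ico A0 (A0 + H), ‖∑ k ∈ Icc (-(K : ℤ)) K, u (a + d * k)‖) ^ 2 ≤
      Q * H * VV Q H K A0 u := by
  unfold VV
  rw [← Finset.sum_product', ← Finset.sum_product']
  have h1 := sq_sum_le_card_mul_sum_sq (s := Ioc Q (2 * Q) ×ˢ Ico A0 (A0 + (H : ℤ)))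
    (f := fun p : ℕ × ℤ => ‖∑ k ∈ Icc (-(K : ℤ)) K, u (p.2 + p.1 * k)‖)
  have h2 : (Ioc Q (2 * Q) ×ˢ Ico A0 (A0 + (H : ℤ))).card = Q * H := by
    rw [card_product, Nat.card_Ioc, Int.card_Ico]
    congr 1
    · omega
    · simp
  rw [h2] at h1
  push_cast at h1
  exact h1


private lemma Blu_abs (Q H : ℕ) (A0 : ℤ) (G F : ℕ → ℤ → ℝ) (c l : ℝ) (τ : ℕ → ℝ) (hF : ∀ d a, 0 ≤ F d a)
    (hc : 0 ≤ c) (hl : 0 ≤ l) (hτ : ∀ d, 0 ≤ τ d)
    (hG : ∀ d a, Q < d → A0 ≤ a → a < A0 + H → Int.gcd a d = 1 → G d a ≤ F d a + c + l * τ d) :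
    ∑ d ∈ Ioc Q (2 * Q), ∑ a ∈ (Ico A0 (A0 + H)).filter (fun a => Int.gcd a d = 1), G d a ≤
      (∑ d ∈ Ioc Q (2 * Q), ∑ a ∈ Ico A0 (A0 + H), F d a) + c * (Q * H) +
        H * (l * ∑ d ∈ Ioc Q (2 * Q), τ d) := by
  have e1 : ∑ d ∈ Ioc Q (2 * Q), ∑ a ∈ (Ico A0 (A0 + H)).filter (fun a => Int.gcd a d = 1), G d a ≤
      ∑ d ∈ Ioc Q (2 * Q), ∑ a ∈ Ico A0 (A0 + H), (F d a + c + l * τ d) := by
    apply Finset.sum_le_sum
    intro d hd
    rw [mem_Ioc] at hd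
    calc ∑ a ∈ (Ico A0 (A0 + H)).filter (fun a => Int.gcd a d = 1), G d a
        ≤ ∑ a ∈ (Ico A0 (A0 + H)).filter (fun a => Int.gcd a d = 1), (F d a + c + l * τ d) := by
          apply Finset.sum_le_sum
          intro a ha
          rw [mem_filter, mem_Ico] at ha
          exact hG d a hd.1 ha.1.1 ha.1.2 ha.2
      _ ≤ _ := by
          refine sum_le_sum_of_subset_of_nonneg (filter_subset _ _) (fun a _ _ => ?_)
          have h1 := hF d a
          have h2 := mul_nonneg hl (hτ d)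
          linarith
  refine e1.trans (le_of_eq ?_)
  have hcI : ((Ico A0 (A0 + (H : ℤ))).card : ℝ) = H := by
    rw [Int.card_Ico]
    simp
  have hcQ : ((Ioc Q (2 * Q)).card : ℝ) = Q := by
    rw [Nat.card_Ioc, show 2 * Q - Q = Q by omega]
  simp only [Finset.sum_add_distrib, Finset.sum_const, nsmul_eq_mul]
  rw [hcI, hcQ, ← Finset.mul_sum, ← Finset.mul_sum]
  ring

/-- the sum over the block -/
private lemma Blu_sum (h2 : MmaStmt) (h3 : MtaStmt) {R N Q K H : ℕ} {A0 : ℤ} {y : ℝ} (hQ : 0 < Q) (hR : 1 ≤ R)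
    (hK : K = 2 * N / Q + 1) (hA : -(N : ℤ) ≤ A0) (hAH : A0 + H ≤ N + 1) (hyN : ⌊y⌋ ≤ (N : ℤ)) (hy : 2 ≤ y) :
    ∑ d ∈ Ioc Q (2 * Q), ∑ a ∈ (Ico A0 (A0 + H)).filter (fun a => Int.gcd a d = 1), |resErr y d a| ≤
      Real.sqrt (Q * H * VV Q H K A0 (fun n => ((fm R y n : ℝ) : ℂ))) + 6 * (R : ℝ) ^ 2 * (Q * H) +
        H * (|li y| * (8 / Real.sqrt R)) := by
  have e1 := Blu_abs Q H A0 (fun d a => |resErr y d a|)
    (fun d a => ‖∑ k ∈ Icc (-(K : ℤ)) K, ((fm R y (a + d * k) : ℝ) : ℂ)‖) (6 * (R : ℝ) ^ 2) |li y| (Blu_tau R)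
    (fun d a => norm_nonneg _) (by positivity) (abs_nonneg _) (fun d => abs_nonneg _)
    (fun d a hd ha1 ha2 hg => Blu_point h2 hQ hd hK (abs_le.2 ⟨by linarith, by linarith⟩) hyN hy hg)
  have e3 : ∑ d ∈ Ioc Q (2 * Q), ∑ a ∈ Ico A0 (A0 + H), ‖∑ k ∈ Icc (-(K : ℤ)) K, ((fm R y (a + d * k) : ℝ) : ℂ)‖ ≤
      Real.sqrt (Q * H * VV Q H K A0 (fun n => ((fm R y n : ℝ) : ℂ))) :=
    Real.le_sqrt_of_sq_le (Blu_cs (u := fun n => ((fm R y n : ℝ) : ℂ)))
  have e4 : ∑ d ∈ Ioc Q (2 * Q), Blu_tau R d ≤ 8 / Real.sqrt R := h3 Q R hQ hR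
  have e5 : (H : ℝ) * (|li y| * ∑ d ∈ Ioc Q (2 * Q), Blu_tau R d) ≤ H * (|li y| * (8 / Real.sqrt R)) :=
    mul_le_mul_of_nonneg_left (mul_le_mul_of_nonneg_left e4 (abs_nonneg _)) (Nat.cast_nonneg _)
  exact e1.trans (add_le_add (add_le_add e3 le_rfl) e5)

private lemma Blu_ev (r s K : ℝ) (hs : 0 < s) :
    ∀ᶠ x : ℝ in Filter.atTop, K * (Real.log x) ^ r ≤ x ^ s := by
  have h := isLittleO_log_rpow_rpow_atTop r hs
  have h1 := h.def (c := 1 / (|K| + 1)) (by positivity)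
  filter_upwards [h1, Filter.eventually_ge_atTop (1 : ℝ)] with x hx hx1
  have hlog : 0 ≤ Real.log x := Real.log_nonneg hx1
  rw [Real.norm_of_nonneg (Real.rpow_nonneg hlog _),
    Real.norm_of_nonneg (Real.rpow_nonneg (by linarith) _)] at hx
  rw [one_div, ← div_eq_inv_mul, le_div_iff₀ (by positivity)] at hx
  have h2 : K ≤ |K| + 1 := by
    have := le_abs_self K
    linarith
  have h3 : 0 ≤ (Real.log x) ^ r := Real.rpow_nonneg hlog _
  nlinarith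

private lemma Blu_N {x : ℝ} (hx : 4 ≤ x) : x / 2 ≤ (⌊x⌋₊ : ℝ) ∧ (⌊x⌋₊ : ℝ) ≤ x ∧ x < (⌊x⌋₊ : ℝ) + 1 ∧
    Real.log x / 2 ≤ Real.log ⌊x⌋₊ ∧ Real.log ⌊x⌋₊ ≤ Real.log x := by
  have h1 : (⌊x⌋₊ : ℝ) ≤ x := Nat.floor_le (by linarith)
  have h2 : x < (⌊x⌋₊ : ℝ) + 1 := Nat.lt_floor_add_one x
  have h3 : x / 2 ≤ (⌊x⌋₊ : ℝ) := by linarith
  refine ⟨h3, h1, h2, ?_, Real.log_le_log (by linarith) h1⟩
  have h4 : Real.sqrt x ≤ (⌊x⌋₊ : ℝ) := by
    refine le_trans ?_ h3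
    rw [Real.sqrt_le_left (by linarith)]
    nlinarith
  rw [← Real.log_sqrt (by linarith)]
  exact Real.log_le_log (Real.sqrt_pos.2 (by linarith)) h4

private lemma Blu_K {N Q K : ℕ} (hQ : 0 < Q) (hQN : Q ≤ N) (hK : K = 2 * N / Q + 1) :
    2 * N ≤ K * Q ∧ K * Q ≤ 3 * N := by
  have h1 := Nat.div_add_mod (2 * N) Q
  have h2 := Nat.mod_lt (2 * N) hQ
  rw [hK, Nat.add_mul, Nat.mul_comm (2 * N / Q) Q]
  omega

/-- the three error terms -/
private lemma Blu_fin {x L A β K R H Q V lN ε : ℝ} {lR : ℝ} (hx : 0 < x) (hL : 48 ≤ L) (hA : 0 < A)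
    (hH : 0 ≤ H) (hQ : 0 ≤ Q) (hK : 0 ≤ K) (hR : 0 ≤ R) (hβ : β = 2 * A + 7) (hlN : L / 2 ≤ lN)
    (hKQ : K * Q ≤ 3 * x) (hV : V ≤ H * Q * K ^ 2 * lN ^ (-(2 * A + 4)))
    (hRl : 2 * L ^ β ≤ R) (hRu : R ≤ 3 * L ^ β) (hQx : Q ≤ x ^ (1 - ε)) (hv1 : 162 * L ^ (2 * β + A) ≤ x ^ ε)
    (h2A : 9 * 2 ^ (A + 2) ≤ L) (hy2 : lR ≤ 2 * x) :
    Real.sqrt (Q * H * V) + 6 * R ^ 2 * (Q * H) + H * (lR * (8 / Real.sqrt R)) ≤ H * x / L ^ A := by
  have hL0 : 0 < L := by linarith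
  have hlN0 : 0 < lN := by linarith
  have hLA : 0 < L ^ A := Real.rpow_pos_of_pos hL0 _
  have hLβ : 0 < L ^ β := Real.rpow_pos_of_pos hL0 _
  have hR0 : 0 < R := by linarith
  -- first term
  have t1 : Real.sqrt (Q * H * V) ≤ 1 / 3 * (H * x / L ^ A) := by
    have e1 : Q * H * V ≤ (H * (K * Q) * lN ^ (-(A + 2))) ^ 2 := by
      have e2 : lN ^ (-(2 * A + 4)) = (lN ^ (-(A + 2))) ^ 2 := by
        rw [← Real.rpow_natCast, ← Real.rpow_mul hlN0.le]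
        congr 1
        push_cast
        ring
      calc Q * H * V ≤ Q * H * (H * Q * K ^ 2 * lN ^ (-(2 * A + 4))) :=
            mul_le_mul_of_nonneg_left hV (by positivity)
        _ = (H * (K * Q) * lN ^ (-(A + 2))) ^ 2 := by
            rw [e2]
            ring
    have e3 : Real.sqrt (Q * H * V) ≤ H * (K * Q) * lN ^ (-(A + 2)) :=
      (Real.sqrt_le_sqrt e1).trans (by rw [Real.sqrt_sq (by positivity)])
    have e4 : lN ^ (-(A + 2)) ≤ 2 ^ (A + 2) * (L ^ A)⁻¹ * (L ^ 2)⁻¹ := by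
      calc lN ^ (-(A + 2)) ≤ (L / 2) ^ (-(A + 2)) :=
            Real.rpow_le_rpow_of_nonpos (by positivity) hlN (by linarith)
        _ = 2 ^ (A + 2) * (L ^ A)⁻¹ * (L ^ 2)⁻¹ := by
            rw [Real.rpow_neg (by positivity), Real.div_rpow hL0.le (by norm_num), inv_div,
              Real.rpow_add hL0, Real.rpow_two, div_eq_mul_inv, mul_inv, mul_assoc]
    have e5 : 2 ^ (A + 2) * (L ^ A)⁻¹ * (L ^ 2)⁻¹ ≤ 1 / 9 * (L ^ A)⁻¹ := by
      have e6 : (2 : ℝ) ^ (A + 2) * (L ^ 2)⁻¹ ≤ 1 / 9 := by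
        rw [← div_eq_mul_inv, div_le_iff₀ (by positivity)]
        nlinarith
      have e7 : 0 < (L ^ A)⁻¹ := by positivity
      nlinarith
    calc Real.sqrt (Q * H * V) ≤ H * (K * Q) * lN ^ (-(A + 2)) := e3
      _ ≤ H * (K * Q) * (1 / 9 * (L ^ A)⁻¹) := mul_le_mul_of_nonneg_left (e4.trans e5) (by positivity)
      _ ≤ H * (3 * x) * (1 / 9 * (L ^ A)⁻¹) :=
          mul_le_mul_of_nonneg_right (mul_le_mul_of_nonneg_left hKQ hH) (by positivity)
      _ = 1 / 3 * (H * x / L ^ A) := by ring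
  have t2 : 6 * R ^ 2 * (Q * H) ≤ 1 / 3 * (H * x / L ^ A) := by
    have e1 : R ^ 2 ≤ 9 * L ^ (2 * β) := by
      have : L ^ (2 * β) = (L ^ β) ^ 2 := by
        rw [← Real.rpow_natCast, ← Real.rpow_mul hL0.le]
        congr 1
        push_cast
        ring
      rw [this]
      nlinarith
    have e2 : 162 * L ^ (2 * β) * Q ≤ x / L ^ A := by
      rw [le_div_iff₀ hLA]
      calc 162 * L ^ (2 * β) * Q * L ^ A = (162 * L ^ (2 * β + A)) * Q := by
            rw [Real.rpow_add hL0]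
            ring
        _ ≤ x ^ ε * x ^ (1 - ε) := mul_le_mul hv1 hQx hQ (by positivity)
        _ = x := by
            rw [← Real.rpow_add hx, show ε + (1 - ε) = (1 : ℝ) by ring, Real.rpow_one]
    calc 6 * R ^ 2 * (Q * H) ≤ 6 * (9 * L ^ (2 * β)) * (Q * H) :=
          mul_le_mul_of_nonneg_right (by linarith) (by positivity)
      _ = 1 / 3 * H * (162 * L ^ (2 * β) * Q) := by ring
      _ ≤ 1 / 3 * H * (x / L ^ A) := mul_le_mul_of_nonneg_left e2 (by positivity)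
      _ = 1 / 3 * (H * x / L ^ A) := by ring
  have t3 : H * (lR * (8 / Real.sqrt R)) ≤ 1 / 3 * (H * x / L ^ A) := by
    have e1 : 48 * L ^ A ≤ Real.sqrt R := by
      apply Real.le_sqrt_of_sq_le
      have e2 : (L ^ A) ^ 2 * L ^ 7 = L ^ β := by
        rw [hβ, Real.rpow_add hL0, ← Real.rpow_natCast (L ^ A) 2, ← Real.rpow_mul hL0.le]
        rw [show (7 : ℝ) = ((7 : ℕ) : ℝ) by norm_num, Real.rpow_natCast]
        congr 2
        push_cast
        ring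
      have e3 : (48 : ℝ) ^ 2 ≤ L ^ 7 := by
        calc (48 : ℝ) ^ 2 ≤ L ^ 2 := pow_le_pow_left₀ (by norm_num) hL 2
          _ ≤ L ^ 7 := pow_le_pow_right₀ (by linarith) (by norm_num)
      calc (48 * L ^ A) ^ 2 = (L ^ A) ^ 2 * 48 ^ 2 := by ring
        _ ≤ (L ^ A) ^ 2 * L ^ 7 := mul_le_mul_of_nonneg_left e3 (by positivity)
        _ = L ^ β := e2
        _ ≤ R := by linarith
    have e4 : 0 < Real.sqrt R := Real.sqrt_pos.2 hR0
    have e5 : 8 / Real.sqrt R ≤ 1 / (6 * L ^ A) := by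
      rw [div_le_div_iff₀ e4 (by positivity)]
      linarith
    calc H * (lR * (8 / Real.sqrt R)) ≤ H * (2 * x * (1 / (6 * L ^ A))) :=
          mul_le_mul_of_nonneg_left (mul_le_mul hy2 e5 (by positivity) (by positivity)) hH
      _ = 1 / 3 * (H * x / L ^ A) := by
          rw [one_div, mul_inv]
          ring
  linarith

/-- the ranges of N, Q, K, H -/
private lemma Blu_rng {x ε E L lN : ℝ} {N Q K H : ℕ} (hx1 : 1 ≤ x) (hε : 0 < ε) (hε1 : ε ≤ 1 / 10) (hE : 0 < E)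
    (hN1 : x / 2 ≤ N) (hN2 : (N : ℝ) ≤ x) (hL : 3 ≤ L) (hlN0 : 0 ≤ lN) (hlN : lN ≤ L) (hx4 : 4 ≤ x ^ ε)
    (hQl : x ^ ε ≤ Q) (hQu : (Q : ℝ) ≤ x ^ (1 - ε)) (hH : (x / Q) * L ^ (E + 1) ≤ H)
    (hK1 : 2 * N ≤ K * Q) (hK2 : K * Q ≤ 3 * N) :
    (N : ℝ) ^ (ε / 2) ≤ K ∧ K ≤ N ∧ (N : ℝ) ^ (ε / 2) ≤ Q ∧ (Q : ℝ) ≤ (N : ℝ) ^ (1 - ε / 2) ∧
      (K : ℝ) * lN ^ E ≤ H := by
  have hx0 : 0 < x := by linarith
  have hQ0 : (0 : ℝ) < Q := by linarith
  have hN0 : (0 : ℝ) < N := by linarith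
  have k1 : 2 * (N : ℝ) ≤ K * Q := by exact_mod_cast hK1
  have k2 : (K : ℝ) * Q ≤ 3 * N := by exact_mod_cast hK2
  have n1 : (N : ℝ) ^ (ε / 2) ≤ x ^ ε := by
    calc (N : ℝ) ^ (ε / 2) ≤ x ^ (ε / 2) := Real.rpow_le_rpow hN0.le hN2 (by linarith)
      _ ≤ x ^ ε := Real.rpow_le_rpow_of_exponent_le hx1 (by linarith)
  refine ⟨?_, ?_, n1.trans hQl, ?_, ?_⟩
  · refine n1.trans ?_
    have e1 : x ^ ε * Q ≤ K * Q := by
      calc x ^ ε * Q ≤ x ^ ε * x ^ (1 - ε) := mul_le_mul_of_nonneg_left hQu (by positivity)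
        _ = x := by
            rw [← Real.rpow_add hx0, show ε + (1 - ε) = (1 : ℝ) by ring, Real.rpow_one]
        _ ≤ K * Q := by linarith
    exact le_of_mul_le_mul_right e1 hQ0
  · have q3 : 3 ≤ Q := by
      have : (3 : ℝ) ≤ Q := by linarith
      exact_mod_cast this
    have : K * 3 ≤ 3 * N := (Nat.mul_le_mul_left K q3).trans hK2
    omega
  · have e1 : (2 : ℝ) ≤ x ^ (ε / 2) := by
      have e2 : x ^ ε = (x ^ (ε / 2)) ^ 2 := by
        rw [← Real.rpow_natCast, ← Real.rpow_mul hx0.le]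
        congr 1
        push_cast
        ring
      have e3 : 0 < x ^ (ε / 2) := Real.rpow_pos_of_pos hx0 _
      nlinarith
    have e4 : x ^ (1 - ε) * x ^ (ε / 2) = x ^ (1 - ε / 2) := by
      rw [← Real.rpow_add hx0]
      congr 1
      ring
    have e5 : x ^ (1 - ε / 2) / 2 ≤ (N : ℝ) ^ (1 - ε / 2) := by
      calc x ^ (1 - ε / 2) / 2 ≤ x ^ (1 - ε / 2) / 2 ^ (1 - ε / 2) := by
            apply div_le_div_of_nonneg_left (by positivity) (by positivity)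
            calc (2 : ℝ) ^ (1 - ε / 2) ≤ 2 ^ (1 : ℝ) :=
                  Real.rpow_le_rpow_of_exponent_le (by norm_num) (by linarith)
              _ = 2 := Real.rpow_one 2
        _ = (x / 2) ^ (1 - ε / 2) := by rw [Real.div_rpow hx0.le (by norm_num)]
        _ ≤ (N : ℝ) ^ (1 - ε / 2) := Real.rpow_le_rpow (by positivity) hN1 (by linarith)
    have e6 : 0 < x ^ (1 - ε) := Real.rpow_pos_of_pos hx0 _
    nlinarith
  · have e1 : (K : ℝ) ≤ 3 * (x / Q) := by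
      rw [← mul_div_assoc, le_div_iff₀ hQ0]
      linarith
    have e2 : lN ^ E ≤ L ^ E := Real.rpow_le_rpow hlN0 hlN hE.le
    have e3 : L ^ (E + 1) = L ^ E * L := by
      rw [Real.rpow_add (by linarith), Real.rpow_one]
    have e4 : 0 ≤ lN ^ E := Real.rpow_nonneg hlN0 _
    have e5 : 0 ≤ L ^ E := Real.rpow_nonneg (by linarith) _
    have e6 : 0 < x / Q := by positivity
    calc (K : ℝ) * lN ^ E ≤ 3 * (x / Q) * L ^ E := mul_le_mul e1 e2 e4 (by positivity)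
      _ ≤ L * (x / Q) * L ^ E := by
          refine mul_le_mul_of_nonneg_right ?_ e5
          exact mul_le_mul_of_nonneg_right hL e6.le
      _ = (x / Q) * L ^ (E + 1) := by
          rw [e3]
          ring
      _ ≤ H := hH

/-- the character sums -/
private lemma Blu_chr {x L lN β A2 C1 R q N T : ℝ} (hx : 0 < x) (hL : 1 ≤ L) (hlN0 : 0 < lN) (hlN : lN ≤ L)
    (hN1 : x / 2 ≤ N) (hR1 : 1 ≤ R) (hRu : R ≤ 3 * L ^ β) (hq : q ≤ R)
    (hC1 : 0 < C1) (hL24 : 24 * C1 ≤ L) (hA2 : 0 < A2)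
    (hT : T = C1 * (x / L ^ (β + A2 + 3))) (hv3 : 648 * L ^ (3 * β + A2) ≤ x) :
    2 * (q * (T + 1) + R ^ 2 * q + 1) ≤ N * lN ^ (-A2) := by
  have hL0 : 0 < L := by linarith
  have hT0 : 0 ≤ T := by
    rw [hT]
    have : 0 < L ^ (β + A2 + 3) := Real.rpow_pos_of_pos hL0 _
    positivity
  have hLA2 : 0 < L ^ A2 := Real.rpow_pos_of_pos hL0 _
  have hLβ : 0 < L ^ β := Real.rpow_pos_of_pos hL0 _
  have e1 : x / 2 * (L ^ A2)⁻¹ ≤ N * lN ^ (-A2) := by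
    rw [← Real.rpow_neg hL0.le]
    exact mul_le_mul hN1 (Real.rpow_le_rpow_of_nonpos hlN0 hlN (by linarith)) (by positivity) (by linarith)
  refine le_trans ?_ e1
  have e2 : 2 * (q * (T + 1) + R ^ 2 * q + 1) ≤ 2 * R * T + 6 * R ^ 3 := by
    have f1 : q * (T + 1) ≤ R * (T + 1) := mul_le_mul_of_nonneg_right hq (by linarith)
    have f2 : R ^ 2 * q ≤ R ^ 2 * R := mul_le_mul_of_nonneg_left hq (by positivity)
    have f3 : R ≤ R ^ 3 := by
      calc R = R ^ 1 := (pow_one R).symm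
        _ ≤ R ^ 3 := pow_le_pow_right₀ hR1 (by norm_num)
    have f4 : 1 ≤ R ^ 3 := one_le_pow₀ hR1
    have f5 : R ^ 2 * R = R ^ 3 := by ring
    linarith
  refine e2.trans ?_
  have e3 : 2 * R * T ≤ x / 4 * (L ^ A2)⁻¹ := by
    have f1 : L ^ (β + A2 + 3) = L ^ β * L ^ A2 * L ^ 3 := by
      rw [Real.rpow_add hL0, Real.rpow_add hL0, show (3 : ℝ) = ((3 : ℕ) : ℝ) by norm_num, Real.rpow_natCast]
    have f2 : 24 * C1 ≤ L ^ 3 := by
      calc 24 * C1 ≤ L := hL24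
        _ = L ^ 1 := (pow_one L).symm
        _ ≤ L ^ 3 := pow_le_pow_right₀ hL (by norm_num)
    calc 2 * R * T ≤ 2 * (3 * L ^ β) * T := by
          refine mul_le_mul_of_nonneg_right ?_ hT0
          linarith
      _ = (6 * C1 * (L ^ 3)⁻¹) * (x * (L ^ A2)⁻¹) := by
          rw [hT, f1]
          field_simp
          ring
      _ ≤ (1 / 4) * (x * (L ^ A2)⁻¹) := by
          refine mul_le_mul_of_nonneg_right ?_ (by positivity)
          rw [← div_eq_mul_inv, div_le_iff₀ (by positivity)]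
          linarith
      _ = x / 4 * (L ^ A2)⁻¹ := by ring
  have e4 : 6 * R ^ 3 ≤ x / 4 * (L ^ A2)⁻¹ := by
    have f1 : R ^ 3 ≤ 27 * L ^ (3 * β) := by
      have f2 : L ^ (3 * β) = (L ^ β) ^ 3 := by
        rw [← Real.rpow_natCast, ← Real.rpow_mul hL0.le]
        congr 1
        push_cast
        ring
      calc R ^ 3 ≤ (3 * L ^ β) ^ 3 := pow_le_pow_left₀ (by linarith) hRu 3
        _ = 27 * L ^ (3 * β) := by
            rw [f2]
            ring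
    rw [← div_eq_mul_inv, le_div_iff₀ hLA2]
    have f3 : 648 * L ^ (3 * β) * L ^ A2 ≤ x := by
      rw [mul_assoc, ← Real.rpow_add hL0]
      exact hv3
    nlinarith
  linarith

/-- the mean square -/
private lemma Blu_msq {L lN β R : ℝ} (hL : 1 ≤ L) (hlN : L / 2 ≤ lN) (hR1 : 1 ≤ R) (hRu : R ≤ 3 * L ^ β)
    (hv5 : 1 + Real.log 6 + β * Real.log L ≤ L ^ ((1 : ℝ) / 4)) (hv6 : 100000 ≤ L ^ ((1 : ℝ) / 4)) :
    50000 * (1 + Real.log (2 * R)) ^ 3 ≤ lN := by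
  have hL0 : 0 < L := by linarith
  have e1 : Real.log (2 * R) ≤ Real.log 6 + β * Real.log L := by
    rw [← Real.log_rpow hL0, ← Real.log_mul (by norm_num) (Real.rpow_pos_of_pos hL0 _).ne']
    apply Real.log_le_log (by linarith)
    linarith
  have e2 : 0 ≤ Real.log (2 * R) := Real.log_nonneg (by linarith)
  set t := L ^ ((1 : ℝ) / 4) with ht
  have e3 : (1 + Real.log (2 * R)) ^ 3 ≤ t ^ 3 := pow_le_pow_left₀ (by linarith) (by linarith) 3
  have e4 : t ^ 4 = L := by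
    rw [ht, ← Real.rpow_natCast, ← Real.rpow_mul hL0.le]
    norm_num
  have e5 : 100000 * t ^ 3 ≤ t ^ 4 := by
    have : t ^ 4 = t * t ^ 3 := by ring
    rw [this]
    exact mul_le_mul_of_nonneg_right hv6 (by positivity)
  linarith

private lemma Blu_ev5 (β : ℝ) : ∀ᶠ x : ℝ in Filter.atTop,
    1 + Real.log 6 + β * Real.log (Real.log x) ≤ (Real.log x) ^ ((1 : ℝ) / 4) ∧
      100000 ≤ (Real.log x) ^ ((1 : ℝ) / 4) := by
  have e1 : ∀ᶠ L : ℝ in Filter.atTop, (2 * |β|) * (Real.log L) ^ (1 : ℝ) ≤ L ^ ((1 : ℝ) / 4) :=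
    Blu_ev 1 (1 / 4) (2 * |β|) (by norm_num)
  have e2 : ∀ᶠ L : ℝ in Filter.atTop, 100000 + 2 * (1 + Real.log 6) ≤ L ^ ((1 : ℝ) / 4) :=
    (tendsto_rpow_atTop (by norm_num)).eventually_ge_atTop _
  have e3 : ∀ᶠ L : ℝ in Filter.atTop, 1 + Real.log 6 + β * Real.log L ≤ L ^ ((1 : ℝ) / 4) ∧
      100000 ≤ L ^ ((1 : ℝ) / 4) := by
    filter_upwards [e1, e2, Filter.eventually_ge_atTop (1 : ℝ)] with L h1 h2 h3
    rw [Real.rpow_one] at h1
    have h4 : 0 ≤ Real.log L := Real.log_nonneg h3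
    have h5 : β * Real.log L ≤ |β| * Real.log L := mul_le_mul_of_nonneg_right (le_abs_self β) h4
    have h6 : 0 ≤ Real.log 6 := Real.log_nonneg (by norm_num)
    constructor <;> linarith
  exact Real.tendsto_log_atTop.eventually e3

theorem tBlu (h1 : CoreStmt) (h2 : MmaStmt) (h3 : MtaStmt) (h4 : MclStmt) (h5 : MsuStmt)
    (h6 : Pool.Agent.Lib.KF.BvyStmt) : BluStmt := by
  intro ε A hε hε1 hA
  obtain ⟨β, hβ⟩ : ∃ β : ℝ, β = 2 * A + 7 := ⟨_, rfl⟩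
  obtain ⟨E', A2, N0, hE', hA2, hN0, core⟩ := h1 (ε / 2) (2 * A + 4) 1 (β + 1) (by linarith) (by linarith)
    (by norm_num) (by linarith)
  obtain ⟨C1, hC1, hbv⟩ := h6 (β + A2 + 3) (1 / 4) (by linarith) (by norm_num) (by norm_num)
  have v1 := Blu_ev (2 * β + A) ε 162 hε
  have v2 := Blu_ev β (1 / 4) 3 (by norm_num)
  have v3 := Blu_ev (3 * β + A2) 1 648 (by norm_num)
  have v4 : ∀ᶠ x : ℝ in Filter.atTop, 48 + 18 * 2 ^ β + 24 * C1 + 9 * 2 ^ (A + 2) ≤ Real.log x :=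
    Real.tendsto_log_atTop.eventually_ge_atTop _
  obtain ⟨x0, hx0⟩ := Filter.eventually_atTop.1 (v1.and (v2.and (v3.and (v4.and (Blu_ev5 β)))))
  refine ⟨E' + 1, max x0 (N0 + 4), by linarith, ?_, ?_⟩
  · refine le_trans ?_ (le_max_right _ _)
    have : (0 : ℝ) ≤ N0 := Nat.cast_nonneg _
    linarith
  intro x y Q H A0 hxx hy hyx hQl hQu hAl hAu hH
  obtain ⟨w1, w2, w3, w4, w5, w6⟩ := hx0 x ((le_max_left _ _).trans hxx)
  have hxN0 : (N0 : ℝ) + 4 ≤ x := (le_max_right _ _).trans hxx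
  have hN0' : (3 : ℝ) ≤ N0 := by exact_mod_cast hN0
  have hx4 : 4 ≤ x := by linarith
  have hx0' : 0 < x := by linarith
  have hx1 : 1 ≤ x := by linarith
  obtain ⟨n1, n2, n3, n4, n5⟩ := Blu_N hx4
  have p1 : (0 : ℝ) < 2 ^ β := by positivity
  have p2 : (0 : ℝ) < 2 ^ (A + 2) := by positivity
  have hL48 : 48 ≤ Real.log x := by linarith
  have hL0 : 0 < Real.log x := by linarith
  have hlN0 : 0 < Real.log (⌊x⌋₊ : ℝ) := by linarith
  -- R
  have hLβ : 1 ≤ (Real.log x) ^ β := Real.one_le_rpow (by linarith) (by linarith)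
  have hRl : 2 * (Real.log x) ^ β ≤ (⌈2 * (Real.log x) ^ β⌉₊ : ℝ) := Nat.le_ceil _
  have hRu : (⌈2 * (Real.log x) ^ β⌉₊ : ℝ) ≤ 3 * (Real.log x) ^ β := by
    have := Nat.ceil_lt_add_one (show 0 ≤ 2 * (Real.log x) ^ β by linarith)
    linarith
  generalize hR : ⌈2 * (Real.log x) ^ β⌉₊ = R at hRl hRu
  have hR1 : 1 ≤ R := by
    have : (1 : ℝ) ≤ R := by linarith
    exact_mod_cast this
  have hR1' : (1 : ℝ) ≤ R := by exact_mod_cast hR1
  have hxε : 162 ≤ x ^ ε := by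
    have : 1 ≤ (Real.log x) ^ (2 * β + A) := Real.one_le_rpow (by linarith) (by linarith)
    linarith
  have hQ0 : 0 < Q := by
    have : (0 : ℝ) < Q := by linarith
    exact_mod_cast this
  generalize hN : ⌊x⌋₊ = N at n1 n2 n3 n4 n5 hlN0
  have hQN : Q ≤ N := by
    have e1 : x ^ (1 - ε) ≤ x / 2 := by
      rw [Real.rpow_sub hx0', Real.rpow_one]
      exact div_le_div_of_nonneg_left hx0'.le (by norm_num) (by linarith)
    have : (Q : ℝ) ≤ N := by linarith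
    exact_mod_cast this
  obtain ⟨K, hK⟩ : ∃ K, K = 2 * N / Q + 1 := ⟨_, rfl⟩
  obtain ⟨k1, k2⟩ := Blu_K hQ0 hQN hK
  obtain ⟨r1, r2, r3, r4, r5⟩ := Blu_rng (E := E') (K := K) (H := H) hx1 hε hε1 hE' n1 n2 (by linarith) hlN0.le n5
    (by linarith) hQl hQu hH k1 k2
  have hNN0 : N0 ≤ N := by
    have : (N0 : ℝ) ≤ N := by linarith
    exact_mod_cast this
  -- A0
  have hA1 : -(N : ℤ) ≤ A0 := by
    have e1 : -(N : ℝ) - 1 < A0 := by linarith
    have e2 : -(N : ℤ) - 1 < A0 := by exact_mod_cast e1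
    linarith
  have hA2' : A0 + H ≤ N + 1 := by
    have e1 : (A0 : ℝ) + H < N + 2 := by linarith
    have e2 : A0 + H < N + 2 := by exact_mod_cast e1
    linarith
  have hH3 : H ≤ 3 * N := by
    have e1 : (4 : ℝ) - 1 < N := by linarith
    have e2 : 3 < N := by
      have : (3 : ℝ) < N := by linarith
      exact_mod_cast this
    omega
  have hyN : ⌊y⌋ ≤ (N : ℤ) := by
    have e1 : y < N + 1 := by linarith
    have e2 : ⌊y⌋ < (N : ℤ) + 1 := by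
      rw [Int.floor_lt]
      exact_mod_cast e1
    linarith
  have hR2N : R ^ 2 ≤ N := by
    have e1 : (R : ℝ) ^ 2 ≤ N := by
      have e2 : (Real.log x) ^ (2 * β) = ((Real.log x) ^ β) ^ 2 := by
        rw [← Real.rpow_natCast, ← Real.rpow_mul hL0.le]
        congr 1
        push_cast
        ring
      have e3 : (Real.log x) ^ (2 * β) ≤ (Real.log x) ^ (2 * β + A) :=
        Real.rpow_le_rpow_of_exponent_le (by linarith) (by linarith)
      have e4 : x ^ ε ≤ x := by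
        calc x ^ ε ≤ x ^ (1 : ℝ) := Real.rpow_le_rpow_of_exponent_le hx1 (by linarith)
          _ = x := Real.rpow_one x
      nlinarith
    exact_mod_cast e1
  obtain ⟨m1, m2, m3⟩ := h5
  have hlN2 : Real.log x / 2 ≤ Real.log (N : ℝ) := n4
  have hM : 3 * (R : ℝ) ≤ (Real.log (N : ℝ)) ^ (β + 1) := by
    have e1 : (Real.log x) ^ β ≤ (2 * Real.log (N : ℝ)) ^ β := Real.rpow_le_rpow hL0.le (by linarith) (by linarith)
    rw [Real.mul_rpow (by norm_num) hlN0.le] at e1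
    rw [Real.rpow_add hlN0, Real.rpow_one]
    have e2 : 0 < (Real.log (N : ℝ)) ^ β := Real.rpow_pos_of_pos hlN0 _
    calc 3 * (R : ℝ) ≤ 9 * (2 ^ β * (Real.log (N : ℝ)) ^ β) := by linarith
      _ = (Real.log (N : ℝ)) ^ β * (9 * 2 ^ β) := by ring
      _ ≤ (Real.log (N : ℝ)) ^ β * Real.log (N : ℝ) := mul_le_mul_of_nonneg_left (by linarith) e2.le
  have hms : ∑ n ∈ Icc (1 : ℤ) N, (fm R y n) ^ 2 ≤ N * (Real.log (N : ℝ)) ^ (1 : ℝ) := by
    rw [Real.rpow_one]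
    refine (m2 N R y hR1 hR2N).trans ?_
    have e1 := Blu_msq (by linarith) hlN2 hR1' hRu w5 w6
    calc 50000 * (N : ℝ) * (1 + Real.log (2 * R)) ^ 3 = N * (50000 * (1 + Real.log (2 * R)) ^ 3) := by ring
      _ ≤ N * Real.log (N : ℝ) := mul_le_mul_of_nonneg_left e1 (Nat.cast_nonneg _)
  have hR4 : (R : ℝ) ≤ x ^ ((1 : ℝ) / 4) := hRu.trans w2
  have hchr : ∀ q h : ℕ, 1 ≤ q → (q : ℝ) ≤ 2 * (Real.log (N : ℝ)) ^ (2 * A + 4 + 1 + 2) → h.Coprime q → ∀ u v : ℤ,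
      ‖∑ n ∈ Ico u v, ((fm R y n : ℝ) : ℂ) * ee ((n : ℝ) * ((h : ℝ) / q))‖ ≤ N * (Real.log (N : ℝ)) ^ (-A2) := by
    intro q h hq hq2 hhq u v
    have hqR : q ≤ R := by
      have e1 : (q : ℝ) ≤ R := by
        refine hq2.trans (le_trans ?_ hRl)
        rw [show 2 * A + 4 + 1 + 2 = β by rw [hβ]; ring]
        have := Real.rpow_le_rpow hlN0.le n5 (show 0 ≤ β by linarith)
        linarith
      exact_mod_cast e1
    have hqR' : (q : ℝ) ≤ R := by exact_mod_cast hqR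
    have hT0 : 0 ≤ C1 * (x / (Real.log x) ^ (β + A2 + 3)) := by
      have : 0 < (Real.log x) ^ (β + A2 + 3) := Real.rpow_pos_of_pos hL0 _
      positivity
    refine (h4 R q h y (C1 * (x / (Real.log x) ^ (β + A2 + 3))) hq hqR hhq hy hT0 ?_ u v).trans ?_
    · intro Y hY2 hYy
      refine le_trans ?_ (hbv x Y (by linarith) hY2 (hYy.trans hyx))
      refine Finset.single_le_sum (f := fun d => maxErr Y d)
        (fun d _ => Pool.Agent.Lib.EH.maxErr_nonneg Y d) ?_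
      rw [mem_Icc]
      refine ⟨hq, Nat.le_floor (hqR'.trans hR4)⟩
    · refine Blu_chr hx0' (by linarith) hlN0 n5 n1 hR1' hRu hqR' hC1 (by linarith) hA2 rfl ?_
      rw [Real.rpow_one] at w3
      exact w3
  have hV := core N Q K H A0 (fm R y) (3 * R) hNN0 r1 r2 r3 r4 (by omega) (by omega) r5 hH3 (by linarith) hM
    (fun n => m1 R y n hR1) (fun n hn => m3 N R y n (by linarith) hn) hms hchr
  refine (Blu_sum h2 h3 hQ0 hR1 hK hA1 hA2' hyN hy).trans ?_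
  have hli : |li y| ≤ 2 * x := by
    rw [abs_of_nonneg (Pool.Agent.Lib.EH.li_nonneg hy)]
    exact (Pool.Agent.Lib.EH.li_le hy).trans (by linarith)
  refine Blu_fin hx0' hL48 hA (Nat.cast_nonneg _) (Nat.cast_nonneg _) (Nat.cast_nonneg K) (by linarith) hβ n4 ?_
    hV hRl hRu hQu w1 (by linarith) hli
  have : (K : ℝ) * Q ≤ 3 * N := by exact_mod_cast k2
  linarith

end Pool.Agent.Lib.UI
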