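import Pool.Agent.Lib.UI.SpecF

/-!
MP_00e23e_nt, Lib/UI, module Fiu: the final theorem U1.
-/

namespace Pool.Agent.Lib.UI

open Finset Pool.Agent.Lib.EH3 Pool.Agent.Results.MP_00e23e_nt

private lemma Fiu_biU {ι : Type*} (I : Finset ι) (T : ι → Finset ℕ) (f : ℕ → ℝ) (hf : ∀ d, 0 ≤ f d) :
    ∑ d ∈ I.biUnion T, f d ≤ ∑ i ∈ I, ∑ d ∈ T i, f d := by
  classical
  have h1 : ∀ d ∈ I.biUnion T, f d ≤ ∑ i ∈ I, if d ∈ T i then f d else 0 := by
    intro d hd
    obtain ⟨i, hi, hdi⟩ := Finset.mem_biUnion.1 hd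
    have h := Finset.single_le_sum (f := fun i => if d ∈ T i then f d else 0)
      (fun j _ => by
        show 0 ≤ if d ∈ T j then f d else 0
        split_ifs
        · exact hf d
        · exact le_rfl) hi
    simpa [hdi] using h
  refine (Finset.sum_le_sum h1).trans ?_
  rw [Finset.sum_comm]
  refine Finset.sum_le_sum fun i _ => ?_
  rw [← Finset.sum_filter]
  refine Finset.sum_le_sum_of_subset_of_nonneg ?_ fun d _ _ => hf d
  intro d hd
  exact (Finset.mem_filter.1 hd).2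

private lemma Fiu_harm (N : ℕ) : ∑ d ∈ Icc 1 N, 1 / (d : ℝ) ≤ 1 + Real.log N := by
  have h := harmonic_le_one_add_log N
  rw [harmonic_eq_sum_Icc] at h
  push_cast at h
  simpa [one_div] using h

private lemma Fiu_phi (x Q : ℝ) (hQ1 : 1 ≤ Q) (hQ : Q ≤ x) (hL : 1 ≤ Real.log x)
    (F : Finset ℕ) (hF : F ⊆ Icc 1 ⌊Q⌋₊) : ∑ d ∈ F, 1 / (d.totient : ℝ) ≤ 6 * (Real.log x) ^ 2 := by
  have hfl : (⌊Q⌋₊ : ℝ) ≤ Q := Nat.floor_le (by linarith)
  have hfl1 : (1 : ℝ) ≤ (⌊Q⌋₊ : ℝ) := by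
    have : 1 ≤ ⌊Q⌋₊ := by rw [Nat.one_le_floor_iff]; exact hQ1
    exact_mod_cast this
  have h1 : ∀ d ∈ Icc 1 ⌊Q⌋₊, 1 / (d.totient : ℝ) ≤ 3 * Real.log x * (1 / (d : ℝ)) := by
    intro d hd
    obtain ⟨hd1, hd2⟩ := Finset.mem_Icc.1 hd
    have hd0 : (0 : ℝ) < d := by exact_mod_cast hd1
    have hph : (0 : ℝ) < (d.totient : ℝ) := by exact_mod_cast Nat.totient_pos.2 hd1
    have e1 := Pool.Agent.Lib.EH.le_totient d
    have e2 := Pool.Agent.Lib.EH.card_primeFactors_le hd1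
    have hdx : (d : ℝ) ≤ x := by
      have : (d : ℝ) ≤ (⌊Q⌋₊ : ℝ) := by exact_mod_cast hd2
      linarith
    have e3 : Real.log d ≤ Real.log x := Real.log_le_log hd0 hdx
    have e4 : (d.primeFactors.card : ℝ) + 1 ≤ 3 * Real.log x := by linarith
    have e5 : (d : ℝ) ≤ 3 * Real.log x * d.totient := e1.trans (mul_le_mul_of_nonneg_right e4 hph.le)
    rw [mul_one_div, div_le_div_iff₀ hph hd0, one_mul]
    exact e5
  calc ∑ d ∈ F, 1 / (d.totient : ℝ) ≤ ∑ d ∈ Icc 1 ⌊Q⌋₊, 1 / (d.totient : ℝ) :=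
        Finset.sum_le_sum_of_subset_of_nonneg hF fun _ _ _ => by positivity
    _ ≤ ∑ d ∈ Icc 1 ⌊Q⌋₊, 3 * Real.log x * (1 / (d : ℝ)) := Finset.sum_le_sum h1
    _ = 3 * Real.log x * ∑ d ∈ Icc 1 ⌊Q⌋₊, 1 / (d : ℝ) := by rw [Finset.mul_sum]
    _ ≤ 3 * Real.log x * (2 * Real.log x) := by
        refine mul_le_mul_of_nonneg_left ?_ (by linarith)
        have e1 := Fiu_harm ⌊Q⌋₊
        have e2 : Real.log (⌊Q⌋₊ : ℝ) ≤ Real.log x := Real.log_le_log (by linarith) (by linarith)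
        linarith
    _ = 6 * (Real.log x) ^ 2 := by ring

private lemma Fiu_large (U : ℝ) : ∃ x2 : ℝ, 3 ≤ x2 ∧ ∀ x : ℝ, x2 ≤ x →
    4 * (Real.log x) ^ (U + 3) ≤ x := by
  have h := (isLittleO_log_rpow_rpow_atTop (U + 3) (zero_lt_one' ℝ)).def
    (show (0 : ℝ) < 1 / 4 by norm_num)
  obtain ⟨x2, hx2⟩ := Filter.eventually_atTop.1 h
  refine ⟨max x2 3, le_max_right _ _, fun x hx => ?_⟩
  have hx3 : 3 ≤ x := (le_max_right _ _).trans hx
  have h1 := hx2 x ((le_max_left _ _).trans hx)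
  have hl : 0 ≤ Real.log x := Real.log_nonneg (by linarith)
  rw [Real.rpow_one, Real.norm_eq_abs, Real.norm_eq_abs, abs_of_nonneg (Real.rpow_nonneg hl _),
    abs_of_nonneg (show (0 : ℝ) ≤ x by linarith)] at h1
  linarith

private lemma Fiu_log1 {x : ℝ} (hx : 3 ≤ x) : 1 ≤ Real.log x := by
  have h : Real.exp 1 ≤ x := by
    have := Real.exp_one_lt_d9
    linarith
  rw [← Real.log_exp 1]
  exact Real.log_le_log (Real.exp_pos 1) h

/-- the small moduli -/
private lemma Fiu_A {ε U : ℝ} (hε : 0 < ε) (hε2 : ε ≤ 1 / 10) (hU : 0 < U)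
    (h1 : Pool.Agent.Lib.KF.WfbStmt) (h4 : TrbStmt) : ∃ C1 : ℝ, 0 ≤ C1 ∧
    ∀ (x Q : ℝ) (A : ℤ) (H : ℕ) (y : ℕ → ℤ → ℝ), 3 ≤ x → 1 ≤ Q → Q ≤ x ^ (1 - ε) → -x ≤ A →
      (A : ℝ) + H ≤ x + 1 → (1 + Q ^ 2 / x) * (Real.log x) ^ (6 * U + 21) ≤ H →
      (∀ d a, 2 ≤ y d a ∧ y d a ≤ x) →
      ∑ a ∈ Ico A (A + H), ∑ d ∈ (Icc 1 ⌊Q⌋₊).filter (fun d : ℕ => Int.gcd a d = 1),
        |resErr (y d a) d a| ≤ 21 * C1 * (H * x / (Real.log x) ^ U) := by
  classical
  obtain ⟨C0, hC⟩ := h1 ε U 1 hε hε2 hU one_pos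
  refine ⟨max C0 0, le_max_right _ _, ?_⟩
  obtain ⟨C1, hC1⟩ : ∃ C1, C1 = max C0 0 := ⟨_, rfl⟩
  rw [← hC1]
  have hC10 : 0 ≤ C1 := by rw [hC1]; exact le_max_right _ _
  have hC01 : C0 ≤ C1 := by rw [hC1]; exact le_max_left _ _
  intro x Q A H y hx hQ1 hQ hA hAH hH hy
  have hx0 : 0 < x := by linarith
  have hL1 := Fiu_log1 hx
  have hL0 : 0 < Real.log x := by linarith
  have hQ0 : 0 < Q := by linarith
  have hQx : Q ≤ x := by
    refine hQ.trans ?_
    calc x ^ (1 - ε) ≤ x ^ (1 : ℝ) := Real.rpow_le_rpow_of_exponent_le (by linarith) (by linarith)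
      _ = x := Real.rpow_one x
  obtain ⟨N, hN⟩ : ∃ N : ℕ, N = ⌊x⌋₊ := ⟨_, rfl⟩
  have hNx : (N : ℝ) ≤ x := by rw [hN]; exact Nat.floor_le hx0.le
  have hxN : x < (N : ℝ) + 1 := by rw [hN]; exact Nat.lt_floor_add_one x
  have hcard : ∀ j ∈ range (2 * N + 1), ((({(j : ℤ) - N} : Finset ℤ).card : ℕ) : ℝ) ≤
      x ^ (-(ε / 3)) * min (x ^ ((1 : ℝ) / 4)) ((x / Q) ^ ((1 : ℝ) / 2)) := by
    intro j _
    rw [Finset.card_singleton, Nat.cast_one]
    have e1 : x ^ (ε / 3) ≤ x ^ ((1 : ℝ) / 4) :=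
      Real.rpow_le_rpow_of_exponent_le (by linarith) (by linarith)
    have e2 : x ^ (ε / 3) ≤ (x / Q) ^ ((1 : ℝ) / 2) := by
      have e3 : x ^ ε ≤ x / Q := by
        rw [le_div_iff₀ hQ0]
        calc x ^ ε * Q ≤ x ^ ε * x ^ (1 - ε) := mul_le_mul_of_nonneg_left hQ (by positivity)
          _ = x := by
            rw [← Real.rpow_add hx0]
            have : ε + (1 - ε) = 1 := by ring
            rw [this, Real.rpow_one]
      calc x ^ (ε / 3) ≤ x ^ (ε * (1 / 2)) :=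
            Real.rpow_le_rpow_of_exponent_le (by linarith) (by linarith)
        _ = (x ^ ε) ^ ((1 : ℝ) / 2) := Real.rpow_mul hx0.le _ _
        _ ≤ (x / Q) ^ ((1 : ℝ) / 2) := Real.rpow_le_rpow (by positivity) e3 (by norm_num)
    calc (1 : ℝ) = x ^ (-(ε / 3)) * x ^ (ε / 3) := by
          rw [← Real.rpow_add hx0, neg_add_cancel, Real.rpow_zero]
      _ ≤ _ := mul_le_mul_of_nonneg_left (le_min e1 e2) (by positivity)
  have hB : ∀ j ∈ range (2 * N + 1), ∀ b ∈ ({(j : ℤ) - N} : Finset ℤ), |(b : ℝ)| ≤ x ^ (1 : ℝ) := by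
    intro j hj b hb
    rw [Finset.mem_singleton] at hb
    have hj' : (j : ℝ) ≤ 2 * N := by
      have : j ≤ 2 * N := Nat.lt_succ_iff.1 (Finset.mem_range.1 hj)
      exact_mod_cast this
    have hj0 : (0 : ℝ) ≤ j := Nat.cast_nonneg j
    rw [hb, Real.rpow_one]
    push_cast
    rw [abs_le]
    constructor <;> linarith
  have hdisj : ∀ j ∈ range (2 * N + 1), ∀ k ∈ range (2 * N + 1), j ≠ k →
      Disjoint ({(j : ℤ) - N} : Finset ℤ) {(k : ℤ) - N} := by
    intro j _ k _ hjk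
    rw [Finset.disjoint_singleton]
    intro h
    exact hjk (by omega)
  obtain ⟨S, hSJ, hSc, hSg⟩ := hC x Q (range (2 * N + 1)) (fun j => {(j : ℤ) - N}) hx hQ1 hQ hcard
    hB hdisj
  have hLU : 0 < (Real.log x) ^ U := Real.rpow_pos_of_pos hL0 U
  have hq : 0 ≤ (1 + Q ^ 2 / x) := by positivity
  -- membership
  have hidx : ∀ a ∈ Ico A (A + H), 0 ≤ a + N ∧ (a + N).toNat ∈ range (2 * N + 1) ∧
      (((a + N).toNat : ℕ) : ℤ) - N = a := by
    intro a ha
    obtain ⟨ha1, ha2⟩ := Finset.mem_Ico.1 ha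
    have e1 : (A : ℝ) ≤ a := by exact_mod_cast ha1
    have e2 : (a : ℝ) + 1 ≤ A + H := by exact_mod_cast ha2
    have e3 : (-((N : ℤ) + 1) : ℤ) < a := by
      have : -((N : ℝ) + 1) < (a : ℝ) := by linarith
      exact_mod_cast this
    have e4 : a < (N : ℤ) + 1 := by
      have : (a : ℝ) < (N : ℝ) + 1 := by linarith
      exact_mod_cast this
    refine ⟨by omega, ?_, by omega⟩
    rw [Finset.mem_range]
    omega
  have hpt : ∀ a ∈ Ico A (A + H),
      ∑ d ∈ (Icc 1 ⌊Q⌋₊).filter (fun d : ℕ => Int.gcd a d = 1), |resErr (y d a) d a| ≤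
        C1 * (x / (Real.log x) ^ U) +
          if (a + N).toNat ∈ S then 20 * x * (Real.log x) ^ 2 else 0 := by
    intro a ha
    obtain ⟨h0, hr, he⟩ := hidx a ha
    split_ifs with hs
    · have e1 := h4 x a (fun d => y d a) hx (fun d => hy d a)
      have e2 : ∑ d ∈ (Icc 1 ⌊Q⌋₊).filter (fun d : ℕ => Int.gcd a d = 1), |resErr (y d a) d a| ≤
          ∑ d ∈ Icc 1 ⌊x⌋₊, |resErr (y d a) d a| := by
        refine Finset.sum_le_sum_of_subset_of_nonneg ?_ fun _ _ _ => abs_nonneg _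
        intro d hd
        obtain ⟨hd1, hd2⟩ := Finset.mem_Icc.1 (Finset.mem_filter.1 hd).1
        exact Finset.mem_Icc.2 ⟨hd1, hd2.trans (Nat.floor_le_floor hQx)⟩
      have e3 : 0 ≤ C1 * (x / (Real.log x) ^ U) := by positivity
      linarith
    · have e1 := hSg _ hr hs (fun d => y d a) (fun _ => a) (fun d => hy d a)
        (fun d => by rw [Finset.mem_singleton]; exact he.symm)
      have e2 : C0 * (x / (Real.log x) ^ U) ≤ C1 * (x / (Real.log x) ^ U) :=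
        mul_le_mul_of_nonneg_right hC01 (by positivity)
      have e3 := e1.trans e2
      rw [add_zero]
      exact e3
  have hcount : (((Ico A (A + H)).filter (fun a : ℤ => (a + N).toNat ∈ S)).card : ℝ) ≤
      C1 * ((1 + Q ^ 2 / x) * (Real.log x) ^ (5 * U + 18)) := by
    have e1 : ((Ico A (A + H)).filter (fun a : ℤ => (a + N).toNat ∈ S)).card ≤ S.card := by
      refine Finset.card_le_card_of_injOn (fun a : ℤ => (a + N).toNat) ?_ ?_
      · intro a ha
        exact (Finset.mem_filter.1 (Finset.mem_coe.1 ha)).2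
      · intro a ha b hb hab
        have f1 := (hidx a (Finset.mem_filter.1 (Finset.mem_coe.1 ha)).1).2.2
        have f2 := (hidx b (Finset.mem_filter.1 (Finset.mem_coe.1 hb)).1).2.2
        have hab' : (a + (N : ℤ)).toNat = (b + (N : ℤ)).toNat := hab
        rw [← f1, ← f2, hab']
    have e2 : (((Ico A (A + H)).filter (fun a : ℤ => (a + N).toNat ∈ S)).card : ℝ) ≤ S.card := by
      exact_mod_cast e1
    exact e2.trans (hSc.trans (mul_le_mul_of_nonneg_right hC01 (by positivity)))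
  have hHcard : ((Ico A (A + H)).card : ℝ) = H := by
    rw [Int.card_Ico]
    have : (A + (H : ℤ) - A).toNat = H := by omega
    rw [this]
  have hpow : (Real.log x) ^ (5 * U + 18) * (Real.log x) ^ 2 * (Real.log x) ^ U ≤
      (Real.log x) ^ (6 * U + 21) := by
    calc (Real.log x) ^ (5 * U + 18) * (Real.log x) ^ 2 * (Real.log x) ^ U =
          (Real.log x) ^ (5 * U + 18 + 2 + U) := by
          rw [Real.rpow_add hL0 (5 * U + 18 + 2) U, Real.rpow_add hL0 (5 * U + 18) 2, Real.rpow_two]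
      _ ≤ (Real.log x) ^ (6 * U + 21) := Real.rpow_le_rpow_of_exponent_le hL1 (by linarith)
  have hbad : 20 * x * (Real.log x) ^ 2 * (C1 * ((1 + Q ^ 2 / x) * (Real.log x) ^ (5 * U + 18))) ≤
      20 * C1 * (H * x / (Real.log x) ^ U) := by
    rw [← mul_div_assoc, le_div_iff₀ hLU]
    calc 20 * x * (Real.log x) ^ 2 * (C1 * ((1 + Q ^ 2 / x) * (Real.log x) ^ (5 * U + 18))) *
          (Real.log x) ^ U = 20 * C1 * x * ((1 + Q ^ 2 / x) *
            ((Real.log x) ^ (5 * U + 18) * (Real.log x) ^ 2 * (Real.log x) ^ U)) := by ring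
      _ ≤ 20 * C1 * x * ((1 + Q ^ 2 / x) * (Real.log x) ^ (6 * U + 21)) :=
          mul_le_mul_of_nonneg_left (mul_le_mul_of_nonneg_left hpow hq) (by positivity)
      _ ≤ 20 * C1 * x * H := mul_le_mul_of_nonneg_left hH (by positivity)
      _ = 20 * C1 * (H * x) := by ring
  calc ∑ a ∈ Ico A (A + H), ∑ d ∈ (Icc 1 ⌊Q⌋₊).filter (fun d : ℕ => Int.gcd a d = 1),
        |resErr (y d a) d a| ≤ ∑ a ∈ Ico A (A + H), (C1 * (x / (Real.log x) ^ U) +
          if (a + N).toNat ∈ S then 20 * x * (Real.log x) ^ 2 else 0) := Finset.sum_le_sum hpt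
    _ = H * (C1 * (x / (Real.log x) ^ U)) +
        (((Ico A (A + H)).filter (fun a : ℤ => (a + N).toNat ∈ S)).card : ℝ) *
          (20 * x * (Real.log x) ^ 2) := by
        rw [Finset.sum_add_distrib, Finset.sum_const, nsmul_eq_mul, hHcard, ← Finset.sum_filter,
          Finset.sum_const, nsmul_eq_mul]
    _ ≤ H * (C1 * (x / (Real.log x) ^ U)) +
        (C1 * ((1 + Q ^ 2 / x) * (Real.log x) ^ (5 * U + 18))) * (20 * x * (Real.log x) ^ 2) := by
        have := mul_le_mul_of_nonneg_right hcount (show 0 ≤ 20 * x * (Real.log x) ^ 2 by positivity)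
        linarith
    _ ≤ C1 * (H * x / (Real.log x) ^ U) + 20 * C1 * (H * x / (Real.log x) ^ U) := by
        have e1 : (H : ℝ) * (C1 * (x / (Real.log x) ^ U)) = C1 * (H * x / (Real.log x) ^ U) := by ring
        rw [e1, mul_comm (C1 * _) (20 * x * (Real.log x) ^ 2)]
        linarith
    _ = 21 * C1 * (H * x / (Real.log x) ^ U) := by ring

/-- the large moduli -/
private lemma Fiu_B {ε U : ℝ} (hε : 0 < ε) (hε2 : ε ≤ 1 / 10) (hU : 0 < U)
    (h2 : Pool.Agent.Lib.KF.GrdStmt) (h3 : BluStmt) : ∃ E x0 : ℝ, 0 < E ∧ 3 ≤ x0 ∧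
    ∀ (x Q : ℝ) (P : ℕ) (A : ℤ) (H : ℕ) (y : ℕ → ℤ → ℝ), x0 ≤ x → 1 ≤ Q → Q ≤ x ^ (1 - ε) →
      1 ≤ P → x ^ ε ≤ P → -x ≤ A → (A : ℝ) + H ≤ x + 1 → (x / P) * (Real.log x) ^ E ≤ H →
      (∀ d a, 2 ≤ y d a ∧ y d a ≤ x) →
      ∑ a ∈ Ico A (A + H), ∑ d ∈ (Ioc P ⌊Q⌋₊).filter (fun d : ℕ => Int.gcd a d = 1),
        |resErr (y d a) d a| ≤ 16 * (H * x / (Real.log x) ^ U) := by
  classical
  obtain ⟨E, x0, hE, hx03, hK⟩ := h3 ε (2 * U + 6) hε hε2 (by linarith)
  obtain ⟨x2, hx2, hG4⟩ := Fiu_large U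
  refine ⟨E, max (max x0 x2) (Real.exp 4), hE, (le_max_of_le_left (le_max_of_le_left hx03)), ?_⟩
  intro x Q P A H y hx hQ1 hQ hP1 hP hA hAH hH hy
  have hgx0 : x0 ≤ x := (le_max_left _ _).trans ((le_max_left _ _).trans hx)
  have hgx2 : x2 ≤ x := (le_max_right _ _).trans ((le_max_left _ _).trans hx)
  have hx4 : Real.exp 4 ≤ x := (le_max_right _ _).trans hx
  have hx3 : 3 ≤ x := hx03.trans hgx0
  have hx0' : 0 < x := by linarith
  have hL4 : 4 ≤ Real.log x := (Real.le_log_iff_exp_le hx0').2 hx4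
  have hlog1 : 1 ≤ Real.log x := by linarith
  have hlog0 : 0 < Real.log x := by linarith
  have hQ0 : 0 < Q := by linarith
  have hQx : Q ≤ x := by
    refine hQ.trans ?_
    calc x ^ (1 - ε) ≤ x ^ (1 : ℝ) := Real.rpow_le_rpow_of_exponent_le (by linarith) (by linarith)
      _ = x := Real.rpow_one x
  have hP0 : (1 : ℝ) ≤ P := by exact_mod_cast hP1
  -- the grid
  obtain ⟨G, hGdef⟩ : ∃ G : ℕ, G = ⌈(Real.log x) ^ (U + 3)⌉₊ := ⟨_, rfl⟩
  have hLU3 : 1 ≤ (Real.log x) ^ (U + 3) := Real.one_le_rpow hlog1 (by linarith)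
  have hGlo : (Real.log x) ^ (U + 3) ≤ G := by rw [hGdef]; exact Nat.le_ceil _
  have hGhi : (G : ℝ) ≤ 2 * (Real.log x) ^ (U + 3) := by
    have := Nat.ceil_lt_add_one (show 0 ≤ (Real.log x) ^ (U + 3) by linarith)
    rw [hGdef]
    linarith
  have hG0 : (0 : ℝ) < G := by linarith
  have hG1 : 1 ≤ G := by exact_mod_cast hG0
  have hxG : 2 ≤ x / G := by
    rw [le_div_iff₀ hG0]
    have := hG4 x hgx2
    linarith
  have hyg : ∀ g ∈ Icc 1 G, 2 ≤ (g : ℝ) * x / G ∧ (g : ℝ) * x / G ≤ x := by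
    intro g hg
    obtain ⟨hg1, hg2⟩ := Finset.mem_Icc.1 hg
    have g1 : (1 : ℝ) ≤ g := by exact_mod_cast hg1
    have g2 : (g : ℝ) ≤ G := by exact_mod_cast hg2
    constructor
    · have : x / G ≤ g * x / G := by
        apply div_le_div_of_nonneg_right _ hG0.le
        nlinarith
      linarith
    · rw [div_le_iff₀ hG0]
      nlinarith
  -- the blocks
  obtain ⟨I, hIdef⟩ : ∃ I : ℕ, I = ⌊2 * Real.log x⌋₊ := ⟨_, rfl⟩
  have hI : (I : ℝ) ≤ 2 * Real.log x := by rw [hIdef]; exact Nat.floor_le (by linarith)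
  have hI2 : 2 * Real.log x < (I : ℝ) + 1 := by rw [hIdef]; exact Nat.lt_floor_add_one _
  obtain ⟨F, hF⟩ : ∃ F : ℕ → Finset ℕ, F = fun i => if ((2 ^ i * P : ℕ) : ℝ) ≤ x ^ (1 - ε) then
      Ioc (2 ^ i * P) (2 * (2 ^ i * P)) else ∅ := ⟨_, rfl⟩
  have hcov : Ioc P ⌊Q⌋₊ ⊆ (range I).biUnion F := by
    intro d hd
    obtain ⟨hd1, hd2⟩ := Finset.mem_Ioc.1 hd
    have hdQ : (d : ℝ) ≤ Q := (Nat.le_floor_iff hQ0.le).1 hd2
    have hex : ∃ k : ℕ, d ≤ 2 ^ k * P := ⟨d, by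
      have h := (Nat.lt_two_pow_self (n := d)).le
      calc d ≤ 2 ^ d * 1 := by omega
        _ ≤ 2 ^ d * P := Nat.mul_le_mul_left _ hP1⟩
    obtain ⟨k, hk⟩ : ∃ k, k = Nat.find hex := ⟨_, rfl⟩
    have hk1 : d ≤ 2 ^ k * P := by rw [hk]; exact Nat.find_spec hex
    have hk0 : k ≠ 0 := by
      intro h0
      rw [h0, pow_zero, one_mul] at hk1
      omega
    obtain ⟨i, hi⟩ := Nat.exists_eq_succ_of_ne_zero hk0
    have hi1 : 2 ^ i * P < d := by
      have : i < Nat.find hex := by rw [← hk, hi]; exact Nat.lt_succ_self i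
      exact not_le.1 (Nat.find_min hex this)
    have hi2 : d ≤ 2 * (2 ^ i * P) := by
      rw [hi, pow_succ] at hk1
      calc d ≤ 2 ^ i * 2 * P := hk1
        _ = 2 * (2 ^ i * P) := by ring
    have hi3 : ((2 ^ i * P : ℕ) : ℝ) ≤ Q := by
      have : ((2 ^ i * P : ℕ) : ℝ) ≤ d := by exact_mod_cast hi1.le
      linarith
    have hi4 : (2 : ℝ) ^ i ≤ x := by
      have e1 : ((2 ^ i : ℕ) : ℝ) ≤ ((2 ^ i * P : ℕ) : ℝ) := by
        exact_mod_cast Nat.le_mul_of_pos_right _ hP1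
      have e2 : ((2 ^ i : ℕ) : ℝ) = (2 : ℝ) ^ i := by push_cast; rfl
      rw [← e2]
      linarith
    have hi5 : (i : ℝ) * Real.log 2 ≤ Real.log x := by
      rw [← Real.log_pow]
      exact Real.log_le_log (by positivity) hi4
    have hi6 : i < I := by
      have l2 := Real.log_two_gt_d9
      have hi0 : (0 : ℝ) ≤ i := Nat.cast_nonneg i
      have : (i : ℝ) < I := by nlinarith
      exact_mod_cast this
    rw [Finset.mem_biUnion]
    refine ⟨i, Finset.mem_range.2 hi6, ?_⟩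
    rw [hF]
    simp only
    rw [if_pos (hi3.trans hQ)]
    exact Finset.mem_Ioc.2 ⟨hi1, hi2⟩
  have hq6 : 0 ≤ (H : ℝ) * x / (Real.log x) ^ (2 * U + 6) := by positivity
  -- one block
  have hblock : ∀ g ∈ Icc 1 G, ∀ i, ∑ d ∈ F i,
      ∑ a ∈ (Ico A (A + H)).filter (fun a => Int.gcd a d = 1), |resErr ((g : ℝ) * x / G) d a| ≤
        H * x / (Real.log x) ^ (2 * U + 6) := by
    intro g hg i
    rw [hF]
    simp only
    split_ifs with hi
    · have hP2 : P ≤ 2 ^ i * P := Nat.le_mul_of_pos_left _ (by positivity)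
      have hP3 : (P : ℝ) ≤ ((2 ^ i * P : ℕ) : ℝ) := by exact_mod_cast hP2
      refine hK x ((g : ℝ) * x / G) (2 ^ i * P) H A hgx0 (hyg g hg).1 (hyg g hg).2
        (hP.trans hP3) hi hA hAH ?_
      refine le_trans (mul_le_mul_of_nonneg_right ?_ (by positivity)) hH
      exact div_le_div_of_nonneg_left hx0'.le (by linarith) hP3
    · rw [Finset.sum_empty]
      exact hq6
  -- one point of the grid
  have hone : ∀ g ∈ Icc 1 G, ∑ a ∈ Ico A (A + H),
      ∑ d ∈ (Ioc P ⌊Q⌋₊).filter (fun d : ℕ => Int.gcd a d = 1), |resErr ((g : ℝ) * x / G) d a| ≤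
        2 * Real.log x * (H * x / (Real.log x) ^ (2 * U + 6)) := by
    intro g hg
    have e1 : ∑ a ∈ Ico A (A + H),
        ∑ d ∈ (Ioc P ⌊Q⌋₊).filter (fun d : ℕ => Int.gcd a d = 1), |resErr ((g : ℝ) * x / G) d a| =
        ∑ d ∈ Ioc P ⌊Q⌋₊, ∑ a ∈ (Ico A (A + H)).filter (fun a => Int.gcd a d = 1),
          |resErr ((g : ℝ) * x / G) d a| := by
      refine Finset.sum_comm' fun a d => ?_
      rw [Finset.mem_filter, Finset.mem_filter]
      tauto
    rw [e1]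
    calc ∑ d ∈ Ioc P ⌊Q⌋₊, ∑ a ∈ (Ico A (A + H)).filter (fun a => Int.gcd a d = 1),
          |resErr ((g : ℝ) * x / G) d a|
        ≤ ∑ d ∈ (range I).biUnion F, ∑ a ∈ (Ico A (A + H)).filter (fun a => Int.gcd a d = 1),
          |resErr ((g : ℝ) * x / G) d a| :=
          Finset.sum_le_sum_of_subset_of_nonneg hcov fun _ _ _ =>
            Finset.sum_nonneg fun _ _ => abs_nonneg _
      _ ≤ ∑ i ∈ range I, ∑ d ∈ F i, ∑ a ∈ (Ico A (A + H)).filter (fun a => Int.gcd a d = 1),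
          |resErr ((g : ℝ) * x / G) d a| :=
          Fiu_biU _ _ _ fun _ => Finset.sum_nonneg fun _ _ => abs_nonneg _
      _ ≤ ∑ _i ∈ range I, H * x / (Real.log x) ^ (2 * U + 6) :=
          Finset.sum_le_sum fun i _ => hblock g hg i
      _ = I * (H * x / (Real.log x) ^ (2 * U + 6)) := by
          rw [Finset.sum_const, Finset.card_range, nsmul_eq_mul]
      _ ≤ 2 * Real.log x * (H * x / (Real.log x) ^ (2 * U + 6)) :=
          mul_le_mul_of_nonneg_right hI hq6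
  have hgrid : ∀ a : ℤ, ∀ d ∈ (Ioc P ⌊Q⌋₊).filter (fun d : ℕ => Int.gcd a d = 1),
      |resErr (y d a) d a| ≤ (∑ g ∈ Icc 1 G, |resErr ((g : ℝ) * x / G) d a|) +
        2 * x / G * (1 / (d.totient : ℝ)) := by
    intro a d hd
    have hd1 : 1 ≤ d := by
      have := (Finset.mem_Ioc.1 (Finset.mem_filter.1 hd).1).1
      omega
    have e := h2 x (y d a) G d a hG1 hxG (hy d a).1 (hy d a).2 hd1
    refine e.trans (le_of_eq ?_)
    rw [mul_one_div, div_div]
  have hHcard : ((Ico A (A + H)).card : ℝ) = H := by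
    rw [Int.card_Ico]
    have : (A + (H : ℤ) - A).toNat = H := by omega
    rw [this]
  have hphi : ∀ a : ℤ, ∑ d ∈ (Ioc P ⌊Q⌋₊).filter (fun d : ℕ => Int.gcd a d = 1),
      1 / (d.totient : ℝ) ≤ 6 * (Real.log x) ^ 2 := by
    intro a
    refine Fiu_phi x Q hQ1 hQx hlog1 _ ?_
    intro d hd
    obtain ⟨hd1, hd2⟩ := Finset.mem_Ioc.1 (Finset.mem_filter.1 hd).1
    exact Finset.mem_Icc.2 ⟨by omega, hd2⟩
  have hLUp : 0 < (Real.log x) ^ U := Real.rpow_pos_of_pos hlog0 U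
  have hL6p : 0 < (Real.log x) ^ (2 * U + 6) := Real.rpow_pos_of_pos hlog0 _
  have hpow : (Real.log x) ^ (U + 3) * (Real.log x * (Real.log x) ^ U) ≤
      (Real.log x) ^ (2 * U + 6) := by
    calc (Real.log x) ^ (U + 3) * (Real.log x * (Real.log x) ^ U) =
          (Real.log x) ^ (U + 3) * (Real.log x) ^ (U + 1) := by
          rw [Real.rpow_add_one hlog0.ne', mul_comm (Real.log x)]
      _ = (Real.log x) ^ (U + 3 + (U + 1)) := by rw [← Real.rpow_add hlog0]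
      _ ≤ (Real.log x) ^ (2 * U + 6) :=
          Real.rpow_le_rpow_of_exponent_le hlog1 (by linarith)
  have hfirst : (G : ℝ) * (2 * Real.log x * (H * x / (Real.log x) ^ (2 * U + 6))) ≤
      4 * (H * x / (Real.log x) ^ U) := by
    have e0 : 0 ≤ 2 * Real.log x * (H * x / (Real.log x) ^ (2 * U + 6)) := by positivity
    calc (G : ℝ) * (2 * Real.log x * (H * x / (Real.log x) ^ (2 * U + 6))) ≤
          (2 * (Real.log x) ^ (U + 3)) * (2 * Real.log x * (H * x / (Real.log x) ^ (2 * U + 6))) :=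
          mul_le_mul_of_nonneg_right hGhi e0
      _ = 4 * (H * x * ((Real.log x) ^ (U + 3) * Real.log x / (Real.log x) ^ (2 * U + 6))) := by
          ring
      _ ≤ 4 * (H * x * (1 / (Real.log x) ^ U)) := by
          refine mul_le_mul_of_nonneg_left (mul_le_mul_of_nonneg_left ?_ (by positivity))
            (by norm_num)
          rw [div_le_div_iff₀ hL6p hLUp, one_mul, mul_assoc]
          exact hpow
      _ = 4 * (H * x / (Real.log x) ^ U) := by rw [mul_one_div]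
  have hsecond : 2 * x / G * (H * (6 * (Real.log x) ^ 2)) ≤ 12 * (H * x / (Real.log x) ^ U) := by
    have e2 : (Real.log x) ^ U * (Real.log x) ^ 2 ≤ G := by
      refine le_trans ?_ hGlo
      calc (Real.log x) ^ U * (Real.log x) ^ 2 = (Real.log x) ^ (U + 2) := by
            rw [Real.rpow_add hlog0, Real.rpow_two]
        _ ≤ (Real.log x) ^ (U + 3) := Real.rpow_le_rpow_of_exponent_le hlog1 (by linarith)
    have e3 : (Real.log x) ^ 2 / G ≤ 1 / (Real.log x) ^ U := by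
      rw [div_le_div_iff₀ hG0 hLUp, one_mul, mul_comm]
      exact e2
    calc 2 * x / G * (H * (6 * (Real.log x) ^ 2)) = 12 * (H * x * ((Real.log x) ^ 2 / G)) := by ring
      _ ≤ 12 * (H * x * (1 / (Real.log x) ^ U)) :=
          mul_le_mul_of_nonneg_left (mul_le_mul_of_nonneg_left e3 (by positivity)) (by norm_num)
      _ = 12 * (H * x / (Real.log x) ^ U) := by rw [mul_one_div]
  have hxG0 : 0 ≤ 2 * x / G := by positivity
  have hsplit : ∑ a ∈ Ico A (A + H), ∑ d ∈ (Ioc P ⌊Q⌋₊).filter (fun d : ℕ => Int.gcd a d = 1),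
      ((∑ g ∈ Icc 1 G, |resErr ((g : ℝ) * x / G) d a|) + 2 * x / G * (1 / (d.totient : ℝ))) =
      ∑ g ∈ Icc 1 G, ∑ a ∈ Ico A (A + H),
        ∑ d ∈ (Ioc P ⌊Q⌋₊).filter (fun d : ℕ => Int.gcd a d = 1), |resErr ((g : ℝ) * x / G) d a| +
      2 * x / G * ∑ a ∈ Ico A (A + H),
        ∑ d ∈ (Ioc P ⌊Q⌋₊).filter (fun d : ℕ => Int.gcd a d = 1), 1 / (d.totient : ℝ) := by
    rw [Finset.sum_comm (s := Icc 1 G), Finset.mul_sum, ← Finset.sum_add_distrib]
    refine Finset.sum_congr rfl fun a _ => ?_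
    rw [Finset.sum_add_distrib, Finset.sum_comm, Finset.mul_sum]
  calc ∑ a ∈ Ico A (A + H), ∑ d ∈ (Ioc P ⌊Q⌋₊).filter (fun d : ℕ => Int.gcd a d = 1),
        |resErr (y d a) d a| ≤
      ∑ a ∈ Ico A (A + H), ∑ d ∈ (Ioc P ⌊Q⌋₊).filter (fun d : ℕ => Int.gcd a d = 1),
      ((∑ g ∈ Icc 1 G, |resErr ((g : ℝ) * x / G) d a|) + 2 * x / G * (1 / (d.totient : ℝ))) :=
        Finset.sum_le_sum fun a _ => Finset.sum_le_sum fun d hd => hgrid a d hd
    _ ≤ ∑ _g ∈ Icc 1 G, 2 * Real.log x * (H * x / (Real.log x) ^ (2 * U + 6)) +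
        2 * x / G * ∑ _a ∈ Ico A (A + H), 6 * (Real.log x) ^ 2 := by
        rw [hsplit]
        exact add_le_add (Finset.sum_le_sum hone)
          (mul_le_mul_of_nonneg_left (Finset.sum_le_sum fun a _ => hphi a) hxG0)
    _ = (G : ℝ) * (2 * Real.log x * (H * x / (Real.log x) ^ (2 * U + 6))) +
        2 * x / G * (H * (6 * (Real.log x) ^ 2)) := by
        rw [Finset.sum_const, Finset.sum_const, Nat.card_Icc, nsmul_eq_mul, nsmul_eq_mul,
          Nat.add_sub_cancel, hHcard]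
    _ ≤ 4 * (H * x / (Real.log x) ^ U) + 12 * (H * x / (Real.log x) ^ U) :=
        add_le_add hfirst hsecond
    _ = 16 * (H * x / (Real.log x) ^ U) := by ring

/-- the condition on the length of the interval for the large moduli -/
private lemma Fiu_len {x D Q L E C C' Hr P Q1 : ℝ} (hx : 1 ≤ x) (hD : 1 ≤ D) (hQ : 0 < Q) (hL : 2 ≤ L)
    (hE : 0 < E) (hC' : 0 < C') (hCE : 2 * E + C' + 3 ≤ C) (hH0 : 0 < Hr)
    (hH : L ^ C * min (x / D) (min (x ^ ((1 : ℝ) / 3)) (1 + Q ^ 2 / x)) ≤ Hr)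
    (hP : 0 < P) (hPD : D ≤ 2 * P) (hPQ : Q1 ≤ 2 * P) (hQ1 : 0 < Q1)
    (hQ1sq : Q1 ^ 2 = x * Hr / (2 * L ^ C')) (hQQ : Q1 < Q) : (x / P) * L ^ E ≤ Hr := by
  have hL0 : 0 < L := by linarith
  have hL1 : 1 ≤ L := by linarith
  have hx0 : 0 < x := by linarith
  have hE0 : 0 < L ^ E := Real.rpow_pos_of_pos hL0 _
  have hC0 : 0 < L ^ C := Real.rpow_pos_of_pos hL0 _
  have hC'0 : 0 < L ^ C' := Real.rpow_pos_of_pos hL0 _
  rcases min_choice (x / D) (min (x ^ ((1 : ℝ) / 3)) (1 + Q ^ 2 / x)) with h | h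
  · rw [h] at hH
    have e1 : x / P ≤ 2 * (x / D) := by
      rw [← mul_div_assoc, div_le_div_iff₀ hP (by linarith)]
      nlinarith
    have e2 : 2 * L ^ E ≤ L ^ C := by
      calc 2 * L ^ E ≤ L * L ^ E := mul_le_mul_of_nonneg_right hL hE0.le
        _ = L ^ (E + 1) := by rw [Real.rpow_add_one hL0.ne', mul_comm]
        _ ≤ L ^ C := Real.rpow_le_rpow_of_exponent_le hL1 (by linarith)
    have e3 : 0 ≤ x / D := by positivity
    calc (x / P) * L ^ E ≤ (2 * (x / D)) * L ^ E := mul_le_mul_of_nonneg_right e1 hE0.le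
      _ = (2 * L ^ E) * (x / D) := by ring
      _ ≤ L ^ C * (x / D) := mul_le_mul_of_nonneg_right e2 e3
      _ ≤ Hr := hH
  · rw [h] at hH
    rcases min_choice (x ^ ((1 : ℝ) / 3)) (1 + Q ^ 2 / x) with h' | h'
    · rw [h'] at hH
      have hx3 : (x ^ ((1 : ℝ) / 3)) ^ 3 = x := by
        rw [← Real.rpow_natCast, ← Real.rpow_mul hx0.le]
        norm_num
      have hH3 : (L ^ C) ^ 3 * x ≤ Hr ^ 3 := by
        have e1 := pow_le_pow_left₀ (by positivity) hH 3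
        rwa [mul_pow, hx3] at e1
      have e2 : 8 * (L ^ E) ^ 2 * L ^ C' ≤ (L ^ C) ^ 3 := by
        have f1 : (L ^ E) ^ 2 = L ^ (E * 2) := by
          rw [← Real.rpow_natCast, ← Real.rpow_mul hL0.le]
          norm_num
        have f2 : (L ^ C) ^ 3 = L ^ (C * 3) := by
          rw [← Real.rpow_natCast, ← Real.rpow_mul hL0.le]
          norm_num
        have f3 : (8 : ℝ) ≤ L ^ (3 : ℝ) := by
          have : L ^ (3 : ℝ) = L ^ 3 := by
            rw [← Real.rpow_natCast]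
            norm_num
          rw [this]
          calc (8 : ℝ) = 2 ^ 3 := by norm_num
            _ ≤ L ^ 3 := pow_le_pow_left₀ (by norm_num) hL 3
        rw [f1, f2]
        calc 8 * L ^ (E * 2) * L ^ C' ≤ L ^ (3 : ℝ) * L ^ (E * 2) * L ^ C' := by
              refine mul_le_mul_of_nonneg_right (mul_le_mul_of_nonneg_right f3 ?_) hC'0.le
              exact (Real.rpow_pos_of_pos hL0 _).le
          _ = L ^ (3 + E * 2 + C') := by rw [← Real.rpow_add hL0, ← Real.rpow_add hL0]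
          _ ≤ L ^ (C * 3) := Real.rpow_le_rpow_of_exponent_le hL1 (by linarith)
      have e3 : x / P ≤ 2 * x / Q1 := by
        rw [div_le_div_iff₀ hP hQ1]
        nlinarith
      have e4 : (x / P) * L ^ E ≤ 2 * x / Q1 * L ^ E := mul_le_mul_of_nonneg_right e3 hE0.le
      refine e4.trans ?_
      refine le_of_sq_le_sq ?_ hH0.le
      have e5 : (2 * x / Q1 * L ^ E) ^ 2 = 4 * x ^ 2 * (L ^ E) ^ 2 / Q1 ^ 2 := by
        rw [mul_pow, div_pow]
        ring
      rw [e5, div_le_iff₀ (by positivity), hQ1sq]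
      have e6 : x * (8 * (L ^ E) ^ 2 * L ^ C') ≤ Hr ^ 3 := by
        calc x * (8 * (L ^ E) ^ 2 * L ^ C') ≤ x * (L ^ C) ^ 3 := mul_le_mul_of_nonneg_left e2 hx0.le
          _ = (L ^ C) ^ 3 * x := mul_comm _ _
          _ ≤ Hr ^ 3 := hH3
      rw [← mul_div_assoc, le_div_iff₀ (by positivity)]
      calc 4 * x ^ 2 * (L ^ E) ^ 2 * (2 * L ^ C') = x * (x * (8 * (L ^ E) ^ 2 * L ^ C')) := by ring
        _ ≤ x * Hr ^ 3 := mul_le_mul_of_nonneg_left e6 hx0.le
        _ = Hr ^ 2 * (x * Hr) := by ring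
    · rw [h'] at hH
      exfalso
      have e1 : 2 * L ^ C' ≤ L ^ C := by
        calc 2 * L ^ C' ≤ L * L ^ C' := mul_le_mul_of_nonneg_right hL hC'0.le
          _ = L ^ (C' + 1) := by rw [Real.rpow_add_one hL0.ne', mul_comm]
          _ ≤ L ^ C := Real.rpow_le_rpow_of_exponent_le hL1 (by linarith)
      have e2 : Q ^ 2 / x * (2 * L ^ C') ≤ Hr := by
        have f1 : Q ^ 2 / x * (2 * L ^ C') ≤ (1 + Q ^ 2 / x) * L ^ C := by
          have : 0 ≤ Q ^ 2 / x := by positivity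
          exact mul_le_mul (by linarith) e1 (by positivity) (by positivity)
        linarith
      have e3 : Q ^ 2 ≤ Q1 ^ 2 := by
        rw [hQ1sq, le_div_iff₀ (by positivity)]
        rw [div_mul_eq_mul_div, div_le_iff₀ hx0] at e2
        linarith
      have e4 : Q1 ^ 2 < Q ^ 2 := by nlinarith
      linarith

/-- the final theorem U1 -/
theorem tFiu (h1 : Pool.Agent.Lib.KF.WfbStmt) (h2 : Pool.Agent.Lib.KF.GrdStmt) (h3 : BluStmt)
    (h4 : TrbStmt) : FiuStmt := by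
  classical
  intro ε₀ U hε₀ hU
  obtain ⟨ε, hεdef⟩ : ∃ ε, ε = min ε₀ (1 / 10) := ⟨_, rfl⟩
  have hε : 0 < ε := by rw [hεdef]; exact lt_min hε₀ (by norm_num)
  have hε2 : ε ≤ 1 / 10 := by rw [hεdef]; exact min_le_right _ _
  have hεε : ε ≤ ε₀ := by rw [hεdef]; exact min_le_left _ _
  obtain ⟨C1, hC1, hSm⟩ := Fiu_A hε hε2 hU h1 h4
  obtain ⟨E, x0, hE, hx03, hLa⟩ := Fiu_B hε hε2 hU h2 h3
  obtain ⟨X, hX⟩ : ∃ X, X = max x0 (Real.exp 4) := ⟨_, rfl⟩
  have hX3 : 3 ≤ X := by rw [hX]; exact le_max_of_le_left hx03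
  have hLX : 0 ≤ (Real.log X) ^ (U + 2) := Real.rpow_nonneg (Real.log_nonneg (by linarith)) _
  obtain ⟨C', hC'⟩ : ∃ C', C' = 6 * U + 21 := ⟨_, rfl⟩
  have hC'0 : 0 < C' := by rw [hC']; linarith
  obtain ⟨C, hC⟩ : ∃ C, C = 21 * C1 + 16 + 20 * (Real.log X) ^ (U + 2) + (2 * E + C' + 3) :=
    ⟨_, rfl⟩
  have hCa : 2 * E + C' + 3 ≤ C := by rw [hC]; linarith
  have hCb : 21 * C1 + 16 ≤ C := by rw [hC]; linarith
  have hCc : 20 * (Real.log X) ^ (U + 2) ≤ C := by rw [hC]; linarith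
  refine ⟨C, ?_⟩
  intro x D Q A H y hx hD hDQ hQ₀ hA hAH hH hy
  have hx0 : 0 < x := by linarith
  have hL1 := Fiu_log1 hx
  have hL0 : 0 < Real.log x := by linarith
  have hQ : Q ≤ x ^ (1 - ε) :=
    hQ₀.trans (Real.rpow_le_rpow_of_exponent_le (by linarith) (by linarith))
  have hQx : Q ≤ x := by
    refine hQ.trans ?_
    calc x ^ (1 - ε) ≤ x ^ (1 : ℝ) := Real.rpow_le_rpow_of_exponent_le (by linarith) (by linarith)
      _ = x := Real.rpow_one x
  have hQ1 : 1 ≤ Q := hD.trans hDQ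
  have hD1 : 1 ≤ ⌈D⌉₊ := Nat.one_le_iff_ne_zero.2 (by
    rw [Ne, Nat.ceil_eq_zero]
    linarith)
  have hLU : 0 < (Real.log x) ^ U := Real.rpow_pos_of_pos hL0 U
  have hR : 0 ≤ (H : ℝ) * x / (Real.log x) ^ U := by positivity
  rcases lt_or_ge x X with hlt | hge
  · -- small x
    have e1 : ∀ a ∈ Ico A (A + H), ∑ d ∈ (Icc ⌈D⌉₊ ⌊Q⌋₊).filter (fun d : ℕ => Int.gcd a d = 1),
        |resErr (y d a) d a| ≤ 20 * x * (Real.log x) ^ 2 := by
      intro a _
      refine le_trans ?_ (h4 x a (fun d => y d a) hx (fun d => hy d a))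
      refine Finset.sum_le_sum_of_subset_of_nonneg ?_ fun _ _ _ => abs_nonneg _
      intro d hd
      obtain ⟨hd1, hd2⟩ := Finset.mem_Icc.1 (Finset.mem_filter.1 hd).1
      exact Finset.mem_Icc.2 ⟨hD1.trans hd1, hd2.trans (Nat.floor_le_floor hQx)⟩
    have hHcard : ((Ico A (A + H)).card : ℝ) = H := by
      rw [Int.card_Ico]
      have : (A + (H : ℤ) - A).toNat = H := by omega
      rw [this]
    refine (Finset.sum_le_sum e1).trans ?_
    rw [Finset.sum_const, nsmul_eq_mul, hHcard]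
    have e2 : (Real.log x) ^ (U + 2) ≤ (Real.log X) ^ (U + 2) :=
      Real.rpow_le_rpow hL0.le (Real.log_le_log hx0 hlt.le) (by linarith)
    have e3 : (Real.log x) ^ (U + 2) = (Real.log x) ^ U * (Real.log x) ^ 2 := by
      rw [Real.rpow_add hL0, Real.rpow_two]
    rw [← mul_div_assoc, le_div_iff₀ hLU]
    calc (H : ℝ) * (20 * x * (Real.log x) ^ 2) * (Real.log x) ^ U =
          (20 * (Real.log x) ^ (U + 2)) * (H * x) := by rw [e3]; ring
      _ ≤ C * (H * x) := mul_le_mul_of_nonneg_right (by linarith) (by positivity)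
  · -- large x
    have hgx0 : x0 ≤ x := le_trans (by rw [hX]; exact le_max_left _ _) hge
    have hgx4 : Real.exp 4 ≤ x := le_trans (by rw [hX]; exact le_max_right _ _) hge
    have hL4 : 4 ≤ Real.log x := (Real.le_log_iff_exp_le hx0).2 hgx4
    have hx4 : 4 ≤ x := by
      have := Real.add_one_le_exp (4 : ℝ)
      linarith
    have hM1 : 1 ≤ min (x / D) (min (x ^ ((1 : ℝ) / 3)) (1 + Q ^ 2 / x)) := by
      refine le_min ?_ (le_min ?_ ?_)
      · rw [one_le_div (by linarith)]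
        linarith
      · exact Real.one_le_rpow (by linarith) (by norm_num)
      · have : 0 ≤ Q ^ 2 / x := by positivity
        linarith
    have hLC : 0 < (Real.log x) ^ C := Real.rpow_pos_of_pos hL0 C
    have hLC' : 0 < (Real.log x) ^ C' := Real.rpow_pos_of_pos hL0 C'
    have hHC : (Real.log x) ^ C ≤ H := by
      refine le_trans ?_ hH
      exact le_mul_of_one_le_right hLC.le hM1
    have hHC' : 2 * (Real.log x) ^ C' ≤ H := by
      refine le_trans ?_ hHC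
      calc 2 * (Real.log x) ^ C' ≤ Real.log x * (Real.log x) ^ C' :=
            mul_le_mul_of_nonneg_right (by linarith) hLC'.le
        _ = (Real.log x) ^ (C' + 1) := by rw [Real.rpow_add_one hL0.ne', mul_comm]
        _ ≤ (Real.log x) ^ C := Real.rpow_le_rpow_of_exponent_le hL1 (by linarith)
    have hH0 : (0 : ℝ) < H := lt_of_lt_of_le hLC hHC
    obtain ⟨Q1, hQ1def⟩ : ∃ Q1, Q1 = √(x * H / (2 * (Real.log x) ^ C')) := ⟨_, rfl⟩
    have hQ1sq : Q1 ^ 2 = x * H / (2 * (Real.log x) ^ C') := by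
      rw [hQ1def, Real.sq_sqrt (by positivity)]
    have hQ1x : √x ≤ Q1 := by
      rw [hQ1def]
      refine Real.sqrt_le_sqrt ?_
      rw [le_div_iff₀ (by positivity)]
      exact mul_le_mul_of_nonneg_left hHC' hx0.le
    have hsx : 2 ≤ √x := by
      rw [Real.le_sqrt' (by norm_num)]
      linarith
    have hQ12 : 2 ≤ Q1 := hsx.trans hQ1x
    have hlen : (1 + Q1 ^ 2 / x) * (Real.log x) ^ (6 * U + 21) ≤ H := by
      rw [← hC', hQ1sq]
      have e1 : x * H / (2 * (Real.log x) ^ C') / x = H / (2 * (Real.log x) ^ C') := by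
        field_simp
      rw [e1, add_mul, one_mul]
      have e2 : (H : ℝ) / (2 * (Real.log x) ^ C') * (Real.log x) ^ C' = H / 2 := by
        field_simp
      rw [e2]
      linarith
    rcases le_or_gt Q Q1 with hc | hc
    · -- all moduli are small
      have hlen' : (1 + Q ^ 2 / x) * (Real.log x) ^ (6 * U + 21) ≤ H := by
        refine le_trans (mul_le_mul_of_nonneg_right ?_ (Real.rpow_nonneg hL0.le _)) hlen
        have : Q ^ 2 / x ≤ Q1 ^ 2 / x :=
          div_le_div_of_nonneg_right (pow_le_pow_left₀ (by linarith) hc 2) hx0.le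
        linarith
      have e1 := hSm x Q A H y hx hQ1 hQ hA hAH hlen' hy
      calc ∑ a ∈ Ico A (A + H), ∑ d ∈ (Icc ⌈D⌉₊ ⌊Q⌋₊).filter (fun d : ℕ => Int.gcd a d = 1),
            |resErr (y d a) d a| ≤
          ∑ a ∈ Ico A (A + H), ∑ d ∈ (Icc 1 ⌊Q⌋₊).filter (fun d : ℕ => Int.gcd a d = 1),
            |resErr (y d a) d a| := by
            refine Finset.sum_le_sum fun a _ =>
              Finset.sum_le_sum_of_subset_of_nonneg ?_ fun _ _ _ => abs_nonneg _
            intro d hd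
            obtain ⟨hd1, hd2⟩ := Finset.mem_filter.1 hd
            obtain ⟨hd3, hd4⟩ := Finset.mem_Icc.1 hd1
            exact Finset.mem_filter.2 ⟨Finset.mem_Icc.2 ⟨hD1.trans hd3, hd4⟩, hd2⟩
        _ ≤ 21 * C1 * (H * x / (Real.log x) ^ U) := e1
        _ ≤ C * (H * x / (Real.log x) ^ U) := mul_le_mul_of_nonneg_right (by linarith) hR
    · -- small and large moduli
      obtain ⟨P, hP⟩ : ∃ P : ℕ, P + 1 = max ⌈D⌉₊ (⌊Q1⌋₊ + 1) := by
        refine ⟨max ⌈D⌉₊ (⌊Q1⌋₊ + 1) - 1, ?_⟩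
        have : 1 ≤ max ⌈D⌉₊ (⌊Q1⌋₊ + 1) := le_max_of_le_left hD1
        omega
      have hPa : ⌈D⌉₊ ≤ P + 1 := by rw [hP]; exact le_max_left _ _
      have hPb : ⌊Q1⌋₊ + 1 ≤ P + 1 := by rw [hP]; exact le_max_right _ _
      have hPD : D ≤ (P : ℝ) + 1 := by
        have e1 : (⌈D⌉₊ : ℝ) ≤ ((P + 1 : ℕ) : ℝ) := by exact_mod_cast hPa
        have e2 := Nat.le_ceil D
        push_cast at e1
        linarith
      have hPQ : Q1 ≤ (P : ℝ) + 1 := by
        have e1 : ((⌊Q1⌋₊ + 1 : ℕ) : ℝ) ≤ ((P + 1 : ℕ) : ℝ) := by exact_mod_cast hPb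
        have e2 := Nat.lt_floor_add_one Q1
        push_cast at e1
        linarith
      have hP1 : 1 ≤ P := by
        have : (1 : ℝ) ≤ P := by linarith
        exact_mod_cast this
      have hP1' : (1 : ℝ) ≤ P := by exact_mod_cast hP1
      have hPε : x ^ ε ≤ P := by
        have e1 : x ^ ε ≤ x ^ ((1 : ℝ) / 10) :=
          Real.rpow_le_rpow_of_exponent_le (by linarith) hε2
        have e2 : √x = x ^ ((1 : ℝ) / 10) * x ^ ((2 : ℝ) / 5) := by
          rw [← Real.rpow_add hx0, Real.sqrt_eq_rpow]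
          norm_num
        have e3 : 2 ≤ x ^ ((2 : ℝ) / 5) := by
          have f1 : Real.exp 4 ^ ((2 : ℝ) / 5) ≤ x ^ ((2 : ℝ) / 5) :=
            Real.rpow_le_rpow (Real.exp_pos 4).le hgx4 (by norm_num)
          rw [← Real.exp_mul] at f1
          have f2 := Real.add_one_le_exp ((4 : ℝ) * (2 / 5))
          linarith
        have e4 : 0 < x ^ ((1 : ℝ) / 10) := Real.rpow_pos_of_pos hx0 _
        have e5 : x ^ ((1 : ℝ) / 10) * 2 ≤ √x := by
          rw [e2]
          exact mul_le_mul_of_nonneg_left e3 e4.le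
        linarith
      have hcond : (x / P) * (Real.log x) ^ E ≤ H :=
        Fiu_len (D := D) (Q := Q) (C := C) (C' := C') (Q1 := Q1) (by linarith) hD (by linarith)
          (by linarith) hE hC'0 hCa hH0 hH (by linarith) (by linarith) (by linarith) (by linarith)
          hQ1sq hc
      have e1 := hSm x Q1 A H y hx (by linarith) (hc.le.trans hQ) hA hAH hlen hy
      have e2 := hLa x Q P A H y hgx0 hQ1 hQ hP1 hPε hA hAH hcond hy
      have hsub : ∀ a : ℤ, (Icc ⌈D⌉₊ ⌊Q⌋₊).filter (fun d : ℕ => Int.gcd a d = 1) ⊆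
          (Icc 1 ⌊Q1⌋₊).filter (fun d : ℕ => Int.gcd a d = 1) ∪
            (Ioc P ⌊Q⌋₊).filter (fun d : ℕ => Int.gcd a d = 1) := by
        intro a d hd
        obtain ⟨hd1, hd2⟩ := Finset.mem_filter.1 hd
        obtain ⟨hd3, hd4⟩ := Finset.mem_Icc.1 hd1
        rw [Finset.mem_union, Finset.mem_filter, Finset.mem_filter, Finset.mem_Icc, Finset.mem_Ioc]
        by_cases hdd : d ≤ ⌊Q1⌋₊
        · exact Or.inl ⟨⟨hD1.trans hd3, hdd⟩, hd2⟩
        · refine Or.inr ⟨⟨?_, hd4⟩, hd2⟩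
          have : P + 1 ≤ d := by
            rw [hP]
            exact max_le hd3 (by omega)
          omega
      calc ∑ a ∈ Ico A (A + H), ∑ d ∈ (Icc ⌈D⌉₊ ⌊Q⌋₊).filter (fun d : ℕ => Int.gcd a d = 1),
            |resErr (y d a) d a| ≤
          ∑ a ∈ Ico A (A + H), (∑ d ∈ (Icc 1 ⌊Q1⌋₊).filter (fun d : ℕ => Int.gcd a d = 1),
            |resErr (y d a) d a| + ∑ d ∈ (Ioc P ⌊Q⌋₊).filter (fun d : ℕ => Int.gcd a d = 1),
            |resErr (y d a) d a|) := by
            refine Finset.sum_le_sum fun a _ => ?_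
            refine (Finset.sum_le_sum_of_subset_of_nonneg (hsub a) fun _ _ _ => abs_nonneg _).trans ?_
            rw [← Finset.sum_union_inter]
            exact le_add_of_nonneg_right (Finset.sum_nonneg fun _ _ => abs_nonneg _)
        _ ≤ 21 * C1 * (H * x / (Real.log x) ^ U) + 16 * (H * x / (Real.log x) ^ U) := by
            rw [Finset.sum_add_distrib]
            exact add_le_add e1 e2
        _ = (21 * C1 + 16) * (H * x / (Real.log x) ^ U) := by ring
        _ ≤ C * (H * x / (Real.log x) ^ U) := mul_le_mul_of_nonneg_right hCb hR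

end Pool.Agent.Lib.UI
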