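import Pool.Agent.Lib.UI.SpecF

/-!
MP_00e23e_nt, directory Lib/UI, module Mcl: interval sums of the primes minus their model, with a character.
-/

namespace Pool.Agent.Lib.UI

open Finset Pool.Agent.Lib.EH3 Pool.Agent.Results.MP_00e23e_nt

private lemma Mcl_one (R q h : ℕ) (y T : ℝ) (h1 : MprStmt) (h2 : MmoStmt) (hq : 1 ≤ q) (hqR : q ≤ R)
    (hc : h.Coprime q) (hT : 0 ≤ T) (hm : ∀ Y : ℝ, 2 ≤ Y → Y ≤ y → maxErr Y q ≤ T)
    (v : ℤ) (hv1 : 1 ≤ v) (hv2 : v ≤ ⌊y⌋ + 1) :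
    ‖∑ n ∈ Ico 1 v, ((fm R y n : ℝ) : ℂ) * ee ((n : ℝ) * ((h : ℝ) / q))‖ ≤
      (q : ℝ) * (T + 1) + (R : ℝ) ^ 2 * q + 1 := by
  have hpos : 0 ≤ (q : ℝ) * (T + 1) + (R : ℝ) ^ 2 * q + 1 := by positivity
  rcases lt_or_ge v 3 with hv | hv
  · have hz : ∑ n ∈ Ico 1 v, ((fm R y n : ℝ) : ℂ) * ee ((n : ℝ) * ((h : ℝ) / q)) = 0 := by
      apply Finset.sum_eq_zero
      intro n hn
      rw [Finset.mem_Ico] at hn
      have hn1 : n = 1 := by omega
      subst hn1
      have : fm R y 1 = 0 := by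
        unfold fm lci
        simp [Nat.not_prime_one]
      rw [this]
      simp
    rw [hz, norm_zero]
    exact hpos
  · have hY1 : (2 : ℝ) ≤ (v : ℝ) - 1 := by
      have : (3 : ℝ) ≤ (v : ℝ) := by exact_mod_cast hv
      linarith
    have hY2 : (v : ℝ) - 1 ≤ y := by
      have : (v : ℝ) ≤ (⌊y⌋ : ℝ) + 1 := by exact_mod_cast hv2
      linarith [Int.floor_le y]
    have e1 := h1 q h T v hq hc hv (hm _ hY1 hY2)
    have e2 := h2 R q h v hq hqR hc hv
    have e3 : ∑ n ∈ Ico 1 v, ((fm R y n : ℝ) : ℂ) * ee ((n : ℝ) * ((h : ℝ) / q)) =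
        (∑ n ∈ (Ico (1 : ℤ) v).filter (fun n => n.toNat.Prime), ee ((n : ℝ) * ((h : ℝ) / q))) -
        ∑ n ∈ Ico (1 : ℤ) v, ((lci n * wR R n : ℝ) : ℂ) * ee ((n : ℝ) * ((h : ℝ) / q)) := by
      rw [Finset.sum_filter, ← Finset.sum_sub_distrib]
      apply Finset.sum_congr rfl
      intro n hn
      rw [Finset.mem_Ico] at hn
      have hfm : fm R y n = (if n.toNat.Prime then 1 else 0) - lci n * wR R n := by
        unfold fm
        rw [if_pos ⟨hn.1, by omega⟩]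
      rw [hfm]
      by_cases hp : n.toNat.Prime
      · rw [if_pos hp, if_pos hp]
        push_cast
        ring
      · rw [if_neg hp, if_neg hp]
        push_cast
        ring
    rw [e3]
    set P := ∑ n ∈ (Ico (1 : ℤ) v).filter (fun n => n.toNat.Prime), ee ((n : ℝ) * ((h : ℝ) / q)) with hP
    set M := ∑ n ∈ Ico (1 : ℤ) v, ((lci n * wR R n : ℝ) : ℂ) * ee ((n : ℝ) * ((h : ℝ) / q)) with hM
    set Z := (((ArithmeticFunction.moebius q : ℝ) / (q.totient : ℝ) * li ((v : ℝ) - 1) : ℝ) : ℂ) with hZ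
    have e4 : P - M = (P - Z) - (M - Z) := by ring
    rw [e4]
    calc ‖(P - Z) - (M - Z)‖ ≤ ‖P - Z‖ + ‖M - Z‖ := norm_sub_le _ _
      _ ≤ (q : ℝ) * (T + 1) + (R : ℝ) ^ 2 * q := add_le_add e1 e2
      _ ≤ (q : ℝ) * (T + 1) + (R : ℝ) ^ 2 * q + 1 := by linarith

/-- Module Mcl: interval sums of f with a character. -/
theorem tMcl (h1 : MprStmt) (h2 : MmoStmt) : MclStmt := by
  intro R q h y T hq hqR hc hy hT hm u v
  have hone := Mcl_one R q h y T h1 h2 hq hqR hc hT hm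
  set g : ℤ → ℂ := fun n => ((fm R y n : ℝ) : ℂ) * ee ((n : ℝ) * ((h : ℝ) / q)) with hg
  have hpos : 0 ≤ (q : ℝ) * (T + 1) + (R : ℝ) ^ 2 * q + 1 := by positivity
  have hfl : 2 ≤ ⌊y⌋ := by
    rw [Int.le_floor]
    exact_mod_cast hy
  rcases lt_or_ge v u with huv | huv
  · have : Ico u v = ∅ := by
      rw [Finset.Ico_eq_empty_iff]
      omega
    rw [this, Finset.sum_empty, norm_zero]
    linarith
  · set u' : ℤ := max 1 (min u (⌊y⌋ + 1)) with hu'
    set v' : ℤ := max 1 (min v (⌊y⌋ + 1)) with hv'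
    have huv' : u' ≤ v' := by omega
    have hsum : ∑ n ∈ Ico u v, g n = ∑ n ∈ Ico u' v', g n := by
      symm
      apply Finset.sum_subset
      · intro n hn
        rw [Finset.mem_Ico] at hn ⊢
        omega
      · intro n hn hn'
        rw [Finset.mem_Ico] at hn hn'
        have hz : fm R y n = 0 := by
          unfold fm
          rw [if_neg]
          intro hh
          apply hn'
          omega
        simp only [hg, hz]
        simp
    have hsplit : ∑ n ∈ Ico 1 v', g n = ∑ n ∈ Ico 1 u', g n + ∑ n ∈ Ico u' v', g n := by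
      rw [← Finset.sum_union (Finset.Ico_disjoint_Ico_consecutive 1 u' v'),
        Finset.Ico_union_Ico_eq_Ico (by omega) huv']
    have hA := hone v' (by omega) (by omega)
    have hB := hone u' (by omega) (by omega)
    have : ∑ n ∈ Ico u v, g n = ∑ n ∈ Ico 1 v', g n - ∑ n ∈ Ico 1 u', g n := by
      rw [hsum, hsplit]
      ring
    change ‖∑ n ∈ Ico u v, g n‖ ≤ _
    rw [this]
    calc ‖∑ n ∈ Ico 1 v', g n - ∑ n ∈ Ico 1 u', g n‖
        ≤ ‖∑ n ∈ Ico 1 v', g n‖ + ‖∑ n ∈ Ico 1 u', g n‖ := norm_sub_le _ _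
      _ ≤ 2 * (q * (T + 1) + (R : ℝ) ^ 2 * q + 1) := by linarith

end Pool.Agent.Lib.UI
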