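import Pool.Agent.Lib.UI.SpecF

/-!
MP_00e23e_nt, directory Lib/UI, module Mcs: Ramanujan sums in a residue class.
-/

namespace Pool.Agent.Lib.UI

open Finset Pool.Agent.Lib.EH3 Pool.Agent.Results.MP_00e23e_nt

private lemma Mcs_ram_le (h3 : Pool.Agent.Lib.KF.RmxStmt) (r : ℕ) (m : ℤ) (hr : 1 ≤ r) :
    |Pool.Agent.Lib.KF.ram r m| ≤ r.totient := by
  have h := h3 r m hr
  have h1 : ‖((Pool.Agent.Lib.KF.ram r m : ℝ) : ℂ)‖ ≤ r.totient := by
    rw [h]
    refine (norm_sum_le _ _).trans ?_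
    rw [Finset.sum_congr rfl fun h _ => norm_ee _, Finset.sum_const, nsmul_eq_mul, mul_one]
    refine le_of_eq ?_
    rw [Nat.totient]
    congr 2
    exact Finset.filter_congr fun x _ => Nat.coprime_comm
  rwa [Complex.norm_real, Real.norm_eq_abs] at h1

private lemma Mcs_ram_congr (r : ℕ) (m n : ℤ) (h : (r : ℤ) ∣ n - m) :
    Pool.Agent.Lib.KF.ram r n = Pool.Agent.Lib.KF.ram r m := by
  unfold Pool.Agent.Lib.KF.ram
  refine Finset.sum_congr (Finset.filter_congr fun e he => ?_) fun _ _ => rfl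
  have h1 : (e : ℤ) ∣ n - m := (Int.natCast_dvd_natCast.2 (Nat.dvd_of_mem_divisors he)).trans h
  constructor
  · intro h2
    have := dvd_sub h2 h1
    rwa [sub_sub_cancel] at this
  · intro h2
    have := dvd_add h1 h2
    rwa [sub_add_cancel] at this

private lemma Mcs_reindex (d : ℕ) (a N : ℤ) (hd : 1 ≤ d) (F : ℤ → ℂ) :
    ∑ n ∈ (Icc (1 : ℤ) N).filter (fun n => (d : ℤ) ∣ n - a), F n =
      ∑ j ∈ Ico (-((a - 1) / d)) ((N - a) / d + 1), F (a + d * j) := by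
  have hd0 : (0 : ℤ) < d := by exact_mod_cast hd
  symm
  refine Finset.sum_bij (fun j _ => a + d * j) ?_ ?_ ?_ ?_
  · intro j hj
    obtain ⟨h1, h2⟩ := Finset.mem_Ico.1 hj
    have h1' : -j ≤ (a - 1) / d := by omega
    have h2' : j ≤ (N - a) / d := by omega
    rw [Int.le_ediv_iff_mul_le hd0] at h1' h2'
    refine Finset.mem_filter.2 ⟨Finset.mem_Icc.2 ⟨?_, ?_⟩, ?_⟩
    · linarith
    · linarith
    · rw [add_sub_cancel_left]
      exact dvd_mul_right _ _
  · intro j _ j' _ h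
    have h : (d : ℤ) * j = d * j' := by linarith
    exact mul_left_cancel₀ hd0.ne' h
  · intro n hn
    obtain ⟨h1, j, hj⟩ := Finset.mem_filter.1 hn
    obtain ⟨h1, h2⟩ := Finset.mem_Icc.1 h1
    refine ⟨j, Finset.mem_Ico.2 ⟨?_, ?_⟩, by linarith⟩
    · have : -j ≤ (a - 1) / d := by
        rw [Int.le_ediv_iff_mul_le hd0]
        linarith
      omega
    · have : j ≤ (N - a) / d := by
        rw [Int.le_ediv_iff_mul_le hd0]
        linarith
      omega
  · intro j _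
    rfl

theorem tMcs (h1 : MwsStmt) (h2 : MzsStmt) (h3 : Pool.Agent.Lib.KF.RmxStmt) : McsStmt := by
  intro r d a y hr hd hy
  have hr0 : (1 : ℝ) ≤ r := by exact_mod_cast hr
  have ht0 : (0 : ℝ) ≤ r.totient := Nat.cast_nonneg _
  by_cases hrd : r ∣ d
  · rw [if_pos hrd]
    have e1 : ∑ n ∈ (Icc (1 : ℤ) ⌊y⌋).filter (fun n => (d : ℤ) ∣ n - a), lci n * Pool.Agent.Lib.KF.ram r n =
        Pool.Agent.Lib.KF.ram r a * ∑ n ∈ (Icc (1 : ℤ) ⌊y⌋).filter (fun n => (d : ℤ) ∣ n - a), lci n := by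
      rw [Finset.mul_sum]
      refine Finset.sum_congr rfl fun n hn => ?_
      rw [Mcs_ram_congr r a n ((Int.natCast_dvd_natCast.2 hrd).trans (Finset.mem_filter.1 hn).2), mul_comm]
    rw [e1, ← mul_sub, abs_mul]
    calc |Pool.Agent.Lib.KF.ram r a| *
        |(∑ n ∈ (Icc (1 : ℤ) ⌊y⌋).filter (fun n => (d : ℤ) ∣ n - a), lci n) - li y / d|
        ≤ r.totient * 6 := mul_le_mul (Mcs_ram_le h3 r a hr) (h2 d a y hd hy) (abs_nonneg _) ht0
      _ ≤ 6 * (r : ℝ) * r.totient := by nlinarith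
  · rw [if_neg hrd, sub_zero]
    have e1 : ((∑ n ∈ (Icc (1 : ℤ) ⌊y⌋).filter (fun n => (d : ℤ) ∣ n - a), lci n * Pool.Agent.Lib.KF.ram r n : ℝ) : ℂ) =
        ∑ h ∈ (range r).filter (fun h => h.Coprime r),
          ee ((a : ℝ) * ((h : ℝ) / r)) * ∑ j ∈ Ico (-((a - 1) / d)) ((⌊y⌋ - a) / d + 1),
            ((lci (a + d * j) : ℝ) : ℂ) * ee ((j : ℝ) * ((d : ℝ) * (h : ℤ) / r)) := by
      rw [Complex.ofReal_sum, Mcs_reindex d a ⌊y⌋ hd
        (fun n => ((lci n * Pool.Agent.Lib.KF.ram r n : ℝ) : ℂ))]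
      simp only [Finset.mul_sum]
      rw [Finset.sum_comm]
      refine Finset.sum_congr rfl fun j _ => ?_
      rw [Complex.ofReal_mul, h3 r (a + d * j) hr, Finset.mul_sum]
      refine Finset.sum_congr rfl fun h _ => ?_
      have e2 : ee ((((a + d * j : ℤ)) : ℝ) * ((h : ℝ) / r)) =
          ee ((a : ℝ) * ((h : ℝ) / r)) * ee ((j : ℝ) * ((d : ℝ) * (h : ℤ) / r)) := by
        rw [← ee_add]
        congr 1
        push_cast
        ring
      rw [e2]
      ring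
    have e3 : ‖((∑ n ∈ (Icc (1 : ℤ) ⌊y⌋).filter (fun n => (d : ℤ) ∣ n - a), lci n * Pool.Agent.Lib.KF.ram r n : ℝ) : ℂ)‖ ≤
        r * r.totient := by
      rw [e1]
      refine (norm_sum_le _ _).trans ?_
      have e4 : ∀ h ∈ (range r).filter (fun h => h.Coprime r),
          ‖ee ((a : ℝ) * ((h : ℝ) / r)) * ∑ j ∈ Ico (-((a - 1) / d)) ((⌊y⌋ - a) / d + 1),
            ((lci (a + d * j) : ℝ) : ℂ) * ee ((j : ℝ) * ((d : ℝ) * (h : ℤ) / r))‖ ≤ r := by
        intro h hh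
        rw [norm_mul, norm_ee, one_mul]
        refine h1 r d a h _ _ hr hd ?_
        intro hdiv
        have hdiv' : r ∣ d * h := by exact_mod_cast hdiv
        exact hrd ((Nat.Coprime.symm (Finset.mem_filter.1 hh).2).dvd_of_dvd_mul_right hdiv')
      refine (Finset.sum_le_sum e4).trans ?_
      rw [Finset.sum_const, nsmul_eq_mul, mul_comm]
      refine le_of_eq ?_
      rw [Nat.totient]
      congr 3
      exact Finset.filter_congr fun x _ => Nat.coprime_comm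
    rw [Complex.norm_real, Real.norm_eq_abs] at e3
    refine e3.trans ?_
    nlinarith [mul_nonneg (by linarith : (0 : ℝ) ≤ r) ht0]

end Pool.Agent.Lib.UI
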