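import Pool.Agent.Lib.UI.SpecF

/-!
MP_00e23e_nt, Lib/UI, part F: the increments of li.
-/

namespace Pool.Agent.Lib.UI

open Finset Pool.Agent.Lib.EH3 Pool.Agent.Results.MP_00e23e_nt

private theorem Minc_int {a b : ℝ} (ha : 2 ≤ a) (hb : 2 ≤ b) :
    IntervalIntegrable (fun t : ℝ => (Real.log t)⁻¹) MeasureTheory.volume a b := by
  apply ContinuousOn.intervalIntegrable
  have h : ∀ t ∈ Set.uIcc a b, 2 ≤ t := by
    intro t ht
    rw [Set.mem_uIcc] at ht
    rcases ht with ht | ht
    · linarith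
    · linarith
  apply ContinuousOn.inv₀
  · apply Real.continuousOn_log.mono
    intro t ht
    rw [Set.mem_compl_iff, Set.mem_singleton_iff]
    have := h t ht
    linarith
  · intro t ht
    have := h t ht
    exact (Real.log_pos (by linarith)).ne'

private theorem Minc_sub {a b : ℝ} (ha : 2 ≤ a) (hb : 2 ≤ b) :
    li b - li a = ∫ t in a..b, (Real.log t)⁻¹ := by
  unfold li
  exact intervalIntegral.integral_interval_sub_left (Minc_int le_rfl hb) (Minc_int le_rfl ha)

private theorem Minc_bd {a b : ℝ} (ha : 2 ≤ a) (hab : a ≤ b) :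
    (Real.log b)⁻¹ * (b - a) ≤ li b - li a ∧ li b - li a ≤ (Real.log a)⁻¹ * (b - a) := by
  have hb : 2 ≤ b := ha.trans hab
  rw [Minc_sub ha hb]
  constructor
  · have h1 : ∫ _t in a..b, (Real.log b)⁻¹ = (Real.log b)⁻¹ * (b - a) := by
      rw [intervalIntegral.integral_const, smul_eq_mul, mul_comm]
    rw [← h1]
    refine intervalIntegral.integral_mono_on hab intervalIntegrable_const (Minc_int ha hb) ?_
    intro t ht
    have ht2 : 2 ≤ t := ha.trans ht.1
    exact inv_anti₀ (Real.log_pos (by linarith)) (Real.log_le_log (by linarith) ht.2)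
  · have h1 : ∫ _t in a..b, (Real.log a)⁻¹ = (Real.log a)⁻¹ * (b - a) := by
      rw [intervalIntegral.integral_const, smul_eq_mul, mul_comm]
    rw [← h1]
    refine intervalIntegral.integral_mono_on hab (Minc_int ha hb) intervalIntegrable_const ?_
    intro t ht
    exact inv_anti₀ (Real.log_pos (by linarith)) (Real.log_le_log (by linarith) ht.1)

private theorem Minc_log {a : ℝ} (ha : 2 ≤ a) : 0 < (Real.log a)⁻¹ ∧ (Real.log a)⁻¹ ≤ 2 := by
  have h1 : Real.log 2 ≤ Real.log a := Real.log_le_log (by norm_num) ha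
  have h2 : (1 : ℝ) / 2 ≤ Real.log 2 := by
    have := Real.log_two_gt_d9
    linarith
  have h3 : 0 < Real.log a := by linarith
  refine ⟨inv_pos.mpr h3, ?_⟩
  rw [inv_le_comm₀ h3 (by norm_num)]
  linarith

private theorem Minc_bd2 {a b : ℝ} (ha : 2 ≤ a) (hab : a ≤ b) (h1 : b - a ≤ 1) :
    0 ≤ li b - li a ∧ li b - li a ≤ 2 := by
  obtain ⟨h2, h3⟩ := Minc_bd ha hab
  obtain ⟨h4, h5⟩ := Minc_log ha
  obtain ⟨h6, _⟩ := Minc_log (ha.trans hab)
  have h7 : 0 ≤ b - a := by linarith
  constructor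
  · exact le_trans (mul_nonneg h6.le h7) h2
  · refine h3.trans ?_
    calc (Real.log a)⁻¹ * (b - a) ≤ 2 * 1 := mul_le_mul h5 h1 h7 (by norm_num)
      _ = 2 := by norm_num

private theorem Minc_three {n : ℤ} (hn : 3 ≤ n) : (2 : ℝ) ≤ (n : ℝ) - 1 := by
  have : (3 : ℝ) ≤ (n : ℝ) := by exact_mod_cast hn
  linarith

/-- Module Minc: the increments of li. -/
theorem tMinc : MincStmt := by
  refine ⟨fun n => ?_, fun n hn => ?_, fun v hv => ?_, fun y hy => ?_⟩
  · unfold lci
    split_ifs with hn
    · exact Minc_bd2 (Minc_three hn) (by linarith) (by linarith)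
    · norm_num
  · unfold lci
    rw [if_pos (by omega), if_pos hn]
    have h1 := Minc_three hn
    have h2 := (Minc_bd (a := (n : ℝ)) (b := (n : ℝ) + 1) (by linarith) (by linarith)).2
    have h3 := (Minc_bd (a := (n : ℝ) - 1) (b := (n : ℝ)) h1 (by linarith)).1
    push_cast
    have e1 : (n : ℝ) + 1 - 1 = n := by ring
    rw [e1]
    have e2 : (n : ℝ) + 1 - n = 1 := by ring
    have e3 : (n : ℝ) - (n - 1) = 1 := by ring
    rw [e2, mul_one] at h2
    rw [e3, mul_one] at h3
    exact h2.trans h3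
  · induction v, hv using Int.le_induction with
    | base =>
      have h1 : Ico (1 : ℤ) 3 = {1, 2} := by decide
      rw [h1, sum_pair (by norm_num)]
      unfold lci
      rw [if_neg (by norm_num), if_neg (by norm_num)]
      have h2 : (((3 : ℤ) : ℝ)) - 1 = 2 := by norm_num
      rw [h2]
      unfold li
      rw [intervalIntegral.integral_same, add_zero]
    | succ v hv ih =>
      have h1 : Ico (1 : ℤ) (v + 1) = insert v (Ico 1 v) := by
        ext x
        simp only [mem_Ico, mem_insert]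
        omega
      rw [h1, sum_insert (by simp), ih]
      unfold lci
      rw [if_pos hv]
      push_cast
      have e1 : (v : ℝ) + 1 - 1 = v := by ring
      rw [e1]
      ring
  · have h1 : (2 : ℤ) ≤ ⌊y⌋ := Int.le_floor.mpr (by exact_mod_cast hy)
    have h2 : (2 : ℝ) ≤ ((⌊y⌋ : ℤ) : ℝ) := by exact_mod_cast h1
    have h3 := Int.floor_le y
    have h4 := Int.lt_floor_add_one y
    exact Minc_bd2 h2 h3 (by linarith)

end Pool.Agent.Lib.UI
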