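import Pool.Agent.Lib.UI.SpecF

namespace Pool.Agent.Lib.UI

open Finset Pool.Agent.Lib.EH3 Pool.Agent.Results.MP_00e23e_nt

private lemma Mma_ram (r d : ℕ) (a : ℤ) (hr : 1 ≤ r) (hrd : r ∣ d) (hg : Int.gcd a d = 1) :
    Pool.Agent.Lib.KF.ram r a = (ArithmeticFunction.moebius r : ℝ) := by
  unfold Pool.Agent.Lib.KF.ram
  have hS : r.divisors.filter (fun e : ℕ => (e : ℤ) ∣ a) = {1} := by
    ext e
    rw [mem_filter, Nat.mem_divisors, mem_singleton]
    constructor
    · rintro ⟨⟨h1, h2⟩, h3⟩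
      have h4 : e ∣ Int.gcd a d := Int.dvd_gcd h3 (Int.natCast_dvd_natCast.2 (h1.trans hrd))
      rw [hg] at h4
      exact Nat.dvd_one.1 h4
    · rintro rfl
      exact ⟨⟨one_dvd _, by omega⟩, by simp⟩
  rw [hS, sum_singleton]
  simp

theorem tMma (h1 : McsStmt) : MmaStmt := by
  intro R d a y hd hy hg
  set S := (Icc (1 : ℤ) ⌊y⌋).filter (fun n => (d : ℤ) ∣ n - a) with hS
  set c : ℕ → ℝ := fun r => (ArithmeticFunction.moebius r : ℝ) / (r.totient : ℝ) with hc
  have e1 : ∑ n ∈ S, lci n * wR R n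
      = ∑ r ∈ Icc 1 R, c r * ∑ n ∈ S, lci n * Pool.Agent.Lib.KF.ram r n := by
    unfold wR
    simp_rw [mul_sum]
    rw [sum_comm]
    refine sum_congr rfl fun r _ => sum_congr rfl fun n _ => ?_
    rw [hc]; ring
  have e2 : li y * ((1 / (d : ℝ)) * ∑ r ∈ d.divisors.filter (fun r => r ≤ R),
      ((ArithmeticFunction.moebius r : ℝ)) ^ 2 / (r.totient : ℝ))
      = ∑ r ∈ Icc 1 R, c r * (if r ∣ d then Pool.Agent.Lib.KF.ram r a * (li y / d) else 0) := by
    have e3 : ∑ r ∈ Icc 1 R, c r * (if r ∣ d then Pool.Agent.Lib.KF.ram r a * (li y / d) else 0)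
        = ∑ r ∈ (Icc 1 R).filter (fun r => r ∣ d), c r * (Pool.Agent.Lib.KF.ram r a * (li y / d)) := by
      rw [sum_filter]
      refine sum_congr rfl fun r _ => ?_
      split_ifs <;> simp
    have e4 : (Icc 1 R).filter (fun r => r ∣ d) = d.divisors.filter (fun r => r ≤ R) := by
      ext r
      rw [mem_filter, mem_filter, mem_Icc, Nat.mem_divisors]
      constructor
      · rintro ⟨⟨_, h⟩, h'⟩
        exact ⟨⟨h', by omega⟩, h⟩
      · rintro ⟨⟨h, _⟩, h'⟩
        exact ⟨⟨Nat.pos_of_dvd_of_pos h (by omega), h'⟩, h⟩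
    rw [e3, e4, mul_sum, mul_sum]
    refine sum_congr rfl fun r hr => ?_
    rw [mem_filter, Nat.mem_divisors] at hr
    rw [Mma_ram r d a (Nat.pos_of_dvd_of_pos hr.1.1 (by omega)) hr.1.1 hg, hc]
    ring
  rw [e1, e2, ← sum_sub_distrib]
  refine (abs_sum_le_sum_abs _ _).trans ?_
  have e5 : ∀ r ∈ Icc 1 R, |c r * (∑ n ∈ S, lci n * Pool.Agent.Lib.KF.ram r n) -
      c r * (if r ∣ d then Pool.Agent.Lib.KF.ram r a * (li y / d) else 0)| ≤ 6 * (R : ℝ) := by
    intro r hr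
    rw [mem_Icc] at hr
    rw [← mul_sub, abs_mul]
    have hm := h1 r d a y hr.1 hd hy
    have hphi : (0 : ℝ) < (r.totient : ℝ) := by
      exact_mod_cast Nat.totient_pos.2 (by omega)
    have hmu : |(ArithmeticFunction.moebius r : ℝ)| ≤ 1 := by
      have := ArithmeticFunction.abs_moebius_le_one (n := r)
      exact_mod_cast this
    have hcr : |c r| ≤ 1 / (r.totient : ℝ) := by
      rw [hc]
      simp only
      rw [abs_div, abs_of_pos hphi]
      exact div_le_div_of_nonneg_right hmu hphi.le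
    have hrR : (r : ℝ) ≤ R := by exact_mod_cast hr.2
    calc |c r| * |_| ≤ (1 / (r.totient : ℝ)) * (6 * (r : ℝ) * r.totient) :=
          mul_le_mul hcr hm (abs_nonneg _) (by positivity)
      _ = 6 * r := by field_simp
      _ ≤ 6 * (R : ℝ) := by linarith
  refine (sum_le_sum e5).trans ?_
  rw [sum_const, Nat.card_Icc, nsmul_eq_mul]
  simp
  nlinarith

end Pool.Agent.Lib.UI
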