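import Pool.Agent.Lib.UI.SpecF

/-!
MP_00e23e_nt, directory Lib/UI, module Mmo: exponential sum over the model at a rational point.
-/

namespace Pool.Agent.Lib.UI

open Finset Pool.Agent.Lib.EH3 Pool.Agent.Results.MP_00e23e_nt

/-- the inner sums -/
private noncomputable def Mmo_S (q h r b : ℕ) (v : ℤ) : ℂ :=
  ∑ n ∈ Ico (1 : ℤ) v, ((lci n : ℝ) : ℂ) * ee ((n : ℝ) * ((b : ℝ) / r + (h : ℝ) / q))

private lemma Mmo_one (h1 : MincStmt) (h2 : MwsStmt) (q h r b : ℕ) (v : ℤ) (hq : 1 ≤ q) (hr : 1 ≤ r)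
    (hh : h.Coprime q) (hb : b.Coprime r) (hv : 3 ≤ v) :
    ‖Mmo_S q h r b v - (if r = q ∧ q ∣ b + h then ((li ((v : ℝ) - 1) : ℝ) : ℂ) else 0)‖ ≤ r * q := by
  have hq0 : (0 : ℝ) < q := by exact_mod_cast hq
  have hr0 : (0 : ℝ) < r := by exact_mod_cast hr
  by_cases hc : r = q ∧ q ∣ b + h
  · rw [if_pos hc]
    obtain ⟨hrq, k, hk⟩ := hc
    subst hrq
    have e1 : Mmo_S r h r b v = ((li ((v : ℝ) - 1) : ℝ) : ℂ) := by
      rw [← h1.2.2.1 v hv, Complex.ofReal_sum]
      unfold Mmo_S
      refine Finset.sum_congr rfl fun n _ => ?_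
      have e2 : (n : ℝ) * ((b : ℝ) / r + (h : ℝ) / r) = ((n * k : ℤ) : ℝ) := by
        have e3 : (b : ℝ) + h = r * k := by exact_mod_cast hk
        rw [← add_div, e3, mul_div_cancel_left₀ _ hr0.ne']
        push_cast
        ring
      rw [e2, ee_int, mul_one]
    rw [e1, sub_self, norm_zero]
    positivity
  · rw [if_neg hc, sub_zero]
    have e1 : Mmo_S q h r b v = ∑ j ∈ Ico (1 : ℤ) v, ((lci (0 + (1 : ℕ) * j) : ℝ) : ℂ) *
        ee ((j : ℝ) * (((1 : ℕ) : ℝ) * ((b * q + h * r : ℤ) : ℝ) / ((r * q : ℕ) : ℝ))) := by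
      unfold Mmo_S
      refine Finset.sum_congr rfl fun j _ => ?_
      congr 2
      · rw [Nat.cast_one, one_mul, zero_add]
      · congr 1
        push_cast
        field_simp
    rw [e1]
    have e2 := h2 (r * q) 1 0 (b * q + h * r) 1 v (Nat.mul_pos hr hq) le_rfl ?_
    · refine e2.trans (le_of_eq ?_)
      push_cast
      ring
    · intro hdiv
      apply hc
      have hdiv' : r * q ∣ b * q + h * r := by
        have : ((r * q : ℕ) : ℤ) ∣ ((b * q + h * r : ℕ) : ℤ) := by
          have e3 : ((1 : ℕ) : ℤ) * (b * q + h * r) = ((b * q + h * r : ℕ) : ℤ) := by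
            push_cast
            ring
          rw [← e3]
          exact hdiv
        exact_mod_cast this
      have hq1 : q ∣ b * q + h * r := (dvd_mul_left q r).trans hdiv'
      have hq2 : q ∣ h * r := (Nat.dvd_add_right (dvd_mul_left q b)).1 hq1
      have hq3 : q ∣ r := (Nat.Coprime.symm hh).dvd_of_dvd_mul_left hq2
      have hr1 : r ∣ b * q + h * r := (dvd_mul_right r q).trans hdiv'
      have hr2 : r ∣ b * q := (Nat.dvd_add_left (dvd_mul_left r h)).1 hr1
      have hr3 : r ∣ q := (Nat.Coprime.symm hb).dvd_of_dvd_mul_left hr2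
      have hrq : r = q := Nat.dvd_antisymm hr3 hq3
      subst hrq
      refine ⟨rfl, ?_⟩
      have e4 : b * r + h * r = (b + h) * r := by ring
      rw [e4] at hdiv'
      exact Nat.dvd_of_mul_dvd_mul_right hr hdiv'

private lemma Mmo_count (q h : ℕ) (hq : 1 ≤ q) (hh : h.Coprime q) (z : ℂ) :
    ∑ b ∈ (range q).filter (fun b => b.Coprime q), (if q ∣ b + h then z else 0) = z := by
  have hq0 : 0 < q := hq
  rw [← Finset.sum_filter]
  have e1 : ((range q).filter (fun b => b.Coprime q)).filter (fun b => q ∣ b + h) =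
      {(q - h % q) % q} := by
    ext b
    rw [Finset.mem_filter, Finset.mem_filter, Finset.mem_range, Finset.mem_singleton]
    have hm : h % q < q := Nat.mod_lt _ hq0
    constructor
    · rintro ⟨⟨hb, -⟩, hdiv⟩
      have h5 : q ∣ b + h % q := by
        have : b + h = (b + h % q) + q * (h / q) := by
          have := Nat.mod_add_div h q
          omega
        rw [this] at hdiv
        exact (Nat.dvd_add_left (dvd_mul_right _ _)).1 hdiv
      obtain ⟨k, hk⟩ := h5
      rcases k with _ | _ | k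
      · have hb0 : b = 0 := by omega
        have hm0 : h % q = 0 := by omega
        rw [hm0, Nat.sub_zero, Nat.mod_self, hb0]
      · have hb1 : b = q - h % q := by omega
        rw [← hb1, Nat.mod_eq_of_lt hb]
      · exfalso
        have : q * (k + 1 + 1) = q * k + 2 * q := by ring
        have h0 : 0 ≤ q * k := Nat.zero_le _
        omega
    · intro hb
      have hdiv : q ∣ b + h := by
        rw [hb]
        have h6 : q ∣ (q - h % q) + h := by
          refine ⟨1 + h / q, ?_⟩
          have := Nat.mod_add_div h q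
          rw [mul_add, mul_one]
          omega
        have h7 : (q - h % q) + h = ((q - h % q) % q + h) + q * ((q - h % q) / q) := by
          have := Nat.mod_add_div (q - h % q) q
          omega
        rw [h7] at h6
        exact (Nat.dvd_add_left (dvd_mul_right _ _)).1 h6
      refine ⟨⟨hb ▸ Nat.mod_lt _ hq0, ?_⟩, hdiv⟩
      rw [Nat.coprime_iff_gcd_eq_one]
      have h8 : Nat.gcd b q ∣ h := by
        have : Nat.gcd b q ∣ b + h := (Nat.gcd_dvd_right b q).trans hdiv
        exact (Nat.dvd_add_right (Nat.gcd_dvd_left b q)).1 this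
      exact Nat.eq_one_of_dvd_coprimes hh h8 (Nat.gcd_dvd_right b q)
  rw [e1, Finset.sum_singleton]

private lemma Mmo_card (r : ℕ) :
    (((range r).filter (fun h => h.Coprime r)).card : ℝ) = r.totient := by
  rw [Nat.totient]
  congr 2
  exact Finset.filter_congr fun x _ => Nat.coprime_comm

theorem tMmo (h1 : MincStmt) (h2 : MwsStmt) (h3 : Pool.Agent.Lib.KF.RmxStmt) : MmoStmt := by
  intro R q h v hq hqR hh hv
  have e1 : ∑ n ∈ Ico (1 : ℤ) v, ((lci n * wR R n : ℝ) : ℂ) * ee ((n : ℝ) * ((h : ℝ) / q)) =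
      ∑ r ∈ Icc 1 R, (((ArithmeticFunction.moebius r : ℝ) / (r.totient : ℝ) : ℝ) : ℂ) *
        ∑ b ∈ (range r).filter (fun b => b.Coprime r), Mmo_S q h r b v := by
    have e2 : ∀ n ∈ Ico (1 : ℤ) v, ((lci n * wR R n : ℝ) : ℂ) * ee ((n : ℝ) * ((h : ℝ) / q)) =
        ∑ r ∈ Icc 1 R, (((ArithmeticFunction.moebius r : ℝ) / (r.totient : ℝ) : ℝ) : ℂ) *
          ∑ b ∈ (range r).filter (fun b => b.Coprime r),
            ((lci n : ℝ) : ℂ) * ee ((n : ℝ) * ((b : ℝ) / r + (h : ℝ) / q)) := by
      intro n _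
      unfold wR
      rw [Finset.mul_sum, Complex.ofReal_sum, Finset.sum_mul]
      refine Finset.sum_congr rfl fun r hr => ?_
      rw [Complex.ofReal_mul, Complex.ofReal_mul, h3 r n (Finset.mem_Icc.1 hr).1, Finset.mul_sum,
        Finset.mul_sum, Finset.sum_mul, Finset.mul_sum]
      refine Finset.sum_congr rfl fun b _ => ?_
      rw [mul_add, ee_add]
      ring
    rw [Finset.sum_congr rfl e2, Finset.sum_comm]
    refine Finset.sum_congr rfl fun r _ => ?_
    rw [← Finset.mul_sum, Finset.sum_comm]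
    rfl
  have e3 : (((ArithmeticFunction.moebius q : ℝ) / (q.totient : ℝ) * li ((v : ℝ) - 1) : ℝ) : ℂ) =
      ∑ r ∈ Icc 1 R, (((ArithmeticFunction.moebius r : ℝ) / (r.totient : ℝ) : ℝ) : ℂ) *
        ∑ b ∈ (range r).filter (fun b => b.Coprime r),
          (if r = q ∧ q ∣ b + h then ((li ((v : ℝ) - 1) : ℝ) : ℂ) else 0) := by
    rw [Finset.sum_eq_single q]
    · have e4 : ∀ b ∈ (range q).filter (fun b => b.Coprime q),
          (if q = q ∧ q ∣ b + h then ((li ((v : ℝ) - 1) : ℝ) : ℂ) else 0) =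
          if q ∣ b + h then ((li ((v : ℝ) - 1) : ℝ) : ℂ) else 0 := by
        intro b _
        simp
      rw [Finset.sum_congr rfl e4, Mmo_count q h hq hh, Complex.ofReal_mul]
    · intro r _ hrq
      have e4 : ∀ b ∈ (range r).filter (fun b => b.Coprime r),
          (if r = q ∧ q ∣ b + h then ((li ((v : ℝ) - 1) : ℝ) : ℂ) else 0) = 0 := by
        intro b _
        rw [if_neg]
        exact fun hc => hrq hc.1
      rw [Finset.sum_congr rfl e4, Finset.sum_const_zero, mul_zero]
    · intro hn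
      exact absurd (Finset.mem_Icc.2 ⟨hq, hqR⟩) hn
  rw [e1, e3, ← Finset.sum_sub_distrib]
  refine (norm_sum_le _ _).trans ?_
  have hq0 : (0 : ℝ) ≤ q := Nat.cast_nonneg _
  have e5 : ∀ r ∈ Icc 1 R,
      ‖(((ArithmeticFunction.moebius r : ℝ) / (r.totient : ℝ) : ℝ) : ℂ) *
        ∑ b ∈ (range r).filter (fun b => b.Coprime r), Mmo_S q h r b v -
        (((ArithmeticFunction.moebius r : ℝ) / (r.totient : ℝ) : ℝ) : ℂ) *
        ∑ b ∈ (range r).filter (fun b => b.Coprime r),
          (if r = q ∧ q ∣ b + h then ((li ((v : ℝ) - 1) : ℝ) : ℂ) else 0)‖ ≤ R * q := by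
    intro r hr
    obtain ⟨hr1, hr2⟩ := Finset.mem_Icc.1 hr
    have ht : (0 : ℝ) < r.totient := by exact_mod_cast Nat.totient_pos.2 hr1
    rw [← mul_sub, norm_mul, ← Finset.sum_sub_distrib]
    have e6 : ‖(((ArithmeticFunction.moebius r : ℝ) / (r.totient : ℝ) : ℝ) : ℂ)‖ ≤ 1 / (r.totient : ℝ) := by
      rw [Complex.norm_real, Real.norm_eq_abs, abs_div, abs_of_pos ht]
      refine div_le_div_of_nonneg_right ?_ ht.le
      have h4 : |(ArithmeticFunction.moebius r : ℤ)| ≤ 1 := ArithmeticFunction.abs_moebius_le_one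
      exact_mod_cast h4
    have e7 : ‖∑ b ∈ (range r).filter (fun b => b.Coprime r), (Mmo_S q h r b v -
          (if r = q ∧ q ∣ b + h then ((li ((v : ℝ) - 1) : ℝ) : ℂ) else 0))‖ ≤ r.totient * (r * q) := by
      refine (norm_sum_le _ _).trans ?_
      refine (Finset.sum_le_sum fun b hb =>
        Mmo_one h1 h2 q h r b v hq hr1 hh (Finset.mem_filter.1 hb).2 hv).trans ?_
      rw [Finset.sum_const, nsmul_eq_mul, Mmo_card]
    refine (mul_le_mul e6 e7 (norm_nonneg _) (by positivity)).trans ?_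
    have e8 : 1 / (r.totient : ℝ) * (r.totient * (r * q)) = r * q := by
      field_simp
    rw [e8]
    exact mul_le_mul_of_nonneg_right (by exact_mod_cast hr2) hq0
  refine (Finset.sum_le_sum e5).trans ?_
  rw [Finset.sum_const, Nat.card_Icc, nsmul_eq_mul, Nat.add_sub_cancel]
  exact le_of_eq (by ring)

end Pool.Agent.Lib.UI
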