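import Pool.Agent.Lib.UI.SpecF

/-!
MP_00e23e_nt, directory Lib/UI, module Mpr: exponential sum over the primes at a rational point.
-/

namespace Pool.Agent.Lib.UI

open Finset Pool.Agent.Lib.EH3 Pool.Agent.Results.MP_00e23e_nt

private lemma Mpr_err {q c : ℕ} (Y : ℝ) (hc : c < q) (hcop : c.Coprime q) :
    |err Y q c| ≤ maxErr Y q := by
  rcases Nat.eq_zero_or_pos c with h0 | h0
  · subst h0
    have hq : q = 1 := by simpa using hcop
    subst hq
    have h1 : err Y 1 0 = err Y 1 1 := by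
      unfold err primeCount
      simp only [Nat.modEq_one]
    rw [h1]
    exact Pool.Agent.Lib.EH.le_maxErr Y 1 1 le_rfl le_rfl (by simp)
  · exact Pool.Agent.Lib.EH.le_maxErr Y q c h0 hc.le hcop

private lemma Mpr_ram {q h : ℕ} (hq : 1 ≤ q) (hc : h.Coprime q) :
    Pool.Agent.Lib.KF.ram q (h : ℤ) = (ArithmeticFunction.moebius q : ℝ) := by
  unfold Pool.Agent.Lib.KF.ram
  have h1 : q.divisors.filter (fun e : ℕ => (e : ℤ) ∣ (h : ℤ)) = {1} := by
    ext e
    rw [Finset.mem_filter, Nat.mem_divisors, Finset.mem_singleton]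
    constructor
    · rintro ⟨⟨h1, _⟩, h2⟩
      have h3 : e ∣ h := by exact_mod_cast h2
      have h4 : e ∣ Nat.gcd h q := Nat.dvd_gcd h3 h1
      rw [Nat.Coprime.gcd_eq_one hc] at h4
      exact Nat.dvd_one.1 h4
    · rintro rfl
      exact ⟨⟨one_dvd _, by omega⟩, by simp⟩
  rw [h1, Finset.sum_singleton]
  simp

private lemma Mpr_ee {q : ℕ} (hq : 1 ≤ q) (h p : ℕ) :
    ee ((p : ℝ) * ((h : ℝ) / q)) = ee (((h : ℤ) : ℝ) * (((p % q : ℕ) : ℝ) / q)) := by
  have hq' : (q : ℝ) ≠ 0 := by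
    have : (0 : ℝ) < q := by exact_mod_cast hq
    exact this.ne'
  have h1 : (p : ℝ) = ((p % q : ℕ) : ℝ) + q * ((p / q : ℕ) : ℝ) := by
    exact_mod_cast (Nat.mod_add_div p q).symm
  have h2 : (p : ℝ) * ((h : ℝ) / q) =
      ((h : ℤ) : ℝ) * (((p % q : ℕ) : ℝ) / q) + (((p / q : ℕ) * h : ℕ) : ℤ) := by
    nth_rewrite 1 [h1]
    generalize (p / q : ℕ) = k
    generalize (p % q : ℕ) = r
    push_cast
    field_simp
  rw [h2, ee_add, ee_int, mul_one]

/-- the sum over integers is a sum over natural numbers -/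
private lemma Mpr_nat (v : ℤ) (hv : 3 ≤ v) (f : ℝ → ℂ) :
    ∑ n ∈ (Ico (1 : ℤ) v).filter (fun n => n.toNat.Prime), f (n : ℝ) =
      ∑ p ∈ (Icc 1 ⌊(v : ℝ) - 1⌋₊).filter Nat.Prime, f (p : ℝ) := by
  have hfl : ⌊(v : ℝ) - 1⌋₊ = (v - 1).toNat := by
    have h1 : (v : ℝ) - 1 = (((v - 1).toNat : ℕ) : ℝ) := by
      have h2 : (((v - 1).toNat : ℕ) : ℤ) = v - 1 := Int.toNat_of_nonneg (by omega)
      have h3 : ((((v - 1).toNat : ℕ) : ℤ) : ℝ) = ((v - 1 : ℤ) : ℝ) := by rw [h2]
      push_cast at h3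
      linarith
    rw [h1, Nat.floor_natCast]
  rw [hfl]
  refine Finset.sum_bij' (fun n _ => n.toNat) (fun p _ => (p : ℤ)) ?_ ?_ ?_ ?_ ?_
  · intro n hn
    rw [Finset.mem_filter, Finset.mem_Ico] at hn
    rw [Finset.mem_filter, Finset.mem_Icc]
    refine ⟨⟨by omega, by omega⟩, hn.2⟩
  · intro p hp
    rw [Finset.mem_filter, Finset.mem_Icc] at hp
    rw [Finset.mem_filter, Finset.mem_Ico]
    refine ⟨⟨by omega, by omega⟩, by simpa using hp.2⟩
  · intro n hn
    rw [Finset.mem_filter, Finset.mem_Ico] at hn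
    exact Int.toNat_of_nonneg (by omega)
  · intro p _
    simp
  · intro n hn
    rw [Finset.mem_filter, Finset.mem_Ico] at hn
    have h1 : ((n.toNat : ℕ) : ℤ) = n := Int.toNat_of_nonneg (by omega)
    have h2 : (((n.toNat : ℕ) : ℤ) : ℝ) = (n : ℝ) := by rw [h1]
    have h3 : ((n.toNat : ℕ) : ℝ) = (n : ℝ) := by
      rw [← h2, Int.cast_natCast]
    rw [h3]

theorem tMpr (h1 : Pool.Agent.Lib.KF.RmxStmt) : MprStmt := by
  intro q h T v hq hcop hv hT
  set Y : ℝ := (v : ℝ) - 1 with hY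
  have hT0 : 0 ≤ T := (Pool.Agent.Lib.EH.maxErr_nonneg Y q).trans hT
  rw [Mpr_nat v hv (fun t => ee (t * ((h : ℝ) / q)))]
  set P : Finset ℕ := (Icc 1 ⌊Y⌋₊).filter Nat.Prime with hP
  rw [← Finset.sum_filter_add_sum_filter_not P (fun p => p.Coprime q)]
  -- the primes dividing q
  have hB : ‖∑ p ∈ P.filter (fun p => ¬ p.Coprime q), ee ((p : ℝ) * ((h : ℝ) / q))‖ ≤ q := by
    refine (norm_sum_le _ _).trans ?_
    simp only [norm_ee, Finset.sum_const, nsmul_eq_mul, mul_one]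
    have h2 : P.filter (fun p => ¬ p.Coprime q) ⊆ Icc 1 q := by
      intro p hp
      rw [Finset.mem_filter, hP, Finset.mem_filter] at hp
      have h3 : p ∣ q := by
        by_contra h4
        exact hp.2 ((Nat.Prime.coprime_iff_not_dvd hp.1.2).2 h4)
      rw [Finset.mem_Icc]
      exact ⟨hp.1.2.one_lt.le, Nat.le_of_dvd hq h3⟩
    have h3 := Finset.card_le_card h2
    rw [Nat.card_Icc] at h3
    have h4 : (P.filter (fun p => ¬ p.Coprime q)).card ≤ q := by omega
    exact_mod_cast h4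
  -- the classes coprime to q
  have hmaps : ∀ p ∈ P.filter (fun p => p.Coprime q), p % q ∈ (range q).filter (fun c => c.Coprime q) := by
    intro p hp
    rw [Finset.mem_filter] at hp
    rw [Finset.mem_filter, Finset.mem_range]
    refine ⟨Nat.mod_lt _ hq, ?_⟩
    have := hp.2
    rw [Nat.Coprime, ← Nat.gcd_rec, Nat.gcd_comm]
    exact this
  have hA : ∑ p ∈ P.filter (fun p => p.Coprime q), ee ((p : ℝ) * ((h : ℝ) / q)) =
      ∑ c ∈ (range q).filter (fun c => c.Coprime q),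
        ((primeCount Y q c : ℝ) : ℂ) * ee (((h : ℤ) : ℝ) * ((c : ℝ) / q)) := by
    rw [← Finset.sum_fiberwise_of_maps_to hmaps]
    refine Finset.sum_congr rfl fun c hc => ?_
    rw [Finset.mem_filter, Finset.mem_range] at hc
    have h2 : ∀ p ∈ (P.filter (fun p => p.Coprime q)).filter (fun p => p % q = c),
        ee ((p : ℝ) * ((h : ℝ) / q)) = ee (((h : ℤ) : ℝ) * ((c : ℝ) / q)) := by
      intro p hp
      rw [Finset.mem_filter] at hp
      rw [Mpr_ee hq h p, hp.2]
    rw [Finset.sum_congr rfl h2, Finset.sum_const, nsmul_eq_mul]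
    congr 1
    have h3 : (P.filter (fun p => p.Coprime q)).filter (fun p => p % q = c) =
        (Icc 1 ⌊Y⌋₊).filter (fun p => p.Prime ∧ p ≡ c [MOD q]) := by
      ext p
      simp only [hP, Finset.mem_filter]
      constructor
      · rintro ⟨⟨⟨h4, h5⟩, _⟩, h6⟩
        refine ⟨h4, h5, ?_⟩
        rw [Nat.ModEq, h6, Nat.mod_eq_of_lt hc.1]
      · rintro ⟨h4, h5, h6⟩
        refine ⟨⟨⟨h4, h5⟩, ?_⟩, ?_⟩
        · have h7 : Nat.gcd p q = Nat.gcd c q := h6.gcd_eq
          rw [Nat.Coprime, h7]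
          exact hc.2
        · rw [Nat.ModEq, Nat.mod_eq_of_lt hc.1] at h6
          exact h6
    rw [h3]
    unfold primeCount
    push_cast
    rfl
  have hram : ∑ c ∈ (range q).filter (fun c => c.Coprime q),
      ee (((h : ℤ) : ℝ) * ((c : ℝ) / q)) = (((ArithmeticFunction.moebius q : ℝ)) : ℂ) := by
    rw [← h1 q (h : ℤ) hq, Mpr_ram hq hcop]
  have hA2 : ∑ c ∈ (range q).filter (fun c => c.Coprime q),
        ((primeCount Y q c : ℝ) : ℂ) * ee (((h : ℤ) : ℝ) * ((c : ℝ) / q)) =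
      ∑ c ∈ (range q).filter (fun c => c.Coprime q),
        ((err Y q c : ℝ) : ℂ) * ee (((h : ℤ) : ℝ) * ((c : ℝ) / q)) +
      (((ArithmeticFunction.moebius q : ℝ) / (q.totient : ℝ) * li Y : ℝ) : ℂ) := by
    have h2 : (((ArithmeticFunction.moebius q : ℝ) / (q.totient : ℝ) * li Y : ℝ) : ℂ) =
        ((li Y / (q.totient : ℝ) : ℝ) : ℂ) * (((ArithmeticFunction.moebius q : ℝ)) : ℂ) := by
      rw [← Complex.ofReal_mul]
      congr 1
      ring
    rw [h2, ← hram, Finset.mul_sum, ← Finset.sum_add_distrib]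
    refine Finset.sum_congr rfl fun c _ => ?_
    rw [← add_mul, ← Complex.ofReal_add]
    congr 2
    unfold err
    ring
  have hC : ‖∑ c ∈ (range q).filter (fun c => c.Coprime q),
        ((err Y q c : ℝ) : ℂ) * ee (((h : ℤ) : ℝ) * ((c : ℝ) / q))‖ ≤ q * T := by
    refine (norm_sum_le _ _).trans ?_
    have h2 : ∀ c ∈ (range q).filter (fun c => c.Coprime q),
        ‖((err Y q c : ℝ) : ℂ) * ee (((h : ℤ) : ℝ) * ((c : ℝ) / q))‖ ≤ T := by
      intro c hc
      rw [Finset.mem_filter, Finset.mem_range] at hc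
      rw [norm_mul, norm_ee, mul_one, Complex.norm_real, Real.norm_eq_abs]
      exact (Mpr_err Y hc.1 hc.2).trans hT
    refine (Finset.sum_le_card_nsmul _ _ _ h2).trans ?_
    rw [nsmul_eq_mul]
    have h3 : ((range q).filter (fun c => c.Coprime q)).card ≤ q := by
      have := Finset.card_filter_le (range q) (fun c => c.Coprime q)
      rwa [Finset.card_range] at this
    have h4 : (((range q).filter (fun c => c.Coprime q)).card : ℝ) ≤ q := by exact_mod_cast h3
    exact mul_le_mul_of_nonneg_right h4 hT0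
  rw [hA, hA2]
  have h5 : ∀ a b c : ℂ, a + b + c - b = a + c := fun a b c => by ring
  rw [h5]
  refine (norm_add_le _ _).trans ?_
  have h6 : (q : ℝ) * (T + 1) = q * T + q := by ring
  rw [h6]
  exact add_le_add hC hB

end Pool.Agent.Lib.UI
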