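import Pool.Agent.Lib.UI.SpecF

/-!
MP_00e23e_nt, directory Lib/UI, module Msq: mean square of the Ramanujan model.
-/

namespace Pool.Agent.Lib.UI

open Finset Pool.Agent.Lib.EH3 Pool.Agent.Results.MP_00e23e_nt

private noncomputable def Msq_z (R : ℕ) (r _h : ℕ) : ℂ :=
  if r ≤ R then (((ArithmeticFunction.moebius r : ℝ) / (r.totient : ℝ) : ℝ) : ℂ) else 0

private noncomputable def Msq_F (R n r : ℕ) : ℂ :=
  ∑ h ∈ (range r).filter (fun h => h.Coprime r), Msq_z R r h * ee ((n : ℝ) * ((h : ℝ) / r))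

private noncomputable def Msq_X (R i n : ℕ) : ℂ :=
  ∑ r ∈ Ioc (2 ^ i) (2 * 2 ^ i), Msq_F R n r

private lemma Msq_blocks (F : ℕ → ℂ) (I : ℕ) :
    ∑ r ∈ Ioc 1 (2 ^ I), F r = ∑ i ∈ range I, ∑ r ∈ Ioc (2 ^ i) (2 * 2 ^ i), F r := by
  induction I with
  | zero => simp
  | succ I ih =>
    rw [Finset.sum_range_succ, ← ih, pow_succ, mul_comm (2 ^ I) 2]
    rw [Finset.sum_Ioc_consecutive F (Nat.one_le_two_pow) (by omega)]

private lemma Msq_F_one (R n : ℕ) (hR : 1 ≤ R) : Msq_F R n 1 = 1 := by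
  unfold Msq_F Msq_z
  rw [Finset.sum_filter]
  simp [hR, ee]

private lemma Msq_F_eq (h1 : Pool.Agent.Lib.KF.RmxStmt) (R n r : ℕ) (hr : 1 ≤ r) :
    Msq_F R n r = if r ≤ R then
      (((ArithmeticFunction.moebius r : ℝ) / (r.totient : ℝ) * Pool.Agent.Lib.KF.ram r (n : ℤ) : ℝ) : ℂ)
      else 0 := by
  unfold Msq_F Msq_z
  rw [← Finset.mul_sum]
  by_cases h : r ≤ R
  · rw [if_pos h, if_pos h]
    have := h1 r (n : ℤ) hr
    rw [Int.cast_natCast] at this
    rw [← this]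
    push_cast
    ring
  · rw [if_neg h, if_neg h, zero_mul]

private lemma Msq_wR (h1 : Pool.Agent.Lib.KF.RmxStmt) (R n I : ℕ) (hR : 1 ≤ R) (hI : R ≤ 2 ^ I) :
    ((wR R (n : ℤ) : ℝ) : ℂ) = 1 + ∑ i ∈ range I, Msq_X R i n := by
  unfold wR Msq_X
  rw [← Msq_blocks, ← Msq_F_one R n hR]
  have e1 : Msq_F R n 1 + ∑ r ∈ Ioc 1 (2 ^ I), Msq_F R n r = ∑ r ∈ Icc 1 (2 ^ I), Msq_F R n r := by
    rw [← Finset.Ioc_insert_left (Nat.one_le_two_pow), Finset.sum_insert]
    simp
  rw [e1]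
  have e2 : ∑ r ∈ Icc 1 (2 ^ I), Msq_F R n r = ∑ r ∈ Icc 1 R, Msq_F R n r := by
    symm
    apply Finset.sum_subset
    · exact Finset.Icc_subset_Icc_right hI
    · intro r hr hr'
      rw [Finset.mem_Icc] at hr hr'
      rw [Msq_F_eq h1 R n r hr.1, if_neg]
      omega
  rw [e2]
  push_cast
  apply Finset.sum_congr rfl
  intro r hr
  rw [Finset.mem_Icc] at hr
  rw [Msq_F_eq h1 R n r hr.1, if_pos hr.2]
  push_cast
  ring

private lemma Msq_cs (I : ℕ) (a : ℕ → ℂ) :
    ‖1 + ∑ i ∈ range I, a i‖ ^ 2 ≤ ((I : ℝ) + 1) * (1 + ∑ i ∈ range I, ‖a i‖ ^ 2) := by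
  have e1 : ‖1 + ∑ i ∈ range I, a i‖ ≤ 1 + ∑ i ∈ range I, ‖a i‖ := by
    refine (norm_add_le _ _).trans ?_
    rw [norm_one]
    exact add_le_add le_rfl (norm_sum_le _ _)
  set b : ℕ → ℝ := fun i => if i = 0 then 1 else ‖a (i - 1)‖ with hb
  have e2 : ∑ i ∈ range (I + 1), b i = 1 + ∑ i ∈ range I, ‖a i‖ := by
    rw [Finset.sum_range_succ']
    simp [hb, add_comm]
  have e3 : ∑ i ∈ range (I + 1), b i ^ 2 = 1 + ∑ i ∈ range I, ‖a i‖ ^ 2 := by
    rw [Finset.sum_range_succ']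
    simp [hb, add_comm]
  have e4 := sq_sum_le_card_mul_sum_sq (s := range (I + 1)) (f := b)
  rw [e2, e3, Finset.card_range] at e4
  push_cast at e4
  refine le_trans ?_ e4
  exact pow_le_pow_left₀ (norm_nonneg _) e1 2

private lemma Msq_inv_tot (R r : ℕ) (hr : 1 ≤ r) (hR : r ≤ R) :
    (1 : ℝ) / r.totient ≤ 2 * (1 + Real.log (2 * R)) / r := by
  have hφ : (0 : ℝ) < r.totient := by exact_mod_cast Nat.totient_pos.mpr hr
  have hr0 : (0 : ℝ) < r := by exact_mod_cast hr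
  have e1 := EH.le_totient r
  have e2 := EH.card_primeFactors_le hr
  have e3 : Real.log r ≤ Real.log (2 * R) := by
    apply Real.log_le_log hr0
    have : (r : ℝ) ≤ R := by exact_mod_cast hR
    have : (0 : ℝ) ≤ R := by positivity
    linarith
  rw [div_le_div_iff₀ hφ hr0]
  have e4 : ((r.primeFactors.card : ℝ) + 1) * r.totient ≤ (2 * (1 + Real.log (2 * R))) * r.totient := by
    apply mul_le_mul_of_nonneg_right _ hφ.le
    linarith
  linarith

private lemma Msq_zsum (R i : ℕ) :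
    ∑ r ∈ Ioc (2 ^ i) (2 * 2 ^ i), ∑ h ∈ (range r).filter (fun h => h.Coprime r), ‖Msq_z R r h‖ ^ 2 ≤
      2 * (1 + Real.log (2 * R)) := by
  rcases Nat.eq_zero_or_pos R with hR | hR
  · subst hR
    have : ∑ r ∈ Ioc (2 ^ i) (2 * 2 ^ i), ∑ h ∈ (range r).filter (fun h => h.Coprime r), ‖Msq_z 0 r h‖ ^ 2 = 0 := by
      apply Finset.sum_eq_zero
      intro r hr
      rw [Finset.mem_Ioc] at hr
      apply Finset.sum_eq_zero
      intro h _
      unfold Msq_z
      rw [if_neg (by omega)]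
      simp
    rw [this]
    simp
  have hL : 0 ≤ 1 + Real.log (2 * R) := by
    have : 0 ≤ Real.log (2 * R) := by
      apply Real.log_nonneg
      have : (1 : ℝ) ≤ R := by exact_mod_cast hR
      linarith
    linarith
  have hpow : (0 : ℝ) < (2 : ℝ) ^ i := by positivity
  have e1 : ∀ r ∈ Ioc (2 ^ i) (2 * 2 ^ i), ∑ h ∈ (range r).filter (fun h => h.Coprime r), ‖Msq_z R r h‖ ^ 2 ≤
      2 * (1 + Real.log (2 * R)) / 2 ^ i := by
    intro r hr
    rw [Finset.mem_Ioc] at hr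
    have hr1 : 1 ≤ r := by omega
    have hr2 : ((2 : ℝ) ^ i) ≤ r := by exact_mod_cast hr.1.le
    have hφ : (0 : ℝ) < r.totient := by exact_mod_cast Nat.totient_pos.mpr hr1
    by_cases h : r ≤ R
    · have e2 : ∀ h ∈ (range r).filter (fun h => h.Coprime r), ‖Msq_z R r h‖ ^ 2 ≤ (1 / (r.totient : ℝ)) ^ 2 := by
        intro k _
        unfold Msq_z
        rw [if_pos h, Complex.norm_real]
        apply pow_le_pow_left₀ (norm_nonneg _)
        rw [Real.norm_eq_abs, abs_div, abs_of_pos hφ]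
        apply div_le_div_of_nonneg_right _ hφ.le
        exact_mod_cast ArithmeticFunction.abs_moebius_le_one
      have e3 := Finset.sum_le_sum e2
      rw [Finset.sum_const, nsmul_eq_mul] at e3
      have e4 : (((range r).filter (fun h => h.Coprime r)).card : ℝ) = r.totient := by
        have : ((range r).filter (fun h => h.Coprime r)) = (range r).filter r.Coprime := by
          apply Finset.filter_congr
          intro x _
          exact Nat.coprime_comm
        rw [this]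
        rfl
      rw [e4] at e3
      refine e3.trans ?_
      have e5 : (r.totient : ℝ) * (1 / (r.totient : ℝ)) ^ 2 = 1 / r.totient := by
        field_simp
      rw [e5]
      refine (Msq_inv_tot R r hr1 h).trans ?_
      exact div_le_div_of_nonneg_left (by linarith) hpow hr2
    · have : ∑ h ∈ (range r).filter (fun h => h.Coprime r), ‖Msq_z R r h‖ ^ 2 = 0 := by
        apply Finset.sum_eq_zero
        intro k _
        unfold Msq_z
        rw [if_neg h]
        simp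
      rw [this]
      positivity
  refine (Finset.sum_le_sum e1).trans ?_
  rw [Finset.sum_const, nsmul_eq_mul, Nat.card_Ioc]
  have e6 : ((2 * 2 ^ i - 2 ^ i : ℕ) : ℝ) = 2 ^ i := by
    have : 2 * 2 ^ i - 2 ^ i = 2 ^ i := by omega
    rw [this]
    push_cast
    ring
  rw [e6]
  apply le_of_eq
  field_simp

/-- Module Msq: mean square of the model. -/
theorem tMsq (h1 : Pool.Agent.Lib.KF.RmxStmt) (h2 : Pool.Agent.Lib.KF.FlsStmt) : MsqStmt := by
  intro N R hR hN
  set I := Nat.clog 2 R with hI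
  have hI1 : R ≤ 2 ^ I := Nat.le_pow_clog (by norm_num) R
  set Λ : ℝ := 1 + Real.log (2 * R) with hΛ
  have hR1 : (1 : ℝ) ≤ R := by exact_mod_cast hR
  have hlog0 : 0 ≤ Real.log R := Real.log_nonneg hR1
  have hlog2 : Real.log (2 * R) = Real.log 2 + Real.log R := by
    rw [Real.log_mul (by norm_num) (by linarith)]
  have hl2 : 0.6931471803 < Real.log 2 := Real.log_two_gt_d9
  have hΛ1 : 1 ≤ Λ := by
    rw [hΛ, hlog2]
    linarith
  have hN1 : 1 ≤ N := le_trans (Nat.one_le_pow _ _ hR) hN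
  have hNR : (1 : ℝ) ≤ N := by exact_mod_cast hN1
  have hRN : (R : ℝ) ^ 2 ≤ N := by exact_mod_cast hN
  -- the number of blocks
  have hIΛ : (I : ℝ) + 1 ≤ 2 * Λ := by
    rcases Nat.lt_or_ge 1 R with hR2 | hR2
    · have h3 : 2 ^ (I - 1) < R := by
        have := Nat.pow_pred_clog_lt_self (b := 2) (by norm_num) hR2
        simpa [hI] using this
      have h4 : ((I : ℝ) - 1) * Real.log 2 ≤ Real.log R := by
        have hIpos : 1 ≤ I := by
          rw [hI]
          exact Nat.clog_pos (by norm_num) hR2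
        have h5 : ((2 : ℝ)) ^ (I - 1) ≤ R := by exact_mod_cast h3.le
        have h6 := Real.log_le_log (by positivity) h5
        rw [Real.log_pow, Nat.cast_sub hIpos] at h6
        simpa using h6
      have h7 : ((I : ℝ) - 1) ≤ 2 * Real.log R := by
        by_contra hcon
        push Not at hcon
        have : 2 * Real.log R * Real.log 2 < ((I : ℝ) - 1) * Real.log 2 :=
          mul_lt_mul_of_pos_right hcon (by linarith)
        nlinarith
      rw [hΛ, hlog2]
      linarith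
    · have : R = 1 := by omega
      have hI0 : I = 0 := by
        rw [hI, this]
        simp
      rw [hI0]
      push_cast
      linarith
  -- blocks
  have hblk : ∀ i ∈ range I, ∑ n ∈ range (N + 1), ‖Msq_X R i n‖ ^ 2 ≤ 480 * N * Λ := by
    intro i hi
    rw [Finset.mem_range] at hi
    have h3 := h2 (N + 1) (2 ^ i) (Msq_z R) Nat.one_le_two_pow
    have h4 := Msq_zsum R i
    have h5 : 2 ^ i ≤ R := by
      by_contra hcon
      push Not at hcon
      have : I ≤ i := Nat.clog_le_of_le_pow hcon.le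
      omega
    have h6 : ((2 : ℝ) ^ i) ^ 2 ≤ N := by
      have : ((2 : ℝ) ^ i) ≤ R := by exact_mod_cast h5
      calc ((2 : ℝ) ^ i) ^ 2 ≤ (R : ℝ) ^ 2 := pow_le_pow_left₀ (by positivity) this 2
        _ ≤ N := hRN
    have h7 : ∑ n ∈ range (N + 1), ‖Msq_X R i n‖ ^ 2 ≤ 80 * (((N + 1 : ℕ) : ℝ) + (((2 ^ i : ℕ)) : ℝ) ^ 2) *
        ∑ r ∈ Ioc (2 ^ i) (2 * 2 ^ i), ∑ h ∈ (range r).filter (fun h => h.Coprime r), ‖Msq_z R r h‖ ^ 2 := h3
    refine h7.trans ?_
    have h8 : 80 * (((N + 1 : ℕ) : ℝ) + (((2 ^ i : ℕ)) : ℝ) ^ 2) ≤ 240 * N := by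
      push_cast
      linarith
    calc _ ≤ 240 * (N : ℝ) * (2 * Λ) := by
          apply mul_le_mul h8 h4 _ (by positivity)
          exact Finset.sum_nonneg fun _ _ => Finset.sum_nonneg fun _ _ => by positivity
      _ = 480 * N * Λ := by ring
  -- pointwise
  have hpt : ∀ n : ℕ, (wR R (n : ℤ)) ^ 2 ≤ ((I : ℝ) + 1) * (1 + ∑ i ∈ range I, ‖Msq_X R i n‖ ^ 2) := by
    intro n
    have h3 := Msq_wR h1 R n I hR hI1
    have h4 := Msq_cs I (fun i => Msq_X R i n)
    rw [← h3, Complex.norm_real, Real.norm_eq_abs, sq_abs] at h4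
    exact h4
  have hsum : ∑ n ∈ Icc (1 : ℤ) N, (wR R n) ^ 2 ≤ ∑ n ∈ range (N + 1), (wR R (n : ℤ)) ^ 2 := by
    have e1 : ∑ n ∈ Icc (1 : ℤ) N, (wR R n) ^ 2 = ∑ n ∈ Icc 1 N, (wR R ((n : ℕ) : ℤ)) ^ 2 := by
      symm
      apply Finset.sum_bij' (fun (n : ℕ) _ => (n : ℤ)) (fun (n : ℤ) _ => n.toNat)
      · intro a ha
        rw [Finset.mem_Icc] at ha ⊢
        omega
      · intro a ha
        rw [Finset.mem_Icc] at ha ⊢
        omega
      · intro a ha
        simp
      · intro a ha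
        rw [Finset.mem_Icc] at ha
        omega
      · intro a ha
        rfl
    rw [e1]
    apply Finset.sum_le_sum_of_subset_of_nonneg
    · intro n hn
      rw [Finset.mem_Icc] at hn
      rw [Finset.mem_range]
      omega
    · intro _ _ _
      positivity
  refine hsum.trans ?_
  refine (Finset.sum_le_sum (fun n _ => hpt n)).trans ?_
  rw [← Finset.mul_sum, Finset.sum_add_distrib, Finset.sum_const, Finset.card_range, nsmul_eq_mul, mul_one,
    Finset.sum_comm]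
  have h3 := Finset.sum_le_sum hblk
  rw [Finset.sum_const, Finset.card_range, nsmul_eq_mul] at h3
  have hΛ0 : 0 ≤ Λ := by linarith
  have hI0 : (0 : ℝ) ≤ I := by positivity
  have h4 : (I : ℝ) * (480 * N * Λ) ≤ 2 * Λ * (480 * N * Λ) := by
    apply mul_le_mul_of_nonneg_right _ (by positivity)
    linarith
  have h5 : ((N + 1 : ℕ) : ℝ) + ∑ i ∈ range I, ∑ n ∈ range (N + 1), ‖Msq_X R i n‖ ^ 2 ≤
      2 * N + 960 * N * Λ ^ 2 := by
    push_cast
    have : 2 * Λ * (480 * N * Λ) = 960 * N * Λ ^ 2 := by ring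
    linarith
  have h6 : 0 ≤ ((N + 1 : ℕ) : ℝ) + ∑ i ∈ range I, ∑ n ∈ range (N + 1), ‖Msq_X R i n‖ ^ 2 := by
    positivity
  calc ((I : ℝ) + 1) * (((N + 1 : ℕ) : ℝ) + ∑ i ∈ range I, ∑ n ∈ range (N + 1), ‖Msq_X R i n‖ ^ 2)
      ≤ (2 * Λ) * (2 * N + 960 * N * Λ ^ 2) := mul_le_mul hIΛ h5 h6 (by positivity)
    _ = 4 * N * Λ + 1920 * N * Λ ^ 3 := by ring
    _ ≤ 5000 * N * Λ ^ 3 := by
        have h7 : Λ ≤ Λ ^ 3 := by
          calc Λ = Λ * 1 := by ring
            _ ≤ Λ * Λ ^ 2 := mul_le_mul_of_nonneg_left (one_le_pow₀ hΛ1) hΛ0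
            _ = Λ ^ 3 := by ring
        have h8 : 4 * (N : ℝ) * Λ ≤ 4 * N * Λ ^ 3 := mul_le_mul_of_nonneg_left h7 (by positivity)
        have h9 : 0 ≤ (N : ℝ) * Λ ^ 3 := by positivity
        linarith

end Pool.Agent.Lib.UI
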