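import Pool.Agent.Lib.UI.SpecF

/-!
MP_00e23e_nt, Lib/UI, module Msu: sizes of f.
-/

namespace Pool.Agent.Lib.UI

open Finset Pool.Agent.Lib.EH3 Pool.Agent.Results.MP_00e23e_nt

private theorem Msu_ram (h3 : Pool.Agent.Lib.KF.RmxStmt) (r : ℕ) (n : ℤ) (hr : 1 ≤ r) :
    |Pool.Agent.Lib.KF.ram r n| ≤ (r.totient : ℝ) := by
  have h := h3 r n hr
  have h1 : |Pool.Agent.Lib.KF.ram r n| = ‖((Pool.Agent.Lib.KF.ram r n : ℝ) : ℂ)‖ := by
    rw [Complex.norm_real, Real.norm_eq_abs]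
  rw [h1, h]
  refine (norm_sum_le _ _).trans ?_
  have h2 : ∀ h ∈ (range r).filter (fun h => h.Coprime r), ‖ee ((n : ℝ) * ((h : ℝ) / r))‖ ≤ (1 : ℝ) := by
    intro h _
    rw [norm_ee]
  refine (Finset.sum_le_card_nsmul _ _ _ h2).trans ?_
  rw [nsmul_eq_mul, mul_one, Nat.cast_le, Nat.totient_eq_card_coprime]
  refine le_of_eq (congrArg _ (Finset.filter_congr fun h _ => ?_))
  exact Nat.coprime_comm

private theorem Msu_wR (h3 : Pool.Agent.Lib.KF.RmxStmt) (R : ℕ) (n : ℤ) : |wR R n| ≤ (R : ℝ) := by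
  unfold wR
  refine (Finset.abs_sum_le_sum_abs _ _).trans ?_
  have h2 : ∀ r ∈ Icc 1 R, |(ArithmeticFunction.moebius r : ℝ) / (r.totient : ℝ) * Pool.Agent.Lib.KF.ram r n| ≤ (1 : ℝ) := by
    intro r hr
    have hr1 : 1 ≤ r := (Finset.mem_Icc.1 hr).1
    have ht : (0 : ℝ) < (r.totient : ℝ) := by exact_mod_cast Nat.totient_pos.2 hr1
    rw [abs_mul, abs_div, abs_of_pos ht]
    have h4 : |(ArithmeticFunction.moebius r : ℝ)| ≤ 1 := by
      have := ArithmeticFunction.abs_moebius_le_one (n := r)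
      exact_mod_cast this
    calc |(ArithmeticFunction.moebius r : ℝ)| / (r.totient : ℝ) * |Pool.Agent.Lib.KF.ram r n|
        ≤ 1 / (r.totient : ℝ) * (r.totient : ℝ) := by
          refine mul_le_mul (div_le_div_of_nonneg_right h4 ht.le) (Msu_ram h3 r n hr1) (abs_nonneg _) (by positivity)
      _ = 1 := by field_simp
  refine (Finset.sum_le_card_nsmul _ _ _ h2).trans ?_
  rw [nsmul_eq_mul, mul_one, Nat.card_Icc]
  simp

private theorem Msu_ind (n : ℤ) : 0 ≤ (if n.toNat.Prime then (1 : ℝ) else 0) ∧ (if n.toNat.Prime then (1 : ℝ) else 0) ≤ 1 := by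
  split_ifs <;> norm_num

theorem tMsu (h1 : MincStmt) (h2 : MsqStmt) (h3 : Pool.Agent.Lib.KF.RmxStmt) : MsuStmt := by
  refine ⟨?_, ?_, ?_⟩
  · intro R y n hR
    have hR' : (1 : ℝ) ≤ (R : ℝ) := by exact_mod_cast hR
    unfold fm
    split_ifs with h4 h5
    · have h6 := Msu_wR h3 R n
      have h7 := h1.1 n
      have h8 : |lci n * wR R n| ≤ 2 * R := by
        rw [abs_mul, abs_of_nonneg h7.1]
        exact mul_le_mul h7.2 h6 (abs_nonneg _) (by norm_num)
      rw [abs_le] at h8 ⊢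
      constructor <;> linarith [h8.1, h8.2]
    · have h6 := Msu_wR h3 R n
      have h7 := h1.1 n
      have h8 : |lci n * wR R n| ≤ 2 * R := by
        rw [abs_mul, abs_of_nonneg h7.1]
        exact mul_le_mul h7.2 h6 (abs_nonneg _) (by norm_num)
      rw [abs_le] at h8 ⊢
      constructor <;> linarith [h8.1, h8.2]
    · rw [abs_zero]
      positivity
  · intro N R y hR hRN
    have h4 := h2 N R hR hRN
    have h5 : ∀ n : ℤ, (fm R y n) ^ 2 ≤ 2 + 8 * (wR R n) ^ 2 := by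
      intro n
      unfold fm
      have h7 := h1.1 n
      have h8 := Msu_ind n
      split_ifs with h9 h10
      · have h11 : (lci n * wR R n) ^ 2 ≤ 4 * (wR R n) ^ 2 := by
          rw [mul_pow]
          refine mul_le_mul_of_nonneg_right ?_ (sq_nonneg _)
          nlinarith [h7.1, h7.2]
        nlinarith [sq_nonneg (1 + lci n * wR R n)]
      · have h11 : (lci n * wR R n) ^ 2 ≤ 4 * (wR R n) ^ 2 := by
          rw [mul_pow]
          refine mul_le_mul_of_nonneg_right ?_ (sq_nonneg _)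
          nlinarith [h7.1, h7.2]
        nlinarith [sq_nonneg (lci n * wR R n), sq_nonneg (wR R n)]
      · nlinarith [sq_nonneg (wR R n)]
    have hN : (0 : ℝ) ≤ (N : ℝ) := Nat.cast_nonneg N
    have hR' : (1 : ℝ) ≤ (R : ℝ) := by exact_mod_cast hR
    have hL : 0 ≤ Real.log (2 * R) := Real.log_nonneg (by linarith)
    have hL3 : (1 : ℝ) ≤ (1 + Real.log (2 * R)) ^ 3 := one_le_pow₀ (by linarith)
    calc ∑ n ∈ Icc (1 : ℤ) N, (fm R y n) ^ 2 ≤ ∑ n ∈ Icc (1 : ℤ) N, (2 + 8 * (wR R n) ^ 2) :=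
          Finset.sum_le_sum fun n _ => h5 n
      _ = 2 * N + 8 * ∑ n ∈ Icc (1 : ℤ) N, (wR R n) ^ 2 := by
          rw [Finset.sum_add_distrib, Finset.sum_const, ← Finset.mul_sum, Int.card_Icc, nsmul_eq_mul]
          have h6 : ((((N : ℤ) + 1 - 1).toNat : ℕ) : ℝ) = (N : ℝ) := by simp
          rw [h6]
          ring
      _ ≤ 2 * N + 8 * (5000 * N * (1 + Real.log (2 * R)) ^ 3) := by linarith
      _ ≤ 50000 * N * (1 + Real.log (2 * R)) ^ 3 := by nlinarith [mul_le_mul_of_nonneg_left hL3 hN]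
  · intro N R y n hy hn
    unfold fm
    rw [if_neg]
    rintro ⟨h4, h5⟩
    rcases hn with h6 | h6
    · omega
    · have h7 : (⌊y⌋ : ℤ) < (N : ℤ) + 1 := by
        rw [Int.floor_lt]
        exact_mod_cast hy
      omega

end Pool.Agent.Lib.UI
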