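import Pool.Agent.Lib.UI.SpecF

/-!
MP_00e23e_nt, directory Lib/UI, module Mta: the tail of the singular series on average.
-/

namespace Pool.Agent.Lib.UI

open Finset Pool.Agent.Lib.EH3 Pool.Agent.Results.MP_00e23e_nt

private lemma Mta_omega (r : ℕ) (hr : 1 ≤ r) : r.primeFactors.card + 1 ≤ r.divisors.card := by
  have h : insert 1 r.primeFactors ⊆ r.divisors := by
    intro x hx
    rw [Finset.mem_insert] at hx
    rw [Nat.mem_divisors]
    rcases hx with rfl | hx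
    · exact ⟨one_dvd _, by omega⟩
    · exact ⟨Nat.dvd_of_mem_primeFactors hx, by omega⟩
  have h2 := Finset.card_le_card h
  rwa [Finset.card_insert_of_notMem
    (fun h => Nat.not_prime_one (Nat.prime_of_mem_primeFactors h))] at h2

private lemma Mta_card_le (n : ℕ) : (n.divisors.card : ℝ) ≤ 2 * Real.sqrt n := by
  have h : n.divisors ⊆ (Icc 1 n.sqrt) ∪ (Icc 1 n.sqrt).image (fun e => n / e) := by
    intro d hd
    obtain ⟨hd1, hn⟩ := Nat.mem_divisors.1 hd
    obtain ⟨e, rfl⟩ := hd1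
    have hd0 : 0 < d := Nat.pos_of_ne_zero fun h => hn (by simp [h])
    have he0 : 0 < e := Nat.pos_of_ne_zero fun h => hn (by simp [h])
    rw [Finset.mem_union, Finset.mem_image]
    rcases le_total d e with h | h
    · left
      rw [Finset.mem_Icc]
      exact ⟨hd0, Nat.le_sqrt.2 (Nat.mul_le_mul_left d h)⟩
    · right
      refine ⟨e, ?_, Nat.mul_div_cancel _ he0⟩
      rw [Finset.mem_Icc]
      exact ⟨he0, Nat.le_sqrt.2 (Nat.mul_le_mul_right e h)⟩
  have h2 := (Finset.card_le_card h).trans (Finset.card_union_le _ _)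
  have h3 : ((Icc 1 n.sqrt).image (fun e => n / e)).card ≤ n.sqrt :=
    Finset.card_image_le.trans (by simp)
  have h4 : n.divisors.card ≤ 2 * n.sqrt := by
    rw [Nat.card_Icc] at h2
    omega
  have h5 : (n.divisors.card : ℝ) ≤ 2 * (n.sqrt : ℝ) := by exact_mod_cast h4
  have h6 : (n.sqrt : ℝ) ≤ Real.sqrt n := Real.nat_sqrt_le_real_sqrt
  linarith

private lemma Mta_inv_tot (r : ℕ) (hr : 1 ≤ r) :
    1 / (r.totient : ℝ) ≤ 2 / Real.sqrt r := by
  have h1 := Pool.Agent.Lib.EH.le_totient r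
  have h2 : (r.primeFactors.card : ℝ) + 1 ≤ r.divisors.card := by exact_mod_cast Mta_omega r hr
  have h3 := Mta_card_le r
  have hr0 : (0 : ℝ) < r := by exact_mod_cast hr
  have hs : 0 < Real.sqrt r := Real.sqrt_pos.2 hr0
  have ht : (0 : ℝ) < r.totient := by exact_mod_cast Nat.totient_pos.2 hr
  have h4 : (r : ℝ) ≤ 2 * Real.sqrt r * r.totient :=
    h1.trans (mul_le_mul_of_nonneg_right (h2.trans h3) ht.le)
  have h5 : Real.sqrt r * Real.sqrt r = r := Real.mul_self_sqrt hr0.le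
  have h6 : Real.sqrt r ≤ 2 * r.totient := by
    have : Real.sqrt r * Real.sqrt r ≤ Real.sqrt r * (2 * r.totient) := by linarith
    exact le_of_mul_le_mul_left this hs
  rw [div_le_div_iff₀ ht hs]
  linarith

private lemma Mta_step (r : ℕ) (hr : 1 ≤ r) :
    4 / (((r + 1 : ℕ) : ℝ) * Real.sqrt ((r + 1 : ℕ) : ℝ)) ≤
      8 / Real.sqrt r - 8 / Real.sqrt ((r + 1 : ℕ) : ℝ) := by
  have hr0 : (0 : ℝ) < r := by exact_mod_cast hr
  have hr1 : (0 : ℝ) < ((r + 1 : ℕ) : ℝ) := by positivity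
  set a := Real.sqrt (r : ℝ) with ha
  set b := Real.sqrt ((r + 1 : ℕ) : ℝ) with hb
  have ha0 : 0 < a := Real.sqrt_pos.2 hr0
  have hb0 : 0 < b := Real.sqrt_pos.2 hr1
  have ha2 : a * a = r := Real.mul_self_sqrt hr0.le
  have hb2 : b * b = ((r + 1 : ℕ) : ℝ) := Real.mul_self_sqrt hr1.le
  have hab : b * b = a * a + 1 := by
    rw [ha2, hb2]
    push_cast
    ring
  have hle : a ≤ b := Real.sqrt_le_sqrt (by push_cast; linarith)
  rw [← hb2, div_sub_div _ _ ha0.ne' hb0.ne', div_le_div_iff₀ (by positivity) (by positivity)]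
  have h1 : (b - a) * (b + a) = 1 := by linear_combination hab
  have h2 : 0 ≤ b - a := by linarith
  have h3 : a ≤ 2 * b * b * (b - a) := by
    nlinarith [mul_nonneg h2 h2, mul_nonneg hb0.le h2, mul_pos ha0 hb0,
      mul_nonneg (mul_nonneg hb0.le h2) h2]
  nlinarith [mul_le_mul_of_nonneg_left h3 hb0.le]

private lemma Mta_tail (R : ℕ) (hR : 1 ≤ R) (N : ℕ) (hN : R ≤ N) :
    ∑ r ∈ Ioc R N, 4 / ((r : ℝ) * Real.sqrt r) ≤ 8 / Real.sqrt R - 8 / Real.sqrt N := by
  induction N, hN using Nat.le_induction with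
  | base => simp
  | succ N hN ih =>
    rw [Finset.sum_Ioc_succ_top (by omega : R ≤ N)]
    have h := Mta_step N (hR.trans hN)
    linarith

private lemma Mta_tail2 (R : ℕ) (hR : 1 ≤ R) (N : ℕ) :
    ∑ r ∈ Ioc R N, 4 / ((r : ℝ) * Real.sqrt r) ≤ 8 / Real.sqrt R := by
  rcases le_total R N with h | h
  · have h1 := Mta_tail R hR N h
    have h2 : 0 ≤ 8 / Real.sqrt (N : ℝ) := by positivity
    linarith
  · rw [Finset.Ioc_eq_empty (by omega), Finset.sum_empty]
    positivity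

private lemma Mta_part (Q R : ℕ) (hQ : 1 ≤ Q) (hR : 1 ≤ R) :
    ∑ d ∈ Ioc Q (2 * Q), (1 / (d : ℝ)) * ∑ r ∈ d.divisors.filter (fun r => R < r), 1 / (r.totient : ℝ) ≤
      8 / Real.sqrt R := by
  have hQp : (0 : ℝ) < Q := by exact_mod_cast hQ
  have e1 : ∀ d ∈ Ioc Q (2 * Q), (1 / (d : ℝ)) *
      ∑ r ∈ d.divisors.filter (fun r => R < r), 1 / (r.totient : ℝ) ≤
      ∑ r ∈ Ioc R (2 * Q), if r ∣ d then (1 / (Q : ℝ)) * (1 / (r.totient : ℝ)) else 0 := by
    intro d hd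
    obtain ⟨hd3, hd4⟩ := Finset.mem_Ioc.1 hd
    rw [← Finset.sum_filter, Finset.mul_sum]
    have hsub : d.divisors.filter (fun r => R < r) ⊆ (Ioc R (2 * Q)).filter (fun r => r ∣ d) := by
      intro r hr
      obtain ⟨hr1, hr2⟩ := Finset.mem_filter.1 hr
      exact Finset.mem_filter.2 ⟨Finset.mem_Ioc.2 ⟨hr2, (Nat.divisor_le hr1).trans hd4⟩,
        Nat.dvd_of_mem_divisors hr1⟩
    refine (Finset.sum_le_sum fun r _ => ?_).trans
      (Finset.sum_le_sum_of_subset_of_nonneg hsub fun _ _ _ => by positivity)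
    refine mul_le_mul_of_nonneg_right ?_ (by positivity)
    exact one_div_le_one_div_of_le hQp (by exact_mod_cast hd3.le)
  refine (Finset.sum_le_sum e1).trans ?_
  rw [Finset.sum_comm]
  refine (Finset.sum_le_sum fun r hr => ?_).trans (Mta_tail2 R hR (2 * Q))
  obtain ⟨hr1, hr2⟩ := Finset.mem_Ioc.1 hr
  have hr1' : 1 ≤ r := by omega
  have hr0 : (0 : ℝ) < r := by exact_mod_cast hr1'
  have hs : 0 < Real.sqrt r := Real.sqrt_pos.2 hr0
  rw [← Finset.sum_filter, Finset.sum_const, nsmul_eq_mul]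
  have hcard : (((Ioc Q (2 * Q)).filter (fun d => r ∣ d)).card : ℝ) ≤ 2 * Q / r := by
    have hc1 : (Ioc Q (2 * Q)).filter (fun d => r ∣ d) ⊆ (Ioc 0 (2 * Q)).filter (fun d => r ∣ d) :=
      Finset.filter_subset_filter _ (Finset.Ioc_subset_Ioc_left (by omega))
    have hc2 := Finset.card_le_card hc1
    rw [Nat.Ioc_filter_dvd_card_eq_div] at hc2
    calc (((Ioc Q (2 * Q)).filter (fun d => r ∣ d)).card : ℝ) ≤ ((2 * Q / r : ℕ) : ℝ) := by exact_mod_cast hc2
      _ ≤ ((2 * Q : ℕ) : ℝ) / r := Nat.cast_div_le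
      _ = 2 * Q / r := by push_cast; ring
  calc (((Ioc Q (2 * Q)).filter (fun d => r ∣ d)).card : ℝ) * ((1 / (Q : ℝ)) * (1 / (r.totient : ℝ)))
      ≤ (2 * Q / r) * ((1 / (Q : ℝ)) * (2 / Real.sqrt r)) := by
        refine mul_le_mul hcard ?_ (by positivity) (by positivity)
        exact mul_le_mul_of_nonneg_left (Mta_inv_tot r hr1') (by positivity)
    _ = 4 / ((r : ℝ) * Real.sqrt r) := by
        field_simp
        ring

theorem tMta (h1 : Pool.Agent.Lib.KF.LphStmt) : MtaStmt := by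
  intro Q R hQ hR
  refine (Finset.sum_le_sum fun d hd => ?_).trans (Mta_part Q R hQ hR)
  obtain ⟨hd1, hd2⟩ := Finset.mem_Ioc.1 hd
  have hd0 : (0 : ℝ) < d := by exact_mod_cast (by omega : 0 < d)
  rw [← h1.2 d (by omega), ← mul_sub, abs_mul, abs_of_nonneg (by positivity : (0 : ℝ) ≤ 1 / (d : ℝ))]
  refine mul_le_mul_of_nonneg_left ?_ (by positivity)
  have h2 : ∑ r ∈ d.divisors, ((ArithmeticFunction.moebius r : ℝ)) ^ 2 / (r.totient : ℝ) =
      (∑ r ∈ d.divisors.filter (fun r => r ≤ R), ((ArithmeticFunction.moebius r : ℝ)) ^ 2 / (r.totient : ℝ)) +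
      ∑ r ∈ d.divisors.filter (fun r => R < r), ((ArithmeticFunction.moebius r : ℝ)) ^ 2 / (r.totient : ℝ) := by
    rw [← Finset.sum_filter_add_sum_filter_not d.divisors (fun r => r ≤ R)]
    congr 1
    refine Finset.sum_congr (Finset.filter_congr fun r _ => not_le) fun _ _ => rfl
  rw [h2, sub_add_cancel_left, abs_neg]
  have hmu : ∀ r : ℕ, 0 ≤ ((ArithmeticFunction.moebius r : ℝ)) ^ 2 / (r.totient : ℝ) ∧
      ((ArithmeticFunction.moebius r : ℝ)) ^ 2 / (r.totient : ℝ) ≤ 1 / (r.totient : ℝ) := by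
    intro r
    refine ⟨by positivity, div_le_div_of_nonneg_right ?_ (by positivity)⟩
    have h4 : |(ArithmeticFunction.moebius r : ℤ)| ≤ 1 := ArithmeticFunction.abs_moebius_le_one
    have h5 : |((ArithmeticFunction.moebius r : ℤ) : ℝ)| ≤ 1 := by exact_mod_cast h4
    rw [← sq_abs]
    exact pow_le_one₀ (abs_nonneg _) h5
  rw [abs_of_nonneg (Finset.sum_nonneg fun r _ => (hmu r).1)]
  exact Finset.sum_le_sum fun r _ => (hmu r).2

end Pool.Agent.Lib.UI
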