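import Pool.Agent.Lib.UI.SpecF

/-!
MP_00e23e_nt, Lib/UI, part F: monotone weights and a geometric sum.
-/

namespace Pool.Agent.Lib.UI

open Finset Pool.Agent.Lib.EH3 Pool.Agent.Results.MP_00e23e_nt

/-- Abel summation for a decreasing weight. -/
private theorem Mws_abel (w : ℕ → ℝ) (e : ℕ → ℂ) (B : ℝ) (hw0 : ∀ i, 0 ≤ w i)
    (hw : ∀ i, w (i + 1) ≤ w i) (he : ∀ m, ‖∑ i ∈ range m, e i‖ ≤ B) (n : ℕ) :
    ‖∑ i ∈ range n, (w i : ℂ) * e i‖ ≤ w 0 * B := by
  have hB : 0 ≤ B := by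
    have := he 0
    simpa using this
  have key : ∀ n, ∑ i ∈ range n, (w i : ℂ) * e i =
      (w n : ℂ) * ∑ i ∈ range n, e i +
        ∑ i ∈ range n, ((w i - w (i + 1) : ℝ) : ℂ) * ∑ k ∈ range (i + 1), e k := by
    intro n
    induction n with
    | zero => simp
    | succ n ih =>
      rw [sum_range_succ, ih, sum_range_succ (fun i => ((w i - w (i + 1) : ℝ) : ℂ) *
        ∑ k ∈ range (i + 1), e k), sum_range_succ e n]
      push_cast
      ring
  have key2 : ∀ n, ∑ i ∈ range n, (w i - w (i + 1)) = w 0 - w n := by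
    intro n
    induction n with
    | zero => simp
    | succ n ih =>
      rw [sum_range_succ, ih]
      ring
  rw [key n]
  refine (norm_add_le _ _).trans ?_
  have h1 : ‖(w n : ℂ) * ∑ i ∈ range n, e i‖ ≤ w n * B := by
    rw [norm_mul, Complex.norm_real, Real.norm_eq_abs, abs_of_nonneg (hw0 n)]
    exact mul_le_mul_of_nonneg_left (he n) (hw0 n)
  have h2 : ‖∑ i ∈ range n, ((w i - w (i + 1) : ℝ) : ℂ) * ∑ k ∈ range (i + 1), e k‖ ≤
      (w 0 - w n) * B := by
    rw [← key2 n, sum_mul]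
    refine (norm_sum_le _ _).trans (sum_le_sum fun i _ => ?_)
    have h3 : 0 ≤ w i - w (i + 1) := by linarith [hw i]
    rw [norm_mul, Complex.norm_real, Real.norm_eq_abs, abs_of_nonneg h3]
    exact mul_le_mul_of_nonneg_left (he (i + 1)) h3
  linarith

private theorem Mws_ne {r d : ℕ} {b : ℤ} (hr : 1 ≤ r) (h : ¬ (r : ℤ) ∣ d * b) :
    4 / (r : ℝ) ≤ ‖ee ((d : ℝ) * b / r) - 1‖ := by
  set t : ℝ := (d : ℝ) * b / r with ht
  have hr0 : (0 : ℝ) < r := by exact_mod_cast hr
  have h1 : |t - round t| ≤ 1 / 2 := abs_sub_round t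
  have h2 := norm_ee_sub_one h1
  have h3 : ee (t - round t) = ee t := by
    have h4 : t = (t - round t) + ((round t : ℤ) : ℝ) := by ring
    conv_rhs => rw [h4, ee_add, ee_int, mul_one]
  rw [h3] at h2
  refine le_trans ?_ h2
  have h5 : t - round t = (((d : ℤ) * b - r * round t : ℤ) : ℝ) / r := by
    push_cast
    rw [ht]
    field_simp
  have h6 : ((d : ℤ) * b - r * round t : ℤ) ≠ 0 := by
    intro h7
    apply h
    exact ⟨round t, by linarith⟩
  have h7 : (1 : ℝ) ≤ |(((d : ℤ) * b - r * round t : ℤ) : ℝ)| := by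
    rw [← Int.cast_abs]
    exact_mod_cast Int.one_le_abs h6
  have h8 : 1 / (r : ℝ) ≤ |t - round t| := by
    rw [h5, abs_div, abs_of_pos hr0]
    exact div_le_div_of_nonneg_right h7 hr0.le
  have h9 : 4 / (r : ℝ) = 4 * (1 / r) := by ring
  rw [h9]
  linarith

private theorem Mws_mono (h1 : MincStmt) (n : ℤ) (hn : 3 ≤ n) (d : ℕ) : lci (n + d) ≤ lci n := by
  induction d with
  | zero => simp
  | succ d ih =>
    have h2 := h1.2.1 (n + d) (by omega)
    have h3 : n + ((d + 1 : ℕ) : ℤ) = n + d + 1 := by push_cast; ring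
    rw [h3]
    exact h2.trans ih

/-- Module Mws: monotone weights and a geometric sum. -/
theorem tMws (h1 : MincStmt) : MwsStmt := by
  intro r d a b u v hr hd hdiv
  have hr0 : (0 : ℝ) < r := by exact_mod_cast hr
  set t : ℝ := (d : ℝ) * b / r with ht
  have hz : 4 / (r : ℝ) ≤ ‖ee t - 1‖ := Mws_ne hr hdiv
  have hz0 : 0 < ‖ee t - 1‖ := lt_of_lt_of_le (by positivity) hz
  have hz1 : ee t ≠ 1 := by
    intro h
    rw [h, sub_self, norm_zero] at hz0
    exact lt_irrefl _ hz0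
  -- the first index with a + d j ≥ 3
  obtain ⟨j₀, hj1, hj2⟩ : ∃ j₀ : ℤ, 3 ≤ a + d * j₀ ∧ ∀ j, j < j₀ → a + d * j < 3 := by
    have hd0 : (0 : ℤ) < d := by exact_mod_cast hd
    refine ⟨-((a - 3) / (d : ℤ)), ?_, ?_⟩
    · have h2 := Int.mul_ediv_self_le (x := a - 3) (k := (d : ℤ)) hd0.ne'
      linarith
    · intro j hj
      have h2 := Int.lt_mul_ediv_self_add (x := a - 3) (k := (d : ℤ)) hd0
      have h3 : j + 1 ≤ -((a - 3) / (d : ℤ)) := hj
      have h4 : (d : ℤ) * (j + 1) ≤ d * (-((a - 3) / (d : ℤ))) :=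
        mul_le_mul_of_nonneg_left h3 hd0.le
      linarith
  -- remove the vanishing terms
  have hcut : ∑ j ∈ Ico u v, ((lci (a + d * j) : ℝ) : ℂ) * ee ((j : ℝ) * t) =
      ∑ j ∈ Ico (max u j₀) v, ((lci (a + d * j) : ℝ) : ℂ) * ee ((j : ℝ) * t) := by
    symm
    refine sum_subset ?_ ?_
    · intro j hj
      rw [mem_Ico] at hj ⊢
      omega
    · intro j hj hj'
      rw [mem_Ico] at hj hj'
      have h2 : a + d * j < 3 := hj2 j (by omega)
      unfold lci
      rw [if_neg (by omega)]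
      simp
  rw [hcut]
  set p : ℤ := max u j₀ with hp
  have hpj : j₀ ≤ p := le_max_right _ _
  have hap : 3 ≤ a + d * p := by
    have h2 : (d : ℤ) * j₀ ≤ d * p := mul_le_mul_of_nonneg_left hpj (by positivity)
    linarith
  have hshift : ∑ j ∈ Ico p v, ((lci (a + d * j) : ℝ) : ℂ) * ee ((j : ℝ) * t) =
      ∑ i ∈ range (v - p).toNat, ((lci (a + d * (p + i)) : ℝ) : ℂ) *
        (ee ((p : ℝ) * t) * ee t ^ i) := by
    refine sum_nbij' (fun j => (j - p).toNat) (fun i => p + (i : ℤ)) ?_ ?_ ?_ ?_ ?_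
    · intro j hj
      rw [mem_Ico] at hj
      rw [mem_range]
      omega
    · intro i hi
      rw [mem_range] at hi
      rw [mem_Ico]
      omega
    · intro j hj
      rw [mem_Ico] at hj
      omega
    · intro i _
      omega
    · intro j hj
      rw [mem_Ico] at hj
      have h2 : p + ((j - p).toNat : ℤ) = j := by omega
      rw [h2, ← ee_nat_mul, ← ee_add]
      congr 2
      have h3 : (((j - p).toNat : ℕ) : ℝ) = (j : ℝ) - p := by
        have h4 : (((j - p).toNat : ℤ) : ℝ) = ((j - p : ℤ) : ℝ) := by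
          congr 1
          omega
        push_cast at h4
        exact h4
      rw [h3]
      ring
  rw [hshift]
  have hgeo : ∀ m, ‖∑ i ∈ range m, (ee ((p : ℝ) * t) * ee t ^ i)‖ ≤ (r : ℝ) / 2 := by
    intro m
    rw [← mul_sum, norm_mul, norm_ee, one_mul, geom_sum_eq hz1, norm_div]
    have h2 : ‖ee t ^ m - 1‖ ≤ 2 := by
      refine (norm_sub_le _ _).trans ?_
      rw [norm_pow, norm_ee, one_pow, norm_one]
      norm_num
    calc ‖ee t ^ m - 1‖ / ‖ee t - 1‖ ≤ 2 / (4 / (r : ℝ)) :=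
          div_le_div₀ (by norm_num) h2 (by positivity) hz
      _ = (r : ℝ) / 2 := by
          field_simp
          norm_num
  have hfin := Mws_abel (fun i => lci (a + d * (p + i))) (fun i => ee ((p : ℝ) * t) * ee t ^ i)
    ((r : ℝ) / 2) (fun i => (h1.1 _).1) (fun i => by
      have h2 : a + d * (p + ((i + 1 : ℕ) : ℤ)) = (a + d * (p + i)) + d := by
        push_cast
        ring
      change lci (a + d * (p + ((i + 1 : ℕ) : ℤ))) ≤ lci (a + d * (p + (i : ℤ)))
      rw [h2]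
      refine Mws_mono h1 _ ?_ d
      have h3 : (0 : ℤ) ≤ d * i := by positivity
      linarith) hgeo (v - p).toNat
  refine hfin.trans ?_
  have h2 := (h1.1 (a + d * (p + ((0 : ℕ) : ℤ)))).2
  have h3 : (0 : ℝ) ≤ (r : ℝ) / 2 := by positivity
  calc lci (a + d * (p + ((0 : ℕ) : ℤ))) * ((r : ℝ) / 2) ≤ 2 * ((r : ℝ) / 2) :=
        mul_le_mul_of_nonneg_right h2 h3
    _ = r := by ring

end Pool.Agent.Lib.UI
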