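import Pool.Agent.Lib.UI.SpecF

/-!
MP_00e23e_nt, directory Lib/UI, module Mzs: the increments of li in a residue class.
-/

namespace Pool.Agent.Lib.UI

open Finset Pool.Agent.Lib.EH3 Pool.Agent.Results.MP_00e23e_nt

/-- the sum over a class -/
private noncomputable def Mzs_S (d : ℕ) (Y a : ℤ) : ℝ :=
  ∑ n ∈ (Icc (1 : ℤ) Y).filter (fun n => (d : ℤ) ∣ n - a), lci n

private theorem Mzs_anti (h1 : MincStmt) (n : ℤ) (hn : 3 ≤ n) (j : ℕ) : lci (n + j) ≤ lci n := by
  induction j with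
  | zero => simp
  | succ j ih =>
    have h2 := h1.2.1 (n + j) (by omega)
    have h3 : n + ((j + 1 : ℕ) : ℤ) = n + j + 1 := by push_cast; ring
    rw [h3]
    exact le_trans h2 ih

private theorem Mzs_step (h1 : MincStmt) (d : ℕ) (Y a : ℤ) (j : ℕ) (hj : j < d) :
    Mzs_S d Y (a + j) ≤ Mzs_S d Y a + 2 := by
  classical
  unfold Mzs_S
  set F := (Icc (1 : ℤ) Y).filter (fun n => (d : ℤ) ∣ n - (a + j)) with hF
  rw [← Finset.sum_filter_add_sum_filter_not F (fun m => 3 ≤ m - (j : ℤ))]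
  apply add_le_add
  · calc ∑ m ∈ F.filter (fun m => 3 ≤ m - (j : ℤ)), lci m
        ≤ ∑ m ∈ F.filter (fun m => 3 ≤ m - (j : ℤ)), lci (m - j) := by
          apply Finset.sum_le_sum
          intro m hm
          have h2 := Mzs_anti h1 (m - j) (Finset.mem_filter.mp hm).2 j
          rwa [sub_add_cancel] at h2
      _ = ∑ n ∈ (F.filter (fun m => 3 ≤ m - (j : ℤ))).image (fun m => m - (j : ℤ)), lci n := by
          rw [Finset.sum_image]
          intro x _ y _ hxy
          have : x - (j : ℤ) = y - j := hxy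
          omega
      _ ≤ ∑ n ∈ (Icc (1 : ℤ) Y).filter (fun n => (d : ℤ) ∣ n - a), lci n := by
          apply Finset.sum_le_sum_of_subset_of_nonneg
          · intro n hn
            obtain ⟨m, hm, rfl⟩ := Finset.mem_image.mp hn
            obtain ⟨hm1, hm2⟩ := Finset.mem_filter.mp hm
            rw [hF] at hm1
            obtain ⟨hm3, hm4⟩ := Finset.mem_filter.mp hm1
            obtain ⟨hm5, hm6⟩ := Finset.mem_Icc.mp hm3
            refine Finset.mem_filter.mpr ⟨Finset.mem_Icc.mpr ⟨by omega, by omega⟩, ?_⟩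
            have h3 : m - (j : ℤ) - a = m - (a + j) := by ring
            rw [h3]
            exact hm4
          · intro n _ _
            exact (h1.1 n).1
  · have h2 : ∑ m ∈ F.filter (fun m => ¬ 3 ≤ m - (j : ℤ)), lci m =
        ∑ m ∈ (F.filter (fun m => ¬ 3 ≤ m - (j : ℤ))).filter (fun m => 3 ≤ m), lci m := by
      symm
      apply Finset.sum_subset (Finset.filter_subset _ _)
      intro m hm hm'
      have h3 : ¬ 3 ≤ m := fun h => hm' (Finset.mem_filter.mpr ⟨hm, h⟩)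
      unfold lci
      rw [if_neg h3]
    rw [h2]
    set G := (F.filter (fun m => ¬ 3 ≤ m - (j : ℤ))).filter (fun m => 3 ≤ m) with hG
    have h4 : G.card ≤ 1 := by
      rw [Finset.card_le_one]
      intro x hx y hy
      have key : ∀ z ∈ G, 3 ≤ z ∧ z < 3 + j ∧ (d : ℤ) ∣ z - (a + j) := by
        intro z hz
        rw [hG] at hz
        obtain ⟨hz1, hz2⟩ := Finset.mem_filter.mp hz
        obtain ⟨hz3, hz4⟩ := Finset.mem_filter.mp hz1
        rw [hF] at hz3
        exact ⟨hz2, by omega, (Finset.mem_filter.mp hz3).2⟩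
      obtain ⟨hx1, hx2, hx3⟩ := key x hx
      obtain ⟨hy1, hy2, hy3⟩ := key y hy
      have h5 : (d : ℤ) ∣ x - y := by
        have h6 := dvd_sub hx3 hy3
        have h7 : x - (a + j) - (y - (a + j)) = x - y := by ring
        rwa [h7] at h6
      have h8 : (j : ℤ) < d := by exact_mod_cast hj
      have h9 : x - y = 0 := Int.eq_zero_of_abs_lt_dvd h5 (by
        rw [abs_lt]
        constructor <;> omega)
      omega
    have h10 : ∑ m ∈ G, lci m ≤ G.card • (2 : ℝ) :=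
      Finset.sum_le_card_nsmul G _ 2 (fun m _ => (h1.1 m).2)
    rw [nsmul_eq_mul] at h10
    have h11 : (G.card : ℝ) ≤ 1 := by exact_mod_cast h4
    linarith

private theorem Mzs_shift (d : ℕ) (Y a : ℤ) : Mzs_S d Y (a + d) = Mzs_S d Y a := by
  unfold Mzs_S
  apply Finset.sum_congr _ (fun _ _ => rfl)
  apply Finset.filter_congr
  intro n _
  have h : n - (a + (d : ℤ)) = (n - a) - d := by ring
  rw [h]
  exact dvd_sub_self_right

private theorem Mzs_step' (h1 : MincStmt) (d : ℕ) (Y a : ℤ) (j : ℕ) (hj : j < d) :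
    Mzs_S d Y a ≤ Mzs_S d Y (a + j) + 2 := by
  rcases Nat.eq_zero_or_pos j with h0 | h0
  · subst h0
    have h2 : a + ((0 : ℕ) : ℤ) = a := by simp
    rw [h2]
    linarith
  · have h2 := Mzs_step h1 d Y (a + j) (d - j) (by omega)
    have h3 : a + (j : ℤ) + ((d - j : ℕ) : ℤ) = a + d := by
      rw [Nat.cast_sub hj.le]
      ring
    rw [h3, Mzs_shift] at h2
    exact h2

private theorem Mzs_total (d : ℕ) (hd : 1 ≤ d) (Y a : ℤ) :
    ∑ j ∈ Finset.range d, Mzs_S d Y (a + j) = ∑ n ∈ Icc (1 : ℤ) Y, lci n := by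
  unfold Mzs_S
  simp_rw [Finset.sum_filter]
  rw [Finset.sum_comm]
  apply Finset.sum_congr rfl
  intro n _
  have hd' : (0 : ℤ) < d := by exact_mod_cast hd
  have h2 := Int.emod_nonneg (n - a) hd'.ne'
  have h3 := Int.emod_lt_of_pos (n - a) hd'
  have h4 := Int.emod_add_mul_ediv (n - a) d
  rw [Finset.sum_eq_single ((n - a) % d).toNat]
  · rw [if_pos]
    refine ⟨(n - a) / d, ?_⟩
    rw [Int.toNat_of_nonneg h2]
    linarith
  · intro j hj hne
    rw [if_neg]
    intro hdvd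
    apply hne
    have hj' : (j : ℤ) < d := by exact_mod_cast Finset.mem_range.mp hj
    have h5 : (d : ℤ) ∣ ((n - a) % d) - j := by
      obtain ⟨c, hc⟩ := hdvd
      refine ⟨c - (n - a) / d, ?_⟩
      rw [mul_sub, ← hc]
      linarith
    have h6 : (n - a) % d - (j : ℤ) = 0 := Int.eq_zero_of_abs_lt_dvd h5 (by
      rw [abs_lt]
      constructor <;> omega)
    omega
  · intro h
    exfalso
    apply h
    rw [Finset.mem_range]
    omega

theorem tMzs (h1 : MincStmt) : MzsStmt := by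
  intro d a y hd hy
  have hY : (2 : ℤ) ≤ ⌊y⌋ := Int.le_floor.mpr (by exact_mod_cast hy)
  have hdR : (1 : ℝ) ≤ d := by exact_mod_cast hd
  have hd0 : (0 : ℝ) < d := by linarith
  have hS : (∑ n ∈ (Icc (1 : ℤ) ⌊y⌋).filter (fun n => (d : ℤ) ∣ n - a), lci n) =
      Mzs_S d ⌊y⌋ a := rfl
  rw [hS]
  have htot : ∑ n ∈ Icc (1 : ℤ) ⌊y⌋, lci n = li ((⌊y⌋ : ℤ) : ℝ) := by
    have h2 := h1.2.2.1 (⌊y⌋ + 1) (by omega)
    have h3 : Ico (1 : ℤ) (⌊y⌋ + 1) = Icc (1 : ℤ) ⌊y⌋ := by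
      ext n
      rw [Finset.mem_Ico, Finset.mem_Icc]
      omega
    rw [h3] at h2
    rw [h2]
    congr 1
    push_cast
    ring
  have hup : (d : ℝ) * Mzs_S d ⌊y⌋ a ≤ li ((⌊y⌋ : ℤ) : ℝ) + 2 * d := by
    rw [← htot, ← Mzs_total d hd ⌊y⌋ a]
    have h2 : ∑ _j ∈ Finset.range d, Mzs_S d ⌊y⌋ a ≤
        ∑ j ∈ Finset.range d, (Mzs_S d ⌊y⌋ (a + j) + 2) :=
      Finset.sum_le_sum (fun j hj => Mzs_step' h1 d ⌊y⌋ a j (Finset.mem_range.mp hj))
    rw [Finset.sum_const, Finset.card_range, nsmul_eq_mul, Finset.sum_add_distrib,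
      Finset.sum_const, Finset.card_range, nsmul_eq_mul] at h2
    linarith
  have hlo : li ((⌊y⌋ : ℤ) : ℝ) ≤ (d : ℝ) * Mzs_S d ⌊y⌋ a + 2 * d := by
    rw [← htot, ← Mzs_total d hd ⌊y⌋ a]
    have h2 : ∑ j ∈ Finset.range d, Mzs_S d ⌊y⌋ (a + j) ≤
        ∑ _j ∈ Finset.range d, (Mzs_S d ⌊y⌋ a + 2) :=
      Finset.sum_le_sum (fun j hj => Mzs_step h1 d ⌊y⌋ a j (Finset.mem_range.mp hj))
    rw [Finset.sum_const, Finset.card_range, nsmul_eq_mul] at h2
    linarith
  obtain ⟨hm1, hm2⟩ := h1.2.2.2 y hy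
  have e1 : Mzs_S d ⌊y⌋ a - li y / d = (d * Mzs_S d ⌊y⌋ a - li y) / d := by
    field_simp
  rw [e1, abs_div, abs_of_pos hd0, div_le_iff₀ hd0, abs_le]
  constructor
  · nlinarith
  · nlinarith

end Pool.Agent.Lib.UI
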