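import Pool.Agent.Lib.UI.SpecF
import Pool.Agent.Lib.EH4.Triv

/-!
MP_00e23e_nt, Lib/UI, module Trb: the trivial bound.
-/

namespace Pool.Agent.Lib.UI

open Finset Pool.Agent.Lib.EH3 Pool.Agent.Results.MP_00e23e_nt

private theorem Trb_count {x z : ℝ} (hx : 3 ≤ x) (hz : z ≤ x) {d : ℕ} (a : ℤ) (hd : 1 ≤ d) :
    (resCount z d a : ℝ) ≤ x / d + 1 := by
  have hd0 : (d : ℤ) ≠ 0 := by exact_mod_cast (by omega : d ≠ 0)
  obtain ⟨b, hb⟩ := Int.eq_ofNat_of_zero_le (Int.emod_nonneg a hd0)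
  have h1 : resCount z d a ≤ primeCount x d b := by
    unfold resCount primeCount
    refine Finset.card_le_card fun p hp => ?_
    rw [mem_filter, mem_Icc] at hp ⊢
    refine ⟨⟨hp.1.1, hp.1.2.trans (Nat.floor_le_floor hz)⟩, hp.2.1, ?_⟩
    have h2 : (p : ℤ) ≡ a [ZMOD d] := (Int.modEq_iff_dvd.2 (by
      have := (dvd_neg (a := (d : ℤ))).2 hp.2.2
      rwa [neg_sub] at this))
    rw [← Int.natCast_modEq_iff]
    have h3 : ((b : ℕ) : ℤ) ≡ a [ZMOD d] := by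
      have : ((b : ℕ) : ℤ) = a % d := hb.symm
      rw [this]
      exact Int.mod_modEq a d
    exact h2.trans h3.symm
  have h2 := Pool.Agent.Lib.EH4.Triv_count hx b hd
  have h3 : (resCount z d a : ℝ) ≤ (primeCount x d b : ℝ) := by exact_mod_cast h1
  exact h3.trans h2

private theorem Trb_term {x z : ℝ} (hx : 3 ≤ x) (hz2 : 2 ≤ z) (hz : z ≤ x) {d : ℕ} (a : ℤ) (hd : 1 ≤ d)
    (hdx : (d : ℝ) ≤ x) (hL : 1 ≤ Real.log x) :
    |resErr z d a| ≤ 2 * x * (1 + 2 * Real.log x) * ((d : ℝ))⁻¹ := by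
  have hd1 : (1 : ℝ) ≤ (d : ℝ) := by exact_mod_cast hd
  have hd0 : (0 : ℝ) < (d : ℝ) := by linarith
  have h1 := Trb_count hx hz a hd
  have h2 : (resCount z d a : ℝ) ≤ 2 * x * (1 + 2 * Real.log x) * ((d : ℝ))⁻¹ := by
    have h3 : x / d + 1 ≤ 2 * x * ((d : ℝ))⁻¹ := by
      have : (1 : ℝ) ≤ x / d := by
        rw [le_div_iff₀ hd0]
        linarith
      calc x / d + 1 ≤ x / d + x / d := by linarith
        _ = 2 * x * ((d : ℝ))⁻¹ := by ring
    have h4 : 2 * x * ((d : ℝ))⁻¹ ≤ 2 * x * (1 + 2 * Real.log x) * ((d : ℝ))⁻¹ := by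
      refine mul_le_mul_of_nonneg_right ?_ (inv_nonneg.2 hd0.le)
      nlinarith
    linarith
  have ht : (0 : ℝ) < (d.totient : ℝ) := by exact_mod_cast Nat.totient_pos.2 hd
  have h3 : li z / (d.totient : ℝ) ≤ 2 * x * (1 + 2 * Real.log x) * ((d : ℝ))⁻¹ := by
    have h4 := Pool.Agent.Lib.EH.li_le hz2
    have h5 := Pool.Agent.Lib.EH.le_totient d
    have h6 := Pool.Agent.Lib.EH.card_primeFactors_le hd
    have h7 : Real.log d ≤ Real.log x := Real.log_le_log hd0 hdx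
    rw [div_le_iff₀ ht]
    have h8 : (d : ℝ) ≤ (1 + 2 * Real.log x) * d.totient := by
      refine h5.trans (mul_le_mul_of_nonneg_right (by linarith) ht.le)
    have h9 : 1 ≤ (1 + 2 * Real.log x) * ((d : ℝ))⁻¹ * d.totient := by
      rw [mul_assoc, mul_comm ((d : ℝ))⁻¹, ← mul_assoc, ← div_eq_mul_inv, le_div_iff₀ hd0]
      linarith
    calc li z ≤ 2 * x * 1 := by linarith
      _ ≤ 2 * x * ((1 + 2 * Real.log x) * ((d : ℝ))⁻¹ * d.totient) :=
        mul_le_mul_of_nonneg_left h9 (by linarith)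
      _ = _ := by ring
  have h4 : 0 ≤ li z / (d.totient : ℝ) := div_nonneg (Pool.Agent.Lib.EH.li_nonneg hz2) ht.le
  have h5 : (0 : ℝ) ≤ (resCount z d a : ℝ) := Nat.cast_nonneg _
  unfold resErr
  rw [abs_le]
  constructor <;> linarith

theorem tTrb  : TrbStmt := by
  intro x a y hx hy
  have hL : 1 ≤ Real.log x := by
    rw [Real.le_log_iff_exp_le (by linarith)]
    have := Real.exp_one_lt_d9
    linarith
  have hfl : (⌊x⌋₊ : ℝ) ≤ x := Nat.floor_le (by linarith)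
  have h1 : ∀ d ∈ Icc 1 ⌊x⌋₊, |resErr (y d) d a| ≤ 2 * x * (1 + 2 * Real.log x) * ((d : ℝ))⁻¹ := by
    intro d hd
    rw [mem_Icc] at hd
    have h2 : (d : ℝ) ≤ x := (Nat.cast_le.2 hd.2).trans hfl
    exact Trb_term hx (hy d).1 (hy d).2 a hd.1 h2 hL
  refine (Finset.sum_le_sum h1).trans ?_
  rw [← Finset.mul_sum]
  have h2 : ∑ d ∈ Icc 1 ⌊x⌋₊, ((d : ℝ))⁻¹ ≤ 1 + Real.log x := by
    have h3 := harmonic_le_one_add_log ⌊x⌋₊
    rw [harmonic_eq_sum_Icc] at h3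
    push_cast at h3
    have hpos : (0 : ℝ) < (⌊x⌋₊ : ℝ) := by
      have : 1 ≤ ⌊x⌋₊ := Nat.le_floor (by push_cast; linarith)
      exact_mod_cast this
    have h4 : Real.log (⌊x⌋₊ : ℝ) ≤ Real.log x := Real.log_le_log hpos hfl
    linarith
  have h3 : 0 ≤ 2 * x * (1 + 2 * Real.log x) := by positivity
  calc 2 * x * (1 + 2 * Real.log x) * ∑ d ∈ Icc 1 ⌊x⌋₊, ((d : ℝ))⁻¹
      ≤ 2 * x * (1 + 2 * Real.log x) * (1 + Real.log x) := mul_le_mul_of_nonneg_left h2 h3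
    _ ≤ 2 * x * (3 * Real.log x) * (2 * Real.log x) := by
        have hx0 : (0 : ℝ) ≤ 2 * x := by linarith
        refine mul_le_mul (mul_le_mul_of_nonneg_left (by linarith) hx0) (by linarith) (by linarith) ?_
        positivity
    _ ≤ 20 * x * (Real.log x) ^ 2 := by nlinarith [mul_nonneg (by linarith : (0 : ℝ) ≤ x) (sq_nonneg (Real.log x))]

end Pool.Agent.Lib.UI
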