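import Pool.Agent.Lib.KF.AllV
import Pool.Agent.Lib.UI.AllC
import Pool.Agent.Lib.UI.AllS
import Pool.Agent.Lib.UI.AllZ
import Pool.Agent.Lib.UI.Minc
import Pool.Agent.Lib.UI.Mws
import Pool.Agent.Lib.UI.Mzs
import Pool.Agent.Lib.UI.Mcs
import Pool.Agent.Lib.UI.Mma
import Pool.Agent.Lib.UI.Mta
import Pool.Agent.Lib.UI.Msq
import Pool.Agent.Lib.UI.Mpr
import Pool.Agent.Lib.UI.Mmo
import Pool.Agent.Lib.UI.Mcl
import Pool.Agent.Lib.UI.Msu
import Pool.Agent.Lib.UI.Core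
import Pool.Agent.Lib.UI.Blu
import Pool.Agent.Lib.UI.Trb
import Pool.Agent.Lib.UI.Fiu

/-!
MP_00e23e_nt, theorem U1: assembly of part F (Elliott-Halberstam on average over short intervals of
residues). Parts: C (cells, helper81), S (low denominators, helper95), Z (zeta sums, helper57), W (helper3).
-/

namespace Pool.Agent.Lib.UI

theorem aStp : StpStmt := tStpOf tZZ
theorem aMinc : MincStmt := tMinc
theorem aMws : MwsStmt := tMws aMinc
theorem aMzs : MzsStmt := tMzs aMinc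
theorem aMcs : McsStmt := tMcs aMws aMzs Pool.Agent.Lib.KF.aRmx
theorem aMma : MmaStmt := tMma aMcs
theorem aMta : MtaStmt := tMta Pool.Agent.Lib.KF.aLph
theorem aMsq : MsqStmt := tMsq Pool.Agent.Lib.KF.aRmx Pool.Agent.Lib.KF.aFls
theorem aMpr : MprStmt := tMpr Pool.Agent.Lib.KF.aRmx
theorem aMmo : MmoStmt := tMmo aMinc aMws Pool.Agent.Lib.KF.aRmx
theorem aMcl : MclStmt := tMcl aMpr aMmo
theorem aMsu : MsuStmt := tMsu aMinc aMsq Pool.Agent.Lib.KF.aRmx
theorem aCore : CoreStmt := tCore tCfiAll aStp tCpc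
theorem aBlu : BluStmt := tBlu aCore aMma aMta aMcl aMsu Pool.Agent.Lib.KF.aBvy
theorem aTrb : TrbStmt := tTrb
theorem aFiu : FiuStmt := tFiu Pool.Agent.Lib.KF.aWfb Pool.Agent.Lib.KF.aGrd aBlu aTrb

end Pool.Agent.Lib.UI
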