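import Pool.Agent.Lib.UI.SpecC

/-!
Module Cfr: the fractions h/g, h < g, sorted by their reduced denominator.
-/

namespace Pool.Agent.Lib.UI

open Finset Pool.Agent.Lib.EH3

private lemma Cfr_fiber (g q : ℕ) (G : ℝ → ℂ) (hg : 1 ≤ g) (hq : q ∈ g.divisors) :
    ∑ h ∈ (range g).filter (fun h => g / Nat.gcd h g = q), G ((h : ℝ) / (g : ℝ)) = redc q G := by
  obtain ⟨hqg, -⟩ := Nat.mem_divisors.1 hq
  obtain ⟨c, rfl⟩ := hqg
  have hq0 : 0 < q := Nat.pos_of_ne_zero (by rintro rfl; simp at hg)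
  have hc0 : 0 < c := Nat.pos_of_ne_zero (by rintro rfl; simp at hg)
  unfold redc
  refine Finset.sum_bij' (fun h _ => h / c) (fun h _ => h * c) ?_ ?_ ?_ ?_ ?_
  · intro h hh
    rw [mem_filter, mem_range] at hh ⊢
    obtain ⟨h1, h2⟩ := hh
    have hgc : Nat.gcd h (q * c) = c := by
      have hd : Nat.gcd h (q * c) ∣ q * c := Nat.gcd_dvd_right _ _
      have h3 : q * c = q * Nat.gcd h (q * c) := by
        conv_lhs => rw [← Nat.div_mul_cancel hd, h2]
      exact (Nat.eq_of_mul_eq_mul_left hq0 h3).symm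
    have hch : c ∣ h := by
      have := Nat.gcd_dvd_left h (q * c)
      rwa [hgc] at this
    obtain ⟨m, rfl⟩ := hch
    rw [Nat.mul_div_cancel_left _ hc0]
    refine ⟨?_, ?_⟩
    · rw [mul_comm q c] at h1
      exact lt_of_mul_lt_mul_left h1 (Nat.zero_le c)
    · rw [mul_comm q c, Nat.gcd_mul_left] at hgc
      have : c * Nat.gcd m q = c * 1 := by rw [hgc, mul_one]
      exact Nat.eq_of_mul_eq_mul_left hc0 this
  · intro h hh
    rw [mem_filter, mem_range] at hh ⊢
    obtain ⟨h1, h2⟩ := hh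
    refine ⟨Nat.mul_lt_mul_of_pos_right h1 hc0, ?_⟩
    rw [Nat.gcd_mul_right, Nat.Coprime.gcd_eq_one h2, one_mul, Nat.mul_div_cancel _ hc0]
  · intro h hh
    rw [mem_filter, mem_range] at hh
    obtain ⟨h1, h2⟩ := hh
    have hgc : Nat.gcd h (q * c) = c := by
      have hd : Nat.gcd h (q * c) ∣ q * c := Nat.gcd_dvd_right _ _
      have h3 : q * c = q * Nat.gcd h (q * c) := by
        conv_lhs => rw [← Nat.div_mul_cancel hd, h2]
      exact (Nat.eq_of_mul_eq_mul_left hq0 h3).symm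
    have hch : c ∣ h := by
      have := Nat.gcd_dvd_left h (q * c)
      rwa [hgc] at this
    exact Nat.div_mul_cancel hch
  · intro h hh
    exact Nat.mul_div_cancel _ hc0
  · intro h hh
    rw [mem_filter, mem_range] at hh
    obtain ⟨h1, h2⟩ := hh
    have hgc : Nat.gcd h (q * c) = c := by
      have hd : Nat.gcd h (q * c) ∣ q * c := Nat.gcd_dvd_right _ _
      have h3 : q * c = q * Nat.gcd h (q * c) := by
        conv_lhs => rw [← Nat.div_mul_cancel hd, h2]
      exact (Nat.eq_of_mul_eq_mul_left hq0 h3).symm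
    have hch : c ∣ h := by
      have := Nat.gcd_dvd_left h (q * c)
      rwa [hgc] at this
    obtain ⟨m, rfl⟩ := hch
    rw [Nat.mul_div_cancel_left _ hc0]
    congr 1
    have hcR : (c : ℝ) ≠ 0 := by exact_mod_cast hc0.ne'
    have hqR : (q : ℝ) ≠ 0 := by exact_mod_cast hq0.ne'
    push_cast
    field_simp

theorem tCfr : CfrStmt := by
  intro g G hg
  rw [← Finset.sum_fiberwise_of_maps_to (s := range g) (t := g.divisors)
    (g := fun h => g / Nat.gcd h g)]
  · exact Finset.sum_congr rfl (fun q hq => Cfr_fiber g q G hg hq)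
  · intro h hh
    rw [Nat.mem_divisors]
    exact ⟨Nat.div_dvd_of_dvd (Nat.gcd_dvd_right _ _), by omega⟩

end Pool.Agent.Lib.UI
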