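import Pool.Agent.Lib.UI.SpecF

namespace Pool.Agent.Lib.UI

open Finset Pool.Agent.Lib.EH3 Pool.Agent.Results.MP_00e23e_nt

private lemma Core_split (F : ℤ → ℂ) (x y z : ℤ) (hxy : x ≤ y) (hyz : y ≤ z) :
    ∑ n ∈ Ico x z, F n = ∑ n ∈ Ico x y, F n + ∑ n ∈ Ico y z, F n := by
  rw [← Finset.sum_union (Finset.Ico_disjoint_Ico_consecutive x y z),
    Finset.Ico_union_Ico_eq_Ico hxy hyz]

private lemma Core_div (lam : ℕ) (hl : 1 ≤ lam) (i n : ℤ) (h1 : i * lam ≤ n)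
    (h2 : n < (i + 1) * lam) : n / (lam : ℤ) = i := by
  have hl' : (0 : ℤ) < lam := by exact_mod_cast hl
  have a := (Int.le_ediv_iff_mul_le hl').2 h1
  have b := (Int.ediv_lt_iff_lt_mul hl').2 h2
  omega

private lemma Core_cell1 (lam : ℕ) (hl : 1 ≤ lam) (f : ℤ → ℝ) (t : ℝ) (i : ℤ) :
    ∑ n ∈ Ico (i * (lam : ℤ)) ((i + 1) * lam),
      (cA lam f t n - ((f n : ℝ) : ℂ) * ee ((n : ℝ) * t)) = 0 := by
  rw [Finset.sum_sub_distrib]
  have hl0 : (lam : ℂ) ≠ 0 := by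
    have : lam ≠ 0 := by omega
    exact_mod_cast this
  have h1 : ∑ n ∈ Ico (i * (lam : ℤ)) ((i + 1) * lam), cA lam f t n = cF lam f t i := by
    rw [Finset.sum_congr rfl (g := fun _ => cF lam f t i / (lam : ℂ))]
    · rw [Finset.sum_const, Int.card_Ico, nsmul_eq_mul]
      have h2 : (((i + 1) * (lam : ℤ) - i * lam).toNat : ℂ) = lam := by
        have h3 : (i + 1) * (lam : ℤ) - i * lam = (lam : ℤ) := by ring
        rw [h3, Int.toNat_natCast]
      rw [h2]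
      field_simp
    · intro n hn
      rw [Finset.mem_Ico] at hn
      unfold cA
      rw [Core_div lam hl i n hn.1 hn.2]
  rw [h1]
  unfold cF cell
  exact sub_self _

private lemma Core_cells (lam : ℕ) (hl : 1 ≤ lam) (f : ℤ → ℝ) (t : ℝ) (i : ℤ) (m : ℕ) :
    ∑ n ∈ Ico (i * (lam : ℤ)) ((i + m) * lam),
      (cA lam f t n - ((f n : ℝ) : ℂ) * ee ((n : ℝ) * t)) = 0 := by
  have hl' : (0 : ℤ) ≤ lam := by positivity
  induction m with
  | zero => simp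
  | succ m ih =>
    rw [Core_split _ (i * (lam : ℤ)) ((i + m) * lam) ((i + (m + 1 : ℕ)) * lam)
      (by
        have hm : (0 : ℤ) ≤ (m : ℤ) := by positivity
        nlinarith)
      (by push_cast; nlinarith), ih, zero_add]
    have h1 := Core_cell1 lam hl f t (i + m)
    have h2 : (i + (m + 1 : ℕ) : ℤ) = i + m + 1 := by push_cast; ring
    rw [h2]
    exact h1

private lemma Core_part (lam : ℕ) (F : ℤ → ℂ) (M : ℝ) (x y : ℤ) (hM : 0 ≤ M) (hF : ∀ n, ‖F n‖ ≤ 2 * M)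
    (hy : y - x ≤ lam) : ‖∑ n ∈ Ico x y, F n‖ ≤ 2 * lam * M := by
  refine (norm_sum_le _ _).trans ((Finset.sum_le_sum fun n _ => hF n).trans ?_)
  rw [Finset.sum_const, Int.card_Ico, nsmul_eq_mul]
  have h1 : (((y - x).toNat : ℕ) : ℝ) ≤ lam := by
    have : (y - x).toNat ≤ lam := by omega
    exact_mod_cast this
  nlinarith

private lemma Core_cmp (h3 : CpcStmt) (lam : ℕ) (hl : 1 ≤ lam) (f : ℤ → ℝ) (t M : ℝ) (hM : 0 ≤ M)
    (hf : ∀ n, |f n| ≤ M) (u v : ℤ) :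
    ‖∑ n ∈ Ico u v, cA lam f t n‖ ≤
      ‖∑ n ∈ Ico u v, ((f n : ℝ) : ℂ) * ee ((n : ℝ) * t)‖ + 4 * lam * M := by
  rcases lt_or_ge v u with h | huv
  · rw [Finset.Ico_eq_empty (by omega)]
    simp only [Finset.sum_empty, norm_zero, zero_add]
    positivity
  have hl' : (0 : ℤ) < lam := by exact_mod_cast hl
  set F : ℤ → ℂ := fun n => cA lam f t n - ((f n : ℝ) : ℂ) * ee ((n : ℝ) * t) with hF
  have hFn : ∀ n, ‖F n‖ ≤ 2 * M := by
    intro n
    have h5 := h3.2.2 lam f M t n hl hf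
    have h6 : ‖((f n : ℝ) : ℂ) * ee ((n : ℝ) * t)‖ ≤ M := by
      rw [norm_mul, Complex.norm_real, Real.norm_eq_abs]
      have h7 : ‖ee ((n : ℝ) * t)‖ = 1 := by
        unfold ee
        rw [mul_comm Complex.I, Complex.norm_exp_ofReal_mul_I]
      rw [h7, mul_one]
      exact hf n
    have h8 := norm_sub_le (cA lam f t n) (((f n : ℝ) : ℂ) * ee ((n : ℝ) * t))
    show ‖cA lam f t n - ((f n : ℝ) : ℂ) * ee ((n : ℝ) * t)‖ ≤ 2 * M
    linarith
  obtain ⟨i, hi⟩ : ∃ i : ℤ, i = u / lam := ⟨_, rfl⟩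
  obtain ⟨j, hj⟩ : ∃ j : ℤ, j = v / lam := ⟨_, rfl⟩
  have hij : i ≤ j := by
    rw [hi, hj]
    exact Int.ediv_le_ediv hl' huv
  have hiu : i * lam ≤ u := by
    rw [hi]
    exact Int.ediv_mul_le u hl'.ne'
  have hiu' : u < (i + 1) * lam := by
    rw [hi]
    exact Int.lt_ediv_add_one_mul_self u hl'
  have hjv : j * lam ≤ v := by
    rw [hj]
    exact Int.ediv_mul_le v hl'.ne'
  have hjv' : v < (j + 1) * lam := by
    rw [hj]
    exact Int.lt_ediv_add_one_mul_self v hl'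
  have hijl : i * (lam : ℤ) ≤ j * lam := by nlinarith
  have e1 := Core_split F (i * lam) u v hiu huv
  have e2 := Core_split F (i * lam) (j * lam) v hijl hjv
  have e3 : ∑ n ∈ Ico (i * (lam : ℤ)) (j * lam), F n = 0 := by
    have h4 := Core_cells lam hl f t i (j - i).toNat
    have h5 : (i + ((j - i).toNat : ℤ)) = j := by omega
    rw [h5] at h4
    exact h4
  have e4 : ∑ n ∈ Ico u v, F n = ∑ n ∈ Ico (j * (lam : ℤ)) v, F n - ∑ n ∈ Ico (i * (lam : ℤ)) u, F n := by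
    have h6 := e1.symm.trans e2
    rw [e3, zero_add] at h6
    rw [← h6]
    ring
  have e5 := Core_part lam F M (j * lam) v hM hFn (by nlinarith)
  have e6 := Core_part lam F M (i * lam) u hM hFn (by nlinarith)
  have e7 : ∑ n ∈ Ico u v, F n = ∑ n ∈ Ico u v, cA lam f t n -
      ∑ n ∈ Ico u v, ((f n : ℝ) : ℂ) * ee ((n : ℝ) * t) := by
    rw [← Finset.sum_sub_distrib]
  have e8 : ∑ n ∈ Ico u v, cA lam f t n = ∑ n ∈ Ico u v, ((f n : ℝ) : ℂ) * ee ((n : ℝ) * t) +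
      (∑ n ∈ Ico (j * (lam : ℤ)) v, F n - ∑ n ∈ Ico (i * (lam : ℤ)) u, F n) := by
    rw [← e4, e7]
    ring
  rw [e8]
  refine (norm_add_le _ _).trans ?_
  have e9 := norm_sub_le (∑ n ∈ Ico (j * (lam : ℤ)) v, F n) (∑ n ∈ Ico (i * (lam : ℤ)) u, F n)
  linarith

/-- sum over the low denominators -/
private lemma Core_low (Q H K B0 lam : ℕ) (A0 : ℤ) (f : ℤ → ℝ) (X : ℝ) (hX : 0 ≤ X)
    (h : ∀ q, 1 ≤ q → q ≤ B0 → ∀ h : ℕ, h.Coprime q → ∀ a : ℤ, ∀ b : ℕ,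
      ∑ d ∈ Ioc Q (2 * Q), ‖∑ k ∈ Icc (-(K : ℤ)) K, ee ((b : ℝ) * (k : ℝ) / (q : ℝ)) *
        cA lam f ((h : ℝ) / (q : ℝ)) (a + d * k)‖ ^ 2 ≤ X) :
    ∑ q ∈ Icc 1 B0, red q (fun t => (1 / (q : ℝ)) * ∑ b ∈ range q, WW Q H K q b A0 (cA lam f t)) ≤
      (B0 : ℝ) ^ 2 * (H * X) := by
  have h1 : ∀ q ∈ Icc 1 B0, red q (fun t => (1 / (q : ℝ)) * ∑ b ∈ range q,
      WW Q H K q b A0 (cA lam f t)) ≤ B0 * (H * X) := by
    intro q hq
    rw [Finset.mem_Icc] at hq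
    unfold red
    have h2 : ∀ hh ∈ (range q).filter (fun h => h.Coprime q), (1 / (q : ℝ)) * ∑ b ∈ range q,
        WW Q H K q b A0 (cA lam f ((hh : ℝ) / (q : ℝ))) ≤ H * X := by
      intro hh hhh
      have hcop := (Finset.mem_filter.1 hhh).2
      have h3 : ∀ b ∈ range q, WW Q H K q b A0 (cA lam f ((hh : ℝ) / (q : ℝ))) ≤ H * X := by
        intro b _
        unfold WW
        rw [Finset.sum_comm]
        refine (Finset.sum_le_sum fun a _ => h q hq.1 hq.2 hh hcop a b).trans ?_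
        rw [Finset.sum_const, Int.card_Ico, nsmul_eq_mul]
        have h4 : (A0 + (H : ℤ) - A0).toNat = H := by omega
        rw [h4]
      have h5 := Finset.sum_le_sum h3
      rw [Finset.sum_const, Finset.card_range, nsmul_eq_mul] at h5
      have hq0 : (0 : ℝ) < q := by exact_mod_cast hq.1
      rw [one_div, inv_mul_le_iff₀ hq0]
      exact h5
    refine (Finset.sum_le_sum h2).trans ?_
    rw [Finset.sum_const, nsmul_eq_mul]
    have h6 : ((((range q).filter (fun h => h.Coprime q)).card : ℕ) : ℝ) ≤ B0 := by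
      have h7 := Finset.card_filter_le (range q) (fun h => h.Coprime q)
      rw [Finset.card_range] at h7
      exact_mod_cast h7.trans hq.2
    have h8 : 0 ≤ (H : ℝ) * X := by positivity
    exact mul_le_mul_of_nonneg_right h6 h8
  refine (Finset.sum_le_sum h1).trans ?_
  rw [Finset.sum_const, Nat.card_Icc, nsmul_eq_mul]
  have h9 : B0 + 1 - 1 = B0 := by omega
  rw [h9]
  apply le_of_eq
  ring

/-- the arithmetic of the error term -/
private lemma Core_ar (b m g l k h q w V Lc L lk s : ℝ) (hb : 0 < b) (hm : 0 ≤ m) (hg : 0 < g) (hl : 0 < l)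
    (hk : 0 < k) (hh : 0 < h) (hq : 0 < q) (hw : 0 < w) (hV : 0 < V) (hLc : 0 < Lc) (hL : 0 < L)
    (hs : 0 ≤ s) (hlk : 0 ≤ lk)
    (h1 : (1 + b ^ 2) * m ^ 2 ≤ 5 * V) (h2 : V * g ≤ w * k) (h3 : V * (l / g) ≤ 6 * q * w)
    (h4 : V * (k * (l / g)) ≤ 2 * h * w) (h5 : 2 * V ≤ q * w) (h6 : 2 * V ≤ h * w)
    (h7 : V * (k / l) ≤ 2 * w) (h8 : Lc * L * (k / l) ≤ 2 * w) (h9 : Lc * L / b ≤ w)
    (h10 : b ^ 2 * m ^ 2 ≤ 4 * V) (h11 : 1 + lk ≤ 2 * L) (h12 : s ≤ k * q * Lc) :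
    (1 + b ^ 2) * (12 * k * g) * (h * q * m ^ 2) +
    9 * k ^ 2 * ((1 + b ^ 2) * (m ^ 2 * (h * (4 * l / g + 2) + q * (6 * k * l / g + 2))) +
      b ^ 2 * (4 * k * q * h * m ^ 2 / l)) +
    32 * (h * k / l) * (1 + lk) * (40 * l / b + 320 * k) * s ≤ 45578 * (h * q * k ^ 2 * w) := by
  have t1 : (1 + b ^ 2) * (12 * k * g) * (h * q * m ^ 2) ≤ 60 * (h * q * k ^ 2 * w) := by
    calc (1 + b ^ 2) * (12 * k * g) * (h * q * m ^ 2) =
        ((1 + b ^ 2) * m ^ 2) * (12 * k * g * h * q) := by ring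
      _ ≤ (5 * V) * (12 * k * g * h * q) := mul_le_mul_of_nonneg_right h1 (by positivity)
      _ = (V * g) * (60 * k * h * q) := by ring
      _ ≤ (w * k) * (60 * k * h * q) := mul_le_mul_of_nonneg_right h2 (by positivity)
      _ = _ := by ring
  have t2 : (1 + b ^ 2) * (m ^ 2 * (h * (4 * l / g + 2) + q * (6 * k * l / g + 2))) ≤
      190 * (h * q * w) := by
    calc (1 + b ^ 2) * (m ^ 2 * (h * (4 * l / g + 2) + q * (6 * k * l / g + 2))) =
        ((1 + b ^ 2) * m ^ 2) * (h * (4 * l / g + 2) + q * (6 * k * l / g + 2)) := by ring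
      _ ≤ (5 * V) * (h * (4 * l / g + 2) + q * (6 * k * l / g + 2)) :=
        mul_le_mul_of_nonneg_right h1 (by positivity)
      _ = (V * (l / g)) * (20 * h) + (2 * V) * (5 * h) + (V * (k * (l / g))) * (30 * q) +
          (2 * V) * (5 * q) := by ring
      _ ≤ (6 * q * w) * (20 * h) + (q * w) * (5 * h) + (2 * h * w) * (30 * q) +
          (h * w) * (5 * q) := by
        have a1 := mul_le_mul_of_nonneg_right h3 (show 0 ≤ 20 * h by positivity)
        have a2 := mul_le_mul_of_nonneg_right h5 (show 0 ≤ 5 * h by positivity)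
        have a3 := mul_le_mul_of_nonneg_right h4 (show 0 ≤ 30 * q by positivity)
        have a4 := mul_le_mul_of_nonneg_right h6 (show 0 ≤ 5 * q by positivity)
        linarith
      _ = _ := by ring
  have t3 : b ^ 2 * (4 * k * q * h * m ^ 2 / l) ≤ 32 * (h * q * w) := by
    calc b ^ 2 * (4 * k * q * h * m ^ 2 / l) = (b ^ 2 * m ^ 2) * (4 * q * h * (k / l)) := by ring
      _ ≤ (4 * V) * (4 * q * h * (k / l)) := mul_le_mul_of_nonneg_right h10 (by positivity)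
      _ = (V * (k / l)) * (16 * q * h) := by ring
      _ ≤ (2 * w) * (16 * q * h) := mul_le_mul_of_nonneg_right h7 (by positivity)
      _ = _ := by ring
  have t4 : 32 * (h * k / l) * (1 + lk) * (40 * l / b + 320 * k) * s ≤
      43520 * (h * q * k ^ 2 * w) := by
    have a1 : 32 * (h * k / l) * (1 + lk) ≤ 32 * (h * k / l) * (2 * L) :=
      mul_le_mul_of_nonneg_left h11 (by positivity)
    have a2 : 32 * (h * k / l) * (1 + lk) * (40 * l / b + 320 * k) ≤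
        32 * (h * k / l) * (2 * L) * (40 * l / b + 320 * k) :=
      mul_le_mul_of_nonneg_right a1 (by positivity)
    calc 32 * (h * k / l) * (1 + lk) * (40 * l / b + 320 * k) * s ≤
        32 * (h * k / l) * (2 * L) * (40 * l / b + 320 * k) * (k * q * Lc) :=
          mul_le_mul a2 h12 hs (by positivity)
      _ = (Lc * L / b) * (2560 * h * q * k ^ 2) * (l / l) +
          (Lc * L * (k / l)) * (20480 * h * q * k ^ 2) := by ring
      _ = (Lc * L / b) * (2560 * h * q * k ^ 2) +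
          (Lc * L * (k / l)) * (20480 * h * q * k ^ 2) := by rw [div_self hl.ne', mul_one]
      _ ≤ w * (2560 * h * q * k ^ 2) + (2 * w) * (20480 * h * q * k ^ 2) := by
        have a1 := mul_le_mul_of_nonneg_right h9 (show 0 ≤ 2560 * h * q * k ^ 2 by positivity)
        have a2 := mul_le_mul_of_nonneg_right h8 (show 0 ≤ 20480 * h * q * k ^ 2 by positivity)
        linarith
      _ = _ := by ring
  have t5 : 9 * k ^ 2 * ((1 + b ^ 2) * (m ^ 2 * (h * (4 * l / g + 2) + q * (6 * k * l / g + 2))) +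
      b ^ 2 * (4 * k * q * h * m ^ 2 / l)) ≤ 1998 * (h * q * k ^ 2 * w) := by
    calc 9 * k ^ 2 * ((1 + b ^ 2) * (m ^ 2 * (h * (4 * l / g + 2) + q * (6 * k * l / g + 2))) +
      b ^ 2 * (4 * k * q * h * m ^ 2 / l)) ≤ 9 * k ^ 2 * (190 * (h * q * w) + 32 * (h * q * w)) :=
        mul_le_mul_of_nonneg_left (add_le_add t2 t3) (by positivity)
      _ = _ := by ring
  linarith

private lemma Core_mulge {x y : ℝ} (hx : 1 ≤ x) (hy : 1 ≤ y) : 1 ≤ x * y := by nlinarith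

private lemma Core_pos {x : ℝ} (h : 1 ≤ x) : 0 < x := lt_of_lt_of_le one_pos h

private lemma Core_pos2 {G x : ℝ} (h : 1 ≤ G) (h2 : 2 * G ≤ x) : 0 < x := by linarith

private lemma Core_sq {b P : ℝ} (h : 0 ≤ b) (h2 : b ≤ 2 * P) : b ^ 2 ≤ 4 * P ^ 2 := by nlinarith

private lemma Core_L4 {L : ℝ} (h : 12 ≤ L) : 8 ≤ L ^ 4 := by
  have h1 : (12 : ℝ) ^ 4 ≤ L ^ 4 := pow_le_pow_left₀ (by norm_num) h 4
  linarith

private lemma Core_mul8 {x y : ℝ} (h : 1 ≤ x) (h2 : 8 ≤ y) : 8 ≤ x * y := by nlinarith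

private lemma Core_mulr {x y z : ℝ} (hx : 0 ≤ x) (h : 1 ≤ y) (h2 : x * y ≤ z) : x ≤ z :=
  (le_mul_of_one_le_right hx h).trans h2

private lemma Core_fl {x y : ℝ} (h : 2 ≤ x) (h2 : x < y + 1) : 1 < y ∧ x ≤ 2 * y := by
  constructor <;> linarith

/-- the relations between the parameters -/
private lemma Core_num (b m g l k h q n T Lc P R Y Z L G D X V w : ℝ) (hL : 12 ≤ L) (hT : 1 ≤ T)
    (hLc : 1 ≤ Lc) (hR : 1 ≤ R) (hY : 1 ≤ Y) (hZ : 1 ≤ Z) (hP : P = T * Lc * L ^ 2)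
    (hV : V = P ^ 2 * R ^ 2) (hG : G = V * T * L) (hD : D = G * V * T * Y * L ^ 2)
    (hX : X = D * (Z * V * T * Lc * L ^ 4)) (hw : w = 1 / (T * L)) (hb1 : P ≤ b) (hb2 : b ≤ 2 * P)
    (hm0 : 0 ≤ m) (hm : m ≤ R) (hg0 : 0 < g) (hg1 : g * G ≤ k) (hg2 : k ≤ 2 * g * G)
    (hl0 : 0 < l) (hl1 : l * D ≤ h) (hl2 : h ≤ 2 * l * D) (hkX : k * X ≤ h) (hqG : 2 * G ≤ q)
    (hkG : 2 * G ≤ k) (hn : n ≤ k * q) (hh : h ≤ 3 * n) :
    (1 + b ^ 2) * m ^ 2 ≤ 5 * V ∧ V * g ≤ w * k ∧ V * (l / g) ≤ 6 * q * w ∧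
    V * (k * (l / g)) ≤ 2 * h * w ∧ 2 * V ≤ q * w ∧ 2 * V ≤ h * w ∧ V * (k / l) ≤ 2 * w ∧
    Lc * L * (k / l) ≤ 2 * w ∧ Lc * L / b ≤ w ∧ b ^ 2 * m ^ 2 ≤ 4 * V ∧ k * Z ≤ l ∧ 4 * k ≤ l := by
  have hL1 : 1 ≤ L := by linarith only [hL]
  have hT0 : 0 < T := Core_pos hT
  have hLc0 : 0 < Lc := Core_pos hLc
  have hR0 : 0 < R := Core_pos hR
  have hL0 : 0 < L := Core_pos hL1
  have hL2 : 1 ≤ L ^ 2 := one_le_pow₀ hL1
  have hP1 : 1 ≤ P := by
    rw [hP]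
    exact Core_mulge (Core_mulge hT hLc) hL2
  have hP0 : 0 < P := Core_pos hP1
  have hV1 : 1 ≤ V := by
    rw [hV]
    exact Core_mulge (one_le_pow₀ hP1) (one_le_pow₀ hR)
  have hV0 : 0 < V := Core_pos hV1
  have hG1 : 1 ≤ G := by
    rw [hG]
    exact Core_mulge (Core_mulge hV1 hT) hL1
  have hG0 : 0 < G := Core_pos hG1
  have hD1 : 1 ≤ D := by
    rw [hD]
    exact Core_mulge (Core_mulge (Core_mulge (Core_mulge hG1 hV1) hT) hY) hL2
  have hD0 : 0 < D := Core_pos hD1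
  have hk0 : 0 < k := Core_pos2 hG1 hkG
  have hq0 : 0 < q := Core_pos2 hG1 hqG
  have hTL : 0 < T * L := by positivity
  have hb0 : 0 < b := lt_of_lt_of_le hP0 hb1
  have hb3 : b ^ 2 ≤ 4 * P ^ 2 := Core_sq hb0.le hb2
  have hm3 : m ^ 2 ≤ R ^ 2 := pow_le_pow_left₀ hm0 hm 2
  have hP2 : 1 ≤ P ^ 2 := one_le_pow₀ hP1
  have hR2 : 0 ≤ R ^ 2 := by positivity
  have hXD1 : 1 ≤ Z * V * T * Lc * L ^ 4 :=
    Core_mulge (Core_mulge (Core_mulge (Core_mulge hZ hV1) hT) hLc) (one_le_pow₀ hL1)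
  have hkh : k ≤ h := by
    have h1 : 1 ≤ X := by
      rw [hX]
      exact Core_mulge hD1 hXD1
    exact Core_mulr hk0.le h1 hkX
  have hh0 : 0 < h := lt_of_lt_of_le hk0 hkh
  -- the relation between `k` and `l`
  have hkl : k * (Z * V * T * Lc * L ^ 4) ≤ 2 * l := by
    have h1 : k * (Z * V * T * Lc * L ^ 4) * D ≤ 2 * l * D := by
      calc k * (Z * V * T * Lc * L ^ 4) * D = k * X := by rw [hX]; ring
        _ ≤ h := hkX
        _ ≤ 2 * l * D := hl2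
    exact le_of_mul_le_mul_right h1 hD0
  have hDG : G * (V * T * L) ≤ D := by
    have h1 : 1 ≤ Y * L := Core_mulge hY hL1
    have h2 : 0 < G * (V * T * L) := by positivity
    calc G * (V * T * L) ≤ G * (V * T * L) * (Y * L) := le_mul_of_one_le_right h2.le h1
      _ = D := by rw [hD]; ring
  refine ⟨?_, ?_, ?_, ?_, ?_, ?_, ?_, ?_, ?_, ?_, ?_, ?_⟩
  · have h1 : 1 + b ^ 2 ≤ 5 * P ^ 2 := by linarith only [hb3, hP2]
    calc (1 + b ^ 2) * m ^ 2 ≤ (5 * P ^ 2) * R ^ 2 :=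
          mul_le_mul h1 hm3 (by positivity) (by positivity)
      _ = 5 * V := by rw [hV]; ring
  · rw [hw, one_div, ← div_eq_inv_mul, le_div_iff₀ hTL]
    calc V * g * (T * L) = g * G := by rw [hG]; ring
      _ ≤ k := hg1
  · rw [hw, mul_one_div, mul_div_assoc', div_le_div_iff₀ hg0 hTL]
    have h1 : (V * l * (T * L)) * G ≤ (6 * q * g) * G := by
      calc (V * l * (T * L)) * G = l * (G * (V * T * L)) := by ring
        _ ≤ l * D := mul_le_mul_of_nonneg_left hDG hl0.le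
        _ ≤ h := hl1
        _ ≤ 3 * n := hh
        _ ≤ 3 * (k * q) := by linarith only [hn]
        _ ≤ 3 * ((2 * g * G) * q) := by
          have a1 := mul_le_mul_of_nonneg_right hg2 hq0.le
          linarith only [a1]
        _ = (6 * q * g) * G := by ring
    exact le_of_mul_le_mul_right h1 hG0
  · rw [hw, mul_one_div, mul_div_assoc', mul_div_assoc', div_le_div_iff₀ hg0 hTL]
    calc V * (k * l) * (T * L) ≤ V * ((2 * g * G) * l) * (T * L) := by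
          have h1 := mul_le_mul_of_nonneg_right hg2 (show 0 ≤ V * l * (T * L) by positivity)
          calc V * (k * l) * (T * L) = k * (V * l * (T * L)) := by ring
            _ ≤ (2 * g * G) * (V * l * (T * L)) := h1
            _ = _ := by ring
      _ = (2 * g * l) * (G * (V * T * L)) := by ring
      _ ≤ (2 * g * l) * D := mul_le_mul_of_nonneg_left hDG (by positivity)
      _ = (2 * g) * (l * D) := by ring
      _ ≤ (2 * g) * h := mul_le_mul_of_nonneg_left hl1 (by positivity)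
      _ = 2 * h * g := by ring
  · rw [hw, mul_one_div, le_div_iff₀ hTL]
    calc 2 * V * (T * L) = 2 * G := by rw [hG]; ring
      _ ≤ q := hqG
  · rw [hw, mul_one_div, le_div_iff₀ hTL]
    calc 2 * V * (T * L) = 2 * G := by rw [hG]; ring
      _ ≤ k := hkG
      _ ≤ h := hkh
  · rw [hw, mul_one_div, mul_div_assoc', div_le_div_iff₀ hl0 hTL]
    have h1 : 1 ≤ Z * Lc * L ^ 3 := Core_mulge (Core_mulge hZ hLc) (one_le_pow₀ hL1)
    calc V * k * (T * L) ≤ V * k * (T * L) * (Z * Lc * L ^ 3) :=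
          le_mul_of_one_le_right (by positivity) h1
      _ = k * (Z * V * T * Lc * L ^ 4) := by ring
      _ ≤ 2 * l := hkl
  · rw [hw, mul_one_div, mul_div_assoc', div_le_div_iff₀ hl0 hTL]
    have h1 : 1 ≤ Z * V * L ^ 2 := Core_mulge (Core_mulge hZ hV1) (one_le_pow₀ hL1)
    calc Lc * L * k * (T * L) ≤ Lc * L * k * (T * L) * (Z * V * L ^ 2) :=
          le_mul_of_one_le_right (by positivity) h1
      _ = k * (Z * V * T * Lc * L ^ 4) := by ring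
      _ ≤ 2 * l := hkl
  · rw [hw, div_le_div_iff₀ hb0 hTL]
    calc Lc * L * (T * L) = P := by rw [hP]; ring
      _ ≤ 1 * b := by linarith only [hb1]
  · calc b ^ 2 * m ^ 2 ≤ (4 * P ^ 2) * R ^ 2 := mul_le_mul hb3 hm3 (by positivity) (by positivity)
      _ = 4 * V := by rw [hV]; ring
  · have h1 : 1 ≤ V * T * Lc := Core_mulge (Core_mulge hV1 hT) hLc
    have h4 : 8 ≤ (V * T * Lc) * L ^ 4 := Core_mul8 h1 (Core_L4 hL)
    have h5 : 0 < k * Z := mul_pos hk0 (Core_pos hZ)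
    have h6 : k * Z * 8 ≤ k * Z * ((V * T * Lc) * L ^ 4) := mul_le_mul_of_nonneg_left h4 h5.le
    have h7 : k * Z * ((V * T * Lc) * L ^ 4) = k * (Z * V * T * Lc * L ^ 4) := by ring
    linarith only [h5, h6, h7, hkl]
  · have h1 : 1 ≤ Z * V * T * Lc := Core_mulge (Core_mulge (Core_mulge hZ hV1) hT) hLc
    have h4 : 8 ≤ (Z * V * T * Lc) * L ^ 4 := Core_mul8 h1 (Core_L4 hL)
    have h6 : k * 8 ≤ k * ((Z * V * T * Lc) * L ^ 4) := mul_le_mul_of_nonneg_left h4 hk0.le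
    linarith only [h6, hkl]

theorem tCore (h1 : CfiStmt) (h2 : StpStmt) (h3 : CpcStmt) : CoreStmt := by
  intro ε A c B hε hA hc hB
  obtain ⟨β, hβ⟩ : ∃ β : ℝ, β = A + c + 2 := ⟨_, rfl⟩
  have hβ0 : 0 < β := by rw [hβ]; linarith
  obtain ⟨C, A1, A2', hC, hA1, hA2', hS⟩ := h2 ε (B + β + 1) (A + (β + β) + 1) hε (by linarith)
    (by linarith)
  obtain ⟨γ, hγ⟩ : ∃ γ : ℝ, γ = β + β + (B + B) + A + 1 := ⟨_, rfl⟩
  obtain ⟨δ, hδ⟩ : ∃ δ : ℝ, δ = γ + (β + β + (B + B)) + A + A2' + 2 := ⟨_, rfl⟩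
  obtain ⟨E, hE⟩ : ∃ E : ℝ, E = δ + (A1 + (β + β + (B + B)) + A + c + 4) := ⟨_, rfl⟩
  have ev1 : ∀ᶠ x : ℝ in Filter.atTop, 2 * (Real.log x) ^ γ ≤ x ^ ε := by
    have h5 := (isLittleO_log_rpow_rpow_atTop γ hε).def (show (0 : ℝ) < 1 / 2 by norm_num)
    filter_upwards [h5, Filter.eventually_ge_atTop (1 : ℝ)] with x hx hx1
    rw [Real.norm_of_nonneg (Real.rpow_nonneg (Real.log_nonneg hx1) _),
      Real.norm_of_nonneg (by positivity)] at hx
    linarith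
  have ev2 : ∀ᶠ x : ℝ in Filter.atTop, max 12 (4 * C + 45578) ≤ Real.log x :=
    Real.tendsto_log_atTop.eventually_ge_atTop _
  obtain ⟨N0, hN0⟩ := Filter.eventually_atTop.1
    (tendsto_natCast_atTop_atTop.eventually (ev1.and ev2))
  refine ⟨E, A2' + 1, max N0 3, by rw [hE, hδ, hγ]; linarith, by linarith, le_max_right _ _, ?_⟩
  intro N Q K H A0 f M hN hK1 hK2 hQ1 hQ2 hKQ1 hKQ2 hH1 hH2 hM0 hM1 hf hsup hsq hlow
  obtain ⟨hNa, hNb⟩ := hN0 N ((le_max_left _ _).trans hN)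
  have hN3 : 3 ≤ N := (le_max_right _ _).trans hN
  obtain ⟨L, hLdef⟩ : ∃ L : ℝ, L = Real.log (N : ℝ) := ⟨_, rfl⟩
  rw [← hLdef] at hNa hNb hH1 hM1 hsq hlow ⊢
  have hL12 : 12 ≤ L := (le_max_left _ _).trans hNb
  have hLC : 4 * C + 45578 ≤ L := (le_max_right _ _).trans hNb
  have hL0 : 0 < L := by linarith
  have hL1 : 1 ≤ L := by linarith
  obtain ⟨T, hT⟩ : ∃ T : ℝ, T = L ^ A := ⟨_, rfl⟩
  obtain ⟨Lc, hLc⟩ : ∃ Lc : ℝ, Lc = L ^ c := ⟨_, rfl⟩
  obtain ⟨P, hP⟩ : ∃ P : ℝ, P = L ^ β := ⟨_, rfl⟩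
  obtain ⟨R, hR⟩ : ∃ R : ℝ, R = L ^ B := ⟨_, rfl⟩
  obtain ⟨Y, hY⟩ : ∃ Y : ℝ, Y = L ^ A2' := ⟨_, rfl⟩
  obtain ⟨Z, hZ⟩ : ∃ Z : ℝ, Z = L ^ A1 := ⟨_, rfl⟩
  have hT1 : 1 ≤ T := by rw [hT]; exact Real.one_le_rpow hL1 hA.le
  have hLc1 : 1 ≤ Lc := by rw [hLc]; exact Real.one_le_rpow hL1 hc
  have hP1 : 1 ≤ P := by rw [hP]; exact Real.one_le_rpow hL1 hβ0.le
  have hR1 : 1 ≤ R := by rw [hR]; exact Real.one_le_rpow hL1 hB
  have hY1 : 1 ≤ Y := by rw [hY]; exact Real.one_le_rpow hL1 hA2'.le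
  have hZ1 : 1 ≤ Z := by rw [hZ]; exact Real.one_le_rpow hL1 hA1.le
  have hPe : P = T * Lc * L ^ 2 := by
    rw [hP, hβ, Real.rpow_add hL0, Real.rpow_add hL0, ← hT, ← hLc, Real.rpow_ofNat]
  obtain ⟨V, hV⟩ : ∃ V : ℝ, V = P ^ 2 * R ^ 2 := ⟨_, rfl⟩
  have hV1 : 1 ≤ V := by
    rw [hV]
    exact Core_mulge (one_le_pow₀ hP1) (one_le_pow₀ hR1)
  have hVe : L ^ (β + β + (B + B)) = V := by
    rw [Real.rpow_add hL0, Real.rpow_add hL0, Real.rpow_add hL0, ← hP, ← hR, hV]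
    ring
  obtain ⟨G, hG⟩ : ∃ G : ℝ, G = V * T * L := ⟨_, rfl⟩
  have hGe : L ^ γ = G := by
    rw [hγ, Real.rpow_add hL0, Real.rpow_add hL0, hVe, ← hT, Real.rpow_one, hG]
  obtain ⟨D, hD⟩ : ∃ D : ℝ, D = G * V * T * Y * L ^ 2 := ⟨_, rfl⟩
  have hDe : L ^ δ = D := by
    rw [hδ, Real.rpow_add hL0, Real.rpow_add hL0, Real.rpow_add hL0, Real.rpow_add hL0, hVe, hGe,
      ← hT, ← hY, Real.rpow_ofNat, hD]
  obtain ⟨X, hX⟩ : ∃ X : ℝ, X = D * (Z * V * T * Lc * L ^ 4) := ⟨_, rfl⟩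
  have hXe : L ^ E = X := by
    rw [hE, Real.rpow_add hL0, Real.rpow_add hL0, Real.rpow_add hL0, Real.rpow_add hL0,
      Real.rpow_add hL0, hVe, hDe, ← hT, ← hZ, ← hLc, Real.rpow_ofNat, hX]
  obtain ⟨w, hw⟩ : ∃ w : ℝ, w = 1 / (T * L) := ⟨_, rfl⟩
  rw [hGe] at hNa
  rw [hXe] at hH1
  rw [← hR] at hM1
  rw [← hLc] at hsq
  have hT0 : 0 < T := Core_pos hT1
  have hLc0 : 0 < Lc := Core_pos hLc1
  have hP0 : 0 < P := Core_pos hP1
  have hR0 : 0 < R := Core_pos hR1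
  have hY0 : 0 < Y := Core_pos hY1
  have hZ0 : 0 < Z := Core_pos hZ1
  have hV0 : 0 < V := Core_pos hV1
  have hG0 : 0 < G := by rw [hG]; positivity
  have hD0 : 0 < D := by rw [hD]; positivity
  have hw0 : 0 < w := by rw [hw]; positivity
  have hG1 : 1 ≤ G := by rw [hG]; exact Core_mulge (Core_mulge hV1 hT1) hL1
  have hKG : 2 * G ≤ K := hNa.trans hK1
  have hQG : 2 * G ≤ Q := hNa.trans hQ1
  have hk0 : (0 : ℝ) < K := Core_pos2 hG1 hKG
  have hq0 : (0 : ℝ) < Q := Core_pos2 hG1 hQG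
  have hXD1 : 1 ≤ Z * V * T * Lc * L ^ 4 :=
    Core_mulge (Core_mulge (Core_mulge (Core_mulge hZ1 hV1) hT1) hLc1) (one_le_pow₀ hL1)
  have hHD : 2 * D ≤ H := by
    calc 2 * D ≤ K * D := mul_le_mul_of_nonneg_right (by linarith only [hKG, hG1]) hD0.le
      _ ≤ K * D * (Z * V * T * Lc * L ^ 4) := le_mul_of_one_le_right (by positivity) hXD1
      _ = K * X := by rw [hX]; ring
      _ ≤ H := hH1
  have hh0 : (0 : ℝ) < H := lt_of_lt_of_le (by positivity) hHD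
  -- the integers
  obtain ⟨B0, hB0⟩ : ∃ B0 : ℕ, B0 = ⌈P⌉₊ := ⟨_, rfl⟩
  have hb1 : P ≤ B0 := by rw [hB0]; exact Nat.le_ceil P
  have hb2 : (B0 : ℝ) ≤ 2 * P := by
    have a1 := Nat.ceil_lt_add_one hP0.le
    rw [← hB0] at a1
    linarith only [a1, hP1]
  obtain ⟨G0, hG0d⟩ : ∃ G0 : ℕ, G0 = ⌊(K : ℝ) / G⌋₊ := ⟨_, rfl⟩
  have hKGd : 2 ≤ (K : ℝ) / G := by rw [le_div_iff₀ hG0]; exact hKG
  have hg1 : (G0 : ℝ) ≤ K / G := by rw [hG0d]; exact Nat.floor_le (by positivity)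
  have hg2 : (K : ℝ) / G < G0 + 1 := by rw [hG0d]; exact Nat.lt_floor_add_one _
  obtain ⟨hg3, hg6⟩ := Core_fl hKGd hg2
  have hg0 : (0 : ℝ) < G0 := one_pos.trans hg3
  have hg4 : (G0 : ℝ) * G ≤ K := by rwa [le_div_iff₀ hG0] at hg1
  have hg5 : (K : ℝ) ≤ 2 * G0 * G := by
    rwa [div_le_iff₀ hG0] at hg6
  have hG01 : 1 ≤ G0 := by
    have : (0 : ℝ) < G0 := hg0
    exact_mod_cast this
  have hG0K : G0 ≤ K := by
    have a1 : (G0 : ℝ) ≤ K := Core_mulr hg0.le hG1 hg4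
    exact_mod_cast a1
  obtain ⟨lam, hlam⟩ : ∃ lam : ℕ, lam = ⌊(H : ℝ) / D⌋₊ := ⟨_, rfl⟩
  have hHDd : 2 ≤ (H : ℝ) / D := by rw [le_div_iff₀ hD0]; exact hHD
  have hl1 : (lam : ℝ) ≤ H / D := by rw [hlam]; exact Nat.floor_le (by positivity)
  have hl2 : (H : ℝ) / D < lam + 1 := by rw [hlam]; exact Nat.lt_floor_add_one _
  obtain ⟨hl3, hl6⟩ := Core_fl hHDd hl2
  have hl0 : (0 : ℝ) < lam := one_pos.trans hl3
  have hl4 : (lam : ℝ) * D ≤ H := by rwa [le_div_iff₀ hD0] at hl1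
  have hl5 : (H : ℝ) ≤ 2 * lam * D := by
    rwa [div_le_iff₀ hD0] at hl6
  have hB01 : 1 ≤ B0 := by
    have a1 : (0 : ℝ) < B0 := lt_of_lt_of_le hP0 hb1
    exact_mod_cast a1
  have hb0 : (0 : ℝ) < B0 := lt_of_lt_of_le hP0 hb1
  have hKQ1' : (N : ℝ) ≤ K * Q := by exact_mod_cast hKQ1
  have hH2' : (H : ℝ) ≤ 3 * N := by exact_mod_cast hH2
  obtain ⟨n1, n2, n3, n4, n5, n6, n7, n8, n9, n10, n11, n12⟩ :=
    Core_num B0 M G0 lam K H Q N T Lc P R Y Z L G D X V w hL12 hT1 hLc1 hR1 hY1 hZ1 hPe hV hG hD hX hw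
      hb1 hb2 hM0 hM1 hg0 hg4 hg5 hl0 hl4 hl5 hH1 hQG hKG hKQ1' hH2'
  have hlam1 : 1 ≤ lam := by
    have : (0 : ℝ) < lam := hl0
    exact_mod_cast this
  have h4K : 4 * K ≤ lam := by exact_mod_cast n12
  have hmain := h1 Q H K lam G0 B0 N A0 f M hB01 hG01 hG0K h4K hf hsup
  -- the error term
  have hlogK : Real.log K ≤ L := by
    rw [hLdef]
    exact Real.log_le_log hk0 (by exact_mod_cast hK2)
  have hlogK0 : 0 ≤ Real.log K := Real.log_nonneg (by linarith only [hKG, hG1])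
  have hs0 : 0 ≤ ∑ n ∈ Icc (1 : ℤ) N, (f n) ^ 2 := Finset.sum_nonneg fun n _ => sq_nonneg _
  have hs1 : ∑ n ∈ Icc (1 : ℤ) N, (f n) ^ 2 ≤ K * Q * Lc :=
    hsq.trans (mul_le_mul_of_nonneg_right hKQ1' hLc0.le)
  have herr : ErC Q H K lam G0 B0 M (∑ n ∈ Icc (1 : ℤ) N, (f n) ^ 2) ≤
      45578 * (H * Q * (K : ℝ) ^ 2 * w) := by
    have h5 := Core_ar B0 M G0 lam K H Q w V Lc L (Real.log K) (∑ n ∈ Icc (1 : ℤ) N, (f n) ^ 2) hb0 hM0
      hg0 hl0 hk0 hh0 hq0 hw0 hV0 hLc0 hL0 hs0 hlogK0 n1 n2 n3 n4 n5 n6 n7 n8 n9 n10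
      (by linarith only [hlogK, hL1]) hs1
    exact h5
  -- the low part
  have hlowX : ∀ q, 1 ≤ q → q ≤ B0 → ∀ h : ℕ, h.Coprime q → ∀ a : ℤ, ∀ b : ℕ,
      ∑ d ∈ Ioc Q (2 * Q), ‖∑ k ∈ Icc (-(K : ℤ)) K, ee ((b : ℝ) * (k : ℝ) / (q : ℝ)) *
        cA lam f ((h : ℝ) / (q : ℝ)) (a + d * k)‖ ^ 2 ≤
      C * Q * (K : ℝ) ^ 2 * L ^ (-(A + (β + β) + 1)) := by
    intro q hq1 hq2 hh hcop a b
    have hq2' : (q : ℝ) ≤ 2 * P := by
      have a1 : (q : ℝ) ≤ B0 := by exact_mod_cast hq2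
      exact a1.trans hb2
    have hbb : L ^ (B + β + 1) = R * P * L := by
      rw [Real.rpow_add hL0, Real.rpow_add hL0, Real.rpow_one, ← hR, ← hP]
    have h5 := hS N Q K q lam a (b : ℤ) (cA lam f ((hh : ℝ) / (q : ℝ))) M hN3 hK1 hK2 hQ1 hQ2 hKQ1 hq1
      (by
        rw [← hLdef, hbb]
        calc (q : ℝ) ≤ 2 * P := hq2'
          _ ≤ L * P := mul_le_mul_of_nonneg_right (by linarith only [hL12]) hP0.le
          _ ≤ R * (L * P) := le_mul_of_one_le_left (by positivity) hR1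
          _ = R * P * L := by ring) hM0
      (by
        rw [← hLdef, hbb]
        calc M ≤ R := hM1
          _ ≤ R * (P * L) := le_mul_of_one_le_right hR0.le (Core_mulge hP1 hL1)
          _ = R * P * L := by ring)
      (by
        rw [← hLdef, ← hZ]
        exact n11)
      (fun n => h3.2.2 lam f M _ n hlam1 hf)
      (fun n n' hnn => by
        unfold cA
        rw [hnn])
      (by
        intro u v
        rw [← hLdef]
        have h6 := Core_cmp h3 lam hlam1 f ((hh : ℝ) / (q : ℝ)) M hM0 hf u v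
        have h7 := hlow q hh hq1 (by rw [← hβ, ← hP]; exact hq2') hcop u v
        have h8 : L ^ (-(A2' + 1)) = (Y * L)⁻¹ := by
          rw [Real.rpow_neg hL0.le, Real.rpow_add hL0, Real.rpow_one, ← hY]
        have h9 : L ^ (-A2') = Y⁻¹ := by
          rw [Real.rpow_neg hL0.le, ← hY]
        rw [h8] at h7
        rw [h9]
        have hRV : R * Y * L ^ 2 ≤ D := by
          have a1 : 1 ≤ G * (P ^ 2 * R) * T :=
            Core_mulge (Core_mulge hG1 (Core_mulge (one_le_pow₀ hP1) hR1)) hT1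
          calc R * Y * L ^ 2 ≤ R * Y * L ^ 2 * (G * (P ^ 2 * R) * T) :=
                le_mul_of_one_le_right (by positivity) a1
            _ = D := by rw [hD, hV]; ring
        have h10 : 4 * lam * M ≤ 12 * N / (Y * L ^ 2) := by
          rw [le_div_iff₀ (by positivity)]
          calc 4 * lam * M * (Y * L ^ 2) ≤ 4 * lam * R * (Y * L ^ 2) := by
                have a1 := mul_le_mul_of_nonneg_right hM1 (show 0 ≤ 4 * lam * (Y * L ^ 2) by positivity)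
                linarith only [a1]
            _ = 4 * lam * (R * Y * L ^ 2) := by ring
            _ ≤ 4 * lam * D := mul_le_mul_of_nonneg_left hRV (by positivity)
            _ = 4 * (lam * D) := by ring
            _ ≤ 12 * N := by linarith only [hl4, hH2']
        have hNn : (0 : ℝ) ≤ N := by positivity
        have h11 : (N : ℝ) * (Y * L)⁻¹ + 12 * N / (Y * L ^ 2) ≤ N * Y⁻¹ := by
          have a1 : (N : ℝ) * (Y * L)⁻¹ + 12 * N / (Y * L ^ 2) = (N * Y⁻¹) * ((L + 12) / L ^ 2) := by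
            field_simp
          have a2 : (L + 12) / L ^ 2 ≤ 1 := by
            rw [div_le_one (by positivity)]
            nlinarith only [hL12]
          rw [a1]
          exact mul_le_of_le_one_right (by positivity) a2
        linarith only [h6, h7, h10, h11])
    rw [← hLdef] at h5
    simpa only [Int.cast_natCast] using h5
  have hX0 : 0 ≤ C * Q * (K : ℝ) ^ 2 * L ^ (-(A + (β + β) + 1)) := by positivity
  have hlow2 := Core_low Q H K B0 lam A0 f _ hX0 hlowX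
  have hlow3 : (B0 : ℝ) ^ 2 * (H * (C * Q * (K : ℝ) ^ 2 * L ^ (-(A + (β + β) + 1)))) ≤
      4 * C * (H * Q * (K : ℝ) ^ 2 * w) := by
    have a1 : L ^ (-(A + (β + β) + 1)) = (T * (P * P) * L)⁻¹ := by
      rw [Real.rpow_neg hL0.le, Real.rpow_add hL0, Real.rpow_add hL0, Real.rpow_add hL0, Real.rpow_one,
        ← hT, ← hP]
    have a2 : (B0 : ℝ) ^ 2 ≤ 4 * (P * P) := by
      have a3 := Core_sq hb0.le hb2
      linarith only [a3]
    calc (B0 : ℝ) ^ 2 * (H * (C * Q * (K : ℝ) ^ 2 * L ^ (-(A + (β + β) + 1)))) ≤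
        (4 * (P * P)) * (H * (C * Q * (K : ℝ) ^ 2 * L ^ (-(A + (β + β) + 1)))) :=
          mul_le_mul_of_nonneg_right a2 (by positivity)
      _ = 4 * C * (H * Q * (K : ℝ) ^ 2 * w) := by
        rw [a1, hw]
        field_simp
  have hTA : L ^ (-A) = L * w := by
    rw [Real.rpow_neg hL0.le, ← hT, hw]
    field_simp
  rw [hTA]
  have hW0 : 0 ≤ H * Q * (K : ℝ) ^ 2 * w := by positivity
  have hfin := mul_le_mul_of_nonneg_right hLC hW0
  linarith only [hmain, herr, hlow2, hlow3, hfin]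

end Pool.Agent.Lib.UI
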