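import Pool.Agent.Lib.UI.SpecS

namespace Pool.Agent.Lib.UI

open Finset Pool.Agent.Lib.EH3 MeasureTheory AddCircle

private lemma Par_ee (m : ℤ) (x : ℝ) : fourier m ((x : ℝ) : AddCircle (4 : ℝ)) = ee ((m : ℝ) * x / 4) := by
  rw [fourier_coe_apply, ee]
  congr 1
  push_cast
  ring

private lemma Par_shift (ψ : AddCircle (4 : ℝ) → ℂ) (l : AddCircle (4 : ℝ)) (m : ℤ) :
    fourierCoeff (fun x => ψ (x + l)) m = fourier m l * fourierCoeff ψ m := by
  unfold fourierCoeff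
  have h1 : ∀ t : AddCircle (4 : ℝ), fourier (-m) t • ψ (t + l) =
      (fun u : AddCircle (4 : ℝ) => fourier m l * (fourier (-m) u • ψ u)) (t + l) := by
    intro t
    have h2 : (fourier (-m) (t + l) : ℂ) = fourier (-m) t * fourier (-m) l := by
      rw [fourier_apply, fourier_apply, fourier_apply, smul_add, toCircle_add]
      push_cast
      rfl
    have h3 : (fourier m l : ℂ) * fourier (-m) l = 1 := by
      rw [← fourier_add, add_neg_cancel, fourier_zero]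
    simp only [smul_eq_mul, h2]
    linear_combination (-(fourier (-m) t : ℂ) * ψ (t + l)) * h3
  simp_rw [h1]
  rw [integral_add_right_eq_self (μ := haarAddCircle)
    (fun u : AddCircle (4 : ℝ) => fourier m l * (fourier (-m) u • ψ u)) l, integral_const_mul]

private lemma Par_pars (f : AddCircle (4 : ℝ) → ℂ) (hf : MemLp f 2 (haarAddCircle (T := 4))) :
    HasSum (fun i : ℤ => ‖fourierCoeff f i‖ ^ 2) (∫ t, ‖f t‖ ^ 2 ∂(haarAddCircle (T := 4))) := by
  have h := hasSum_sq_fourierCoeff hf.toLp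
  have h2 : ∫ t, ‖(hf.toLp : AddCircle (4 : ℝ) → ℂ) t‖ ^ 2 ∂(haarAddCircle (T := 4)) =
      ∫ t, ‖f t‖ ^ 2 ∂(haarAddCircle (T := 4)) := by
    apply integral_congr_ae
    filter_upwards [hf.coeFn_toLp] with x hx
    rw [hx]
  rw [h2] at h
  have h3 : (fun i : ℤ => ‖fourierCoeff (hf.toLp : AddCircle (4 : ℝ) → ℂ) i‖ ^ 2) =
      (fun i : ℤ => ‖fourierCoeff f i‖ ^ 2) := by
    ext i
    rw [fourierCoeff_congr_ae hf.coeFn_toLp]
  rw [h3] at h
  exact h

private lemma Par_nat (T : Finset ℕ) (m1 : ℕ) (h1 : 1 ≤ m1) (h : ∀ n ∈ T, m1 < n) :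
    ∑ n ∈ T, (((n : ℝ) ^ 2)⁻¹) ≤ ((m1 : ℝ))⁻¹ := by
  have h2 : T ⊆ Ioc m1 (max m1 (T.sup id)) := by
    intro n hn
    rw [mem_Ioc]
    exact ⟨h n hn, le_trans (Finset.le_sup (f := id) hn) (le_max_right _ _)⟩
  calc ∑ n ∈ T, (((n : ℝ) ^ 2)⁻¹) ≤ ∑ n ∈ Ioc m1 (max m1 (T.sup id)), (((n : ℝ) ^ 2)⁻¹) := by
        apply Finset.sum_le_sum_of_subset_of_nonneg h2
        intros
        positivity
    _ ≤ ((m1 : ℝ))⁻¹ - (((max m1 (T.sup id) : ℕ) : ℝ))⁻¹ :=
        sum_Ioc_inv_sq_le_sub (by omega) (le_max_left _ _)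
    _ ≤ ((m1 : ℝ))⁻¹ := by
        have : (0 : ℝ) ≤ (((max m1 (T.sup id) : ℕ) : ℝ))⁻¹ := by positivity
        linarith

private lemma Par_int (s : Finset ℤ) (m1 : ℕ) (h1 : 1 ≤ m1) (h : ∀ m ∈ s, (m1 : ℤ) < |m|) :
    ∑ m ∈ s, (((m : ℝ) ^ 2)⁻¹) ≤ 2 * ((m1 : ℝ))⁻¹ := by
  classical
  rw [← Finset.sum_filter_add_sum_filter_not s (fun m => 0 < m)]
  have e : ∀ m : ℤ, ((m.natAbs : ℝ) ^ 2)⁻¹ = (((m : ℝ) ^ 2)⁻¹) := by
    intro m
    rw [Nat.cast_natAbs]
    push_cast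
    rw [sq_abs]
  have p : ∑ m ∈ s.filter (fun m => 0 < m), (((m : ℝ) ^ 2)⁻¹) ≤ ((m1 : ℝ))⁻¹ := by
    have := Par_nat ((s.filter (fun m => 0 < m)).image Int.natAbs) m1 h1 (by
      intro n hn
      rw [mem_image] at hn
      obtain ⟨m, hm, rfl⟩ := hn
      have h3 := h m (mem_filter.mp hm).1
      have h4 := (mem_filter.mp hm).2
      rw [Int.abs_eq_natAbs] at h3
      omega)
    rw [Finset.sum_image] at this
    · simpa only [e] using this
    · intro a ha b hb hab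
      have h1 := (mem_filter.mp ha).2
      have h2 := (mem_filter.mp hb).2
      have h3 : a.natAbs = b.natAbs := hab
      omega
  have q : ∑ m ∈ s.filter (fun m => ¬ 0 < m), (((m : ℝ) ^ 2)⁻¹) ≤ ((m1 : ℝ))⁻¹ := by
    have := Par_nat ((s.filter (fun m => ¬ 0 < m)).image Int.natAbs) m1 h1 (by
      intro n hn
      rw [mem_image] at hn
      obtain ⟨m, hm, rfl⟩ := hn
      have h3 := h m (mem_filter.mp hm).1
      have h4 := (mem_filter.mp hm).2
      rw [Int.abs_eq_natAbs] at h3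
      omega)
    rw [Finset.sum_image] at this
    · simpa only [e] using this
    · intro a ha b hb hab
      have h1 := (mem_filter.mp ha).2
      have h2 := (mem_filter.mp hb).2
      have h3 : a.natAbs = b.natAbs := hab
      omega
  linarith

/-- Parseval inequality on the circle. -/
theorem tPar : ParStmt := by
  classical
  intro ψ ι c l M Z w W m0 m1 hψ hM hc hZ h0 h1 hZm hw hW
  have hM0 : 0 ≤ M := le_trans (norm_nonneg _) (hM 0)
  have hw0 : 0 ≤ w := le_trans (norm_nonneg _) (hw 0 (by simp))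
  -- s
  set s : AddCircle (4 : ℝ) → ℂ := fun x => ∑ k ∈ ι, c k * ψ (x + ((l k : ℝ) : AddCircle (4 : ℝ))) with hs
  have hsm : Measurable s := by
    apply Finset.measurable_sum
    intro k _
    exact (hψ.comp (measurable_add_const _)).const_mul _
  have hsb : ∀ x, ‖s x‖ ≤ ι.card * M := by
    intro x
    calc ‖s x‖ ≤ ∑ k ∈ ι, ‖c k * ψ (x + ((l k : ℝ) : AddCircle (4 : ℝ)))‖ := norm_sum_le _ _
      _ ≤ ∑ k ∈ ι, M := by
          apply Finset.sum_le_sum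
          intro k hk
          rw [norm_mul]
          calc ‖c k‖ * ‖ψ (x + ((l k : ℝ) : AddCircle (4 : ℝ)))‖ ≤ 1 * M := by
                apply mul_le_mul (hc k hk) (hM _) (norm_nonneg _) zero_le_one
            _ = M := one_mul M
      _ = ι.card * M := by rw [Finset.sum_const, nsmul_eq_mul]
  have hsL : MemLp s 2 (haarAddCircle (T := 4)) :=
    MemLp.of_bound hsm.aestronglyMeasurable (ι.card * M) (Filter.Eventually.of_forall hsb)
  have hψL : MemLp ψ 2 (haarAddCircle (T := 4)) :=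
    MemLp.of_bound hψ.aestronglyMeasurable M (Filter.Eventually.of_forall hM)
  have hψi : ∀ k, Integrable (fun x => c k * ψ (x + ((l k : ℝ) : AddCircle (4 : ℝ)))) (haarAddCircle (T := 4)) := by
    intro k
    have : MemLp (fun x => c k * ψ (x + ((l k : ℝ) : AddCircle (4 : ℝ)))) 1 (haarAddCircle (T := 4)) := by
      apply MemLp.of_bound ((hψ.comp (measurable_add_const _)).const_mul _).aestronglyMeasurable (‖c k‖ * M)
      refine Filter.Eventually.of_forall ?_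
      intro x
      rw [norm_mul]
      exact mul_le_mul_of_nonneg_left (hM _) (norm_nonneg _)
    exact memLp_one_iff_integrable.mp this
  have hcoef : ∀ m : ℤ, fourierCoeff s m = (∑ k ∈ ι, c k * ee ((m : ℝ) * l k / 4)) * fourierCoeff ψ m := by
    intro m
    have h3 : fourierCoeff s m = ∑ k ∈ ι, fourierCoeff (fun x => c k * ψ (x + ((l k : ℝ) : AddCircle (4 : ℝ)))) m := by
      unfold fourierCoeff
      rw [← integral_finsetSum]
      · congr 1
        ext x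
        rw [hs]
        simp only [smul_eq_mul, Finset.mul_sum]
      · intro k _
        exact (hψi k).fourier_smul _
    rw [h3, Finset.sum_mul]
    apply Finset.sum_congr rfl
    intro k _
    rw [fourierCoeff.const_mul (fun x => ψ (x + ((l k : ℝ) : AddCircle (4 : ℝ)))), Par_shift, Par_ee]
    ring
  have hP := Par_pars s hsL
  have hQ := Par_pars ψ hψL
  have hψint : ∫ t, ‖ψ t‖ ^ 2 ∂(haarAddCircle (T := 4)) ≤ M ^ 2 := by
    calc ∫ t, ‖ψ t‖ ^ 2 ∂(haarAddCircle (T := 4)) ≤ ∫ t, M ^ 2 ∂(haarAddCircle (T := 4)) := by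
          apply integral_mono_of_nonneg
          · exact Filter.Eventually.of_forall (fun x => by positivity)
          · exact integrable_const _
          · refine Filter.Eventually.of_forall (fun x => ?_)
            exact pow_le_pow_left₀ (norm_nonneg _) (hM x) 2
      _ = M ^ 2 := by simp
  have hcard : ∀ m : ℤ, ‖∑ k ∈ ι, c k * ee ((m : ℝ) * l k / 4)‖ ≤ ι.card := by
    intro m
    calc ‖∑ k ∈ ι, c k * ee ((m : ℝ) * l k / 4)‖ ≤ ∑ k ∈ ι, ‖c k * ee ((m : ℝ) * l k / 4)‖ := norm_sum_le _ _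
      _ ≤ ∑ k ∈ ι, (1 : ℝ) := by
          apply Finset.sum_le_sum
          intro k hk
          have he : ‖ee ((m : ℝ) * l k / 4)‖ = 1 := by
            rw [ee, mul_comm Complex.I]
            exact Complex.norm_exp_ofReal_mul_I _
          rw [norm_mul, he, mul_one]
          exact hc k hk
      _ = ι.card := by simp
  refine hasSum_le_of_sum_le hP ?_
  intro S
  have key : ∀ m : ℤ, ‖fourierCoeff s m‖ ^ 2 ≤ Z ^ 2 * ‖fourierCoeff ψ m‖ ^ 2 +
      (if |m| ≤ (m0 : ℤ) then (ι.card : ℝ) ^ 2 * w ^ 2 else 0) +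
      (if (m1 : ℤ) < |m| then (ι.card : ℝ) ^ 2 * W ^ 2 * (((m : ℝ) ^ 2)⁻¹) else 0) := by
    intro m
    have hp1 : 0 ≤ Z ^ 2 * ‖fourierCoeff ψ m‖ ^ 2 := by positivity
    have hp2 : 0 ≤ (if |m| ≤ (m0 : ℤ) then (ι.card : ℝ) ^ 2 * w ^ 2 else 0) := by
      split_ifs <;> positivity
    have hp3 : 0 ≤ (if (m1 : ℤ) < |m| then (ι.card : ℝ) ^ 2 * W ^ 2 * (((m : ℝ) ^ 2)⁻¹) else 0) := by
      split_ifs <;> positivity
    rw [hcoef m, norm_mul, mul_pow]
    by_cases hm0 : |m| ≤ (m0 : ℤ)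
    · have : ‖∑ k ∈ ι, c k * ee ((m : ℝ) * l k / 4)‖ ^ 2 * ‖fourierCoeff ψ m‖ ^ 2 ≤ (ι.card : ℝ) ^ 2 * w ^ 2 := by
        apply mul_le_mul
        · exact pow_le_pow_left₀ (norm_nonneg _) (hcard m) 2
        · exact pow_le_pow_left₀ (norm_nonneg _) (hw m hm0) 2
        · positivity
        · positivity
      rw [if_pos hm0]
      rw [if_pos hm0] at hp2
      linarith
    · by_cases hm1 : |m| ≤ (m1 : ℤ)
      · have : ‖∑ k ∈ ι, c k * ee ((m : ℝ) * l k / 4)‖ ^ 2 * ‖fourierCoeff ψ m‖ ^ 2 ≤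
            Z ^ 2 * ‖fourierCoeff ψ m‖ ^ 2 := by
          apply mul_le_mul_of_nonneg_right _ (by positivity)
          exact pow_le_pow_left₀ (norm_nonneg _) (hZm m (not_le.mp hm0) hm1) 2
        linarith
      · have hmne : m ≠ 0 := by
          intro h
          rw [h] at hm1
          simp at hm1
        have : ‖∑ k ∈ ι, c k * ee ((m : ℝ) * l k / 4)‖ ^ 2 * ‖fourierCoeff ψ m‖ ^ 2 ≤
            (ι.card : ℝ) ^ 2 * W ^ 2 * (((m : ℝ) ^ 2)⁻¹) := by
          rw [mul_assoc]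
          apply mul_le_mul
          · exact pow_le_pow_left₀ (norm_nonneg _) (hcard m) 2
          · calc ‖fourierCoeff ψ m‖ ^ 2 ≤ (W / |(m : ℝ)|) ^ 2 :=
                  pow_le_pow_left₀ (norm_nonneg _) (hW m hmne) 2
              _ = W ^ 2 * (((m : ℝ) ^ 2)⁻¹) := by
                  rw [div_pow, sq_abs, div_eq_mul_inv]
          · positivity
          · positivity
        rw [if_pos (not_le.mp hm1)]
        rw [if_pos (not_le.mp hm1)] at hp3
        linarith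
  have t1 : ∑ m ∈ S, Z ^ 2 * ‖fourierCoeff ψ m‖ ^ 2 ≤ Z ^ 2 * M ^ 2 := by
    rw [← Finset.mul_sum]
    apply mul_le_mul_of_nonneg_left _ (by positivity)
    exact le_trans (sum_le_hasSum S (fun i _ => by positivity) hQ) hψint
  have t2 : ∑ m ∈ S, (if |m| ≤ (m0 : ℤ) then (ι.card : ℝ) ^ 2 * w ^ 2 else 0) ≤
      (ι.card : ℝ) ^ 2 * (3 * m0 * w ^ 2) := by
    rw [← Finset.sum_filter, Finset.sum_const, nsmul_eq_mul]
    have hsub : S.filter (fun m => |m| ≤ (m0 : ℤ)) ⊆ Icc (-(m0 : ℤ)) m0 := by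
      intro m hm
      have := (mem_filter.mp hm).2
      rw [mem_Icc]
      exact abs_le.mp this
    have hc2 : (S.filter (fun m => |m| ≤ (m0 : ℤ))).card ≤ 3 * m0 := by
      refine le_trans (Finset.card_le_card hsub) ?_
      rw [Int.card_Icc]
      omega
    have hc3 : ((S.filter (fun m => |m| ≤ (m0 : ℤ))).card : ℝ) ≤ 3 * m0 := by exact_mod_cast hc2
    calc ((S.filter (fun m => |m| ≤ (m0 : ℤ))).card : ℝ) * ((ι.card : ℝ) ^ 2 * w ^ 2) ≤
        (3 * m0) * ((ι.card : ℝ) ^ 2 * w ^ 2) := mul_le_mul_of_nonneg_right hc3 (by positivity)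
      _ = (ι.card : ℝ) ^ 2 * (3 * m0 * w ^ 2) := by ring
  have t3 : ∑ m ∈ S, (if (m1 : ℤ) < |m| then (ι.card : ℝ) ^ 2 * W ^ 2 * (((m : ℝ) ^ 2)⁻¹) else 0) ≤
      (ι.card : ℝ) ^ 2 * (2 * W ^ 2 / m1) := by
    rw [← Finset.sum_filter, ← Finset.mul_sum]
    have := Par_int (S.filter (fun m => (m1 : ℤ) < |m|)) m1 h1 (fun m hm => (mem_filter.mp hm).2)
    calc (ι.card : ℝ) ^ 2 * W ^ 2 * ∑ m ∈ S.filter (fun m => (m1 : ℤ) < |m|), (((m : ℝ) ^ 2)⁻¹) ≤
        (ι.card : ℝ) ^ 2 * W ^ 2 * (2 * ((m1 : ℝ))⁻¹) := mul_le_mul_of_nonneg_left this (by positivity)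
      _ = (ι.card : ℝ) ^ 2 * (2 * W ^ 2 / m1) := by ring
  calc ∑ m ∈ S, ‖fourierCoeff s m‖ ^ 2 ≤ ∑ m ∈ S, (Z ^ 2 * ‖fourierCoeff ψ m‖ ^ 2 +
      (if |m| ≤ (m0 : ℤ) then (ι.card : ℝ) ^ 2 * w ^ 2 else 0) +
      (if (m1 : ℤ) < |m| then (ι.card : ℝ) ^ 2 * W ^ 2 * (((m : ℝ) ^ 2)⁻¹) else 0)) :=
        Finset.sum_le_sum (fun m _ => key m)
    _ = ∑ m ∈ S, Z ^ 2 * ‖fourierCoeff ψ m‖ ^ 2 +
        ∑ m ∈ S, (if |m| ≤ (m0 : ℤ) then (ι.card : ℝ) ^ 2 * w ^ 2 else 0) +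
        ∑ m ∈ S, (if (m1 : ℤ) < |m| then (ι.card : ℝ) ^ 2 * W ^ 2 * (((m : ℝ) ^ 2)⁻¹) else 0) := by
          rw [Finset.sum_add_distrib, Finset.sum_add_distrib]
    _ ≤ Z ^ 2 * M ^ 2 + (ι.card : ℝ) ^ 2 * (3 * m0 * w ^ 2) + (ι.card : ℝ) ^ 2 * (2 * W ^ 2 / m1) := by
          linarith
    _ = Z ^ 2 * M ^ 2 + (ι.card : ℝ) ^ 2 * (3 * m0 * w ^ 2 + 2 * W ^ 2 / m1) := by ring

end Pool.Agent.Lib.UI
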