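import Pool.Agent.Lib.BV.Far
import Pool.Agent.Lib.EH3.LS2

/-!
MP_00e23e_nt, directory Lib/UI (theorem U1: Elliott-Halberstam on average over short intervals of
residues; coordinator helper62), part C (helper81): step 2, cells. Everything is discrete. First lines of
every module of this part: `import Pool.Agent.Lib.UI.SpecC`, then `namespace Pool.Agent.Lib.UI`,
`open Finset Pool.Agent.Lib.EH3`. Private lemmas start with the name of the module. Final theorem of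
module Xyz: `theorem tXyz (h1 : AStmt) ... : XyzStmt`.

Notation: d ∈ Ioc Q (2Q), a ∈ Ico A (A + H), integers k1 < k2 = k1 + g, n1 = a + d k1, n2 = a + d k2, so
n2 - n1 = g d and n1 - k1 (n2 - n1)/g = a. cell j = [j lam, (j+1) lam).
-/

namespace Pool.Agent.Lib.UI

open Finset Pool.Agent.Lib.EH3

/-- the cell number j -/
noncomputable def cell (lam : ℕ) (j : ℤ) : Finset ℤ := Ico (j * lam) ((j + 1) * lam)

/-- the exponential sum of f over the cell number j -/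
noncomputable def cF (lam : ℕ) (f : ℤ → ℝ) (t : ℝ) (j : ℤ) : ℂ :=
  ∑ n ∈ cell lam j, ((f n : ℝ) : ℂ) * ee ((n : ℝ) * t)

/-- the step function: average of f(n) e(n t) over the cell of n -/
noncomputable def cA (lam : ℕ) (f : ℤ → ℝ) (t : ℝ) (n : ℤ) : ℂ := cF lam f t (n / (lam : ℤ)) / (lam : ℂ)

/-- the sum over (d, a) of u(a + d k1) conj v(a + d k2) -/
noncomputable def PP (Q H : ℕ) (A : ℤ) (u v : ℤ → ℂ) (k1 k2 : ℤ) : ℂ :=
  ∑ d ∈ Ioc Q (2 * Q), ∑ a ∈ Ico A (A + H), u (a + d * k1) * (starRingEnd ℂ) (v (a + d * k2))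

/-- the pairs of a cell i and a cell j which are congruent modulo g -/
noncomputable def cong (lam g : ℕ) (i j : ℤ) : Finset (ℤ × ℤ) :=
  (cell lam i ×ˢ cell lam j).filter (fun p => (g : ℤ) ∣ p.2 - p.1)

/-- all congruent pairs of the cells i, j come from d ∈ (Q, 2Q] and a ∈ [A, A + H) -/
def Good (Q H lam g : ℕ) (A k1 : ℤ) (ij : ℤ × ℤ) : Prop :=
  ∀ p ∈ cong lam g ij.1 ij.2, (Q : ℤ) < (p.2 - p.1) / g ∧ (p.2 - p.1) / g ≤ 2 * (Q : ℤ) ∧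
    A ≤ p.1 - k1 * ((p.2 - p.1) / g) ∧ p.1 - k1 * ((p.2 - p.1) / g) < A + H

open Classical in
/-- the good pairs of cells which contain a pair (a + d k1, a + d (k1 + g)) -/
noncomputable def good (Q H lam g : ℕ) (A k1 : ℤ) : Finset (ℤ × ℤ) :=
  ((Ioc Q (2 * Q) ×ˢ Ico A (A + H)).image
    (fun da => ((da.2 + da.1 * k1) / (lam : ℤ), (da.2 + da.1 * (k1 + g)) / (lam : ℤ)))).filter
      (Good Q H lam g A k1)

/-- the sum over the reduced fractions with denominator q -/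
noncomputable def red (q : ℕ) (G : ℝ → ℝ) : ℝ :=
  ∑ h ∈ (range q).filter (fun h => h.Coprime q), G ((h : ℝ) / (q : ℝ))

/-- the same for complex functions -/
noncomputable def redc (q : ℕ) (G : ℝ → ℂ) : ℂ :=
  ∑ h ∈ (range q).filter (fun h => h.Coprime q), G ((h : ℝ) / (q : ℝ))

/-- Module Cfr (theorem tCfr; reduced fractions). Uses: nothing.
Proof. The map (q, h') ↦ h = h' (g/q) is a bijection from the pairs q | g, h' < q coprime to q onto range g (inverse: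
q = g/gcd(h, g), h' = h/gcd(h, g); for h = 0: q = 1, h' = 0), and h/g = h'/q. Compare Nat.sum_totient /
Nat.filter_coprime_Ico_eq_totient, or BV/EH4 modules with Farey fractions. -/
def CfrStmt : Prop := ∀ (g : ℕ) (G : ℝ → ℂ), 1 ≤ g →
  ∑ h ∈ range g, G ((h : ℝ) / (g : ℝ)) = ∑ q ∈ g.divisors, redc q G

/-- Module Cpa (theorem tCpa; one pair of cells, exact identity). Uses: nothing.
Proof. (1/g) ∑_{h < g} e((n1 - n2) h/g) = [g | n1 - n2] (EH3.orth); multiply by f(n1) f(n2) and sum over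
n1 ∈ cell i, n2 ∈ cell j. -/
def CpaStmt : Prop := ∀ (lam g : ℕ) (f : ℤ → ℝ) (i j : ℤ), 1 ≤ g →
  ∑ p ∈ cong lam g i j, ((f p.1 : ℝ) : ℂ) * (starRingEnd ℂ) ((f p.2 : ℝ) : ℂ) =
    (1 / (g : ℂ)) * ∑ h ∈ range g, cF lam f ((h : ℝ) / (g : ℝ)) i *
      (starRingEnd ℂ) (cF lam f ((h : ℝ) / (g : ℝ)) j)

/-- Module Cpc (theorem tCpc; number of congruent pairs and the step function). Uses: nothing.
Proof. (1) For n1 ∈ cell i the number of n2 ∈ cell j with n2 = n1 mod g is between lam/g - 1 and lam/g + 1 (an interval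
of lam integers; Int.Ico_filter_modEq_card or floor inequalities). Sum over the lam values n1. (2) cA is constant on
cells: cA(n1) = cF i/lam, |cF| ≤ M lam; the sum is #cong · cF i conj(cF j)/lam², and |#cong - lam²/g| ≤ lam.
(3) |cA| ≤ M. -/
def CpcStmt : Prop :=
  (∀ (lam g : ℕ) (i j : ℤ), 1 ≤ lam → 1 ≤ g → |((cong lam g i j).card : ℝ) - (lam : ℝ) ^ 2 / g| ≤ lam) ∧
  (∀ (lam g : ℕ) (f : ℤ → ℝ) (M t : ℝ) (i j : ℤ), 1 ≤ lam → 1 ≤ g → (∀ n, |f n| ≤ M) →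
    ‖∑ p ∈ cong lam g i j, cA lam f t p.1 * (starRingEnd ℂ) (cA lam f t p.2) -
      (1 / (g : ℂ)) * (cF lam f t i * (starRingEnd ℂ) (cF lam f t j))‖ ≤ M ^ 2 * lam) ∧
  (∀ (lam : ℕ) (f : ℤ → ℝ) (M t : ℝ) (n : ℤ), 1 ≤ lam → (∀ n, |f n| ≤ M) → ‖cA lam f t n‖ ≤ M)

/-- Module Cin (theorem tCin; interior and boundary cells). Uses: nothing.
Proof. The map (d, a) ↦ (n1, n2) = (a + d k1, a + d (k1 + g)) is injective, n2 - n1 = g d. The pairs (d, a) whose cell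
pair is Good correspond exactly (bijection, inverse d = (n2 - n1)/g, a = n1 - k1 d) to the disjoint union of cong over
good. If the cell pair (i, j) of (d, a) is not Good, there is (n1', n2') ∈ cong with d' = (n2' - n1')/g ∉ (Q, 2Q] or
a' = n1' - k1 d' ∉ [A, A + H); |n1' - n1|, |n2' - n2| < lam give |d' - d| ≤ 2 lam/g ≤ 2 lam/G0 and
|a' - a| ≤ lam + |k1| 2 lam/g ≤ 3 K lam/G0 (G0 ≤ K). So d is within 2 lam/G0 of an end of (Q, 2Q], or a within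
3 K lam/G0 of an end of [A, A + H): at most H (4 lam/G0 + 2) + Q (6 K lam/G0 + 2) pairs, each term ≤ M². -/
def CinStmt : Prop := ∀ (Q H lam g G0 K : ℕ) (A k1 : ℤ) (u v : ℤ → ℂ) (M : ℝ), 1 ≤ lam → 1 ≤ G0 → G0 ≤ g →
  G0 ≤ K → |k1| ≤ (K : ℤ) → (∀ n, ‖u n‖ ≤ M) → (∀ n, ‖v n‖ ≤ M) →
  ‖PP Q H A u v k1 (k1 + g) - ∑ ij ∈ good Q H lam g A k1, ∑ p ∈ cong lam g ij.1 ij.2,
      u p.1 * (starRingEnd ℂ) (v p.2)‖ ≤
    M ^ 2 * ((H : ℝ) * (4 * lam / G0 + 2) + (Q : ℝ) * (6 * K * lam / G0 + 2))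

/-- Module Cct (theorem tCct; number of good pairs). Uses: first part of Cpc.
Proof. 2 g ≤ lam: #cong ≥ lam²/g - lam ≥ lam²/(2g). The sets cong of the good pairs are disjoint and are contained in the
image of the injective map (d, a) ↦ (a + d k1, a + d (k1 + g)) of (Q, 2Q] × [A, A + H). (i) total: ≤ Q H pairs (d, a).
(ii) fixed i: a + d k1 ∈ cell i, for every a at most lam/|k1| + 1 values of d. (iii) fixed j: the same with k1 + g. -/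
def CctStmt : Prop := ∀ (Q H lam g : ℕ) (A k1 : ℤ), 1 ≤ g → 2 * g ≤ lam →
  ((good Q H lam g A k1).card : ℝ) * (lam : ℝ) ^ 2 ≤ 2 * g * Q * H ∧
  (∀ i : ℤ, k1 ≠ 0 → (((good Q H lam g A k1).filter (fun ij => ij.1 = i)).card : ℝ) * (lam : ℝ) ^ 2 ≤
    2 * g * H * ((lam : ℝ) / |(k1 : ℝ)| + 1)) ∧
  (∀ j : ℤ, k1 + g ≠ 0 → (((good Q H lam g A k1).filter (fun ij => ij.2 = j)).card : ℝ) * (lam : ℝ) ^ 2 ≤
    2 * g * H * ((lam : ℝ) / |((k1 + g : ℤ) : ℝ)| + 1))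

/-- Module Cls (theorem tCls; large sieve with weight 1/q). Uses: BV.tFar : BV.FarStmt.
Proof. By translation (n = j lam - 1 + m, m ∈ Icc 1 lam, a_m = f(n) e((j lam - 1) t) has norm |f n|) FarStmt gives
∑_{2 ≤ q ≤ R} red q ‖cF · j‖² ≤ 20 (lam + R²) S, S = ∑_{n ∈ cell j} f(n)². Cut (B0, 2K] into the blocks
(2^s B0, 2^(s+1) B0], 2^s B0 < 2K: each block ≤ (2^s B0)^(-1) 20 (lam + 4^(s+1) B0²) S; ∑_s 2^(-s) ≤ 2 and
∑_{2^s B0 < 2K} 2^s B0 ≤ 4K: total ≤ (40 lam/B0 + 320 K) S. -/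
def ClsStmt : Prop := ∀ (lam B0 K : ℕ) (f : ℤ → ℝ) (j : ℤ), 1 ≤ lam → 1 ≤ B0 → 1 ≤ K →
  ∑ q ∈ Ioc B0 (2 * K), (1 / (q : ℝ)) * red q (fun t => ‖cF lam f t j‖ ^ 2) ≤
    (40 * (lam : ℝ) / B0 + 320 * K) * ∑ n ∈ cell lam j, (f n) ^ 2

/-- the contribution of the denominators > B0 for one pair (k1, k1 + g) -/
noncomputable def mnr (Q H lam g B0 : ℕ) (A k1 : ℤ) (f : ℤ → ℝ) : ℝ :=
  ∑ ij ∈ good Q H lam g A k1, (1 / (g : ℝ)) * ∑ q ∈ g.divisors.filter (fun q => B0 < q),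
    red q (fun t => (‖cF lam f t ij.1‖ ^ 2 + ‖cF lam f t ij.2‖ ^ 2) / 2)

/-- Module Cfx (theorem tCfx; one pair (k1, k1 + g)). Uses: Cfr, Cpa, Cpc, Cin, Cct.
Proof. By Cin for u = v = f, PP f f is the sum over good of ∑_cong f f up to BB; by Cpa and Cfr each cong sum is
(1/g) ∑_{q | g} redc q (cF i conj cF j). The part q > B0 is ≤ mnr (|z w| ≤ (|z|² + |w|²)/2). For q ≤ B0, q | g and each
reduced h/q: by Cpc (1/g) cF i conj cF j is the sum over cong of cA conj cA up to M² lam; the number of good pairs is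
≤ 2 g Q H/lam² ≤ 4 K Q H/lam², and Cin for u = v = cA (norm ≤ M) gives PP cA cA up to BB. The number of pairs (q, h) with
q ≤ B0 is ≤ B0². -/
def CfxStmt : Prop := ∀ (Q H lam g G0 B0 K : ℕ) (A k1 : ℤ) (f : ℤ → ℝ) (M : ℝ), 1 ≤ G0 → G0 ≤ g → G0 ≤ K →
  g ≤ 2 * K → 4 * K ≤ lam → |k1| ≤ (K : ℤ) → (∀ n, |f n| ≤ M) →
  ‖PP Q H A (fun n => ((f n : ℝ) : ℂ)) (fun n => ((f n : ℝ) : ℂ)) k1 (k1 + g) -
      ∑ q ∈ g.divisors.filter (fun q => q ≤ B0), redc q (fun t => PP Q H A (cA lam f t) (cA lam f t) k1 (k1 + g))‖ ≤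
    (1 + (B0 : ℝ) ^ 2) * (M ^ 2 * ((H : ℝ) * (4 * lam / G0 + 2) + (Q : ℝ) * (6 * K * lam / G0 + 2))) +
      (B0 : ℝ) ^ 2 * (4 * K * Q * H * M ^ 2 / lam) + mnr Q H lam g B0 A k1 f

/-- Module Cmi (theorem tCmi; sum of the contributions of the large denominators). Uses: Cct, Cls.
Proof. Split (|z|² + |w|²)/2. First half: for fixed (k1, g) the sum over ij ∈ good of (1/g) Φ(i) is
∑_i Φ(i) #{ij ∈ good with first entry i}/g ≤ ∑_i Φ(i) (2H/lam²)(lam/|k1| + 1) (Cct; Φ ≥ 0; only cells meeting the support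
[1, N] of f matter: i ∈ Icc 0 (N/lam)), Φ(i) = ∑_{q | g, q > B0} red q ‖cF i‖². Sum over g ≤ 2K first:
∑_{g ≤ 2K} ∑_{q | g, q > B0} X(q) ≤ ∑_{B0 < q ≤ 2K} (2K/q) X(q), then Cls and ∑_i ∑_{cell i} f² ≤ S := ∑_{n ∈ Icc 1 N} f(n)²,
then ∑_{0 < |k1| ≤ K} (lam/|k1| + 1) ≤ 2 lam (1 + log K) + 2K ≤ 4 lam (1 + log K). Half of the first half is
≤ (1/2)(2H/lam²)(4 lam (1 + log K))(2K)(40 lam/B0 + 320 K) S = 8 (H K/lam)(1 + log K)(40 lam/B0 + 320 K) S; the second half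
is the same with k2 = k1 + g in place of k1 (sum over k2 for fixed g). -/
def CmiStmt : Prop := ∀ (Q H lam B0 K N : ℕ) (A : ℤ) (f : ℤ → ℝ), 1 ≤ B0 → 1 ≤ K → 4 * K ≤ lam →
  (∀ n, (n < 1 ∨ (N : ℤ) < n) → f n = 0) →
  ∑ k1 ∈ (Icc (-(K : ℤ)) K).filter (fun k => k ≠ 0),
    ∑ g ∈ (Icc 1 (2 * K)).filter (fun g : ℕ => k1 + g ≤ K ∧ k1 + g ≠ 0), mnr Q H lam g B0 A k1 f ≤
    16 * ((H : ℝ) * K / lam) * (1 + Real.log K) * (40 * (lam : ℝ) / B0 + 320 * K) *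
      ∑ n ∈ Icc (1 : ℤ) N, (f n) ^ 2

/-- the quantity to be bounded -/
noncomputable def VV (Q H K : ℕ) (A : ℤ) (u : ℤ → ℂ) : ℝ :=
  ∑ d ∈ Ioc Q (2 * Q), ∑ a ∈ Ico A (A + H), ‖∑ k ∈ Icc (-(K : ℤ)) K, u (a + d * k)‖ ^ 2

/-- the same with the coefficients e(b k/q) -/
noncomputable def WW (Q H K q b : ℕ) (A : ℤ) (u : ℤ → ℂ) : ℝ :=
  ∑ d ∈ Ioc Q (2 * Q), ∑ a ∈ Ico A (A + H),
    ‖∑ k ∈ Icc (-(K : ℤ)) K, ee ((b : ℝ) * (k : ℝ) / (q : ℝ)) * u (a + d * k)‖ ^ 2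

/-- Module Cor (theorem tCor; orthogonality). Uses: nothing.
Proof. Open the squares: WW = ∑_{k1,k2} e(b (k1 - k2)/q) PP u u k1 k2, average over b (EH3.orth): q | k1 - k2.
VV is the case without the factor. -/
def CorStmt : Prop :=
  (∀ (Q H K : ℕ) (A : ℤ) (u : ℤ → ℂ),
    ((VV Q H K A u : ℝ) : ℂ) = ∑ k1 ∈ Icc (-(K : ℤ)) K, ∑ k2 ∈ Icc (-(K : ℤ)) K, PP Q H A u u k1 k2) ∧
  (∀ (Q H K q : ℕ) (A : ℤ) (u : ℤ → ℂ), 1 ≤ q →
    (((1 / (q : ℝ)) * ∑ b ∈ range q, WW Q H K q b A u : ℝ) : ℂ) =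
      ∑ k1 ∈ Icc (-(K : ℤ)) K, ∑ k2 ∈ (Icc (-(K : ℤ)) K).filter (fun k2 => (q : ℤ) ∣ k2 - k1),
        PP Q H A u u k1 k2)

/-- the error term of step 2 -/
noncomputable def ErC (Q H K lam G0 B0 : ℕ) (M S : ℝ) : ℝ :=
  (1 + (B0 : ℝ) ^ 2) * (12 * K * G0) * (H * Q * M ^ 2) +
  9 * (K : ℝ) ^ 2 * ((1 + (B0 : ℝ) ^ 2) * (M ^ 2 * ((H : ℝ) * (4 * lam / G0 + 2) + (Q : ℝ) * (6 * K * lam / G0 + 2))) +
    (B0 : ℝ) ^ 2 * (4 * K * Q * H * M ^ 2 / lam)) +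
  32 * ((H : ℝ) * K / lam) * (1 + Real.log K) * (40 * (lam : ℝ) / B0 + 320 * K) * S

/-- Module Cfi (theorem tCfi; the result of step 2). Uses: Cfx, Cmi, Cor, Cpc (third part).
Proof. By Cor, VV(f) - ∑_{q ≤ B0} red q ((1/q) ∑_b WW(cA)) = ∑_{k1,k2} Δ(k1,k2), where Δ(k1,k2) = PP f f k1 k2 -
∑_{q ≤ B0, q | k2 - k1} redc q (PP cA cA k1 k2). (i) Excluded pairs: |k1 - k2| < G0 or k1 = 0 or k2 = 0: at most
(2K+1)(2 G0) + 2 (2K+1) ≤ 12 K G0 pairs, |Δ| ≤ (1 + B0²) H Q M². (ii) k1 < k2: g = k2 - k1 ∈ [G0, 2K], Cfx (the q ≤ B0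
dividing g are g.divisors.filter). (iii) k1 > k2: Δ(k1,k2) = conj Δ(k2,k1) up to the reflection h ↦ q - h of the reduced
fractions (or simply PP u u k1 k2 = conj PP u u k2 k1, termwise). At most 9K² pairs; the mnr terms of k1 < k2 are summed
by Cmi (all of them are ≥ 0), twice. -/
def CfiStmt : Prop := ∀ (Q H K lam G0 B0 N : ℕ) (A : ℤ) (f : ℤ → ℝ) (M : ℝ), 1 ≤ B0 → 1 ≤ G0 → G0 ≤ K →
  4 * K ≤ lam → (∀ n, |f n| ≤ M) → (∀ n, (n < 1 ∨ (N : ℤ) < n) → f n = 0) →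
  VV Q H K A (fun n => ((f n : ℝ) : ℂ)) ≤
    ∑ q ∈ Icc 1 B0, red q (fun t => (1 / (q : ℝ)) * ∑ b ∈ range q, WW Q H K q b A (cA lam f t)) +
      ErC Q H K lam G0 B0 M (∑ n ∈ Icc (1 : ℤ) N, (f n) ^ 2)

end Pool.Agent.Lib.UI
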