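import Pool.Agent.Lib.EH3.LS1

/-!
MP_00e23e_nt, directory Lib/UI, part S (step 3 of theorem U1): the mean square over d ~ Q of
sum over |k| ≤ K of e(bk/q) FF(a + dk) for a function FF which is constant on cells of length lam ≥ K (log N)^A1
and has small sums over all intervals.

Method: y = log v on a circle of length 4, Parseval, Abel summation, and the bound ZStmt for the sums of
k^(it) (proved elsewhere, van der Corput).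

Every module proves ONE of the propositions ..Stmt below (file UI/Xxx.lean, imports this file, theorem tXxx).
What it may use is said in the docstring; it is then an argument of the theorem.
-/

namespace Pool.Agent.Lib.UI

open Finset Pool.Agent.Lib.EH3

instance factFour : Fact ((0 : ℝ) < 4) := ⟨by norm_num⟩

/-- the variation of G on the integers of [x, y) -/
noncomputable def tv (G : ℕ → ℂ) (x y : ℕ) : ℝ := ∑ n ∈ Ico x y, ‖G (n + 1) - G n‖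

/-- the function y -> G(floor(e^y)) cut at 4V -/
noncomputable def gy (G : ℕ → ℂ) (V : ℕ) (y : ℝ) : ℂ := if Real.exp y < 4 * V then G ⌊Real.exp y⌋₊ else 0

/-- the same function on the circle of length 4, with the fundamental interval [log V, log V + 4) -/
noncomputable def psi (G : ℕ → ℂ) (V : ℕ) : AddCircle (4 : ℝ) → ℂ := AddCircle.liftIco 4 (Real.log V) (gy G V)

/-- the weight of n in the m-th Fourier coefficient -/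
noncomputable def om (m : ℤ) (n : ℕ) : ℂ :=
  ∫ y in (Real.log n)..(Real.log ((n : ℝ) + 1)), ee (-((m : ℝ) * y / 4))

/-- **Par** (120 lines). Parseval inequality on the circle.
Proof. Put s(x) = sum_k c_k psi(x + l_k), bounded and measurable, so in L^2 (finite measure). By translation invariance of
the Haar measure (integral_add_right_eq_self) and fourier (-m) (x) = fourier (-m) (x + l) * fourier m (l):
fourierCoeff s m = Zm * fourierCoeff psi m, Zm = sum_k c_k fourier m (l_k) = sum_k c_k ee(m l_k/4) (fourier_coe_apply).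
Parseval (tsum_sq_fourierCoeff for the Lp classes, MemLp.toLp; fourierCoeff_congr_ae): int |s|^2 = sum_m |Zm|^2 |psihat(m)|^2
and sum_m |psihat(m)|^2 = int |psi|^2 ≤ M^2 (probability measure). Split the sum over m: m0 < |m| ≤ m1: at most
Z^2 sum |psihat|^2 ≤ Z^2 M^2; |m| ≤ m0: |Zm| ≤ card, at most 2 m0 + 1 ≤ 3 m0 terms, each at most card^2 w^2;
|m| > m1: card^2 W^2 sum_{|m| > m1} 1/m^2 ≤ card^2 2 W^2/m1 (telescoping 1/m^2 ≤ 1/(m-1) - 1/m).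
(It is convenient to bound the tsum termwise by the summable function Z^2 |psihat(m)|^2 + card^2 w^2 1[|m| ≤ m0]
+ card^2 W^2/m^2 1[|m| > m1].) -/
def ParStmt : Prop := ∀ (ψ : AddCircle (4 : ℝ) → ℂ) (ι : Finset ℕ) (c : ℕ → ℂ) (l : ℕ → ℝ) (M Z w W : ℝ)
    (m0 m1 : ℕ),
  Measurable ψ → (∀ x, ‖ψ x‖ ≤ M) → (∀ k ∈ ι, ‖c k‖ ≤ 1) → 0 ≤ Z → 1 ≤ m0 → 1 ≤ m1 →
  (∀ m : ℤ, (m0 : ℤ) < |m| → |m| ≤ (m1 : ℤ) → ‖∑ k ∈ ι, c k * ee ((m : ℝ) * l k / 4)‖ ≤ Z) →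
  (∀ m : ℤ, |m| ≤ (m0 : ℤ) → ‖fourierCoeff ψ m‖ ≤ w) →
  (∀ m : ℤ, m ≠ 0 → ‖fourierCoeff ψ m‖ ≤ W / |(m : ℝ)|) →
  ∫ x, ‖∑ k ∈ ι, c k * ψ (x + ((l k : ℝ) : AddCircle (4 : ℝ)))‖ ^ 2 ∂AddCircle.haarAddCircle ≤
    Z ^ 2 * M ^ 2 + (ι.card : ℝ) ^ 2 * (3 * m0 * w ^ 2 + 2 * W ^ 2 / m1)

/-- **Psi** (40 lines). psi is measurable and bounded.
Proof. gy is measurable (exp, floor, a function on ℕ); liftIco a f = f composed with the measurable section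
(AddCircle.measurableEquivIco or equivIco; liftIco is (Set.restrict .. f) ∘ equivIco), or: the preimage of a set under the
quotient map restricted to the interval. The bound is clear. -/
def PsiStmt : Prop := ∀ (G : ℕ → ℂ) (V : ℕ) (M : ℝ), 0 ≤ M → (∀ n, ‖G n‖ ≤ M) →
  Measurable (psi G V) ∧ ∀ x, ‖psi G V x‖ ≤ M

/-- **Cof** (100 lines). The Fourier coefficients of psi.
Proof. fourierCoeff_liftIco_eq, fourierCoeffOn_eq_integral: the coefficient is (1/4) int over [log V, log V + 4] of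
ee(-m y/4) gy(y). gy vanishes for y ≥ log(4V) = log V + log 4 ≤ log V + 4, and [log V, log(4V)] is the union of the
intervals [log n, log(n+1)], V ≤ n < 4V (intervalIntegral.sum_integral_adjacent_intervals_Ico), on the interior of which
floor(e^y) = n (e^y in [n, n+1)), so gy = G n there. (fourier (-m) (y) = exp(-2 pi i m y/4) = ee(-(m y/4)).) -/
def CofStmt : Prop := ∀ (G : ℕ → ℂ) (V : ℕ) (m : ℤ), 1 ≤ V →
  fourierCoeff (psi G V) m = (1 / 4 : ℂ) * ∑ n ∈ Ico V (4 * V), G n * om m n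

/-- **Hi** (60 lines). High frequencies, Abel summation with the variation of G.
Proof. For m <> 0, om m n = E(n+1) - E(n) with E(v) = ee(-(m log v/4)) / (-2 pi i m/4), |E| ≤ 4/(2 pi |m|) ≤ 1/|m|
(fundamental theorem of calculus for the smooth function y -> ee(-(m y/4))). Then sum_{n=V}^{W-1} G(n)(E(n+1) - E(n)) =
G(W) E(W) - G(V) E(V) - sum_{n=V}^{W-1} (G(n+1) - G(n)) E(n+1), W = 4V. -/
def HiStmt : Prop := ∀ (G : ℕ → ℂ) (V : ℕ) (M : ℝ) (m : ℤ), 1 ≤ V → (∀ n, ‖G n‖ ≤ M) → m ≠ 0 →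
  ‖∑ n ∈ Ico V (4 * V), G n * om m n‖ ≤ (2 * M + tv G V (4 * V)) / |(m : ℝ)|

/-- **Lo** (90 lines). Low frequencies, Abel summation with the interval sums of G.
Proof. For n ≥ 1: |om m n| ≤ log(n+1) - log n ≤ 1/n, and |om m (n+1) - om m n| ≤ (1 + pi |m|)/n^2: both integrals are
compared with the value ee(-(m log(n+1)/4)) times the lengths of the intervals, the phase varies by at most
(2 pi |m|/4)(1/n) on each, the lengths are at most 1/n and differ by at most 1/n - 1/(n+1) + .. ≤ 1/n^2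
(log(1+1/n) - log(1+1/(n+1)) = log((n+1)^2/(n(n+2))) = log(1 + 1/(n(n+2))) ≤ 1/n^2). With A(x) = sum_{V ≤ n < x} G(n),
|A| ≤ D, W = 4V: sum G(n) om(n) = A(W) om(W-1) - sum_{n=V}^{W-2} A(n+1)(om(n+1) - om(n)), at most
D (1/V + 3V (1 + 3.15 |m|)/V^2) ≤ 10 (1 + |m|) D/V. -/
def LoStmt : Prop := ∀ (G : ℕ → ℂ) (V : ℕ) (D : ℝ) (m : ℤ), 1 ≤ V →
  (∀ x, V ≤ x → x ≤ 4 * V → ‖∑ n ∈ Ico V x, G n‖ ≤ D) →
  ‖∑ n ∈ Ico V (4 * V), G n * om m n‖ ≤ 10 * (1 + |(m : ℝ)|) * D / V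

/-- **Chg** (100 lines). Change of variables u = e^x.
Proof. V = Q K1. For x in [log Q, log(2Q)) and k in (K1, 2 K1] put y = x + log k: V ≤ e^y = e^x k < 4V, so y is in
[log V, log V + 4) (log 4 < 4) and psi(y) = gy(y) = G(floor(e^x k)) (AddCircle.liftIco_coe_apply). The integral over u of
[Q, 2Q] is int over x in [log Q, log(2Q)] of |..|^2 e^x dx (MeasureTheory.integral_image_eq_integral_abs_deriv_smul with
exp on Ico; exp is injective), e^x ≤ 2Q, and int over [log Q, log(2Q)] ≤ int over [log Q, log Q + 4] =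
4 int over the circle (AddCircle.intervalIntegral_preimage for the volume; volume = 4 haarAddCircle,
AddCircle.volume_eq_smul_haarAddCircle). Total 8Q. -/
def ChgStmt : Prop := ∀ (G : ℕ → ℂ) (Q K1 : ℕ) (c : ℕ → ℂ) (M : ℝ), 1 ≤ Q → 1 ≤ K1 → (∀ n, ‖G n‖ ≤ M) →
  ∫ u in (Q : ℝ)..(2 * Q), ‖∑ k ∈ Ioc K1 (2 * K1), c k * G ⌊u * (k : ℝ)⌋₊‖ ^ 2 ≤
    8 * Q * ∫ x, ‖∑ k ∈ Ioc K1 (2 * K1), c k * psi G (Q * K1) (x + ((Real.log k : ℝ) : AddCircle (4 : ℝ)))‖ ^ 2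
      ∂AddCircle.haarAddCircle

/-- **Its** (100 lines). From the sum over d to the integral over u.
Proof. S(d) = sum_k c_k G(dk), S(u) = sum_k c_k G(floor(uk)). For d in (Q, 2Q] and u in [d-1, d): floor(uk) is in
[dk - k, dk), so |G(dk) - G(floor(uk))| ≤ v(d,k) := tv G (dk-k) (dk) ≤ 4M (hypothesis, k ≤ 2 K1, monotone), and
|S(d) - S(u)| ≤ sum_k v(d,k). So |S(d)|^2 ≤ 2 |S(u)|^2 + 2 (sum_k v(d,k))^2, integrate over u in [d-1, d] (bounded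
measurable integrand), and (sum_k v(d,k))^2 ≤ 4 M K1 sum_k v(d,k). Sum over d: the integrals add up to the integral over
[Q, 2Q]; sum_d v(d,k) = tv G (Qk) (2Qk) ≤ tv G (Q K1) (4 Q K1). Total 2 * 4 M K1 * K1 * tv. -/
def ItsStmt : Prop := ∀ (G : ℕ → ℂ) (Q K1 : ℕ) (c : ℕ → ℂ) (M : ℝ), 1 ≤ Q → 1 ≤ K1 → (∀ k, ‖c k‖ ≤ 1) →
  (∀ n, ‖G n‖ ≤ M) → (∀ n, tv G n (n + 2 * K1) ≤ 4 * M) →
  ∑ d ∈ Ioc Q (2 * Q), ‖∑ k ∈ Ioc K1 (2 * K1), c k * G (d * k)‖ ^ 2 ≤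
    2 * (∫ u in (Q : ℝ)..(2 * Q), ‖∑ k ∈ Ioc K1 (2 * K1), c k * G ⌊u * (k : ℝ)⌋₊‖ ^ 2) +
      8 * M * (K1 : ℝ) ^ 2 * tv G (Q * K1) (4 * (Q * K1))

/-- **Blk** (80 lines; uses ParStmt, PsiStmt, CofStmt, HiStmt, LoStmt, ChgStmt, ItsStmt). One dyadic block.
Proof. V = Q K1. Its, Chg, then Par with psi = psi G V, iota = Ioc K1 (2 K1) (card K1), l k = log k,
w = 5 m0 D/V ((1/4) 10 (1+m0) D/V ≤ 5 m0 D/V), W = (2M + tv G V (4V))/4. 2 * 8Q = 16Q, 3 m0 w^2 = 75 m0^3 D^2/V^2,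
2 W^2/m1 ≤ (2M + tv)^2/m1. (D ≥ 0 follows from the hypothesis with x = V.) -/
def BlkStmt : Prop := ∀ (G : ℕ → ℂ) (Q K1 : ℕ) (c : ℕ → ℂ) (M Z D : ℝ) (m0 m1 : ℕ), 1 ≤ Q → 1 ≤ K1 →
  (∀ k, ‖c k‖ ≤ 1) → 0 ≤ M → (∀ n, ‖G n‖ ≤ M) → 0 ≤ Z → 1 ≤ m0 → 1 ≤ m1 →
  (∀ n, tv G n (n + 2 * K1) ≤ 4 * M) →
  (∀ m : ℤ, (m0 : ℤ) < |m| → |m| ≤ (m1 : ℤ) →
    ‖∑ k ∈ Ioc K1 (2 * K1), c k * ee ((m : ℝ) * Real.log k / 4)‖ ≤ Z) →
  (∀ x, Q * K1 ≤ x → x ≤ 4 * (Q * K1) → ‖∑ n ∈ Ico (Q * K1) x, G n‖ ≤ D) →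
  ∑ d ∈ Ioc Q (2 * Q), ‖∑ k ∈ Ioc K1 (2 * K1), c k * G (d * k)‖ ^ 2 ≤
    16 * Q * (Z ^ 2 * M ^ 2 + (K1 : ℝ) ^ 2 * (75 * (m0 : ℝ) ^ 3 * D ^ 2 / ((Q : ℝ) * K1) ^ 2 +
      (2 * M + tv G (Q * K1) (4 * (Q * K1))) ^ 2 / m1)) +
      8 * M * (K1 : ℝ) ^ 2 * tv G (Q * K1) (4 * (Q * K1))

/-- **Var** (60 lines). The variation of a step function.
Proof. FF(n+1) <> FF(n) implies (n+1)/lam <> n/lam, that is lam | n+1, and then the norm of the difference is at most 2M.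
The number of n in [x, y) with lam | a + n + 1 (resp. lam | a - n) is at most (y-x)/lam + 1. -/
def VarStmt : Prop := ∀ (FF : ℤ → ℂ) (lam : ℕ) (M : ℝ) (a : ℤ) (x y : ℕ), 1 ≤ lam → 0 ≤ M → (∀ n, ‖FF n‖ ≤ M) →
  (∀ n n' : ℤ, n / (lam : ℤ) = n' / (lam : ℤ) → FF n = FF n') → x ≤ y →
  tv (fun n => FF (a + n)) x y ≤ 2 * M * (((y : ℝ) - x) / lam + 1) ∧
  tv (fun n => FF (a - n)) x y ≤ 2 * M * (((y : ℝ) - x) / lam + 1)

/-- **Zq** (40 lines). Twist by an additive character modulo q.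
Proof. ee(b k/q) depends only on k mod q: split the sum into the q residue classes r < q. -/
def ZqStmt : Prop := ∀ (q K1 K2 : ℕ) (b : ℤ) (t Z0 : ℝ), 1 ≤ q →
  (∀ r : ℕ, ‖∑ k ∈ (Ioc K1 K2).filter (fun k => k ≡ r [MOD q]), ee (t * Real.log k)‖ ≤ Z0) →
  ‖∑ k ∈ Ioc K1 K2, ee ((b : ℝ) * k / q) * ee (t * Real.log k)‖ ≤ q * Z0

/-- **Dya** (50 lines). Dyadic decomposition of a sum over k ≤ K.
Proof. Icc 1 K is the disjoint union of {k ≤ K0, k ≤ K} and of the sets {K0 2^j < k ≤ K0 2^(j+1), k ≤ K}, j < J; Cauchy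
inequality for the sum of J + 1 terms. -/
def DyaStmt : Prop := ∀ (x : ℕ → ℂ) (K K0 J : ℕ), K ≤ K0 * 2 ^ J →
  ‖∑ k ∈ Icc 1 K, x k‖ ^ 2 ≤ ((J : ℝ) + 1) * (‖∑ k ∈ (Icc 1 K0).filter (fun k => k ≤ K), x k‖ ^ 2 +
    ∑ j ∈ range J, ‖∑ k ∈ (Ioc (K0 * 2 ^ j) (2 * (K0 * 2 ^ j))).filter (fun k => k ≤ K), x k‖ ^ 2)

/-- The sums of k^(it) (INPUT, proved in part Z): van der Corput. -/
def ZStmt : Prop := ∀ ε B A : ℝ, 0 < ε → 0 < B → 0 < A → ∃ C A2 : ℝ, 0 ≤ C ∧ 0 < A2 ∧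
  ∀ (N K K2 q b : ℕ) (t : ℝ), 3 ≤ N → (N : ℝ) ^ ε ≤ K → K ≤ N → K ≤ K2 → K2 ≤ 2 * K → 1 ≤ q →
  (q : ℝ) ≤ (Real.log N) ^ B → (Real.log N) ^ A2 ≤ |t| → |t| ≤ (N : ℝ) ^ 2 →
  ‖∑ k ∈ (Ioc K K2).filter (fun k => k ≡ b [MOD q]), ee (t * Real.log k)‖ ≤ C * K * (Real.log N) ^ (-A)

/-- **Pos** (250 lines; uses ZStmt, ZqStmt, DyaStmt, BlkStmt). Positive k, all exponents.
Proof. L = log N (≥ 1). Constants: E = A + B + 2, A' = A + 2B + 2, (Cz, A2z) from ZStmt with (ε/2, B, A'),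
A1 = A + 2B + 2, A2 = 2 A2z + E + A + 2. If N < N0 (N0 to be chosen): the sum is at most Q (K M)^2 ≤ Q K^2 L^(2B) ≤
(log N0)^(2B+A) Q K^2 L^(-A). Let N ≥ N0, such that L^E ≤ N^(ε/2), L^A1 ≥ 2, 2^L ≥ L^E, N^(-ε) L^(2B) ≤ L^(-A-2).
K0 = floor(K/L^E) + 1, K/L^E ≤ K0 ≤ 2K/L^E; J = ceil(L) ≤ 2L, K ≤ K0 2^J. Dya with x k = c k G(dk), c k = ee(b k/q).
(1) k ≤ K0: norm at most K0 M ≤ 2 K L^(B-E), contribution to the sum over d: 4 Q K^2 L^(2B-2E).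
(2) block K1 = K0 2^j: if K1 ≥ K it is empty. If K1 < K use Blk with c' k = c k for k ≤ K, 0 for k > K;
K1 ≥ K/L^E ≥ N^(ε/2), K1 ≤ N; m0 = floor(4 L^A2z) + 1 ≤ 5 L^A2z, m1 = N^2; for m0 < |m| ≤ m1 and t = m/4:
L^A2z ≤ |t| ≤ N^2, so by Zq and ZStmt (K2 = min(2 K1, K)) the sum is at most Z = q Cz K1 L^(-A') ≤ Cz K L^(B-A').
tv on [V,4V], V = Q K1: at most 2M(3V/lam + 1) ≤ 2 L^B (3 Q L^(-A1) + 1) (lam ≥ K L^A1, K1 ≤ K), and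
tv G n (n + 2K1) ≤ 2M(2K1/lam + 1) ≤ 4M. D = N L^(-A2), D/V ≤ L^(E-A2) since V ≥ Q K/L^E ≥ N/L^E.
Blk gives at most 16 Q K^2 [Cz^2 L^(4B-2A') + 75*125 L^(3 A2z + 2E - 2 A2) + 100 L^(2B) N^(-2ε)] + 16 L^(2B) K^2 (3 Q L^(-A1) + 1)
((2M + tv)^2 ≤ (10 L^B Q)^2, Q ≤ N^(1-ε), m1 = N^2), and 1 ≤ Q N^(-ε).
(3) total: (J+1)(small + J block) ≤ 9 L^2 (small + block); every exponent of L is at most -A-2. -/
def PosStmt : Prop := ∀ ε B A : ℝ, 0 < ε → 0 < B → 0 < A → ∃ C A1 A2 : ℝ, 0 ≤ C ∧ 0 < A1 ∧ 0 < A2 ∧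
  ∀ (N Q K q lam : ℕ) (b : ℤ) (G : ℕ → ℂ) (M : ℝ), 3 ≤ N → (N : ℝ) ^ ε ≤ K → K ≤ N → (N : ℝ) ^ ε ≤ Q →
  (Q : ℝ) ≤ (N : ℝ) ^ (1 - ε) → N ≤ K * Q → 1 ≤ q → (q : ℝ) ≤ (Real.log N) ^ B → 0 ≤ M → M ≤ (Real.log N) ^ B →
  (K : ℝ) * (Real.log N) ^ A1 ≤ lam → (∀ n, ‖G n‖ ≤ M) →
  (∀ x y, x ≤ y → tv G x y ≤ 2 * M * (((y : ℝ) - x) / lam + 1)) →
  (∀ x y, ‖∑ n ∈ Ico x y, G n‖ ≤ N * (Real.log N) ^ (-A2)) →
  ∑ d ∈ Ioc Q (2 * Q), ‖∑ k ∈ Icc 1 K, ee ((b : ℝ) * k / q) * G (d * k)‖ ^ 2 ≤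
    C * Q * (K : ℝ) ^ 2 * (Real.log N) ^ (-A)

/-- **Stp** (100 lines; uses PosStmt, VarStmt). The result of part S.
Proof. Split Icc (-K) K into k = 0, k > 0 and k < 0 (k = -k'): the sum is FF(a) + S+ + S-, with G+ n = FF(a + n), b and
G- n = FF(a - n), -b. |..|^2 ≤ 3 (M^2 + |S+|^2 + |S-|^2). M^2 ≤ L^(2B) ≤ C K^2 L^(-A) as K ≥ N^ε. The hypotheses of Pos:
Var, and the interval sums of G+, G- are interval sums of FF. -/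
def StpStmt : Prop := ∀ ε B A : ℝ, 0 < ε → 0 < B → 0 < A → ∃ C A1 A2 : ℝ, 0 ≤ C ∧ 0 < A1 ∧ 0 < A2 ∧
  ∀ (N Q K q lam : ℕ) (a b : ℤ) (FF : ℤ → ℂ) (M : ℝ), 3 ≤ N → (N : ℝ) ^ ε ≤ K → K ≤ N → (N : ℝ) ^ ε ≤ Q →
  (Q : ℝ) ≤ (N : ℝ) ^ (1 - ε) → N ≤ K * Q → 1 ≤ q → (q : ℝ) ≤ (Real.log N) ^ B → 0 ≤ M → M ≤ (Real.log N) ^ B →
  (K : ℝ) * (Real.log N) ^ A1 ≤ lam → (∀ n, ‖FF n‖ ≤ M) →
  (∀ n n' : ℤ, n / (lam : ℤ) = n' / (lam : ℤ) → FF n = FF n') →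
  (∀ u v : ℤ, ‖∑ n ∈ Ico u v, FF n‖ ≤ N * (Real.log N) ^ (-A2)) →
  ∑ d ∈ Ioc Q (2 * Q), ‖∑ k ∈ Icc (-(K : ℤ)) K, ee ((b : ℝ) * k / q) * FF (a + d * k)‖ ^ 2 ≤
    C * Q * (K : ℝ) ^ 2 * (Real.log N) ^ (-A)

end Pool.Agent.Lib.UI
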