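import Pool.Agent.Lib.UI.SpecC
import Pool.Agent.Lib.UI.SpecS
import Pool.Agent.Lib.KF.SpecV

/-!
MP_00e23e_nt, directory Lib/UI (theorem U1: Elliott-Halberstam on average over short intervals of
residues; coordinator helper62), part F: parameters (Core), the Ramanujan model of the primes (modules M..), one
dyadic block (Blu), final theorem (Fiu). First lines of every module of this part:
`import Pool.Agent.Lib.UI.SpecF`, then `namespace Pool.Agent.Lib.UI`,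
`open Finset Pool.Agent.Lib.EH3 Pool.Agent.Results.MP_00e23e_nt`. Private lemmas start with the name of the module.
Final theorem of module Xyz: `theorem tXyz (h1 : AStmt) ... : XyzStmt`.
-/

namespace Pool.Agent.Lib.UI

open Finset Pool.Agent.Lib.EH3 Pool.Agent.Results.MP_00e23e_nt

/-- the increments of li -/
noncomputable def lci (n : ℤ) : ℝ := if 3 ≤ n then li (n : ℝ) - li ((n : ℝ) - 1) else 0

/-- the Ramanujan model of the von Mangoldt function -/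
noncomputable def wR (R : ℕ) (n : ℤ) : ℝ :=
  ∑ r ∈ Icc 1 R, (ArithmeticFunction.moebius r : ℝ) / (r.totient : ℝ) * Pool.Agent.Lib.KF.ram r n

/-- the primes minus their model, on [1, y] -/
noncomputable def fm (R : ℕ) (y : ℝ) (n : ℤ) : ℝ :=
  if 1 ≤ n ∧ n ≤ ⌊y⌋ then (if n.toNat.Prime then 1 else 0) - lci n * wR R n else 0

/-- Module Minc (theorem tMinc; the increments of li). Uses: nothing.
Proof. lci n = ∫_{n-1}^{n} dt/log t for n ≥ 3, 1/log t is decreasing and 0 ≤ 1/log t ≤ 1/log 2 ≤ 2 for t ≥ 2; telescoping, li 2 = 0. -/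
def MincStmt : Prop :=
  (∀ n : ℤ, 0 ≤ lci n ∧ lci n ≤ 2) ∧ (∀ n : ℤ, 3 ≤ n → lci (n + 1) ≤ lci n) ∧
  (∀ v : ℤ, 3 ≤ v → ∑ n ∈ Ico (1 : ℤ) v, lci n = li ((v : ℝ) - 1)) ∧
  (∀ y : ℝ, 2 ≤ y → 0 ≤ li y - li ((⌊y⌋ : ℤ) : ℝ) ∧ li y - li ((⌊y⌋ : ℤ) : ℝ) ≤ 2)

/-- Module Mws (theorem tMws; monotone weights and a geometric sum). Uses: Minc.
Proof. t = d b/r is not an integer: |t - round t| ≥ 1/r, so ‖ee t - 1‖ ≥ 4/r (EH3.norm_ee_sub_one for t - round t). The partial sums of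
z^j, z = ee t, over intervals of j have norm ≤ 2/‖z - 1‖ ≤ r/2. The weights j ↦ lci (a + d j) vanish for a + d j < 3 and decrease from
there on (Minc), values in [0, 2]: Abel summation gives ≤ 2 (r/2) = r. -/
def MwsStmt : Prop := ∀ (r d : ℕ) (a b u v : ℤ), 1 ≤ r → 1 ≤ d → ¬ (r : ℤ) ∣ d * b →
  ‖∑ j ∈ Ico u v, ((lci (a + d * j) : ℝ) : ℂ) * ee ((j : ℝ) * ((d : ℝ) * b / r))‖ ≤ r

/-- Module Mzs (theorem tMzs; the increments in a residue class). Uses: Minc.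
Proof. Let n_0 < n_1 < ... be the elements ≥ 3 of the class (n_0 ≤ 2 + d), m the last index with n_m ≤ ⌊y⌋. lci decreases: for j ≥ 1
lci n_j ≤ (1/d) ∑_{n_(j-1) < n ≤ n_j} lci n, and lci n_j ≥ (1/d) ∑_{n_j ≤ n < n_(j+1)} lci n. So the sum is ≤ 2 + li ⌊y⌋/d and
≥ (1/d) (li ⌊y⌋ - ∑_{3 ≤ n < n_0} lci n) ≥ li ⌊y⌋/d - 2 (if n_0 > ⌊y⌋ the same bound holds: li ⌊y⌋ ≤ 2 d). li y - li ⌊y⌋ ≤ 2 (Minc). -/
def MzsStmt : Prop := ∀ (d : ℕ) (a : ℤ) (y : ℝ), 1 ≤ d → 2 ≤ y →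
  |(∑ n ∈ (Icc (1 : ℤ) ⌊y⌋).filter (fun n => (d : ℤ) ∣ n - a), lci n) - li y / d| ≤ 6

/-- Module Mcs (theorem tMcs; Ramanujan sums in a residue class). Uses: Mws, Mzs, KF.RmxStmt.
Proof. ram r n = ∑_{b < r, coprime} ee(n (b/r)) (Rmx), so |ram r n| ≤ φ(r). If r | d: ram r n = ram r a for all n ≡ a mod d, and Mzs: error
≤ 6 φ(r). If r does not divide d: for b coprime to r, r does not divide d b; n = a + d j, j in an interval, ee(n (b/r)) =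
ee(a (b/r)) ee(j (d b/r)): Mws gives ≤ r for every b, total ≤ r φ(r). -/
def McsStmt : Prop := ∀ (r d : ℕ) (a : ℤ) (y : ℝ), 1 ≤ r → 1 ≤ d → 2 ≤ y →
  |(∑ n ∈ (Icc (1 : ℤ) ⌊y⌋).filter (fun n => (d : ℤ) ∣ n - a), lci n * Pool.Agent.Lib.KF.ram r n) -
    (if r ∣ d then Pool.Agent.Lib.KF.ram r a * (li y / d) else 0)| ≤ 6 * (r : ℝ) * r.totient

/-- Module Mma (theorem tMma; the model in a residue class). Uses: Mcs.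
Proof. Sum Mcs over r ≤ R with the factor μ(r)/φ(r): error ≤ ∑_{r ≤ R} 6 r ≤ 6 R². For r | d, gcd(a, d) = 1: ram r a = μ(r) (in the
definition only e = 1 divides r and a). -/
def MmaStmt : Prop := ∀ (R d : ℕ) (a : ℤ) (y : ℝ), 1 ≤ d → 2 ≤ y → Int.gcd a d = 1 →
  |(∑ n ∈ (Icc (1 : ℤ) ⌊y⌋).filter (fun n => (d : ℤ) ∣ n - a), lci n * wR R n) -
    li y * ((1 / (d : ℝ)) * ∑ r ∈ d.divisors.filter (fun r => r ≤ R),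
      ((ArithmeticFunction.moebius r : ℝ)) ^ 2 / (r.totient : ℝ))| ≤ 6 * (R : ℝ) ^ 2

/-- Module Mta (theorem tMta; the tail of the singular series on average). Uses: KF.LphStmt. (Compare the second part of the proof
of KF.TtaStmt, file Lib/KF/Tta.lean.)
Proof. By Lph (2) the difference is -(1/d) ∑_{r | d, r > R} μ(r)²/φ(r), and ∑_{d ∈ (Q,2Q]} (1/d) ∑_{r | d, r > R} 1/φ(r) ≤
∑_{R < r ≤ 2Q} (1/φ(r)) (2Q/r)(1/Q) ≤ ∑_{r > R} 4 r^(-3/2) ≤ 8/√R. -/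
def MtaStmt : Prop := ∀ (Q R : ℕ), 1 ≤ Q → 1 ≤ R →
  ∑ d ∈ Ioc Q (2 * Q), |(1 / (d : ℝ)) * (∑ r ∈ d.divisors.filter (fun r => r ≤ R),
    ((ArithmeticFunction.moebius r : ℝ)) ^ 2 / (r.totient : ℝ)) - 1 / (d.totient : ℝ)| ≤ 8 / Real.sqrt R

/-- Module Msq (theorem tMsq; mean square of the model). Uses: KF.RmxStmt, KF.FlsStmt.
Proof. The term r = 1 is 1. Cover (1, R] by the blocks (2^i, 2^(i+1)], i < I, 2^(I-1) < R ≤ 2^I, z r h = μ(r)/φ(r) for r ≤ R, 0 for r > R (Rmx);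
Fls with range (N+1): each block ≤ 80 (N + 1 + R²) ∑_{r in block, r ≤ R} 1/φ(r) and 1/φ(r) ≤ (1 + 2 log r)/r (EH.le_totient,
EH.card_primeFactors_le), so the sum over a block is ≤ 1 + 2 log(2R). Cauchy-Schwarz for I + 1 terms, I ≤ 1 + 2 log R; N + 1 + R² ≤ 3N. -/
def MsqStmt : Prop := ∀ (N R : ℕ), 1 ≤ R → R ^ 2 ≤ N →
  ∑ n ∈ Icc (1 : ℤ) N, (wR R n) ^ 2 ≤ 5000 * N * (1 + Real.log (2 * R)) ^ 3

/-- Module Mpr (theorem tMpr; exponential sum over primes at a rational point). Uses: KF.RmxStmt.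
Proof. Y = v - 1 ≥ 2. Group the primes p ≤ Y by their class c mod q. gcd(c, q) = 1: the number is li Y/φ(q) + err Y q c (c in 1..q),
|err| ≤ maxErr Y q ≤ T (EH.le_maxErr). gcd(c, q) > 1: p | q, at most q such primes altogether. ∑_{c coprime} ee(c h/q) = ram q h = μ(q) for
gcd(h, q) = 1 (Rmx and the definition of ram). Error ≤ φ(q) T + q. -/
def MprStmt : Prop := ∀ (q h : ℕ) (T : ℝ) (v : ℤ), 1 ≤ q → h.Coprime q → 3 ≤ v →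
  maxErr ((v : ℝ) - 1) q ≤ T →
  ‖(∑ n ∈ (Ico (1 : ℤ) v).filter (fun n => n.toNat.Prime), ee ((n : ℝ) * ((h : ℝ) / q))) -
    (((ArithmeticFunction.moebius q : ℝ) / (q.totient : ℝ) * li ((v : ℝ) - 1) : ℝ) : ℂ)‖ ≤ q * (T + 1)

/-- Module Mmo (theorem tMmo; exponential sum over the model at a rational point). Uses: Minc, Mws, KF.RmxStmt.
Proof. By Rmx the sum is ∑_{r ≤ R} (μ(r)/φ(r)) ∑_{b < r, coprime} ∑_n lci n ee(n (b/r + h/q)). b/r + h/q = (b q + h r)/(r q) is an integer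
only if q | h r and r | b q, i.e. q | r and r | q, r = q, and b ≡ -h mod q: exactly one b, and then the sum over n is li (v - 1) (Minc). All
other terms are ≤ r q (Mws with r q in place of r, d = 1, a = 0, b q + h r in place of b). Error ≤ ∑_{r ≤ R} (1/φ(r)) φ(r) r q ≤ R² q. -/
def MmoStmt : Prop := ∀ (R q h : ℕ) (v : ℤ), 1 ≤ q → q ≤ R → h.Coprime q → 3 ≤ v →
  ‖(∑ n ∈ Ico (1 : ℤ) v, ((lci n * wR R n : ℝ) : ℂ) * ee ((n : ℝ) * ((h : ℝ) / q))) -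
    (((ArithmeticFunction.moebius q : ℝ) / (q.totient : ℝ) * li ((v : ℝ) - 1) : ℝ) : ℂ)‖ ≤ (R : ℝ) ^ 2 * q

/-- Module Mcl (theorem tMcl; interval sums of f with a character). Uses: Mpr, Mmo.
Proof. The sum over Ico u v is the difference of the sums over Ico 1 v' and Ico 1 u' (u', v' = the cuts to [1, ⌊y⌋ + 1]). For v' ≥ 3 subtract
Mmo from Mpr (Y = v' - 1 ∈ [2, y]): ≤ q (T + 1) + R² q. For v' ≤ 2 the sum has at most one term, of norm ≤ 1 (lci = 0 there). -/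
def MclStmt : Prop := ∀ (R q h : ℕ) (y T : ℝ), 1 ≤ q → q ≤ R → h.Coprime q → 2 ≤ y → 0 ≤ T →
  (∀ Y : ℝ, 2 ≤ Y → Y ≤ y → maxErr Y q ≤ T) →
  ∀ u v : ℤ, ‖∑ n ∈ Ico u v, ((fm R y n : ℝ) : ℂ) * ee ((n : ℝ) * ((h : ℝ) / q))‖ ≤
    2 * (q * (T + 1) + (R : ℝ) ^ 2 * q + 1)

/-- Module Msu (theorem tMsu; sizes of f). Uses: Minc, Msq, KF.RmxStmt.
Proof. |ram r n| ≤ φ(r) (Rmx), so |wR| ≤ R, |fm| ≤ 1 + 2R ≤ 3R. fm² ≤ 2 + 8 wR² and Msq; 2 + 8·5000 Λ³ ≤ 50000 Λ³. The support is clear. -/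
def MsuStmt : Prop :=
  (∀ (R : ℕ) (y : ℝ) (n : ℤ), 1 ≤ R → |fm R y n| ≤ 3 * R) ∧
  (∀ (N R : ℕ) (y : ℝ), 1 ≤ R → R ^ 2 ≤ N →
    ∑ n ∈ Icc (1 : ℤ) N, (fm R y n) ^ 2 ≤ 50000 * N * (1 + Real.log (2 * R)) ^ 3) ∧
  (∀ (N R : ℕ) (y : ℝ) (n : ℤ), y < (N : ℝ) + 1 → (n < 1 ∨ (N : ℤ) < n) → fm R y n = 0)

/-- Module Core (theorem tCore; choice of the parameters). Uses: CfiStmt (tCfiAll), StpStmt (tStpOf tZZ).
Proof. L = log N, N large. β = A + c + 2, B0 = ⌈L^β⌉₊ ≤ 2 L^β, γ = 2β + 2B + A + 1, G0 = ⌊K L^(-γ)⌋₊ (≥ K L^(-γ)/2 ≥ 1, ≤ K), (C, A1, A2') from Stp with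
(ε, B + β + 1, A + 2β + 1), δ = γ + 2β + 2B + A + A2' + 2, lam = ⌊H L^(-δ)⌋₊ (≥ H L^(-δ)/2), E = δ + A1 + 2β + 2B + A + c + 4, A2 = A2' + 1.
(1) Low part: for q ≤ B0 and reduced h/q, FF = cA lam f (h/q) is constant on the cells, |FF| ≤ M (Cpc), and its sum over Ico u v differs from the sum of
f(n) ee(n h/q) by at most 4 lam M (two cut cells; over a whole cell both sums are equal), so it is ≤ N L^(-A2) + 4 lam M ≤ N L^(-A2')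
(lam M ≤ 3N L^(B-δ)). Stp for every a ∈ [A0, A0 + H) and b < q: WW ≤ H C Q K² L^(-A-2β-1), the number of (q, h) is ≤ B0² ≤ 4 L^(2β), total ≤
4 C H Q K² L^(-A-1).
(2) ErC/(H Q K²) (M, S as in Cfi): 12 (1 + B0²) M² G0/K ≤ 60 L^(2β+2B-γ); 9 (1 + B0²) M² (4 lam/(G0 Q) + 2/Q + 6 K lam/(G0 H) + 2/H), lam/(G0 Q) ≤ 2·3N L^(γ-δ)/(K Q) ≤
6 L^(γ-δ), K lam/(G0 H) ≤ 2 L^(γ-δ), Q ≥ N^ε, H ≥ K ≥ N^ε; 36 B0² K M²/lam ≤ 300 L^(2β+2B+δ-E); 32 (1/(Q K lam)) (1 + log K) (40 lam/B0 + 320 K) S with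
S ≤ N L^c ≤ K Q L^c: ≤ 64 L^(1+c) (40 L^(-β) + 640 L^(δ-E)). Every exponent of L is ≤ -A-1; N large. -/
def CoreStmt : Prop := ∀ ε A c B : ℝ, 0 < ε → 0 < A → 0 ≤ c → 0 ≤ B → ∃ (E A2 : ℝ) (N0 : ℕ), 0 < E ∧ 0 < A2 ∧ 3 ≤ N0 ∧
  ∀ (N Q K H : ℕ) (A0 : ℤ) (f : ℤ → ℝ) (M : ℝ), N0 ≤ N → (N : ℝ) ^ ε ≤ K → K ≤ N → (N : ℝ) ^ ε ≤ Q →
  (Q : ℝ) ≤ (N : ℝ) ^ (1 - ε) → N ≤ K * Q → K * Q ≤ 4 * N → (K : ℝ) * (Real.log N) ^ E ≤ H → H ≤ 3 * N →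
  0 ≤ M → M ≤ (Real.log N) ^ B → (∀ n, |f n| ≤ M) → (∀ n, (n < 1 ∨ (N : ℤ) < n) → f n = 0) →
  ∑ n ∈ Icc (1 : ℤ) N, (f n) ^ 2 ≤ N * (Real.log N) ^ c →
  (∀ q h : ℕ, 1 ≤ q → (q : ℝ) ≤ 2 * (Real.log N) ^ (A + c + 2) → h.Coprime q → ∀ u v : ℤ,
    ‖∑ n ∈ Ico u v, ((f n : ℝ) : ℂ) * ee ((n : ℝ) * ((h : ℝ) / q))‖ ≤ N * (Real.log N) ^ (-A2)) →
  VV Q H K A0 (fun n => ((f n : ℝ) : ℂ)) ≤ H * Q * (K : ℝ) ^ 2 * (Real.log N) ^ (-A)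

/-- Module Blu (theorem tBlu; one dyadic block and one y). Uses: Core, Mma, Mta, Mcl, Msu, KF.BvyStmt.
Proof. L = log x, x large, N = ⌊x⌋₊, K = 2N/Q + 1 (Nat division; 2N ≤ K Q ≤ 3N), a ∈ [A0, A0 + H) ⟹ |a| ≤ N, H ≤ 2N + 1 ≤ 3N. Core with (ε/2, 2A + 4, c = 1, B):
A' = 2A + 4, β = A' + 3, R = ⌈2 L^β⌉₊, B = β + 1 (3R ≤ (log N)^B). (E', A2, N0) from Core; E = E' + 1. For d ∈ (Q, 2Q], gcd(a,d) = 1: the n ∈ [1, ⌊y⌋] with n ≡ a mod d are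
the n = a + d k with |k| ≤ K, so resCount y d a = ∑_{|k| ≤ K} fm R y (a + d k) + ∑_{n ≡ a} lci n wR R n, and by Mma
|resErr y d a| ≤ |∑_{|k| ≤ K} fm R y (a + d k)| + 6 R² + |li y| |(1/d) ∑_{r | d, r ≤ R} μ²/φ - 1/φ(d)|. Sum over a and d: first part ≤ (Q H)^(1/2) VV^(1/2) ≤ H Q K L^(-A-2)·2
(Cauchy-Schwarz, Core; log N ≥ L/2), Q K ≤ 3N; second ≤ 6 R² H Q ≤ 6 R² H x^(1-ε); third ≤ H 2x 8/√R (Mta, |li y| ≤ 2x), √R ≥ L^(A+2).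
Hypotheses of Core: Msu (∑ fm² ≤ 50000 N (1 + log 2R)³ ≤ N log N for large N), Mcl with T = C x/L^(β + A2 + 3) from Bvy (κ = 1/4, one modulus q ≤ R ≤ x^(1/4), Y ≤ y ≤ x:
maxErr Y q ≤ the sum). -/
def BluStmt : Prop := ∀ ε A : ℝ, 0 < ε → ε ≤ 1 / 10 → 0 < A → ∃ E x0 : ℝ, 0 < E ∧ 3 ≤ x0 ∧
  ∀ (x y : ℝ) (Q H : ℕ) (A0 : ℤ), x0 ≤ x → 2 ≤ y → y ≤ x → x ^ ε ≤ Q → (Q : ℝ) ≤ x ^ (1 - ε) → -x ≤ A0 →
  (A0 : ℝ) + H ≤ x + 1 → (x / Q) * (Real.log x) ^ E ≤ H →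
  ∑ d ∈ Ioc Q (2 * Q), ∑ a ∈ (Ico A0 (A0 + H)).filter (fun a => Int.gcd a d = 1), |resErr y d a| ≤
    H * x / (Real.log x) ^ A

/-- Module Trb (theorem tTrb; trivial bound). Uses: nothing.
Proof. resCount (y d) d a ≤ the number of n ≤ x in a class mod d ≤ x/d + 1 ≤ 2x/d (d ≤ x), 0 ≤ li (y d) ≤ 2x (EH.li_le), 1/φ(d) ≤ (1 + 2 log x)/d (EH.le_totient,
EH.card_primeFactors_le), ∑_{d ≤ x} 1/d ≤ 1 + log x, log x ≥ 1. -/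
def TrbStmt : Prop := ∀ (x : ℝ) (a : ℤ) (y : ℕ → ℝ), 3 ≤ x → (∀ d, 2 ≤ y d ∧ y d ≤ x) →
  ∑ d ∈ Icc 1 ⌊x⌋₊, |resErr (y d) d a| ≤ 20 * x * (Real.log x) ^ 2

/-- Module Fiu (theorem tFiu; THE FINAL THEOREM U1). Uses: KF.WfbStmt, KF.GrdStmt, Blu, Trb.
Proof. ε ≤ 1/10 w.l.o.g. (x^(1-ε) increases when ε decreases), L = log x. For x < x2 (constant) Trb gives ≤ H 20 x2 L² ≤ C H x/L^U. Let x be large.
H ≥ L^C (x/D ≥ x^ε ≥ 1). From Wfb (ε, U, B = 1; J = range (2N+1), N = ⌊x⌋₊, A_j = {j - N}; card 1 ≤ x^(-ε/3) min(x^(1/4), (x/Q)^(1/2))): C1, κ = 5U + 18. C' = κ + U + 3,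
Q1 = (x H/(2 L^C'))^(1/2) ≥ √x, so (1 + Q1²/x) L^C' ≤ H.
(A) d ≤ min(Q, Q1): Wfb with Q replaced by min(Q, Q1), functions y(d) = y d a and the constant function a(d) = a: each of the at most H good a contributes ≤ C1 x/L^U, the
at most C1 (1 + Q1²/x) L^κ bad ones contribute ≤ 20 x L² each (Trb): total ≤ C1 H x/L^U + 20 C1 H x L^(κ+2-C').
(B) d > Q1, d ≥ D, d ≤ Q (only if Q > Q1): D' = max(D, Q1), P = ⌈D'⌉₊ - 1 ≥ D'/2, d ∈ (P, Q] is covered by the blocks (2^i P, 2^(i+1) P], 2^i P < Q, at most 2L of them.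
G = ⌈L^(U+3)⌉₊, y_g = g x/G. By Grd |resErr (y d a) d a| ≤ ∑_{g ≤ G} |resErr y_g d a| + 2x/(G φ(d)). Blu (exponent 2U + 6) for each block and each g:
total ≤ G 2L H x/L^(2U+6) + H (2x/G) ∑_{d ≤ x} 1/φ(d) (≤ 6 L²) ≤ C H x/L^U. The condition (x/(2^i P)) L^E ≤ H of Blu follows from (2x/D') L^E ≤ H:
 - if x/D is the smallest of the three: H ≥ L^C x/D ≥ L^C x/D';
 - if x^(1/3) is the smallest: H³ ≥ L^(3C) x, and D' ≥ Q1 gives ((2x/D') L^E)² ≤ 4 x² L^(2E)·2L^C'/(x H) ≤ H² since H³ ≥ 8 x L^(2E+C');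
 - if 1 + Q²/x is the smallest: H ≥ L^C (1 + Q²/x) gives Q1² ≥ Q² and there is no d > Q1.
(x^ε ≤ 2^i P since P ≥ √x/2.) -/
def FiuStmt : Prop := ∀ ε U : ℝ, 0 < ε → 0 < U → ∃ C : ℝ, ∀ (x D Q : ℝ) (A : ℤ) (H : ℕ) (y : ℕ → ℤ → ℝ),
  3 ≤ x → 1 ≤ D → D ≤ Q → Q ≤ x ^ (1 - ε) → -x ≤ A → (A : ℝ) + H ≤ x + 1 →
  (Real.log x) ^ C * min (x / D) (min (x ^ ((1 : ℝ) / 3)) (1 + Q ^ 2 / x)) ≤ H →
  (∀ d a, 2 ≤ y d a ∧ y d a ≤ x) →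
  ∑ a ∈ Ico A (A + H), ∑ d ∈ (Icc ⌈D⌉₊ ⌊Q⌋₊).filter (fun d : ℕ => Int.gcd a d = 1), |resErr (y d a) d a| ≤
    C * (H * x / (Real.log x) ^ U)

end Pool.Agent.Lib.UI
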