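import Pool.Agent.Lib.UI.SpecZ

/-!
MP_00e23e_nt, Lib/UI, part Z: the test for `r = 2`.
-/

set_option autoImplicit false

namespace Pool.Agent.Lib.UI

open Finset Pool.Agent.Lib.EH3

theorem tZa (hSZb : SZb) : SZa := by
  intro α β hα hβ hβ1
  refine ⟨5 * α + 11, min (β / 2) (1 / 4), by linarith, lt_min (by linarith) (by norm_num), ?_⟩
  intro x a b M lam hM hab hM2 hlow hup hd
  have hM0 : 0 < M := by linarith
  have hlam : 0 < lam := lt_of_lt_of_le (Real.rpow_pos_of_pos hM0 _) hlow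
  have h1 := hSZb x a b lam α M hlam hα hM hab hM2 hd
  refine h1.trans ?_
  set δ := min (β / 2) (1 / 4) with hδ
  have hδ1 : δ ≤ β / 2 := min_le_left _ _
  have hδ2 : δ ≤ 1 / 4 := min_le_right _ _
  have hs : 0 < √lam := Real.sqrt_pos.mpr hlam
  have h2 : √lam ≤ M ^ (-(β / 2)) := by
    have h3 : √lam ≤ √(M ^ (-β)) := Real.sqrt_le_sqrt hup
    have h4 : √(M ^ (-β)) = M ^ (-(β / 2)) := by
      rw [Real.sqrt_eq_rpow, ← Real.rpow_mul hM0.le]
      congr 1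
      ring
    rwa [h4] at h3
  have h5 : M * √lam ≤ M ^ (1 - δ) := by
    calc M * √lam ≤ M * M ^ (-(β / 2)) := mul_le_mul_of_nonneg_left h2 hM0.le
      _ = M ^ (1 - β / 2) := by
        rw [sub_eq_add_neg, Real.rpow_add hM0, Real.rpow_one]
      _ ≤ M ^ (1 - δ) := Real.rpow_le_rpow_of_exponent_le hM (by linarith)
  have h6 : 1 / √lam ≤ M ^ (1 - δ) := by
    have h3 : √(M ^ (-(3 / 2) : ℝ)) ≤ √lam := Real.sqrt_le_sqrt hlow
    have h4 : √(M ^ (-(3 / 2) : ℝ)) = M ^ (-(3 / 4) : ℝ) := by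
      rw [Real.sqrt_eq_rpow, ← Real.rpow_mul hM0.le]
      congr 1
      norm_num
    rw [h4] at h3
    have h7 : 0 < M ^ (-(3 / 4) : ℝ) := Real.rpow_pos_of_pos hM0 _
    calc 1 / √lam ≤ 1 / M ^ (-(3 / 4) : ℝ) := one_div_le_one_div_of_le h7 h3
      _ = M ^ (3 / 4 : ℝ) := by
        rw [Real.rpow_neg hM0.le, one_div, inv_inv]
      _ ≤ M ^ (1 - δ) := Real.rpow_le_rpow_of_exponent_le hM (by linarith)
  have h8 : (11 : ℝ) / √lam = 11 * (1 / √lam) := by ring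
  have h9 : 5 * α * M * √lam = 5 * α * (M * √lam) := by ring
  rw [h8, h9, add_mul]
  have h10 : 5 * α * (M * √lam) ≤ 5 * α * M ^ (1 - δ) :=
    mul_le_mul_of_nonneg_left h5 (by linarith)
  linarith

end Pool.Agent.Lib.UI
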